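import Pool.Agent.Helper23.ED.Defs

/-!
# Project ED: operators intertwining R intertwine the functional calculus
-/

open scoped InnerProductSpace Topology ENNReal BoundedContinuousFunction
open ContinuousLinearMap Filter MeasureTheory

namespace Pool.Agent.Helper23.ED

open Pool.Agent.Helper23 Pool.Agent.Helper23.RBF
open Pool.Agent.Helper78.BC.Transport (Sub r)

universe u

variable {H : Type*} [NormedAddCommGroup H] [InnerProductSpace ℂ H] [CompleteSpace H]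
variable {K : Type*} [NormedAddCommGroup K] [InnerProductSpace ℂ K] [CompleteSpace K]

namespace FcB

open Pool.Agent.Helper43.TTF (ct ctB ct_zero ct_one ct_cont ctB_apply ctB_norm)

/-- the functions whose operators are intertwined by `Y` -/
def A (Ψ₁ : (ℝ →ᵇ ℂ) →⋆ₐ[ℂ] (H →L[ℂ] H)) (Ψ₂ : (ℝ →ᵇ ℂ) →⋆ₐ[ℂ] (K →L[ℂ] K)) (Y : H →L[ℂ] K) :
    Set (ℝ →ᵇ ℂ) :=
  {G | ∀ v, Y (Ψ₁ G v) = Ψ₂ G (Y v)}

variable {R₁ : H →L[ℂ] H} {Ψ₁ : (ℝ →ᵇ ℂ) →⋆ₐ[ℂ] (H →L[ℂ] H)}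
  {R₂ : K →L[ℂ] K} {Ψ₂ : (ℝ →ᵇ ℂ) →⋆ₐ[ℂ] (K →L[ℂ] K)} {Y : H →L[ℂ] K}

lemma A_add {G G' : ℝ →ᵇ ℂ} (h : G ∈ A Ψ₁ Ψ₂ Y) (h' : G' ∈ A Ψ₁ Ψ₂ Y) : G + G' ∈ A Ψ₁ Ψ₂ Y := by
  intro v
  rw [map_add, map_add, ContinuousLinearMap.add_apply, ContinuousLinearMap.add_apply, map_add,
    h v, h' v]

lemma A_smul {G : ℝ →ᵇ ℂ} (c : ℂ) (h : G ∈ A Ψ₁ Ψ₂ Y) : c • G ∈ A Ψ₁ Ψ₂ Y := by
  intro v
  rw [map_smul, map_smul, ContinuousLinearMap.smul_apply, ContinuousLinearMap.smul_apply,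
    map_smul, h v]

lemma A_mul {G G' : ℝ →ᵇ ℂ} (h : G ∈ A Ψ₁ Ψ₂ Y) (h' : G' ∈ A Ψ₁ Ψ₂ Y) : G * G' ∈ A Ψ₁ Ψ₂ Y := by
  intro v
  rw [psi_mul_apply, psi_mul_apply, h, h' v]

lemma A_one : (1 : ℝ →ᵇ ℂ) ∈ A Ψ₁ Ψ₂ Y := by
  intro v
  rw [map_one, map_one]
  rfl

lemma A_closed {G : ℝ →ᵇ ℂ} (h : ∀ ε > 0, ∃ P ∈ A Ψ₁ Ψ₂ Y, ‖G - P‖ ≤ ε) : G ∈ A Ψ₁ Ψ₂ Y := by
  intro v
  rw [← sub_eq_zero, ← norm_le_zero_iff]
  refine le_of_forall_pos_le_add fun δ hδ => ?_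
  set M : ℝ := ‖Y‖ * ‖v‖ + ‖Y v‖ + 1 with hM
  have hM0 : 0 < M := by positivity
  obtain ⟨P, hP, hGP⟩ := h (δ / M) (by positivity)
  have e1 : Y (Ψ₁ G v) - Ψ₂ G (Y v) = Y (Ψ₁ (G - P) v) - Ψ₂ (G - P) (Y v) := by
    rw [map_sub, map_sub, ContinuousLinearMap.sub_apply, ContinuousLinearMap.sub_apply, map_sub,
      hP v]
    abel
  have e2 : ‖Ψ₁ (G - P) v‖ ≤ δ / M * ‖v‖ :=
    (Ψ₁ (G - P)).le_of_opNorm_le ((psi_norm_le Ψ₁ _).trans hGP) v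
  have e3 : ‖Ψ₂ (G - P) (Y v)‖ ≤ δ / M * ‖Y v‖ :=
    (Ψ₂ (G - P)).le_of_opNorm_le ((psi_norm_le Ψ₂ _).trans hGP) (Y v)
  rw [e1, zero_add]
  calc ‖Y (Ψ₁ (G - P) v) - Ψ₂ (G - P) (Y v)‖
      ≤ ‖Y (Ψ₁ (G - P) v)‖ + ‖Ψ₂ (G - P) (Y v)‖ := norm_sub_le _ _
    _ ≤ ‖Y‖ * (δ / M * ‖v‖) + δ / M * ‖Y v‖ := by
        gcongr
        exact (Y.le_opNorm _).trans (by gcongr)
    _ = δ / M * (‖Y‖ * ‖v‖ + ‖Y v‖) := by ring
    _ ≤ δ / M * M := by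
        have : ‖Y‖ * ‖v‖ + ‖Y v‖ ≤ M := by rw [hM]; linarith
        gcongr
    _ = δ := by field_simp

lemma A_poly (h : FR ∈ A Ψ₁ Ψ₂ Y) (q : Polynomial ℂ) : Polynomial.aeval FR q ∈ A Ψ₁ Ψ₂ Y := by
  induction q using Polynomial.induction_on' with
  | add p q hp hq => rw [map_add]; exact A_add hp hq
  | monomial n a =>
    rw [Polynomial.aeval_monomial, ← Algebra.smul_def]
    refine A_smul a ?_
    induction n with
    | zero => rw [pow_zero]; exact A_one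
    | succ n ih => rw [pow_succ]; exact A_mul ih h

lemma aeval_FR (q : Polynomial ℂ) (ρ : ℝ) :
    (Polynomial.aeval FR q : ℝ →ᵇ ℂ) ρ = q.eval (FR ρ) := by
  induction q using Polynomial.induction_on' with
  | add p q hp hq => rw [map_add, BoundedContinuousFunction.add_apply, hp, hq, Polynomial.eval_add]
  | monomial n a =>
    rw [Polynomial.aeval_monomial, ← Algebra.smul_def, Polynomial.eval_monomial,
      BoundedContinuousFunction.smul_apply, BoundedContinuousFunction.pow_apply, smul_eq_mul]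

/-- the real function `2 / (1 + e^ρ)` -/
noncomputable def w (ρ : ℝ) : ℝ := 2 / (1 + Real.exp ρ)

lemma FR_w (ρ : ℝ) : FR ρ = ((w ρ : ℝ) : ℂ) := rfl

lemma w_pos (ρ : ℝ) : 0 < w ρ := by
  unfold w
  have := Real.exp_pos ρ
  positivity

lemma w_lt (ρ : ℝ) : w ρ < 2 := by
  unfold w
  have := Real.exp_pos ρ
  rw [div_lt_iff₀ (by positivity)]
  linarith

lemma w_anti : Antitone w := by
  intro a b h
  unfold w
  have := Real.exp_pos a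
  have := Real.exp_le_exp.2 h
  gcongr

lemma log_w (ρ : ℝ) : Real.log ((2 - w ρ) / w ρ) = ρ := by
  have h : (2 - w ρ) / w ρ = Real.exp ρ := by
    have h0 := Real.exp_pos ρ
    have h1 : (1 + Real.exp ρ) ≠ 0 := by positivity
    unfold w
    field_simp
    ring
  rw [h, Real.log_exp]

lemma A_real (h : FR ∈ A Ψ₁ Ψ₂ Y) {f : ℝ → ℝ} (hf : ContinuousOn f (Set.Icc 0 2)) {G : ℝ →ᵇ ℂ}
    (hG : ∀ ρ, G ρ = ((f (w ρ) : ℝ) : ℂ)) : G ∈ A Ψ₁ Ψ₂ Y := by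
  refine A_closed fun ε hε => ?_
  obtain ⟨p, hp⟩ := exists_polynomial_near_of_continuousOn 0 2 f hf ε hε
  refine ⟨Polynomial.aeval FR (p.map (algebraMap ℝ ℂ)), A_poly h _, ?_⟩
  refine (BoundedContinuousFunction.norm_le hε.le).2 fun ρ => ?_
  rw [BoundedContinuousFunction.sub_apply, aeval_FR, hG, FR_w]
  have e1 : (p.map (algebraMap ℝ ℂ)).eval ((w ρ : ℝ) : ℂ) = ((p.eval (w ρ) : ℝ) : ℂ) := by
    rw [Polynomial.eval_map, ← Complex.coe_algebraMap, Polynomial.eval₂_at_apply]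
  rw [e1, ← Complex.ofReal_sub, Complex.norm_real, Real.norm_eq_abs, abs_sub_comm]
  exact (hp (w ρ) ⟨(w_pos ρ).le, (w_lt ρ).le⟩).le

/-- clamping to `[w L, w (-L)]` -/
noncomputable def cl (L x : ℝ) : ℝ := max (w L) (min (w (-L)) x)

lemma cl_pos (L x : ℝ) : 0 < cl L x := (w_pos L).trans_le (le_max_left _ _)

lemma cl_lt (L x : ℝ) : cl L x < 2 :=
  max_lt (w_lt L) ((min_le_left _ _).trans_lt (w_lt (-L)))

lemma cl_cont (L : ℝ) : Continuous (cl L) := by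
  unfold cl; fun_prop

lemma cut_eq {h : ℝ → ℝ} {L : ℝ} (hL : 0 ≤ L) (h0 : ∀ ρ, L ≤ |ρ| → h ρ = 0) (ρ : ℝ) :
    h (Real.log ((2 - cl L (w ρ)) / cl L (w ρ))) = h ρ := by
  rcases le_total |ρ| L with h1 | h1
  · rw [abs_le] at h1
    have e : cl L (w ρ) = w ρ := by
      unfold cl
      rw [min_eq_right (w_anti h1.1), max_eq_right (w_anti h1.2)]
    rw [e, log_w]
  · rw [h0 ρ h1]
    rcases le_abs.1 h1 with h2 | h2
    · have e : cl L (w ρ) = w L := by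
        unfold cl
        exact max_eq_left ((min_le_right _ _).trans (w_anti h2))
      rw [e, log_w]
      exact h0 L (le_abs_self L)
    · have h3 : w (-L) ≤ w ρ := w_anti (by linarith)
      have e : cl L (w ρ) = w (-L) := by
        unfold cl
        rw [min_eq_left h3]
        exact max_eq_right (w_anti (by linarith))
      rw [e, log_w]
      exact h0 (-L) (by rw [abs_neg]; exact le_abs_self L)

lemma A_cut (h : FR ∈ A Ψ₁ Ψ₂ Y) {g : ℝ → ℝ} (hg : Continuous g) {L : ℝ} (hL : 0 ≤ L)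
    (h0 : ∀ ρ, L ≤ |ρ| → g ρ = 0) {G : ℝ →ᵇ ℂ} (hG : ∀ ρ, G ρ = ((g ρ : ℝ) : ℂ)) :
    G ∈ A Ψ₁ Ψ₂ Y := by
  refine A_real h (f := fun x => g (Real.log ((2 - cl L x) / cl L x))) ?_ ?_
  · apply Continuous.continuousOn
    refine hg.comp (Continuous.log ?_ ?_)
    · exact (continuous_const.sub (cl_cont L)).div (cl_cont L) fun x => (cl_pos L x).ne'
    · intro x
      have h1 := cl_pos L x
      have h2 : 0 < 2 - cl L x := by linarith [cl_lt L x]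
      positivity
  · intro ρ
    rw [hG, cut_eq hL h0]

lemma A_ct (h : FR ∈ A Ψ₁ Ψ₂ Y) (G : ℝ →ᵇ ℂ) (n : ℕ) : G * ctB n ∈ A Ψ₁ Ψ₂ Y := by
  have hn : (0 : ℝ) ≤ (n : ℝ) + 1 := by positivity
  have hc : Continuous fun ρ : ℝ => G ρ := G.continuous
  have hb : ∀ ρ, ‖G ρ‖ ≤ ‖G‖ := fun ρ => G.norm_coe_le_norm ρ
  have hct : ∀ ρ, |ct n ρ| ≤ 1 := fun ρ => by
    rw [abs_of_nonneg (Pool.Agent.Helper43.TTF.ct_nonneg n ρ)]
    exact Pool.Agent.Helper43.TTF.ct_le n ρ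
  have hcc := ct_cont n
  have c1 : Continuous fun ρ : ℝ => (G ρ).re * ct n ρ := (Complex.continuous_re.comp hc).mul hcc
  have c2 : Continuous fun ρ : ℝ => (G ρ).im * ct n ρ := (Complex.continuous_im.comp hc).mul hcc
  let G1 : ℝ →ᵇ ℂ := BoundedContinuousFunction.ofNormedAddCommGroup
    (fun ρ : ℝ => (((G ρ).re * ct n ρ : ℝ) : ℂ)) (Complex.continuous_ofReal.comp c1) ‖G‖ (by
      intro ρ
      rw [Complex.norm_real, Real.norm_eq_abs, abs_mul]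
      calc |(G ρ).re| * |ct n ρ| ≤ ‖G‖ * 1 := by
            gcongr
            · exact (Complex.abs_re_le_norm _).trans (hb ρ)
            · exact hct ρ
        _ = ‖G‖ := mul_one _)
  let G2 : ℝ →ᵇ ℂ := BoundedContinuousFunction.ofNormedAddCommGroup
    (fun ρ : ℝ => (((G ρ).im * ct n ρ : ℝ) : ℂ)) (Complex.continuous_ofReal.comp c2) ‖G‖ (by
      intro ρ
      rw [Complex.norm_real, Real.norm_eq_abs, abs_mul]
      calc |(G ρ).im| * |ct n ρ| ≤ ‖G‖ * 1 := by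
            gcongr
            · exact (Complex.abs_im_le_norm _).trans (hb ρ)
            · exact hct ρ
        _ = ‖G‖ := mul_one _)
  have e : G * ctB n = G1 + Complex.I • G2 := by
    ext ρ
    rw [BoundedContinuousFunction.mul_apply, BoundedContinuousFunction.add_apply,
      BoundedContinuousFunction.smul_apply, ctB_apply, smul_eq_mul]
    change G ρ * ((ct n ρ : ℝ) : ℂ) = (((G ρ).re * ct n ρ : ℝ) : ℂ) +
      Complex.I * (((G ρ).im * ct n ρ : ℝ) : ℂ)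
    conv_lhs => rw [← Complex.re_add_im (G ρ)]
    push_cast
    ring
  rw [e]
  refine A_add (A_cut h c1 hn ?_ fun ρ => rfl) (A_smul _ (A_cut h c2 hn ?_ fun ρ => rfl))
  · intro ρ hρ
    rw [ct_zero hρ, mul_zero]
  · intro ρ hρ
    rw [ct_zero hρ, mul_zero]

lemma tendsto_cut {R : H →L[ℂ] H} {Ψ : (ℝ →ᵇ ℂ) →⋆ₐ[ℂ] (H →L[ℂ] H)} (h : FCal R Ψ) (G : ℝ →ᵇ ℂ)
    (v : H) : Tendsto (fun n => Ψ (G * ctB n) v) atTop (𝓝 (Ψ G v)) := by
  refine h.psi_cont (fun n => G * ctB n) G ‖G‖ ?_ ?_ v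
  · intro n
    refine (norm_mul_le _ _).trans ?_
    calc ‖G‖ * ‖ctB n‖ ≤ ‖G‖ * 1 := by gcongr; exact ctB_norm n
      _ = ‖G‖ := mul_one _
  · intro L
    rw [Metric.tendstoUniformlyOn_iff]
    intro ε hε
    obtain ⟨m, hm⟩ := exists_nat_ge L
    filter_upwards [eventually_ge_atTop m] with n hn ρ hρ
    have h2 : |ρ| ≤ n := by
      have h3 : (m : ℝ) ≤ n := by exact_mod_cast hn
      rw [Set.mem_Icc] at hρ
      rw [abs_le]
      constructor <;> linarith [hρ.1, hρ.2]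
    rw [BoundedContinuousFunction.mul_apply, ctB_apply, ct_one h2, Complex.ofReal_one, mul_one,
      dist_self]
    exact hε

end FcB

theorem FCal.int {R₁ : H →L[ℂ] H} {Ψ₁ : (ℝ →ᵇ ℂ) →⋆ₐ[ℂ] (H →L[ℂ] H)} (h₁ : FCal R₁ Ψ₁)
    {R₂ : K →L[ℂ] K} {Ψ₂ : (ℝ →ᵇ ℂ) →⋆ₐ[ℂ] (K →L[ℂ] K)} (h₂ : FCal R₂ Ψ₂)
    (Y : H →L[ℂ] K) (hY : ∀ v, Y (R₁ v) = R₂ (Y v)) (G : ℝ →ᵇ ℂ) (v : H) :
    Y (Ψ₁ G v) = Ψ₂ G (Y v) := by
  have hFR : FR ∈ FcB.A Ψ₁ Ψ₂ Y := by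
    intro v
    rw [h₁.psi_FR, h₂.psi_FR, hY]
  have t1 := (Y.continuous.tendsto _).comp (FcB.tendsto_cut h₁ G v)
  have t2 := FcB.tendsto_cut h₂ G (Y v)
  refine tendsto_nhds_unique t1 (t2.congr fun n => ?_)
  exact (FcB.A_ct hFR G n v).symm

end Pool.Agent.Helper23.ED
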