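import Pool.Agent.Helper23.ED.SmB
import Pool.Agent.Helper23.ED.FcB
import Pool.Agent.Helper43.TTF.G

/-!
# Project ED: the periodicity argument
-/

open scoped InnerProductSpace Topology ENNReal BoundedContinuousFunction
open ContinuousLinearMap Filter MeasureTheory

namespace Pool.Agent.Helper23.ED

open Pool.Agent.Helper23 Pool.Agent.Helper23.RBF
open Pool.Agent.Helper78.BC.Transport (Sub r)

universe u

variable {K : Type*} [NormedAddCommGroup K] [InnerProductSpace ℂ K] [CompleteSpace K]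
variable {U : ℝ → K →L[ℂ] K}

namespace SmD

open Pool.Agent.Helper43.TTF

/-- half of the function `FR` -/
noncomputable def tau : ℝ →ᵇ ℂ := (1 / 2 : ℂ) • FR

lemma tau_apply (ρ : ℝ) : tau ρ = (1 + Complex.exp ρ)⁻¹ := by
  change (1 / 2 : ℂ) * FR ρ = _
  rw [FR_apply]
  push_cast
  ring

lemma one_add_exp_ne (ρ : ℝ) : (1 + Complex.exp (ρ : ℂ)) ≠ 0 := by
  have h : (0 : ℝ) < 1 + Real.exp ρ := by positivity
  have h2 : ((1 + Real.exp ρ : ℝ) : ℂ) ≠ 0 := by exact_mod_cast h.ne'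
  push_cast at h2
  exact h2

/-- a bounded cut off version of `1 + e ^ (s ρ)` -/
noncomputable def E (n : ℕ) (s : ℝ) : ℝ →ᵇ ℂ :=
  BoundedContinuousFunction.ofNormedAddCommGroup
    (fun ρ : ℝ => ((ct n ρ * (1 + Real.exp (s * gt ((n : ℝ) + 1) ρ)) : ℝ) : ℂ))
    (by
      have h1 := ct_cont n
      have h2 : Continuous (gt ((n : ℝ) + 1)) := by unfold gt; fun_prop
      fun_prop) (1 * (1 + Real.exp (|s| * |(n : ℝ) + 1|))) (by
      intro ρ
      rw [Complex.norm_real, Real.norm_eq_abs, abs_mul, abs_of_nonneg (ct_nonneg n ρ)]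
      have h3 : s * gt ((n : ℝ) + 1) ρ ≤ |s| * |(n : ℝ) + 1| := by
        refine (le_abs_self _).trans ?_
        rw [abs_mul]
        exact mul_le_mul_of_nonneg_left (gt_abs _ _) (abs_nonneg _)
      have h4 : 0 < 1 + Real.exp (s * gt ((n : ℝ) + 1) ρ) := by positivity
      rw [abs_of_pos h4]
      have h5 := Real.exp_le_exp.2 h3
      exact mul_le_mul (ct_le n ρ) (by linarith) h4.le zero_le_one)

lemma E_apply (n : ℕ) (s ρ : ℝ) : E n s ρ =
    ((ct n ρ * (1 + Real.exp (s * gt ((n : ℝ) + 1) ρ)) : ℝ) : ℂ) := rfl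

lemma one_bcf' (ρ : ℝ) : (1 : ℝ →ᵇ ℂ) ρ = 1 := rfl

/-- `ez z ctB = τ (ez z E)` -/
lemma id_a (n : ℕ) (z : ℂ) : ez ((n : ℝ) + 1) z * ctB n =
    tau * (ez ((n : ℝ) + 1) z * E n 1) := by
  ext ρ
  simp only [BoundedContinuousFunction.mul_apply, tau_apply, ctB_apply, E_apply, ez_apply]
  rcases le_total ((n : ℝ) + 1) |ρ| with h | h
  · rw [ct_zero h]
    simp
  · rw [gt_eq h]
    have h1 := one_add_exp_ne ρ
    push_cast
    rw [one_mul]
    field_simp

lemma id_b (n : ℕ) (z : ℂ) : ez ((n : ℝ) + 1) (z - Complex.I) * ctB n =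
    (1 - tau) * (ez ((n : ℝ) + 1) z * E n 1) := by
  ext ρ
  simp only [BoundedContinuousFunction.mul_apply, BoundedContinuousFunction.sub_apply, tau_apply,
    ctB_apply, E_apply, ez_apply, one_bcf']
  rcases le_total ((n : ℝ) + 1) |ρ| with h | h
  · rw [ct_zero h]
    simp
  · rw [gt_eq h]
    have h1 := one_add_exp_ne ρ
    have h2 : Complex.exp (Complex.I * (z - Complex.I) * (ρ : ℝ)) =
        Complex.exp (Complex.I * z * (ρ : ℝ)) * Complex.exp (ρ : ℂ) := by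
      rw [← Complex.exp_add]
      congr 1
      linear_combination (-(ρ : ℂ)) * Complex.I_sq
    rw [h2]
    push_cast
    rw [one_mul]
    field_simp
    ring

lemma id_c (n : ℕ) (z : ℂ) : ctB n * ez ((n : ℝ) + 1) (-z) =
    (ez ((n : ℝ) + 1) (-z) * E n (-1)) * (1 - tau) := by
  ext ρ
  simp only [BoundedContinuousFunction.mul_apply, BoundedContinuousFunction.sub_apply, tau_apply,
    ctB_apply, E_apply, ez_apply, one_bcf']
  rcases le_total ((n : ℝ) + 1) |ρ| with h | h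
  · rw [ct_zero h]
    simp
  · rw [gt_eq h]
    have h1 := one_add_exp_ne ρ
    have h3 : Complex.exp (ρ : ℂ) * Complex.exp (-(ρ : ℂ)) = 1 := by
      rw [← Complex.exp_add, add_neg_cancel, Complex.exp_zero]
    push_cast
    rw [neg_one_mul]
    field_simp
    linear_combination (-(ct n ρ : ℂ)) * h3

lemma id_d (n : ℕ) (z : ℂ) : ctB n * ez ((n : ℝ) + 1) (-(z - Complex.I)) =
    (ez ((n : ℝ) + 1) (-z) * E n (-1)) * tau := by
  ext ρ
  simp only [BoundedContinuousFunction.mul_apply, tau_apply,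
    ctB_apply, E_apply, ez_apply]
  rcases le_total ((n : ℝ) + 1) |ρ| with h | h
  · rw [ct_zero h]
    simp
  · rw [gt_eq h]
    have h1 := one_add_exp_ne ρ
    have h3 : Complex.exp (ρ : ℂ) * Complex.exp (-(ρ : ℂ)) = 1 := by
      rw [← Complex.exp_add, add_neg_cancel, Complex.exp_zero]
    have h2 : Complex.exp (Complex.I * (-(z - Complex.I)) * (ρ : ℝ)) =
        Complex.exp (Complex.I * (-z) * (ρ : ℝ)) * Complex.exp (-(ρ : ℂ)) := by
      rw [← Complex.exp_add]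
      congr 1
      linear_combination (ρ : ℂ) * Complex.I_sq
    rw [h2]
    push_cast
    rw [neg_one_mul]
    field_simp
    linear_combination (ct n ρ : ℂ) * h3

lemma id_e (n : ℕ) (t : ℝ) : ez ((n : ℝ) + 1) t * ctB n = expB t * ctB n := by
  ext ρ
  simp only [BoundedContinuousFunction.mul_apply, ctB_apply, ez_apply, expB_apply]
  rcases le_total ((n : ℝ) + 1) |ρ| with h | h
  · rw [ct_zero h]
    simp
  · rw [gt_eq h]
    congr 2
    push_cast
    ring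

variable {T : K →L[ℂ] K} {Ψ : (ℝ →ᵇ ℂ) →⋆ₐ[ℂ] (K →L[ℂ] K)}

lemma psi_tau (hΨ : FCal ((2 : ℂ) • T) Ψ) : Ψ tau = T := by
  rw [tau, map_smul, hΨ.psi_FR, smul_smul]
  norm_num

/-- the operator valued function -/
noncomputable def g (U : ℝ → K →L[ℂ] K) (Ψ : (ℝ →ᵇ ℂ) →⋆ₐ[ℂ] (K →L[ℂ] K)) (m : ℝ)
    (Y : K →L[ℂ] K) (n : ℕ) (z : ℂ) : K →L[ℂ] K :=
  Ψ (ctB n * ez ((n : ℝ) + 1) (-z)) * smear U (gau m z) Y * Ψ (ez ((n : ℝ) + 1) z * ctB n)

lemma g_per (hΨ : FCal ((2 : ℂ) • T) Ψ) {m : ℝ} {Y : K →L[ℂ] K}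
    (hrel : ∀ (z : ℂ) (v : K), smear U (gau m z) Y (T v) - T (smear U (gau m z) Y (T v)) =
      T (smear U (gau m (z - Complex.I)) Y (v - T v))) (n : ℕ) (z : ℂ) :
    g U Ψ m Y n (z - Complex.I) = g U Ψ m Y n z := by
  have h : T * smear U (gau m (z - Complex.I)) Y * (1 - T) =
      (1 - T) * smear U (gau m z) Y * T := by
    ext v
    exact (hrel z v).symm
  rw [g, g, id_b n z, id_d n z, id_a n z, id_c n z]
  rw [map_mul Ψ _ tau, map_mul Ψ (1 - tau) _, map_mul Ψ _ (1 - tau), map_mul Ψ tau _, map_sub,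
    map_one, psi_tau hΨ]
  generalize Ψ (ez ((n : ℝ) + 1) (-z) * E n (-1)) = P
  generalize Ψ (ez ((n : ℝ) + 1) z * E n 1) = Q
  calc P * T * smear U (gau m (z - Complex.I)) Y * ((1 - T) * Q)
      = P * (T * smear U (gau m (z - Complex.I)) Y * (1 - T)) * Q := by simp only [mul_assoc]
    _ = P * ((1 - T) * smear U (gau m z) Y * T) * Q := by rw [h]
    _ = P * (1 - T) * smear U (gau m z) Y * (T * Q) := by simp only [mul_assoc]

lemma g_diff (hU : UG U) (Ψ : (ℝ →ᵇ ℂ) →⋆ₐ[ℂ] (K →L[ℂ] K)) {m : ℝ} (hm : 0 < m)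
    (Y : K →L[ℂ] K) (n : ℕ) : Differentiable ℂ (g U Ψ m Y n) := by
  have h1 : Differentiable ℂ (fun z : ℂ => psiL Ψ (ctB n * ez ((n : ℝ) + 1) (-z))) :=
    (psiL Ψ).differentiable.comp
      ((differentiable_const _).mul ((ez_diff _).comp differentiable_neg))
  have h2 : Differentiable ℂ (fun z : ℂ => psiL Ψ (ez ((n : ℝ) + 1) z * ctB n)) :=
    (psiL Ψ).differentiable.comp ((ez_diff _).mul (differentiable_const _))
  exact (h1.mul (smear_diff hU hm Y)).mul h2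

lemma g_bound (hU : UG U) (Ψ : (ℝ →ᵇ ℂ) →⋆ₐ[ℂ] (K →L[ℂ] K)) {m : ℝ} (hm : 0 < m)
    (Y : K →L[ℂ] K) (n : ℕ) : ∃ C : ℝ, ∀ z : ℂ, |z.im| ≤ 1 → ‖g U Ψ m Y n z‖ ≤ C := by
  refine ⟨Real.exp (1 * |(n : ℝ) + 1|) * ((Real.sqrt (Real.pi / m) * Real.exp (m * 1 ^ 2)) * ‖Y‖) *
    Real.exp (1 * |(n : ℝ) + 1|), fun z hz => ?_⟩
  have hez : ∀ z : ℂ, |z.im| ≤ 1 → ‖ez ((n : ℝ) + 1) z‖ ≤ Real.exp (1 * |(n : ℝ) + 1|) := by
    intro z hz
    refine (ez_norm _ z).trans (Real.exp_le_exp.2 ?_)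
    gcongr
  have hA : ‖Ψ (ctB n * ez ((n : ℝ) + 1) (-z))‖ ≤ Real.exp (1 * |(n : ℝ) + 1|) := by
    refine (psi_norm Ψ _).trans ((norm_mul_le _ _).trans ?_)
    have h1 := hez (-z) (by rwa [Complex.neg_im, abs_neg])
    calc ‖ctB n‖ * ‖ez ((n : ℝ) + 1) (-z)‖ ≤ 1 * Real.exp (1 * |(n : ℝ) + 1|) := by
          gcongr
          exact ctB_norm n
      _ = _ := one_mul _
  have hB : ‖Ψ (ez ((n : ℝ) + 1) z * ctB n)‖ ≤ Real.exp (1 * |(n : ℝ) + 1|) := by
    refine (psi_norm Ψ _).trans ((norm_mul_le _ _).trans ?_)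
    have h1 := hez z hz
    calc ‖ez ((n : ℝ) + 1) z‖ * ‖ctB n‖ ≤ Real.exp (1 * |(n : ℝ) + 1|) * 1 := by
          gcongr
          exact ctB_norm n
      _ = _ := mul_one _
  have hF : ‖smear U (gau m z) Y‖ ≤ (Real.sqrt (Real.pi / m) * Real.exp (m * 1 ^ 2)) * ‖Y‖ := by
    refine (smear_norm hU (gau_int hm z) Y).trans ?_
    rw [gau_norm hm]
    have h2 : z.im ^ 2 ≤ 1 ^ 2 := sq_le_sq' (neg_le_of_abs_le hz) (le_of_abs_le hz)
    gcongr
  unfold g
  refine (norm_mul_le _ _).trans ?_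
  refine mul_le_mul ((norm_mul_le _ _).trans ?_) hB (norm_nonneg _) (by positivity)
  exact mul_le_mul hA hF (norm_nonneg _) (by positivity)

lemma g_const (hΨ : FCal ((2 : ℂ) • T) Ψ) (hU : UG U) {m : ℝ} (hm : 0 < m) {Y : K →L[ℂ] K}
    (hrel : ∀ (z : ℂ) (v : K), smear U (gau m z) Y (T v) - T (smear U (gau m z) Y (T v)) =
      T (smear U (gau m (z - Complex.I)) Y (v - T v))) (n : ℕ) (z w : ℂ) :
    g U Ψ m Y n z = g U Ψ m Y n w := by
  obtain ⟨C, hC⟩ := g_bound hU Ψ hm Y n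
  have hp : Function.Periodic (g U Ψ m Y n) Complex.I := by
    intro z
    have := g_per hΨ hrel n (z + Complex.I)
    rw [add_sub_cancel_right] at this
    exact this.symm
  refine Differentiable.apply_eq_apply_of_bounded (g_diff hU Ψ hm Y n) ?_ z w
  rw [isBounded_iff_forall_norm_le]
  refine ⟨C, ?_⟩
  rintro _ ⟨z, rfl⟩
  rw [← hp.sub_zsmul_eq ⌊z.im⌋]
  refine hC _ ?_
  have h1 : (z - ⌊z.im⌋ • Complex.I).im = Int.fract z.im := by
    rw [zsmul_eq_mul, Complex.sub_im, Complex.mul_im, Complex.I_im, Complex.I_re, mul_zero, mul_one,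
      add_zero, Complex.intCast_re, Int.self_sub_floor]
  rw [h1, abs_of_nonneg (Int.fract_nonneg _)]
  exact (Int.fract_lt_one _).le

lemma tendsto_conj (hΨ : FCal ((2 : ℂ) • T) Ψ) (X : K →L[ℂ] K) (v : K) :
    Tendsto (fun n => Ψ (ctB n) (X (Ψ (ctB n) v))) atTop (𝓝 (X v)) := by
  have hc : ∀ w : K, Tendsto (fun n => Ψ (ctB n) w) atTop (𝓝 w) := by
    intro w
    have := FcB.tendsto_cut hΨ 1 w
    simpa using this
  have h1 : Tendsto (fun n => Ψ (ctB n) (X (Ψ (ctB n) v) - X v)) atTop (𝓝 0) := by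
    have h2 : Tendsto (fun n => ‖X (Ψ (ctB n) v) - X v‖) atTop (𝓝 0) := by
      have h3 := ((X.continuous.tendsto v).comp (hc v)).sub_const (X v)
      rw [sub_self] at h3
      simpa using h3.norm
    refine squeeze_zero_norm (fun n => ?_) h2
    refine (psi_norm_apply Ψ _ _).trans ?_
    calc ‖ctB n‖ * ‖X (Ψ (ctB n) v) - X v‖ ≤ 1 * ‖X (Ψ (ctB n) v) - X v‖ := by
          gcongr
          exact ctB_norm n
      _ = _ := one_mul _
  have h4 := h1.add (hc (X v))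
  rw [zero_add] at h4
  refine h4.congr fun n => ?_
  rw [map_sub, sub_add_cancel]

end SmD

theorem liou {T : K →L[ℂ] K} {Ψ : (ℝ →ᵇ ℂ) →⋆ₐ[ℂ] (K →L[ℂ] K)} (hΨ : FCal ((2 : ℂ) • T) Ψ)
    (hU : UG U) {m : ℝ} (hm : 0 < m) {Y : K →L[ℂ] K}
    (hrel : ∀ (z : ℂ) (v : K), smear U (gau m z) Y (T v) - T (smear U (gau m z) Y (T v)) =
      T (smear U (gau m (z - Complex.I)) Y (v - T v))) (t : ℝ) :
    Ψ (expB (-t)) * smear U (gau m t) Y * Ψ (expB t) = smear U (gau m 0) Y := by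
  open Pool.Agent.Helper43.TTF SmD in
  have key : ∀ n : ℕ, Ψ (ctB n) * (Ψ (expB (-t)) * smear U (gau m t) Y * Ψ (expB t)) * Ψ (ctB n) =
      Ψ (ctB n) * smear U (gau m 0) Y * Ψ (ctB n) := by
    intro n
    have h := g_const hΨ hU hm hrel n (t : ℂ) 0
    unfold g at h
    rw [neg_zero, ez_zero, one_mul, mul_one, ← Complex.ofReal_neg, mul_comm (ctB n),
      id_e, id_e, mul_comm (expB (-t)), map_mul, map_mul] at h
    rw [← h]
    simp only [mul_assoc]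
  ext v
  open Pool.Agent.Helper43.TTF SmD in
  have h1 := tendsto_conj hΨ (Ψ (expB (-t)) * smear U (gau m t) Y * Ψ (expB t)) v
  open Pool.Agent.Helper43.TTF SmD in
  have h2 := tendsto_conj hΨ (smear U (gau m 0) Y) v
  refine tendsto_nhds_unique h1 (h2.congr fun n => ?_)
  exact (congrArg (fun S : K →L[ℂ] K => S v) (key n)).symm

end Pool.Agent.Helper23.ED
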