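import Pool.Agent.Helper23.ED.SmB

/-!
# Project ED: removal of the smearing
-/

open scoped InnerProductSpace Topology ENNReal BoundedContinuousFunction
open ContinuousLinearMap Filter MeasureTheory

namespace Pool.Agent.Helper23.ED

open Pool.Agent.Helper23 Pool.Agent.Helper23.RBF
open Pool.Agent.Helper78.BC.Transport (Sub r)

universe u

variable {K : Type*} [NormedAddCommGroup K] [InnerProductSpace ℂ K] [CompleteSpace K]
variable {U : ℝ → K →L[ℂ] K}

namespace SmE

/-- joint continuity for an isometric strongly continuous family -/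
private lemma cont_app (hU : UG U) {g : ℝ → K} (hg : Continuous g) :
    Continuous fun s => U s (g s) := by
  rw [continuous_iff_continuousAt]
  intro s₀
  have h1 : Tendsto (fun s => U s (g s₀)) (𝓝 s₀) (𝓝 (U s₀ (g s₀))) := (hU.cont (g s₀)).continuousAt
  have h2 : Tendsto (fun s => U s (g s - g s₀)) (𝓝 s₀) (𝓝 0) := by
    rw [tendsto_zero_iff_norm_tendsto_zero]
    simp_rw [hU.norm]
    have h3 : Tendsto (fun s => g s - g s₀) (𝓝 s₀) (𝓝 (g s₀ - g s₀)) :=
      (hg.continuousAt).sub tendsto_const_nhds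
    rw [sub_self] at h3
    exact tendsto_zero_iff_norm_tendsto_zero.1 h3
  have h4 := h2.add h1
  rw [zero_add] at h4
  refine h4.congr fun s => ?_
  rw [← map_add, sub_add_cancel]

private lemma cont_conj (hU : UG U) (Y : K →L[ℂ] K) (w : K) :
    Continuous fun s => U s (Y (U (-s) w)) :=
  cont_app hU (Y.continuous.comp ((hU.cont w).comp continuous_neg))

/-- Gaussian approximate identity -/
private lemma approx {G : ℝ → ℂ} (hG : Continuous G) {C : ℝ} (hC : ∀ s, ‖G s‖ ≤ C) (x : ℝ) :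
    Tendsto (fun n : ℕ => ((n : ℂ) + 1) * ∫ s, gau (((n : ℝ) + 1) ^ 2) x s * G s) atTop
      (𝓝 ((∫ u : ℝ, Complex.exp (-((u : ℂ) ^ 2))) * G x)) := by
  have hF : ∀ n : ℕ, ((n : ℂ) + 1) * ∫ s, gau (((n : ℝ) + 1) ^ 2) x s * G s =
      ∫ u : ℝ, Complex.exp (-((u : ℂ) ^ 2)) * G (x + u / ((n : ℝ) + 1)) := by
    intro n
    have hn : (0 : ℝ) < (n : ℝ) + 1 := by positivity
    set F : ℝ → ℂ := fun u => Complex.exp (-((u : ℂ) ^ 2)) * G (x + u / ((n : ℝ) + 1)) with hFd
    have h1 : ∫ s, gau (((n : ℝ) + 1) ^ 2) x s * G s = ∫ s, F (((n : ℝ) + 1) * (s - x)) := by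
      refine integral_congr_ae (Eventually.of_forall fun s => ?_)
      simp only [hFd, gau]
      have h2 : x + ((n : ℝ) + 1) * (s - x) / ((n : ℝ) + 1) = s := by
        field_simp
        ring
      rw [h2]
      congr 1
      congr 1
      push_cast
      ring
    have h3 : ∫ s, F (((n : ℝ) + 1) * (s - x)) = ∫ s, F (((n : ℝ) + 1) * s) :=
      integral_sub_right_eq_self (fun s => F (((n : ℝ) + 1) * s)) x
    have h4 := MeasureTheory.Measure.integral_comp_mul_left F ((n : ℝ) + 1)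
    rw [h1, h3, h4, abs_of_pos (inv_pos.2 hn), Complex.real_smul, ← mul_assoc]
    have h5 : ((n : ℂ) + 1) * (((((n : ℝ) + 1)⁻¹ : ℝ)) : ℂ) = 1 := by
      push_cast
      have h6 : ((n : ℂ) + 1) ≠ 0 := by exact_mod_cast hn.ne'
      exact mul_inv_cancel₀ h6
    rw [h5, one_mul]
  simp_rw [hF]
  have hlim : (∫ u : ℝ, Complex.exp (-((u : ℂ) ^ 2))) * G x =
      ∫ u : ℝ, Complex.exp (-((u : ℂ) ^ 2)) * G x := (integral_mul_const _ _).symm
  rw [hlim]
  have hint : Integrable (fun u : ℝ => Real.exp (-1 * u ^ 2)) := integrable_exp_neg_mul_sq one_pos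
  refine tendsto_integral_of_dominated_convergence (fun u => Real.exp (-1 * u ^ 2) * C)
    (fun n => ?_) (hint.mul_const C) (fun n => Eventually.of_forall fun u => ?_)
    (Eventually.of_forall fun u => ?_)
  · refine Continuous.aestronglyMeasurable ?_
    fun_prop
  · rw [norm_mul]
    have h1 : ‖Complex.exp (-((u : ℂ) ^ 2))‖ = Real.exp (-1 * u ^ 2) := by
      rw [Complex.norm_exp]
      congr 1
      rw [← Complex.ofReal_pow, Complex.neg_re, Complex.ofReal_re]
      ring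
    rw [h1]
    exact mul_le_mul_of_nonneg_left (hC _) (Real.exp_pos _).le
  · refine tendsto_const_nhds.mul ?_
    have h1 : Tendsto (fun n : ℕ => x + u / ((n : ℝ) + 1)) atTop (𝓝 (x + 0)) :=
      tendsto_const_nhds.add (tendsto_const_nhds.div_atTop
        (tendsto_atTop_add_const_right _ _ tendsto_natCast_atTop_atTop))
    rw [add_zero] at h1
    exact (hG.tendsto x).comp h1

private lemma gauss_ne : (∫ u : ℝ, Complex.exp (-((u : ℂ) ^ 2))) ≠ 0 := by
  have h1 : (∫ u : ℝ, Complex.exp (-((u : ℂ) ^ 2))) = ((∫ u : ℝ, Real.exp (-1 * u ^ 2) : ℝ) : ℂ) := by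
    rw [← integral_complex_ofReal]
    refine integral_congr_ae (Eventually.of_forall fun u => ?_)
    simp only
    push_cast
    congr 1
    ring
  rw [h1, integral_gaussian]
  have h2 : Real.sqrt (Real.pi / 1) ≠ 0 := by
    rw [div_one]
    exact (Real.sqrt_pos.2 Real.pi_pos).ne'
  exact_mod_cast h2

private lemma G_bound (hU : UG U) (Y : K →L[ℂ] K) (v w : K) (s : ℝ) :
    ‖⟪v, U s (Y (U (-s) w))⟫_ℂ‖ ≤ ‖v‖ * (‖Y‖ * ‖w‖) := by
  refine (norm_inner_le_norm _ _).trans ?_
  refine mul_le_mul_of_nonneg_left ?_ (norm_nonneg _)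
  rw [hU.norm]
  refine (Y.le_opNorm _).trans ?_
  rw [hU.norm]

end SmE

theorem unsmear (hU : UG U) {Y X X' : K →L[ℂ] K} {t : ℝ}
    (h : ∀ m : ℝ, 0 < m → X * smear U (gau m t) Y * X' = smear U (gau m 0) Y) :
    X * (U t * Y * U (-t)) * X' = Y := by
  refine ContinuousLinearMap.ext fun w => ?_
  refine ext_inner_left ℂ fun v => ?_
  have hG1 : Continuous fun s => ⟪star X v, U s (Y (U (-s) (X' w)))⟫_ℂ :=
    continuous_const.inner (SmE.cont_conj hU Y (X' w))
  have hG2 : Continuous fun s => ⟪v, U s (Y (U (-s) w))⟫_ℂ :=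
    continuous_const.inner (SmE.cont_conj hU Y w)
  have L1 := SmE.approx hG1 (SmE.G_bound hU Y (star X v) (X' w)) t
  have L2 := SmE.approx hG2 (SmE.G_bound hU Y v w) 0
  have key : ∀ n : ℕ, (∫ s, gau (((n : ℝ) + 1) ^ 2) t s * ⟪star X v, U s (Y (U (-s) (X' w)))⟫_ℂ) =
      ∫ s, gau (((n : ℝ) + 1) ^ 2) ((0 : ℝ) : ℂ) s * ⟪v, U s (Y (U (-s) w))⟫_ℂ := by
    intro n
    have hm : (0 : ℝ) < ((n : ℝ) + 1) ^ 2 := by positivity
    rw [← smear_spec hU (gau_int hm _) Y (star X v) (X' w),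
      ← smear_spec hU (gau_int hm _) Y v w, Complex.ofReal_zero, ← h _ hm]
    rw [ContinuousLinearMap.star_eq_adjoint, ContinuousLinearMap.adjoint_inner_left]
    rfl
  have L3 := tendsto_nhds_unique (L1.congr fun n => by rw [key n]) L2
  have L4 := mul_left_cancel₀ SmE.gauss_ne L3
  rw [ContinuousLinearMap.star_eq_adjoint, ContinuousLinearMap.adjoint_inner_left] at L4
  have L5 : U 0 (Y (U (-0) w)) = Y w := by
    rw [neg_zero, hU.zero]
    rfl
  rw [L5] at L4
  exact L4

end Pool.Agent.Helper23.ED
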