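import Pool.Agent.Helper23.ED.Defs

/-!
# Project ED: existence and first properties of the functional calculus
-/

open scoped InnerProductSpace Topology ENNReal BoundedContinuousFunction
open ContinuousLinearMap Filter MeasureTheory

namespace Pool.Agent.Helper23.ED

open Pool.Agent.Helper23 Pool.Agent.Helper23.RBF
open Pool.Agent.Helper78.BC.Transport (Sub r)

universe u

variable {H : Type*} [NormedAddCommGroup H] [InnerProductSpace ℂ H] [CompleteSpace H]

theorem exists_fcal (T : H →L[ℂ] H) (hT : star T = T) (h0 : ∀ v : H, 0 ≤ (⟪v, T v⟫_ℂ).re)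
    (h1 : ∀ v : H, (⟪v, T v⟫_ℂ).re ≤ ‖v‖ ^ 2) (hi : ∀ v : H, T v = 0 → v = 0)
    (hi' : ∀ v : H, T v = v → v = 0) :
    ∃ Ψ : (ℝ →ᵇ ℂ) →⋆ₐ[ℂ] (H →L[ℂ] H), FCal ((2 : ℂ) • T) Ψ := by
  have hre : ∀ v : H, (⟪v, ((2 : ℂ) • T) v⟫_ℂ).re = 2 * (⟪v, T v⟫_ℂ).re := by
    intro v
    rw [ContinuousLinearMap.smul_apply, inner_smul_right, Complex.mul_re]
    simp
  have hs : star ((2 : ℂ) • T) = (2 : ℂ) • T := by
    rw [star_smul, hT]
    congr 1
    simp
  obtain ⟨Ψ, hΨ1, -, -, hΨ4⟩ := exists_fc ((2 : ℂ) • T) hs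
    (by intro v; rw [hre]; have := h0 v; linarith)
    (by intro v; rw [hre]; have := h1 v; linarith)
    (by
      intro v hv
      apply hi
      have h3 : (2 : ℂ) • T v = 0 := hv
      exact (smul_eq_zero.mp h3).resolve_left (by norm_num))
    (by
      intro v hv
      apply hi'
      have h3 : (2 : ℂ) • T v = (2 : ℂ) • v := hv
      exact smul_right_injective H (two_ne_zero : (2 : ℂ) ≠ 0) h3)
  exact ⟨Ψ, hΨ1, hΨ4⟩

theorem FCal.conj {R : H →L[ℂ] H} {Ψ : (ℝ →ᵇ ℂ) →⋆ₐ[ℂ] (H →L[ℂ] H)} (h : FCal R Ψ)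
    {U : H →L[ℂ] H} (h1 : star U * U = 1) (h2 : U * star U = 1) :
    ∃ Ψ' : (ℝ →ᵇ ℂ) →⋆ₐ[ℂ] (H →L[ℂ] H), FCal (U * R * star U) Ψ' ∧
      ∀ G, Ψ' G = U * Ψ G * star U := by
  let Ψ' : (ℝ →ᵇ ℂ) →⋆ₐ[ℂ] (H →L[ℂ] H) :=
    { toFun := fun G => U * Ψ G * star U
      map_one' := by rw [map_one, mul_one, h2]
      map_mul' := by
        intro G G'
        rw [map_mul]
        calc U * (Ψ G * Ψ G') * star U = U * Ψ G * 1 * (Ψ G' * star U) := by
              simp only [mul_assoc, one_mul]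
          _ = U * Ψ G * (star U * U) * (Ψ G' * star U) := by rw [h1]
          _ = U * Ψ G * star U * (U * Ψ G' * star U) := by simp only [mul_assoc]
      map_zero' := by rw [map_zero, mul_zero, zero_mul]
      map_add' := by
        intro G G'
        rw [map_add, mul_add, add_mul]
      commutes' := by
        intro c
        rw [AlgHomClass.commutes Ψ c, ← Algebra.commutes, mul_assoc, h2, mul_one]
      map_star' := by
        intro G
        rw [map_star, star_mul, star_mul, star_star, mul_assoc] }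
  have hΨ' : ∀ G, Ψ' G = U * Ψ G * star U := fun G => rfl
  refine ⟨Ψ', ⟨?_, ?_⟩, hΨ'⟩
  · rw [hΨ', h.psi_FR]
  · intro G G₀ C hC hG v
    have h3 := h.psi_cont G G₀ C hC hG (star U v)
    have h4 := (U.continuous.tendsto (Ψ G₀ (star U v))).comp h3
    exact h4

theorem FCal.ug {R : H →L[ℂ] H} {Ψ : (ℝ →ᵇ ℂ) →⋆ₐ[ℂ] (H →L[ℂ] H)} (h : FCal R Ψ) :
    UG (fun t => Ψ (expB t)) := by
  refine ⟨?_, ?_, ?_, ?_⟩
  · intro v
    apply SeqContinuous.continuous
    intro s t hs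
    refine h.psi_cont (fun n => expB (s n)) (expB t) 1
      (fun n => Pool.Agent.Helper43.TTF.expB_norm _) ?_ v
    intro L
    rw [Metric.tendstoUniformlyOn_iff]
    intro ε hε
    have h1 := Metric.tendsto_atTop.1 hs (ε / (|L| + 1)) (by positivity)
    obtain ⟨m, hm⟩ := h1
    filter_upwards [eventually_ge_atTop m] with n hn ρ hρ
    have h2 := hm n hn
    rw [Real.dist_eq] at h2
    rw [dist_eq_norm, Pool.Agent.Helper43.TTF.expB_apply, Pool.Agent.Helper43.TTF.expB_apply]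
    refine (Pool.Agent.Helper43.TTF.exp_sub _ _).trans_lt ?_
    rw [← sub_mul, abs_mul, abs_sub_comm]
    have h3 : |ρ| ≤ |L| := by
      rw [Set.mem_Icc] at hρ
      rw [abs_le]
      constructor <;> linarith [hρ.1, hρ.2, le_abs_self L]
    have h5 : 0 < |L| + 1 := by positivity
    rw [lt_div_iff₀ h5] at h2
    have h4 : 0 ≤ |s n - t| := abs_nonneg _
    nlinarith
  · change Ψ (expB 0) = 1
    have h3 : expB 0 = 1 := by
      ext ρ
      rw [Pool.Agent.Helper43.TTF.expB_apply]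
      simp
    rw [h3, map_one]
  · intro s t
    change Ψ (expB (s + t)) = Ψ (expB s) * Ψ (expB t)
    rw [← map_mul]
    congr 1
    ext ρ
    rw [BoundedContinuousFunction.mul_apply, Pool.Agent.Helper43.TTF.expB_apply,
      Pool.Agent.Helper43.TTF.expB_apply, Pool.Agent.Helper43.TTF.expB_apply, ← Complex.exp_add]
    congr 1
    push_cast
    ring
  · intro t
    change star (Ψ (expB t)) = Ψ (expB (-t))
    rw [← map_star, Pool.Agent.Helper43.TTF.expB_star]

theorem _root_.Pool.Agent.Helper23.Modular.fcal {A : VonNeumannAlgebra H} {ξ : H}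
    {R : H →L[ℂ] H} {D : H →L[ℝ] H} {Ψ : (ℝ →ᵇ ℂ) →⋆ₐ[ℂ] (H →L[ℂ] H)}
    (h : Modular A ξ R D Ψ) : FCal R Ψ := ⟨h.psi_FR, h.psi_cont⟩

end Pool.Agent.Helper23.ED
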