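import Pool.Agent.Helper23.ED.SmC
import Pool.Agent.Helper23.ED.FcA
import Pool.Agent.Helper43.TTF.G
import Pool.Agent.Helper68.G2b2

/-!
# Project ED: smeared elements of the commutant and Tomita's theorem
-/

open scoped InnerProductSpace Topology ENNReal BoundedContinuousFunction
open ContinuousLinearMap Filter MeasureTheory

namespace Pool.Agent.Helper23.ED

open Pool.Agent.Helper23 Pool.Agent.Helper23.RBF
open Pool.Agent.Helper78.BC.Transport (Sub r)

universe u

open Pool.Agent.Helper43.TTF (FT)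

variable {K : Type*} [NormedAddCommGroup K] [InnerProductSpace ℂ K] [CompleteSpace K]
variable {A : VonNeumannAlgebra K} {κ : K} {R : K →L[ℂ] K} {D : K →L[ℝ] K}
  {Ψ : (ℝ →ᵇ ℂ) →⋆ₐ[ℂ] (K →L[ℂ] K)}

theorem smear_xi (h : Modular A κ R D Ψ) {m : ℝ} (hm : 0 < m) (z : ℂ) (Y : K →L[ℂ] K) :
    smear (fun t => Ψ (expB t)) (gau m z) Y κ = Ψ (GZ m hm z) (Y κ) := by
  have hU : UG (fun t => Ψ (expB t)) := h.fcal.ug
  refine ext_inner_left ℂ fun v => ?_
  rw [smear_spec hU (gau_int hm z)]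
  have h1 : ∀ t : ℝ, Ψ (expB (-t)) κ = κ := by
    intro t
    rw [h.psi_xi]
    have : expB (-t) 0 = 1 := by
      rw [Pool.Agent.Helper43.TTF.expB_apply]
      simp
    rw [this, one_smul]
  simp only [h1]
  have hpi : (0 : ℝ) < 2 * Real.pi := by positivity
  set g : ℝ → ℂ := fun s => gau m z s * ⟪v, Ψ (expB s) (Y κ)⟫_ℂ with hg
  have hk : Integrable (fun t : ℝ => ((2 * Real.pi : ℝ) : ℂ) * gau m z (2 * Real.pi * t)) :=
    ((gau_int hm z).comp_mul_left' hpi.ne').const_mul _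
  have h2 := h.integral_psi hk (K := GZ m hm z) ?_ v (Y κ)
  · rw [← h2]
    have h3 : (fun t : ℝ => ((2 * Real.pi : ℝ) : ℂ) * gau m z (2 * Real.pi * t) *
        ⟪v, Ψ (expB (2 * Real.pi * t)) (Y κ)⟫_ℂ) =
        fun t : ℝ => ((2 * Real.pi : ℝ) : ℂ) * g (2 * Real.pi * t) := by
      funext t
      rw [hg]
      ring
    rw [h3, integral_const_mul, Measure.integral_comp_mul_left g (2 * Real.pi),
      abs_of_pos (inv_pos.2 hpi), Complex.real_smul, ← mul_assoc, ← Complex.ofReal_mul,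
      mul_inv_cancel₀ hpi.ne', Complex.ofReal_one, one_mul]
  · intro ρ
    rw [← gau_fourier hm z ρ]
    set g' : ℝ → ℂ := fun s => gau m z s * expB s ρ with hg'
    have h3 : (fun t : ℝ => ((2 * Real.pi : ℝ) : ℂ) * gau m z (2 * Real.pi * t) *
        expB (2 * Real.pi * t) ρ) =
        fun t : ℝ => ((2 * Real.pi : ℝ) : ℂ) * g' (2 * Real.pi * t) := by
      funext t
      rw [hg']
      ring
    rw [h3, integral_const_mul, Measure.integral_comp_mul_left g' (2 * Real.pi),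
      abs_of_pos (inv_pos.2 hpi), Complex.real_smul, ← mul_assoc, ← Complex.ofReal_mul,
      mul_inv_cancel₀ hpi.ne', Complex.ofReal_one, one_mul]

open Pool.Agent.Helper43.TTF in
/-- The common step. -/
private lemma smF_step (h : Modular A κ R D Ψ) (hFC : FC R D Ψ) {J : K →L[ℝ] K} (hJ : JD D Ψ J)
    {m : ℝ} (hm : 0 < m) (z : ℂ) {b : K →L[ℂ] K} (hb : b ∈ A) :
    Ψ (GZ m hm z) (J (b κ)) = Ψ (GZ m hm (z - Complex.I / 2)) ((star b) κ) := by
  rw [← sub_eq_zero]
  refine hFC.T_inj h.data _ ?_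
  rw [map_sub, sub_eq_zero, psi_comm_apply, hJ.T_J, h.data.D_mem b hb]
  have h1 : (2 : ℂ) • (star b) κ - R ((star b) κ) = Ψ (2 - FR) ((star b) κ) := by
    rw [map_sub, psi_two, sub_apply, smul_apply, one_apply_eq_self, h.psi_FR]
  rw [h1, ← psi_mul_apply, mul_comm, GZ_shift hm z, psi_mul_apply]

open Pool.Agent.Helper43.TTF in
theorem smear_rel (h : Modular A κ R D Ψ) (hcyc : Dense (orb A κ : Set K))
    (hsep : ∀ a ∈ A, a κ = 0 → a = 0) {Y : K →L[ℂ] K}
    (hY : Y ∈ A.commutant) {m : ℝ} (hm : 0 < m) (z : ℂ) :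
    ∃ p ∈ A, smear (fun t => Ψ (expB t)) (gau m z) Y κ = p κ ∧
      (star (smear (fun t => Ψ (expB t)) (gau m (z - Complex.I)) Y)) κ = (star p) κ := by
  have hU : UG (fun t => Ψ (expB t)) := h.fcal.ug
  have hFC : FC R D Ψ := ⟨h.psi_FR, h.psi_comm, h.psi_D, h.psi_cont⟩
  obtain ⟨J, hJ⟩ := hFC.exists_J h.data
  have hcyc' : Dense (orb A.commutant κ : Set K) := dense_of_separating A κ hsep
  set b := hJ.cj Y with hbdef
  have hb : b ∈ A := by
    have h1 := cj_mem h.data.symm hcyc' (by rwa [VonNeumannAlgebra.commutant_commutant])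
      hFC.symm hJ.symm hY
    rw [VonNeumannAlgebra.commutant_commutant] at h1
    exact h1
  have hb' : star b ∈ A := star_mem hb
  have hYb : Y = hJ.cj b := by rw [hbdef, hJ.cj_cj]
  have hDκ : D κ = κ := by
    have h1 := h.data.D_comm 1 (one_mem _)
    rwa [star_one, one_apply_eq_self, R_xi h.data] at h1
  have hJκ : J κ = κ := by
    have h1 := hJ.J_T κ
    rw [h.psi_xi, hDκ] at h1
    have h2 : FT 0 = 1 := by
      rw [FT_apply]
      simp
    rwa [h2, one_smul] at h1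
  have hYκ : Y κ = J (b κ) := by
    rw [hYb, hJ.cj_apply, hJκ]
  have hYκ' : (star Y) κ = J ((star b) κ) := by
    refine ext_inner_left ℂ fun v => ?_
    rw [inner_star_right, hYb, hJ.cj_apply]
    have h1 : ⟪J (b (J v)), κ⟫_ℂ = ⟪J (b (J v)), J κ⟫_ℂ := by rw [hJκ]
    rw [h1, hJ.J_add_inner]
    have h2 : ⟪v, J ((star b) κ)⟫_ℂ = ⟪J (J v), J ((star b) κ)⟫_ℂ := by rw [hJ.J_J]
    rw [h2, hJ.J_add_inner, inner_star_left]
  refine ⟨smear (fun t => Ψ (expB t)) (gau m (z - Complex.I / 2)) (star b),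
    smear_mem hU (gau_int hm _) (fun t => h.mem t _ hb'), ?_, ?_⟩
  · rw [smear_xi h hm, smear_xi h hm, hYκ, smF_step h hFC hJ hm z hb]
  · rw [smear_star hU (gau_int hm _), smear_star hU (gau_int hm _), star_star]
    simp only [gau_conj]
    rw [smear_xi h hm, smear_xi h hm, hYκ', smF_step h hFC hJ hm _ hb', star_star]
    congr 2
    congr 1
    simp only [map_sub, Complex.conj_I, map_div₀, Complex.conj_ofNat]
    ring

end Pool.Agent.Helper23.ED
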