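import Pool.Agent.Helper23.ED.NgB
import Pool.Agent.Helper23.ED.NgC
import Pool.Agent.Helper23.ED.SmF
import Pool.Agent.Helper23.ED.SmD
import Pool.Agent.Helper23.ED.SmE

/-!
# Project ED: the cocycle on the closure of N ξ
-/

open scoped InnerProductSpace Topology ENNReal BoundedContinuousFunction
open ContinuousLinearMap Filter MeasureTheory

namespace Pool.Agent.Helper23.ED

open Pool.Agent.Helper23 Pool.Agent.Helper23.RBF
open Pool.Agent.Helper78.BC.Transport (Sub r)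

universe u

variable {H : Type u} [NormedAddCommGroup H] [InnerProductSpace ℂ H] [CompleteSpace H]
variable {K : Type u} [NormedAddCommGroup K] [InnerProductSpace ℂ K] [CompleteSpace K]
variable {N : VonNeumannAlgebra H} {ξ : H} {i : K →L[ℂ] H} {κ : K} {C : H → H} {ζ : ℕ → H}

private lemma coA_neg {K : Type*} [NormedAddCommGroup K] [InnerProductSpace ℂ K]
    [CompleteSpace K] {U : ℝ → K →L[ℂ] K} (hU : UG U) (t : ℝ) : U t * U (-t) = 1 := by
  rw [← hU.add, add_neg_cancel, hU.zero]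

private lemma coA_neg' {K : Type*} [NormedAddCommGroup K] [InnerProductSpace ℂ K]
    [CompleteSpace K] {U : ℝ → K →L[ℂ] K} (hU : UG U) (t : ℝ) : U (-t) * U t = 1 := by
  rw [← hU.add, neg_add_cancel, hU.zero]

/-- conjugation by the group preserves the commutant -/
private lemma coA_comm {K : Type*} [NormedAddCommGroup K] [InnerProductSpace ℂ K]
    [CompleteSpace K] {U : ℝ → K →L[ℂ] K} (hU : UG U) {A : VonNeumannAlgebra K}
    (hA : ∀ t : ℝ, ∀ a ∈ A, U t * a * U (-t) ∈ A) {Y : K →L[ℂ] K} (hY : Y ∈ A.commutant)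
    (t : ℝ) : U t * Y * U (-t) ∈ A.commutant := by
  refine mem_comm_iff.2 fun b hb => ?_
  have h1 := hA (-t) b hb
  rw [neg_neg] at h1
  have h2 := mem_comm_iff.1 hY _ h1
  have e1 : b * (U t * Y * U (-t)) = U t * ((U (-t) * b * U t) * Y) * U (-t) := by
    calc b * (U t * Y * U (-t)) = (U t * U (-t)) * b * (U t * Y * U (-t)) := by
          rw [coA_neg hU, one_mul]
      _ = _ := by simp only [mul_assoc]
  have e2 : U t * Y * U (-t) * b = U t * (Y * (U (-t) * b * U t)) * U (-t) := by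
    calc U t * Y * U (-t) * b = (U t * Y * U (-t) * b) * (U t * U (-t)) := by
          rw [coA_neg hU, mul_one]
      _ = _ := by simp only [mul_assoc]
  rw [e1, e2, h2]

open Pool.Agent.Helper78.BC in
theorem coc_mem (Sb : Sub N ξ i κ) (hsep : ∀ a ∈ N, a ξ = 0 → a = 0) (hC : IsConj C)
    {R₀ : K →L[ℂ] K} {D₀ : K →L[ℝ] K} {Ψ₀ : (ℝ →ᵇ ℂ) →⋆ₐ[ℂ] (K →L[ℂ] K)}
    (h₀ : Modular (Transport.B N i) κ R₀ D₀ Ψ₀)
    {T : K →L[ℂ] K} {S : K →L[ℂ] LN H} {Ψ : (ℝ →ᵇ ℂ) →⋆ₐ[ℂ] (K →L[ℂ] K)}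
    (hT : GT (Gr N ξ i C ζ) T S) (hΨ : FCal ((2 : ℂ) • T) Ψ) (t : ℝ) :
    Ψ (expB t) * Ψ₀ (expB (-t)) ∈ Transport.B N i := by
  have hU : UG (fun t => Ψ₀ (expB t)) := h₀.fcal.ug
  have hV : UG (fun t => Ψ (expB t)) := hΨ.ug
  have hcyc := Transport.dense_B Sb hsep
  have hsepB := Transport.sep_B Sb hsep
  have main : ∀ Y ∈ (Transport.B N i).commutant, ∀ s : ℝ,
      Ψ (expB (-s)) * (Ψ₀ (expB s) * Y * Ψ₀ (expB (-s))) * Ψ (expB s) = Y := by
    intro Y hY s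
    refine unsmear hU fun m hm => ?_
    refine liou hΨ hU hm (fun z v => ?_) s
    have hY' : ∀ t : ℝ, (fun t => Ψ₀ (expB t)) t * Y * (fun t => Ψ₀ (expB t)) (-t) ∈
        (Transport.B N i).commutant := coA_comm hU h₀.mem hY
    obtain ⟨q, hq, hq1, hq2⟩ := smear_rel h₀ hcyc hsepB hY hm z
    obtain ⟨p, hp, -, rfl⟩ := Transport.exists_lift Sb hsep hq
    refine n_rel Sb hsep hC hT (smear_mem hU (gau_int hm z) hY')
      (smear_mem hU (gau_int hm (z - Complex.I)) hY') hp ?_ ?_ v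
    · rw [hq1, Sb.i_r hp, Sb.vec]
    · rw [hq2, Transport.Sub.r_star, Sb.i_r (star_mem hp), Sb.vec]
  refine mem_iff_commutes.2 fun Y hY => ?_
  have h1 := main Y hY (-t)
  rw [neg_neg] at h1
  have hV1 : Ψ (expB (-t)) * Ψ (expB t) = 1 := coA_neg' hV t
  have hU1 : Ψ₀ (expB t) * Ψ₀ (expB (-t)) = 1 := coA_neg hU t
  calc Y * (Ψ (expB t) * Ψ₀ (expB (-t)))
      = (Ψ (expB t) * (Ψ₀ (expB (-t)) * Y * Ψ₀ (expB t)) * Ψ (expB (-t))) *
          (Ψ (expB t) * Ψ₀ (expB (-t))) := by rw [h1]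
    _ = Ψ (expB t) * (Ψ₀ (expB (-t)) * Y * Ψ₀ (expB t)) * (Ψ (expB (-t)) * Ψ (expB t)) *
          Ψ₀ (expB (-t)) := by simp only [mul_assoc]
    _ = Ψ (expB t) * Ψ₀ (expB (-t)) * Y * (Ψ₀ (expB t) * Ψ₀ (expB (-t))) := by
        rw [hV1, mul_one]; simp only [mul_assoc]
    _ = Ψ (expB t) * Ψ₀ (expB (-t)) * Y := by rw [hU1, mul_one]

end Pool.Agent.Helper23.ED
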