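import Pool.Agent.Helper23.ED.Defs

/-!
# Project ED: transfer of the cocycle
-/

open scoped InnerProductSpace Topology ENNReal BoundedContinuousFunction
open ContinuousLinearMap Filter MeasureTheory

namespace Pool.Agent.Helper23.ED

open Pool.Agent.Helper23 Pool.Agent.Helper23.RBF
open Pool.Agent.Helper78.BC.Transport (Sub r)

universe u

variable {H : Type u} [NormedAddCommGroup H] [InnerProductSpace ℂ H] [CompleteSpace H]
variable {K : Type u} [NormedAddCommGroup K] [InnerProductSpace ℂ K] [CompleteSpace K]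
variable {M N : VonNeumannAlgebra H} {E : (H →L[ℂ] H) → (H →L[ℂ] H)} {ξ : H}
  {i : K →L[ℂ] H} {κ : K}

namespace CoC

lemma expB_zero : expB 0 = 1 := by
  ext ρ
  change Complex.exp (((0 * ρ : ℝ) : ℂ) * Complex.I) = 1
  simp

lemma expB_add (s t : ℝ) : expB (s + t) = expB s * expB t := by
  ext ρ
  change Complex.exp ((((s + t) * ρ : ℝ) : ℂ) * Complex.I) =
    Complex.exp (((s * ρ : ℝ) : ℂ) * Complex.I) * Complex.exp (((t * ρ : ℝ) : ℂ) * Complex.I)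
  rw [← Complex.exp_add]
  congr 1
  push_cast
  ring

lemma V_add (Ψ : (ℝ →ᵇ ℂ) →⋆ₐ[ℂ] (H →L[ℂ] H)) (s t : ℝ) :
    Ψ (expB (s + t)) = Ψ (expB s) * Ψ (expB t) := by
  rw [expB_add, map_mul]

lemma V_inv (Ψ : (ℝ →ᵇ ℂ) →⋆ₐ[ℂ] (H →L[ℂ] H)) (t : ℝ) :
    Ψ (expB t) * Ψ (expB (-t)) = 1 := by
  rw [← V_add, add_neg_cancel, expB_zero, map_one]

lemma V_inv' (Ψ : (ℝ →ᵇ ℂ) →⋆ₐ[ℂ] (H →L[ℂ] H)) (t : ℝ) :
    Ψ (expB (-t)) * Ψ (expB t) = 1 := by
  rw [← V_add, neg_add_cancel, expB_zero, map_one]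

lemma norm_le_one {T : H →L[ℂ] H} (h : star T * T = 1) (v : H) : ‖T v‖ ≤ ‖v‖ := by
  have h1 : ⟪T v, T v⟫_ℂ = ⟪v, v⟫_ℂ := by
    have h2 : (star T) (T v) = v := congrArg (fun U : H →L[ℂ] H => U v) h
    rw [← adjoint_inner_right, ← ContinuousLinearMap.star_eq_adjoint, h2]
  rw [inner_self_eq_norm_sq_to_K, inner_self_eq_norm_sq_to_K] at h1
  have h2 : ‖T v‖ ^ 2 = ‖v‖ ^ 2 := by exact_mod_cast h1
  exact ((sq_eq_sq₀ (norm_nonneg _) (norm_nonneg _)).1 h2).le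

/-- conjugation by the modular group -/
lemma r_conj (Sb : Sub N ξ i κ) {Ψ : (ℝ →ᵇ ℂ) →⋆ₐ[ℂ] (H →L[ℂ] H)}
    {Ψ₀ : (ℝ →ᵇ ℂ) →⋆ₐ[ℂ] (K →L[ℂ] K)}
    (hi : ∀ t v, i (Ψ₀ (expB t) v) = Ψ (expB t) (i v)) {x : H →L[ℂ] H} (hx : x ∈ N) (t : ℝ) :
    r i (Ψ (expB t) * x * Ψ (expB (-t))) = Ψ₀ (expB t) * r i x * Ψ₀ (expB (-t)) := by
  ext k
  change adjoint i (Ψ (expB t) (x (Ψ (expB (-t)) (i k)))) =
    Ψ₀ (expB t) (r i x (Ψ₀ (expB (-t)) k))
  rw [← hi, ← Sb.i_r hx, ← hi, Sb.isom]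

lemma r_smul (z : ℂ) (x : H →L[ℂ] H) : r i (z • x) = z • r i x := by
  ext k
  change adjoint i (z • x (i k)) = z • adjoint i (x (i k))
  rw [map_smul]

end CoC

open CoC

open Pool.Agent.Helper78.BC in
theorem transfer (S : Setting M N E ξ) (Sb : Sub N ξ i κ) {R : H →L[ℂ] H} {D : H →L[ℝ] H}
    {Ψ : (ℝ →ᵇ ℂ) →⋆ₐ[ℂ] (H →L[ℂ] H)} (hΨ : Modular M ξ R D Ψ)
    (hN : ∀ (t : ℝ), ∀ a ∈ N, Ψ (expB t) * a * Ψ (expB (-t)) ∈ N)
    {Ψ₀ Ψ' : (ℝ →ᵇ ℂ) →⋆ₐ[ℂ] (K →L[ℂ] K)} (h₀ : UG (fun t => Ψ₀ (expB t)))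
    (hi : ∀ t v, i (Ψ₀ (expB t) v) = Ψ (expB t) (i v)) (h' : UG (fun t => Ψ' (expB t)))
    (hc : ∀ t, Ψ' (expB t) * Ψ₀ (expB (-t)) ∈ Transport.B N i) :
    ∃ c : ℝ → H →L[ℂ] H, (∀ t, c t ∈ N) ∧
      (∀ t, star (c t) * c t = 1 ∧ c t * star (c t) = 1) ∧
      (∀ v, Continuous fun t => c t v) ∧
      (∀ s t, c (s + t) = c s * (Ψ (expB s) * c t * Ψ (expB (-s)))) ∧
      (∀ t, r i (c t) = Ψ' (expB t) * Ψ₀ (expB (-t))) ∧
      ∀ u ∈ N, ∀ (t : ℝ) (z : ℂ), (r i u * Ψ' (expB t) = z • (Ψ' (expB t) * r i u) ↔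
        u * (c t * Ψ (expB t)) = z • (c t * Ψ (expB t) * u)) := by
  have hsep : ∀ a ∈ N, a ξ = 0 → a = 0 := fun a ha h => S.sep a (S.le a ha) h
  have hex : ∀ t : ℝ, ∃ a ∈ N, ‖a‖ ≤ ‖Ψ' (expB t) * Ψ₀ (expB (-t))‖ ∧
      r i a = Ψ' (expB t) * Ψ₀ (expB (-t)) := fun t =>
    Transport.exists_lift Sb hsep (hc t)
  choose c hcN _ hcr using hex
  have hst : ∀ t, star (Ψ' (expB t) * Ψ₀ (expB (-t))) = Ψ₀ (expB t) * Ψ' (expB (-t)) := by
    intro t
    rw [star_mul]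
    have e1 : star (Ψ₀ (expB (-t))) = Ψ₀ (expB t) := by
      have := h₀.star (-t)
      simpa using this
    have e2 : star (Ψ' (expB t)) = Ψ' (expB (-t)) := h'.star t
    rw [e1, e2]
  have hun : ∀ t, star (c t) * c t = 1 ∧ c t * star (c t) = 1 := by
    intro t
    constructor
    · refine Sb.r_inj hsep (mul_mem (star_mem (hcN t)) (hcN t)) (one_mem _) ?_
      rw [← Sb.r_mul' (hcN t), ← Transport.Sub.r_star, hcr, hst, Sb.r_one]
      calc Ψ₀ (expB t) * Ψ' (expB (-t)) * (Ψ' (expB t) * Ψ₀ (expB (-t)))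
          = Ψ₀ (expB t) * (Ψ' (expB (-t)) * Ψ' (expB t)) * Ψ₀ (expB (-t)) := by
            simp only [mul_assoc]
        _ = 1 := by rw [V_inv', mul_one, V_inv]
    · refine Sb.r_inj hsep (mul_mem (hcN t) (star_mem (hcN t))) (one_mem _) ?_
      rw [← Sb.r_mul (hcN t), ← Transport.Sub.r_star, hcr, hst, Sb.r_one]
      calc Ψ' (expB t) * Ψ₀ (expB (-t)) * (Ψ₀ (expB t) * Ψ' (expB (-t)))
          = Ψ' (expB t) * (Ψ₀ (expB (-t)) * Ψ₀ (expB t)) * Ψ' (expB (-t)) := by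
            simp only [mul_assoc]
        _ = 1 := by rw [V_inv', mul_one, V_inv]
  have hle : ∀ t v, ‖c t v‖ ≤ ‖v‖ := fun t v => norm_le_one (hun t).1 v
  refine ⟨c, hcN, hun, ?_, ?_, hcr, ?_⟩
  · -- continuity
    have hk : Continuous fun t : ℝ => i (Ψ' (expB t) (Ψ₀ (expB (-t)) κ)) := by
      refine i.continuous.comp ?_
      have hn : ∀ t v, ‖Ψ' (expB t) v‖ ≤ ‖v‖ := fun t v => norm_le_one (by
        have e2 : star (Ψ' (expB t)) = Ψ' (expB (-t)) := h'.star t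
        rw [e2, V_inv']) v
      have hneg : Continuous fun t : ℝ => Ψ₀ (expB (-t)) κ := (h₀.cont κ).comp continuous_neg
      rw [continuous_iff_continuousAt]
      intro t₀
      have h1 : Tendsto (fun t : ℝ => Ψ' (expB t) (Ψ₀ (expB (-t₀)) κ)) (𝓝 t₀)
          (𝓝 (Ψ' (expB t₀) (Ψ₀ (expB (-t₀)) κ))) := (h'.cont _).continuousAt
      have h2 : Tendsto (fun t : ℝ => Ψ' (expB t) (Ψ₀ (expB (-t)) κ - Ψ₀ (expB (-t₀)) κ)) (𝓝 t₀)
          (𝓝 0) := by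
        refine squeeze_zero_norm (fun t => hn t _) ?_
        have h3 : Tendsto (fun t : ℝ => Ψ₀ (expB (-t)) κ - Ψ₀ (expB (-t₀)) κ) (𝓝 t₀)
            (𝓝 (Ψ₀ (expB (-t₀)) κ - Ψ₀ (expB (-t₀)) κ)) :=
          (hneg.continuousAt (x := t₀)).sub tendsto_const_nhds
        rw [sub_self] at h3
        have h4 := h3.norm
        rwa [norm_zero] at h4
      have h5 := h1.add h2
      rw [add_zero] at h5
      refine h5.congr fun t => ?_
      rw [map_sub]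
      abel
    have hd : Dense (orb N.commutant ξ : Set H) := dense_of_separating N ξ hsep
    have horb : ∀ b ∈ N.commutant, Continuous fun t => c t (b ξ) := by
      intro b hb
      have h1 : (fun t => c t (b ξ)) =
          fun t => b (i (Ψ' (expB t) (Ψ₀ (expB (-t)) κ))) := by
        funext t
        rw [commute_apply (hcN t) hb]
        have h2 : i (r i (c t) κ) = c t ξ := by rw [Sb.i_r (hcN t), Sb.vec]
        rw [← h2, hcr]
        rfl
      rw [h1]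
      exact b.continuous.comp hk
    intro v
    refine continuous_of_uniform_approx_of_continuous fun U hU => ?_
    obtain ⟨ε, hε, hεU⟩ := Metric.mem_uniformity_dist.1 hU
    obtain ⟨_, ⟨b, hb, rfl⟩, h1⟩ := Metric.mem_closure_iff.1 (hd v) ε hε
    refine ⟨fun t => c t (b ξ), horb b hb, fun t => hεU ?_⟩
    rw [dist_eq_norm, ← map_sub]
    refine (hle t _).trans_lt ?_
    rwa [← dist_eq_norm]
  · -- cocycle
    intro s t
    have hm := hN s (c t) (hcN t)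
    refine Sb.r_inj hsep (hcN _) (mul_mem (hcN s) hm) ?_
    rw [← Sb.r_mul (hcN s), r_conj Sb hi (hcN t), hcr, hcr, hcr]
    calc Ψ' (expB (s + t)) * Ψ₀ (expB (-(s + t)))
        = Ψ' (expB s) * Ψ' (expB t) * (Ψ₀ (expB (-t)) * Ψ₀ (expB (-s))) := by
          rw [V_add, neg_add_rev, V_add]
      _ = Ψ' (expB s) * (Ψ₀ (expB (-s)) * Ψ₀ (expB s)) * (Ψ' (expB t) * Ψ₀ (expB (-t))) *
            Ψ₀ (expB (-s)) := by
          rw [V_inv', mul_one]
          simp only [mul_assoc]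
      _ = _ := by simp only [mul_assoc]
  · -- commutation
    intro u hu t z
    have hm := hN t u hu
    have hE : Ψ' (expB t) = r i (c t) * Ψ₀ (expB t) := by
      rw [hcr, mul_assoc, V_inv', mul_one]
    have hF : Ψ₀ (expB t) * r i u = r i (Ψ (expB t) * u * Ψ (expB (-t))) * Ψ₀ (expB t) := by
      rw [r_conj Sb hi hu, mul_assoc, V_inv', mul_one]
    have hL : r i u * Ψ' (expB t) = r i (u * c t) * Ψ₀ (expB t) := by
      rw [hE, ← mul_assoc, Sb.r_mul hu]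
    have hR : z • (Ψ' (expB t) * r i u) =
        r i (z • (c t * (Ψ (expB t) * u * Ψ (expB (-t))))) * Ψ₀ (expB t) := by
      rw [hE, mul_assoc, hF, ← mul_assoc, Sb.r_mul (hcN t), r_smul, smul_mul_assoc]
    have hG : z • (c t * Ψ (expB t) * u) =
        (z • (c t * (Ψ (expB t) * u * Ψ (expB (-t))))) * Ψ (expB t) := by
      rw [smul_mul_assoc, mul_assoc (c t), mul_assoc (c t), mul_assoc (Ψ (expB t) * u), V_inv',
        mul_one]
    rw [hL, hR, hG, ← mul_assoc u]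
    constructor
    · intro h
      have h1 : r i (u * c t) = r i (z • (c t * (Ψ (expB t) * u * Ψ (expB (-t))))) := by
        have h2 := congrArg (fun T => T * Ψ₀ (expB (-t))) h
        rwa [mul_assoc, V_inv, mul_one, mul_assoc, V_inv, mul_one] at h2
      rw [Sb.r_inj hsep (mul_mem hu (hcN t)) (smul_mem' z (mul_mem (hcN t) hm)) h1]
    · intro h
      have h1 : u * c t = z • (c t * (Ψ (expB t) * u * Ψ (expB (-t)))) := by
        have h2 := congrArg (fun T => T * Ψ (expB (-t))) h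
        rwa [mul_assoc (u * c t), V_inv, mul_one, mul_assoc (z • _), V_inv, mul_one] at h2
      rw [h1]

end Pool.Agent.Helper23.ED
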