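import Pool.Agent.Helper23.ED.FcB
import Pool.Agent.Helper43.TTF.G

/-!
# Project ED: the modular group of the smaller algebra
-/

open scoped InnerProductSpace Topology ENNReal BoundedContinuousFunction
open ContinuousLinearMap Filter MeasureTheory

namespace Pool.Agent.Helper23.ED

open Pool.Agent.Helper23 Pool.Agent.Helper23.RBF
open Pool.Agent.Helper78.BC.Transport (Sub r)

universe u

open Pool.Agent.Helper23.TTA (Rop Dop)

variable {H : Type u} [NormedAddCommGroup H] [InnerProductSpace ℂ H] [CompleteSpace H]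
variable {K : Type u} [NormedAddCommGroup K] [InnerProductSpace ℂ K] [CompleteSpace K]
variable {M N : VonNeumannAlgebra H} {E : (H →L[ℂ] H) → (H →L[ℂ] H)}
variable {ξ : H} {i : K →L[ℂ] H} {κ : K}

namespace TrA

lemma i_mem (Sb : Sub N ξ i κ) (w : K) : i w ∈ Pool.Agent.Helper23.K0 N ξ := by
  have h : i w ∈ closure (orb N ξ : Set H) := by
    rw [Metric.mem_closure_iff]
    intro ε hε
    obtain ⟨a, ha, h1⟩ := Sb.cyc w ε hε
    refine ⟨a ξ, ⟨a, ha, rfl⟩, ?_⟩
    rw [dist_eq_norm, norm_sub_rev]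
    exact h1
  exact h

open Pool.Agent.Helper78.BC in
lemma i_K (S : Setting M N E ξ) (Sb : Sub N ξ i κ) {u : K}
    (hu : u ∈ TTA.K (Transport.B N i) κ) : i u ∈ TTA.K M ξ := by
  have hsep : ∀ a ∈ N, a ξ = 0 → a = 0 := fun a ha h => S.sep a (S.le a ha) h
  have hcl : IsClosed {u : K | i u ∈ TTA.K M ξ} :=
    (TTA.K_closed M ξ).preimage i.continuous
  have hsub : (TTA.K0 (Transport.B N i) κ : Set K) ⊆ {u : K | i u ∈ TTA.K M ξ} := by
    rintro _ ⟨b, hb, hb', rfl⟩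
    obtain ⟨a, ha, -, rfl⟩ := Transport.exists_lift Sb hsep hb
    have ha' : star a = a := by
      refine Sb.r_inj hsep (star_mem ha) ha ?_
      rw [← Transport.Sub.r_star, hb']
    change i (r i a κ) ∈ TTA.K M ξ
    rw [Sb.i_r ha, Sb.vec]
    exact TTA.mem_K_of M ξ (S.le _ ha) ha'
  exact closure_minimal hsub hcl hu

open Pool.Agent.Helper78.BC in
lemma i_P (S : Setting M N E ξ) (Sb : Sub N ξ i κ) (v : K) :
    i (TTA.P (Transport.B N i) κ v) = TTA.P M ξ (i v) := by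
  have hsep : ∀ a ∈ N, a ξ = 0 → a = 0 := fun a ha h => S.sep a (S.le a ha) h
  set u := TTA.P (Transport.B N i) κ v with hu
  have h1 : TTA.P M ξ (i u) = i u := TTA.P_of_mem M ξ (i_K S Sb (TTA.P_mem _ _ _))
  have h2 : TTA.P M ξ (i v - i u) = 0 := by
    refine TTA.P_eq_zero M ξ fun m hm hm' => ?_
    have hE := S.E_mem m hm
    have h3 : i v - i u = i (v - u) := (map_sub i v u).symm
    have h4 : TTA.rho (m ξ) (i (v - u)) = TTA.rho (E m ξ) (i (v - u)) := by
      unfold TTA.rho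
      rw [← Pool.Agent.Helper43.TTF.E_apply S hm, Pool.Agent.Helper43.TTF.p0_symm,
        Pool.Agent.Helper43.TTF.p0_of_mem (i_mem Sb _)]
    have h5 : E m ξ = i (r i (E m) κ) := by rw [Sb.i_r hE, Sb.vec]
    have h6 : TTA.rho (i (r i (E m) κ)) (i (v - u)) = TTA.rho (r i (E m) κ) (v - u) := by
      unfold TTA.rho
      rw [Transport.inner_i, Sb.isom]
    have h7 : r i (E m) κ ∈ TTA.K (Transport.B N i) κ := by
      refine TTA.mem_K_of _ _ (Transport.r_mem Sb hsep hE) ?_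
      rw [Transport.Sub.r_star, Pool.Agent.Helper43.TTF.E_star S hm hm']
    rw [h3, h4, h5, h6, TTA.rho_sub_right, hu, ← TTA.rho_P, TTA.P_of_mem _ _ h7, sub_self]
  rw [map_sub, h1, sub_eq_zero] at h2
  exact h2.symm

end TrA

open Pool.Agent.Helper78.BC in
theorem i_Rop (S : Setting M N E ξ) (Sb : Sub N ξ i κ) (v : K) :
    i (Rop (Transport.B N i) κ v) = Rop M ξ (i v) := by
  rw [TTA.Rop_apply, TTA.Rop_apply, map_add, TrA.i_P S Sb]
  congr 1
  unfold TTA.Q
  rw [map_neg, map_smul, TrA.i_P S Sb, map_smul]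

theorem exists_modular' (S : Setting M N E ξ) :
    ∃ Ψ : (ℝ →ᵇ ℂ) →⋆ₐ[ℂ] (H →L[ℂ] H), Modular M ξ (Rop M ξ) (Dop M ξ) Ψ ∧
      ∀ (t : ℝ), ∀ a ∈ N, Ψ (expB t) * a * Ψ (expB (-t)) ∈ N := by
  have h' := Pool.Agent.Helper43.TTF.ttdata M ξ S.cyc S.sep
  obtain ⟨Ψ, h⟩ := Pool.Agent.Helper43.TTF.exists_FC h'
  have hmod := Pool.Agent.Helper43.TTF.modular_of h' S.cyc S.sep h
  refine ⟨Ψ, hmod, fun t a ha => ?_⟩
  set x := Ψ (expB t) * a * Ψ (expB (-t)) with hx
  have hxM : x ∈ M := hmod.mem t a (S.le a ha)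
  have hcomm := h.psi_comm _ (Pool.Agent.Helper43.TTF.p0_R S)
  have hxξ : x ξ = Ψ (expB t) (a ξ) := by
    rw [hx, mul_apply_eq_comp, mul_apply_eq_comp, hmod.psi_xi,
      Pool.Agent.Helper43.TTF.expB_apply, mul_zero,
      Complex.ofReal_zero, zero_mul, Complex.exp_zero, one_smul]
  have h1 : Pool.Agent.Helper43.TTF.p0 N ξ (x ξ) = x ξ := by
    have h2 := congrArg (fun T : H →L[ℂ] H => T (a ξ)) (hcomm (expB t))
    simp only [mul_apply_eq_comp] at h2
    rw [hxξ, h2, Pool.Agent.Helper43.TTF.p0_of_mem (mem_K0 ha)]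
  have h3 : (E x - x) ξ = 0 := by
    rw [sub_apply, ← Pool.Agent.Helper43.TTF.E_apply S hxM, h1, sub_self]
  have h4 := S.sep _ (sub_mem (S.le _ (S.E_mem x hxM)) hxM) h3
  rw [← sub_eq_zero.1 h4]
  exact S.E_mem x hxM

end Pool.Agent.Helper23.ED
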