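import Pool.Agent.Helper23.ED.CoA
import Pool.Agent.Helper23.ED.CoC
import Pool.Agent.Helper23.ED.TrA

/-!
# Project ED: the cocycle of a weight
-/

open scoped InnerProductSpace Topology ENNReal BoundedContinuousFunction
open ContinuousLinearMap Filter MeasureTheory

namespace Pool.Agent.Helper23.ED

open Pool.Agent.Helper23 Pool.Agent.Helper23.RBF
open Pool.Agent.Helper78.BC.Transport (Sub r)

universe u

open Pool.Agent.Helper23.TTA (Rop Dop)

variable {H : Type u} [NormedAddCommGroup H] [InnerProductSpace ℂ H] [CompleteSpace H]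
variable {M N : VonNeumannAlgebra H} {E : (H →L[ℂ] H) → (H →L[ℂ] H)} {ξ : H}

namespace CoB

/-- the inclusion of the closure of `N ξ` -/
theorem exists_sub (N : VonNeumannAlgebra H) (ξ : H) :
    ∃ V : Submodule ℂ H, ∃ _ : CompleteSpace V, ∃ κ : V, Sub N ξ V.subtypeL κ := by
  set V : Submodule ℂ H := (orb N ξ).topologicalClosure with hV
  have hξV : ξ ∈ V := Submodule.le_topologicalClosure _ ⟨1, one_mem _, rfl⟩
  have hadj : ∀ v : H, V.subtypeL (adjoint V.subtypeL v) = V.starProjection v := by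
    intro v
    rw [Submodule.adjoint_subtypeL]
    rfl
  refine ⟨V, inferInstance, ⟨ξ, hξV⟩, ?_⟩
  refine ⟨fun k => ?_, fun x hx k => ?_, rfl, fun k ε hε => ?_⟩
  · refine Subtype.ext ?_
    change V.subtypeL (adjoint V.subtypeL (V.subtypeL k)) = k.1
    rw [hadj]
    exact Submodule.starProjection_eq_self_iff.2 k.2
  · rw [hadj]
    have h1 := mem_comm_iff.1 (proj_orb_mem N ξ) x hx
    have h2 := congrArg (fun T : H →L[ℂ] H => T (V.subtypeL k)) h1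
    have h3 : V.starProjection (V.subtypeL k) = V.subtypeL k :=
      Submodule.starProjection_eq_self_iff.2 k.2
    change x (V.starProjection (V.subtypeL k)) = V.starProjection (x (V.subtypeL k)) at h2
    rw [← h2, h3]
  · have h1 : (V.subtypeL k : H) ∈ closure (orb N ξ : Set H) := k.2
    obtain ⟨_, ⟨a, ha, rfl⟩, h2⟩ := Metric.mem_closure_iff.1 h1 ε hε
    refine ⟨a, ha, ?_⟩
    rw [dist_eq_norm] at h2
    rw [norm_sub_rev]
    exact h2

end CoB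

open Pool.Agent.Helper78.BC Pool.Agent.Helper43.TTF in
theorem exists_coc (S : Setting M N E ξ) {Ψ : (ℝ →ᵇ ℂ) →⋆ₐ[ℂ] (H →L[ℂ] H)}
    (hΨ : Modular M ξ (Rop M ξ) (Dop M ξ) Ψ)
    (hN : ∀ (t : ℝ), ∀ a ∈ N, Ψ (expB t) * a * Ψ (expB (-t)) ∈ N) {ζ : ℕ → H}
    (hζ : NSF N ζ) {ψ : (H →L[ℂ] H) → ℝ≥0∞} (hψ : ∀ x ∈ N, 0 ≤ x → ψ x = wt ζ x) :
    ∃ c, Coc N (fun t => Ψ (expB t)) ψ c := by
  have hsep : ∀ a ∈ N, a ξ = 0 → a = 0 := fun a ha h => S.sep a (S.le a ha) h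
  obtain ⟨V, hVc, κ, Sb⟩ := CoB.exists_sub N ξ
  have h' := ttdata (Transport.B N V.subtypeL) κ (Transport.dense_B Sb hsep)
    (Transport.sep_B Sb hsep)
  obtain ⟨Ψ₀, h⟩ := exists_FC h'
  have hmod := modular_of h' (Transport.dense_B Sb hsep) (Transport.sep_B Sb hsep) h
  have hi : ∀ (t : ℝ) (v : V), V.subtypeL (Ψ₀ (expB t) v) = Ψ (expB t) (V.subtypeL v) :=
    fun t v => FCal.int hmod.fcal hΨ.fcal V.subtypeL (i_Rop S Sb) (expB t) v
  obtain ⟨C, hC⟩ := exists_conj H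
  obtain ⟨T, S', Ψ', hT, hΨ'⟩ := exists_T Sb hsep hC hζ
  obtain ⟨c, h1, h2, h3, h4, h5, h6⟩ := transfer S Sb hΨ hN hmod.fcal.ug hi hΨ'.ug
    (coc_mem Sb hsep hC hmod hT hΨ')
  refine ⟨c, h1, h2, h3, h4, fun u hu hu1 hu2 l hl => ?_⟩
  have h7 := scal_iff Sb hsep hC hζ hT hΨ' hu hu1 hu2 hl
  have h8 : ScalingUnitary N ψ l u ↔
      ∀ x ∈ N, 0 ≤ x → wt ζ (star u * x * u) = ENNReal.ofReal l * wt ζ x := by
    have hx : ∀ x ∈ N, 0 ≤ x → star u * x * u ∈ N ∧ 0 ≤ star u * x * u := fun x hx h0 =>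
      ⟨mul_mem (mul_mem (star_mem hu) hx) hu, star_left_conjugate_nonneg h0 u⟩
    constructor
    · rintro ⟨-, -, -, h9⟩ x hxN h0
      rw [← hψ _ (hx x hxN h0).1 (hx x hxN h0).2, h9 x hxN h0, hψ x hxN h0]
    · intro h9
      refine ⟨hu, hu1, hu2, fun x hxN h0 => ?_⟩
      rw [hψ _ (hx x hxN h0).1 (hx x hxN h0).2, h9 x hxN h0, hψ x hxN h0]
  rw [h8, h7]
  exact forall_congr' fun t => h6 u hu t _

end Pool.Agent.Helper23.ED
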