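import Pool.Agent.Helper23.ED.NgF
import Pool.Agent.Helper23.ED.SmF
import Pool.Agent.Helper23.ED.SmD
import Pool.Agent.Helper23.ED.SmE

/-!
# Project ED: the cocycle on the closure of N ξ, abstract form
-/

open scoped InnerProductSpace Topology ENNReal BoundedContinuousFunction
open ContinuousLinearMap Filter MeasureTheory

namespace Pool.Agent.Helper23.ED

open Pool.Agent.Helper23 Pool.Agent.Helper23.RBF
open Pool.Agent.Helper78.BC.Transport (Sub r)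

universe u

variable {H : Type u} [NormedAddCommGroup H] [InnerProductSpace ℂ H] [CompleteSpace H]
variable {K : Type u} [NormedAddCommGroup K] [InnerProductSpace ℂ K] [CompleteSpace K]
variable {N : VonNeumannAlgebra H} {ξ : H} {i : K →L[ℂ] H} {κ : K}

open Pool.Agent.Helper78.BC in
theorem coc_mem' (Sb : Sub N ξ i κ) (hsep : ∀ a ∈ N, a ξ = 0 → a = 0)
    {R₀ : K →L[ℂ] K} {D₀ : K →L[ℝ] K} {Ψ₀ : (ℝ →ᵇ ℂ) →⋆ₐ[ℂ] (K →L[ℂ] K)}
    (h₀ : Modular (Transport.B N i) κ R₀ D₀ Ψ₀)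
    {T : K →L[ℂ] K} {Ψ : (ℝ →ᵇ ℂ) →⋆ₐ[ℂ] (K →L[ℂ] K)} (hΨ : FCal ((2 : ℂ) • T) Ψ)
    (hrel : ∀ X ∈ (Transport.B N i).commutant, ∀ X' ∈ (Transport.B N i).commutant, ∀ p ∈ N,
      i (X κ) = p ξ → i ((star X') κ) = (star p) ξ →
        ∀ v, X (T v) - T (X (T v)) = T (X' (v - T v))) (t : ℝ) :
    Ψ (expB t) * Ψ₀ (expB (-t)) ∈ Transport.B N i := by
  have hU : UG (fun s => Ψ₀ (expB s)) := h₀.fcal.ug
  have hV : UG (fun s => Ψ (expB s)) := hΨ.ug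
  have hUU : ∀ s, Ψ₀ (expB s) * Ψ₀ (expB (-s)) = 1 := by
    intro s
    have h1 := hU.add s (-s)
    have h2 := hU.zero
    simp only [add_neg_cancel] at h1
    rw [← h1]
    exact h2
  have hVV : ∀ s, Ψ (expB (-s)) * Ψ (expB s) = 1 := by
    intro s
    have h1 := hV.add (-s) s
    have h2 := hV.zero
    simp only [neg_add_cancel] at h1
    rw [← h1]
    exact h2
  have hUU' : ∀ s, Ψ₀ (expB (-s)) * Ψ₀ (expB s) = 1 := by
    intro s
    have h1 := hUU (-s)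
    rwa [neg_neg] at h1
  -- the commutant is invariant
  have hinv : ∀ Y ∈ (Transport.B N i).commutant, ∀ s : ℝ,
      Ψ₀ (expB s) * Y * Ψ₀ (expB (-s)) ∈ (Transport.B N i).commutant := by
    intro Y hY s
    rw [mem_comm_iff]
    intro a ha
    have h1 := h₀.mem (-s) a ha
    rw [neg_neg] at h1
    have h2 := mem_comm_iff.1 hY _ h1
    calc a * (Ψ₀ (expB s) * Y * Ψ₀ (expB (-s)))
        = (Ψ₀ (expB s) * Ψ₀ (expB (-s))) * a * (Ψ₀ (expB s) * Y * Ψ₀ (expB (-s))) := by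
          rw [hUU, one_mul]
      _ = Ψ₀ (expB s) * ((Ψ₀ (expB (-s)) * a * Ψ₀ (expB s)) * Y) * Ψ₀ (expB (-s)) := by
          simp only [mul_assoc]
      _ = Ψ₀ (expB s) * (Y * (Ψ₀ (expB (-s)) * a * Ψ₀ (expB s))) * Ψ₀ (expB (-s)) := by
          rw [h2]
      _ = (Ψ₀ (expB s) * Y * Ψ₀ (expB (-s))) * a * (Ψ₀ (expB s) * Ψ₀ (expB (-s))) := by
          simp only [mul_assoc]
      _ = (Ψ₀ (expB s) * Y * Ψ₀ (expB (-s))) * a := by rw [hUU, mul_one]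
  have key : ∀ Y ∈ (Transport.B N i).commutant, ∀ s : ℝ,
      Ψ (expB (-s)) * (Ψ₀ (expB s) * Y * Ψ₀ (expB (-s))) * Ψ (expB s) = Y := by
    intro Y hY s
    refine unsmear hU (fun m hm => ?_)
    refine liou hΨ hU hm ?_ s
    intro z v
    obtain ⟨q, hq, h1, h2⟩ := smear_rel h₀ (Transport.dense_B Sb hsep)
      (Transport.sep_B Sb hsep) hY hm z
    obtain ⟨p, hp, -, rfl⟩ := Transport.exists_lift Sb hsep hq
    refine hrel _ (smear_mem hU (gau_int hm z) (fun s => hinv Y hY s)) _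
      (smear_mem hU (gau_int hm (z - Complex.I)) (fun s => hinv Y hY s)) p hp ?_ ?_ v
    · rw [h1, Sb.i_r hp, Sb.vec]
    · rw [h2, Transport.Sub.r_star, Sb.i_r (star_mem hp), Sb.vec]
  rw [mem_iff_commutes]
  intro Y hY
  have h3 := key Y hY (-t)
  rw [neg_neg] at h3
  have hVV' : Ψ (expB (-t)) * Ψ (expB t) = 1 := hVV t
  have hUt : Ψ₀ (expB t) * Ψ₀ (expB (-t)) = 1 := hUU t
  calc Y * (Ψ (expB t) * Ψ₀ (expB (-t)))
      = (Ψ (expB t) * (Ψ₀ (expB (-t)) * Y * Ψ₀ (expB t)) * Ψ (expB (-t))) *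
          (Ψ (expB t) * Ψ₀ (expB (-t))) := by rw [h3]
    _ = Ψ (expB t) * Ψ₀ (expB (-t)) * Y * (Ψ₀ (expB t) *
          (Ψ (expB (-t)) * Ψ (expB t)) * Ψ₀ (expB (-t))) := by simp only [mul_assoc]
    _ = Ψ (expB t) * Ψ₀ (expB (-t)) * Y := by rw [hVV', mul_one, hUt, mul_one]

end Pool.Agent.Helper23.ED
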