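import Pool.Agent.Helper23.ED.FcA

/-!
# Project ED: the one-parameter group determines R
-/

open scoped InnerProductSpace Topology ENNReal BoundedContinuousFunction
open ContinuousLinearMap Filter MeasureTheory

namespace Pool.Agent.Helper23.ED

open Pool.Agent.Helper23 Pool.Agent.Helper23.RBF
open Pool.Agent.Helper78.BC.Transport (Sub r)

universe u

variable {H : Type*} [NormedAddCommGroup H] [InnerProductSpace ℂ H] [CompleteSpace H]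
variable {K : Type*} [NormedAddCommGroup K] [InnerProductSpace ℂ K] [CompleteSpace K]

namespace FcC

open Pool.Agent.Helper43.TTF (psi_norm_apply)

theorem fact2pi : Fact (0 < 2 * Real.pi) := ⟨by positivity⟩

attribute [local instance] fact2pi

/-- the functions `G` with `Y Ψ₁(G) = Ψ₂(G) Y` -/
def S (Ψ₁ : (ℝ →ᵇ ℂ) →⋆ₐ[ℂ] (H →L[ℂ] H)) (Ψ₂ : (ℝ →ᵇ ℂ) →⋆ₐ[ℂ] (K →L[ℂ] K))
    (Y : H →L[ℂ] K) : Submodule ℂ (ℝ →ᵇ ℂ) where
  carrier := {G | ∀ v, Y (Ψ₁ G v) = Ψ₂ G (Y v)}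
  add_mem' := by
    intro a b ha hb v
    rw [map_add, map_add, add_apply, add_apply, map_add, ha v, hb v]
  zero_mem' := by
    intro v
    simp
  smul_mem' := by
    intro c G hG v
    rw [map_smul, map_smul, smul_apply, smul_apply, map_smul, hG v]

theorem mem_S {Ψ₁ : (ℝ →ᵇ ℂ) →⋆ₐ[ℂ] (H →L[ℂ] H)} {Ψ₂ : (ℝ →ᵇ ℂ) →⋆ₐ[ℂ] (K →L[ℂ] K)}
    {Y : H →L[ℂ] K} {G : ℝ →ᵇ ℂ} : G ∈ S Ψ₁ Ψ₂ Y ↔ ∀ v, Y (Ψ₁ G v) = Ψ₂ G (Y v) := Iff.rfl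

theorem cont_apply (Ψ : (ℝ →ᵇ ℂ) →⋆ₐ[ℂ] (H →L[ℂ] H)) (v : H) : Continuous fun G => Ψ G v := by
  let f : (ℝ →ᵇ ℂ) →ₗ[ℂ] H :=
    { toFun := fun G => Ψ G v
      map_add' := fun a b => by rw [map_add, add_apply]
      map_smul' := fun c a => by rw [map_smul, smul_apply]; rfl }
  have : Continuous f := (f.mkContinuous ‖v‖ fun G => by
    refine (psi_norm_apply Ψ G v).trans ?_
    rw [mul_comm]).continuous
  exact this

theorem isClosed_S (Ψ₁ : (ℝ →ᵇ ℂ) →⋆ₐ[ℂ] (H →L[ℂ] H)) (Ψ₂ : (ℝ →ᵇ ℂ) →⋆ₐ[ℂ] (K →L[ℂ] K))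
    (Y : H →L[ℂ] K) : IsClosed (S Ψ₁ Ψ₂ Y : Set (ℝ →ᵇ ℂ)) := by
  have h1 : (S Ψ₁ Ψ₂ Y : Set (ℝ →ᵇ ℂ)) = ⋂ v, {G | Y (Ψ₁ G v) = Ψ₂ G (Y v)} := by
    ext G
    simp [mem_S]
  rw [h1]
  exact isClosed_iInter fun v =>
    isClosed_eq (Y.continuous.comp (cont_apply Ψ₁ v)) (cont_apply Ψ₂ (Y v))

/-- pull back of a function on the circle -/
noncomputable def pull (c : ℝ) : C(AddCircle (2 * Real.pi), ℂ) →ₗ[ℂ] (ℝ →ᵇ ℂ) where
  toFun p := BoundedContinuousFunction.ofNormedAddCommGroup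
    (fun ρ : ℝ => p ((c * ρ : ℝ) : AddCircle (2 * Real.pi)))
    (p.continuous.comp ((AddCircle.continuous_mk' _).comp (by fun_prop))) ‖p‖
    (fun ρ => p.norm_coe_le_norm _)
  map_add' := fun p q => by ext; rfl
  map_smul' := fun a p => by ext; rfl

theorem pull_apply (c : ℝ) (p : C(AddCircle (2 * Real.pi), ℂ)) (ρ : ℝ) :
    pull c p ρ = p ((c * ρ : ℝ) : AddCircle (2 * Real.pi)) := rfl

theorem pull_cont (c : ℝ) : Continuous (pull c) := by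
  have : Continuous ((pull c).mkContinuous 1 fun p => by
    rw [one_mul]
    exact (BoundedContinuousFunction.norm_le (norm_nonneg _)).2 fun ρ => p.norm_coe_le_norm _) :=
      ContinuousLinearMap.continuous _
  exact this

theorem pull_fourier (c : ℝ) (k : ℤ) : pull c (fourier k) = expB (k * c) := by
  ext ρ
  rw [pull_apply, fourier_coe_apply, expB_apply]
  congr 1
  have : (Real.pi : ℂ) ≠ 0 := by exact_mod_cast Real.pi_ne_zero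
  push_cast
  field_simp

theorem pull_mem {Ψ₁ : (ℝ →ᵇ ℂ) →⋆ₐ[ℂ] (H →L[ℂ] H)} {Ψ₂ : (ℝ →ᵇ ℂ) →⋆ₐ[ℂ] (K →L[ℂ] K)}
    {Y : H →L[ℂ] K} (hY : ∀ t, expB t ∈ S Ψ₁ Ψ₂ Y) (c : ℝ)
    (p : C(AddCircle (2 * Real.pi), ℂ)) : pull c p ∈ S Ψ₁ Ψ₂ Y := by
  have h1 : (⊤ : Submodule ℂ C(AddCircle (2 * Real.pi), ℂ)) ≤ (S Ψ₁ Ψ₂ Y).comap (pull c) := by
    rw [← span_fourier_closure_eq_top]
    apply Submodule.topologicalClosure_minimal
    · rw [Submodule.span_le]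
      rintro _ ⟨k, rfl⟩
      show pull c (fourier k) ∈ S Ψ₁ Ψ₂ Y
      rw [pull_fourier]
      exact hY _
    · exact (isClosed_S Ψ₁ Ψ₂ Y).preimage (pull_cont c)
  exact h1 (Submodule.mem_top : p ∈ ⊤)

/-- the periodic extension of `FR` restricted to `[-(n+1), n+1]` -/
noncomputable def Gc (n : ℕ) : C(AddCircle (2 * Real.pi), ℂ) :=
  ⟨fun θ => FR ((2 * (n + 1) / Real.pi) * Real.arcsin (Real.Angle.sin θ)), by
    exact FR.continuous.comp (continuous_const.mul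
      (Real.continuous_arcsin.comp Real.Angle.continuous_sin))⟩

noncomputable def Gn (n : ℕ) : ℝ →ᵇ ℂ := pull (Real.pi / (2 * (n + 1))) (Gc n)

theorem Gn_apply (n : ℕ) (ρ : ℝ) : Gn n ρ =
    FR ((2 * (n + 1) / Real.pi) * Real.arcsin (Real.sin (Real.pi / (2 * (n + 1)) * ρ))) := rfl

theorem Gn_norm (n : ℕ) : ‖Gn n‖ ≤ ‖FR‖ := by
  rw [BoundedContinuousFunction.norm_le (norm_nonneg _)]
  intro ρ
  rw [Gn_apply]
  exact BoundedContinuousFunction.norm_coe_le_norm _ _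

theorem Gn_eq (n : ℕ) {ρ : ℝ} (h : |ρ| ≤ n + 1) : Gn n ρ = FR ρ := by
  rw [Gn_apply]
  have hn : (0 : ℝ) < n + 1 := by positivity
  have hpi := Real.pi_pos
  rw [abs_le] at h
  have h1 : Real.pi / (2 * (n + 1)) * ρ = (Real.pi / 2) * (ρ / (n + 1)) := by
    field_simp
  have h2 : -1 ≤ ρ / (n + 1) := by rw [le_div_iff₀ hn]; linarith [h.1]
  have h3 : ρ / (n + 1) ≤ 1 := by rw [div_le_iff₀ hn]; linarith [h.2]
  rw [Real.arcsin_sin (by rw [h1]; nlinarith) (by rw [h1]; nlinarith)]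
  congr 1
  field_simp

theorem Gn_tendsto (L : ℝ) :
    TendstoUniformlyOn (fun n ρ => Gn n ρ) (fun ρ => FR ρ) atTop (Set.Icc (-L) L) := by
  rw [Metric.tendstoUniformlyOn_iff]
  intro ε hε
  obtain ⟨m, hm⟩ := exists_nat_ge L
  filter_upwards [eventually_ge_atTop m] with n hn ρ hρ
  have h3 : (m : ℝ) ≤ n := by exact_mod_cast hn
  rw [Set.mem_Icc] at hρ
  rw [Gn_eq n (by rw [abs_le]; constructor <;> linarith [hρ.1, hρ.2]), dist_self]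
  exact hε

end FcC

theorem FCal.det {R₁ : H →L[ℂ] H} {Ψ₁ : (ℝ →ᵇ ℂ) →⋆ₐ[ℂ] (H →L[ℂ] H)} (h₁ : FCal R₁ Ψ₁)
    {R₂ : K →L[ℂ] K} {Ψ₂ : (ℝ →ᵇ ℂ) →⋆ₐ[ℂ] (K →L[ℂ] K)} (h₂ : FCal R₂ Ψ₂)
    (Y : H →L[ℂ] K) (hY : ∀ t v, Y (Ψ₁ (expB t) v) = Ψ₂ (expB t) (Y v)) (v : H) :
    Y (R₁ v) = R₂ (Y v) := by
  have hmem : ∀ n, FcC.Gn n ∈ FcC.S Ψ₁ Ψ₂ Y := fun n => FcC.pull_mem (fun t v => hY t v) _ _
  have h3 := h₁.psi_cont FcC.Gn FR ‖FR‖ FcC.Gn_norm FcC.Gn_tendsto v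
  have h4 := h₂.psi_cont FcC.Gn FR ‖FR‖ FcC.Gn_norm FcC.Gn_tendsto (Y v)
  rw [h₁.psi_FR] at h3
  rw [h₂.psi_FR] at h4
  have h5 := (Y.continuous.tendsto _).comp h3
  have h6 : (Y ∘ fun n => Ψ₁ (FcC.Gn n) v) = fun n => Ψ₂ (FcC.Gn n) (Y v) := by
    funext n
    exact hmem n v
  rw [h6] at h5
  exact tendsto_nhds_unique h5 h4

end Pool.Agent.Helper23.ED
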