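import Pool.Agent.Helper23.ED.FcB
import Pool.Agent.Helper23.ED.FcC

/-!
# Project ED: scaling
-/

open scoped InnerProductSpace Topology ENNReal BoundedContinuousFunction
open ContinuousLinearMap Filter MeasureTheory

namespace Pool.Agent.Helper23.ED

open Pool.Agent.Helper23 Pool.Agent.Helper23.RBF
open Pool.Agent.Helper78.BC.Transport (Sub r)

universe u

variable {H : Type*} [NormedAddCommGroup H] [InnerProductSpace ℂ H] [CompleteSpace H]

namespace FcD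

/-- translation as a star homomorphism -/
noncomputable def shiftHom (c : ℝ) : (ℝ →ᵇ ℂ) →⋆ₐ[ℂ] (ℝ →ᵇ ℂ) where
  toFun := shiftB c
  map_one' := by
    ext ρ
    rfl
  map_mul' G G' := by
    ext ρ
    rfl
  map_zero' := by
    ext ρ
    rfl
  map_add' G G' := by
    ext ρ
    rfl
  commutes' z := by
    ext ρ
    rfl
  map_star' G := by
    ext ρ
    rfl

theorem shiftHom_apply (c : ℝ) (G : ℝ →ᵇ ℂ) : shiftHom c G = shiftB c G := rfl

theorem norm_shiftB_le (c : ℝ) (G : ℝ →ᵇ ℂ) : ‖shiftB c G‖ ≤ ‖G‖ := by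
  refine (BoundedContinuousFunction.norm_le (norm_nonneg G)).2 fun ρ => ?_
  rw [shiftB_apply]
  exact G.norm_coe_le_norm _

theorem fcal_shift {R : H →L[ℂ] H} {Ψ : (ℝ →ᵇ ℂ) →⋆ₐ[ℂ] (H →L[ℂ] H)} (h : FCal R Ψ) (c : ℝ) :
    FCal (Ψ (shiftB c FR)) (Ψ.comp (shiftHom c)) := by
  refine ⟨rfl, ?_⟩
  intro G G₀ C hC hG v
  refine h.psi_cont (fun n => shiftB c (G n)) (shiftB c G₀) C
    (fun n => (norm_shiftB_le c (G n)).trans (hC n)) ?_ v
  intro L
  have h1 := hG (L + |c|)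
  rw [Metric.tendstoUniformlyOn_iff] at h1 ⊢
  intro ε hε
  filter_upwards [h1 ε hε] with n hn ρ hρ
  refine hn (ρ + c) ?_
  have h2 := neg_abs_le c
  have h3 := le_abs_self c
  rw [Set.mem_Icc] at hρ ⊢
  constructor <;> linarith [hρ.1, hρ.2]

theorem FR_val (ρ : ℝ) : FR ρ = ((2 / (1 + Real.exp ρ) : ℝ) : ℂ) := rfl

theorem key {l : ℝ} (hl : 0 < l) :
    shiftB (Real.log l) FR * (FR + (l : ℂ) • ((2 : ℂ) • 1 - FR)) = (2 : ℂ) • FR := by
  ext ρ
  have h1 : 0 < Real.exp ρ := Real.exp_pos ρ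
  have h2 : (1 + Real.exp ρ : ℝ) ≠ 0 := by positivity
  have h3 : (1 + Real.exp ρ * l : ℝ) ≠ 0 := by positivity
  have e1 : (2 / (1 + Real.exp (ρ + Real.log l)) : ℝ) *
      (2 / (1 + Real.exp ρ) + l * (2 * 1 - 2 / (1 + Real.exp ρ))) = 2 * (2 / (1 + Real.exp ρ)) := by
    rw [Real.exp_add, Real.exp_log hl]
    field_simp
    ring
  have e2 := congrArg (fun x : ℝ => (x : ℂ)) e1
  simp only [Complex.ofReal_mul, Complex.ofReal_add, Complex.ofReal_sub, Complex.ofReal_ofNat,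
    Complex.ofReal_one] at e2
  simpa only [BoundedContinuousFunction.coe_mul, BoundedContinuousFunction.coe_add,
    BoundedContinuousFunction.coe_smul, BoundedContinuousFunction.coe_sub,
    BoundedContinuousFunction.coe_one, Pi.mul_apply, Pi.add_apply, Pi.sub_apply, Pi.smul_apply,
    Pi.one_apply, smul_eq_mul, shiftB_apply, FR_val] using e2

theorem key' {l : ℝ} (hl : 0 < l) :
    (FR + (l : ℂ) • ((2 : ℂ) • 1 - FR)) *
      (((1 / (2 * l) : ℝ) : ℂ) • (1 + (((l - 1) / 2 : ℝ) : ℂ) • shiftB (Real.log l) FR)) = 1 := by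
  ext ρ
  have h1 : 0 < Real.exp ρ := Real.exp_pos ρ
  have h2 : (1 + Real.exp ρ : ℝ) ≠ 0 := by positivity
  have h3 : (1 + Real.exp ρ * l : ℝ) ≠ 0 := by positivity
  have e1 : (2 / (1 + Real.exp ρ) + l * (2 * 1 - 2 / (1 + Real.exp ρ))) *
      ((1 / (2 * l)) * (1 + ((l - 1) / 2) * (2 / (1 + Real.exp (ρ + Real.log l))))) = (1 : ℝ) := by
    rw [Real.exp_add, Real.exp_log hl]
    field_simp
    ring
  have e2 := congrArg (fun x : ℝ => (x : ℂ)) e1
  simp only [Complex.ofReal_mul, Complex.ofReal_add, Complex.ofReal_sub, Complex.ofReal_ofNat,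
    Complex.ofReal_one] at e2
  simp only [BoundedContinuousFunction.coe_mul, BoundedContinuousFunction.coe_add,
    BoundedContinuousFunction.coe_smul, BoundedContinuousFunction.coe_sub,
    BoundedContinuousFunction.coe_one, Pi.mul_apply, Pi.add_apply, Pi.sub_apply, Pi.smul_apply,
    Pi.one_apply, smul_eq_mul, shiftB_apply, FR_val]
  exact e2

theorem shift_expB (c t : ℝ) : shiftB c (expB t) = ph t c • expB t := by
  ext ρ
  have h1 : ∀ x : ℝ, expB t x = Complex.exp ((t * x : ℝ) * Complex.I) := fun _ => rfl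
  have h2 : (ph t c • expB t) ρ = ph t c * expB t ρ := rfl
  rw [shiftB_apply, h2, h1, h1, ph, ← Complex.exp_add]
  congr 1
  push_cast
  ring

end FcD

open FcD in
/-- `R = 2 (1 + Δ)⁻¹`, `R' = 2 (1 + l Δ)⁻¹`. -/
theorem FCal.scale_iff {R R' : H →L[ℂ] H} {Ψ Ψ' : (ℝ →ᵇ ℂ) →⋆ₐ[ℂ] (H →L[ℂ] H)}
    (h : FCal R Ψ) (h' : FCal R' Ψ') {l : ℝ} (hl : 0 < l) :
    (∀ v, R' (R v + (l : ℂ) • ((2 : ℂ) • v - R v)) = (2 : ℂ) • R v) ↔
      ∀ t, Ψ' (expB t) = ph t (Real.log l) • Ψ (expB t) := by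
  have h2 := fcal_shift h (Real.log l)
  set R2 := Ψ (shiftB (Real.log l) FR) with hR2
  have hX : Ψ (FR + (l : ℂ) • ((2 : ℂ) • 1 - FR)) = R + (l : ℂ) • ((2 : ℂ) • 1 - R) := by
    rw [map_add, map_smul, map_sub, map_smul, map_one, h.psi_FR]
  have k1 : R2 * (R + (l : ℂ) • ((2 : ℂ) • 1 - R)) = (2 : ℂ) • R := by
    rw [hR2, ← hX, ← map_mul, key hl, map_smul, h.psi_FR]
  obtain ⟨Z, hZ⟩ : ∃ Z : H →L[ℂ] H, (R + (l : ℂ) • ((2 : ℂ) • 1 - R)) * Z = 1 := by
    refine ⟨Ψ (((1 / (2 * l) : ℝ) : ℂ) • (1 + (((l - 1) / 2 : ℝ) : ℂ) •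
      shiftB (Real.log l) FR)), ?_⟩
    rw [← hX, ← map_mul, key' hl, map_one]
  have hΨ2 : ∀ t, (Ψ.comp (shiftHom (Real.log l))) (expB t) =
      ph t (Real.log l) • Ψ (expB t) := by
    intro t
    have : (Ψ.comp (shiftHom (Real.log l))) (expB t) = Ψ (shiftB (Real.log l) (expB t)) := rfl
    rw [this, shift_expB, map_smul]
  constructor
  · intro hv t
    have e1 : R' * (R + (l : ℂ) • ((2 : ℂ) • 1 - R)) = (2 : ℂ) • R := by
      ext v
      exact hv v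
    have e2 : R' = R2 := by
      calc R' = R' * ((R + (l : ℂ) • ((2 : ℂ) • 1 - R)) * Z) := by rw [hZ, mul_one]
        _ = R2 * ((R + (l : ℂ) • ((2 : ℂ) • 1 - R)) * Z) := by
          rw [← mul_assoc, e1, ← k1, mul_assoc]
        _ = R2 := by rw [hZ, mul_one]
    rw [← hΨ2]
    ext v
    exact FCal.int h' h2 (1 : H →L[ℂ] H) (fun w => by rw [e2]; rfl) (expB t) v
  · intro ht
    have e2 : R' = R2 := by
      ext v
      exact FCal.det h' h2 (1 : H →L[ℂ] H) (fun t w => by rw [ht t, hΨ2 t]; rfl) v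
    intro v
    have e3 := congrArg (fun T : H →L[ℂ] H => T v) k1
    rw [e2]
    exact e3

end Pool.Agent.Helper23.ED
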