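import Pool.Agent.Helper23.ED.Defs

/-!
# Project ED: projection on a graph
-/

open scoped InnerProductSpace Topology ENNReal BoundedContinuousFunction
open ContinuousLinearMap Filter MeasureTheory

namespace Pool.Agent.Helper23.ED

open Pool.Agent.Helper23 Pool.Agent.Helper23.RBF
open Pool.Agent.Helper78.BC.Transport (Sub r)

universe u

variable {K : Type*} [NormedAddCommGroup K] [InnerProductSpace ℂ K] [CompleteSpace K]
variable {L : Type*} [NormedAddCommGroup L] [InnerProductSpace ℂ L] [CompleteSpace L]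

theorem exists_GT (Γ : Submodule ℂ (K × L)) :
    ∃ (T : K →L[ℂ] K) (S : K →L[ℂ] L), GT (Γ : Set (K × L)) T S := by
  let e : WithLp 2 (K × L) ≃L[ℂ] K × L := WithLp.prodContinuousLinearEquiv 2 ℂ K L
  let V : Submodule ℂ (WithLp 2 (K × L)) :=
    (Γ.comap (e : WithLp 2 (K × L) →L[ℂ] K × L).toLinearMap).topologicalClosure
  have hVc : CompleteSpace V := inferInstance
  let P : WithLp 2 (K × L) →L[ℂ] WithLp 2 (K × L) := V.starProjection
  let Q : K →L[ℂ] K × L := ((e : WithLp 2 (K × L) →L[ℂ] K × L) ∘L P ∘L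
    (e.symm : K × L →L[ℂ] WithLp 2 (K × L))) ∘L ContinuousLinearMap.inl ℂ K L
  have hQ : ∀ η, Q η = e (P (e.symm (η, 0))) := fun η => rfl
  refine ⟨ContinuousLinearMap.fst ℂ K L ∘L Q, ContinuousLinearMap.snd ℂ K L ∘L Q, ?_, ?_⟩
  · intro η
    have h1 : P (e.symm (η, 0)) ∈ V := Submodule.starProjection_apply_mem V _
    have h2 : P (e.symm (η, 0)) ∈ closure ((Γ.comap
        (e : WithLp 2 (K × L) →L[ℂ] K × L).toLinearMap : Submodule ℂ (WithLp 2 (K × L))) :
          Set (WithLp 2 (K × L))) := h1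
    have h3 := map_mem_closure e.continuous h2 (t := (Γ : Set (K × L))) fun x hx => hx
    exact h3
  · intro p hp η
    have h1 : e.symm p ∈ V := Submodule.le_topologicalClosure _ (by
      show e (e.symm p) ∈ Γ
      rw [e.apply_symm_apply]
      exact hp)
    have h2 : P (e.symm p) = e.symm p := Submodule.starProjection_eq_self_iff.2 h1
    have h3 : ⟪e.symm p, e.symm (η, 0)⟫_ℂ = ⟪e.symm p, P (e.symm (η, 0))⟫_ℂ := by
      conv_lhs => rw [← h2]
      exact Submodule.inner_starProjection_left_eq_right V _ _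
    have h4 : ∀ x y : WithLp 2 (K × L), ⟪x, y⟫_ℂ = ⟪(e x).1, (e y).1⟫_ℂ + ⟪(e x).2, (e y).2⟫_ℂ :=
      fun x y => WithLp.prod_inner_apply x y
    rw [h4, h4, e.apply_symm_apply, e.apply_symm_apply] at h3
    simpa [hQ] using h3

end Pool.Agent.Helper23.ED
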