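import Pool.Agent.Helper23.ED.GrB

/-!
# Project ED: the form determines T and conversely
-/

open scoped InnerProductSpace Topology ENNReal BoundedContinuousFunction
open ContinuousLinearMap Filter MeasureTheory

namespace Pool.Agent.Helper23.ED

open Pool.Agent.Helper23 Pool.Agent.Helper23.RBF
open Pool.Agent.Helper78.BC.Transport (Sub r)

universe u

variable {K : Type*} [NormedAddCommGroup K] [InnerProductSpace ℂ K] [CompleteSpace K]
variable {L₁ : Type*} [NormedAddCommGroup L₁] [InnerProductSpace ℂ L₁] [CompleteSpace L₁]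
variable {L₂ : Type*} [NormedAddCommGroup L₂] [InnerProductSpace ℂ L₂] [CompleteSpace L₂]
variable {Γ₁ : Submodule ℂ (K × L₁)} {Γ₂ : Submodule ℂ (K × L₂)}

private lemma GrC_inner
    (hn : ∀ p ∈ Γ₁, ∀ q ∈ Γ₂, p.1 = q.1 → ‖p.2‖ = ‖q.2‖) {p p' : K × L₁} {q q' : K × L₂}
    (hp : p ∈ Γ₁) (hp' : p' ∈ Γ₁) (hq : q ∈ Γ₂) (hq' : q' ∈ Γ₂) (h : p.1 = q.1)
    (h' : p'.1 = q'.1) : ⟪p.2, p'.2⟫_ℂ = ⟪q.2, q'.2⟫_ℂ := by
  have e1 := hn _ (Γ₁.add_mem hp hp') _ (Γ₂.add_mem hq hq') (by simp [h, h'])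
  have e2 := hn _ (Γ₁.sub_mem hp hp') _ (Γ₂.sub_mem hq hq') (by simp [h, h'])
  have e3 := hn _ (Γ₁.add_mem hp (Γ₁.smul_mem Complex.I hp')) _
    (Γ₂.add_mem hq (Γ₂.smul_mem Complex.I hq')) (by simp [h, h'])
  have e4 := hn _ (Γ₁.sub_mem hp (Γ₁.smul_mem Complex.I hp')) _
    (Γ₂.sub_mem hq (Γ₂.smul_mem Complex.I hq')) (by simp [h, h'])
  simp only [Prod.snd_add, Prod.snd_sub, Prod.smul_snd] at e1 e2 e3 e4
  rw [inner_eq_sum_norm_sq_div_four (𝕜 := ℂ) p.2 p'.2,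
    inner_eq_sum_norm_sq_div_four (𝕜 := ℂ) q.2 q'.2]
  simp only [RCLike.I_to_complex]
  rw [e1, e2, e3, e4]

theorem T_unique {T₁ T₂ : K →L[ℂ] K} {S₁ : K →L[ℂ] L₁} {S₂ : K →L[ℂ] L₂}
    (h₁ : GT (Γ₁ : Set (K × L₁)) T₁ S₁) (h₂ : GT (Γ₂ : Set (K × L₂)) T₂ S₂)
    (hf : ∀ p ∈ Γ₁, ∃ q ∈ Γ₂, q.1 = p.1) (hf' : ∀ q ∈ Γ₂, ∃ p ∈ Γ₁, p.1 = q.1)
    (hn : ∀ p ∈ Γ₁, ∀ q ∈ Γ₂, p.1 = q.1 → ‖p.2‖ = ‖q.2‖) : T₁ = T₂ := by
  refine ContinuousLinearMap.ext fun η => ?_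
  obtain ⟨p, hp, hlim⟩ := mem_closure_iff_seq_limit.1 (h₁.mem η)
  choose q hq hq1 using fun n => hf (p n) (hp n)
  have hp1 : Tendsto (fun n => (p n).1) atTop (𝓝 (T₁ η)) :=
    (continuous_fst.tendsto _).comp hlim
  have hp2 : Tendsto (fun n => (p n).2) atTop (𝓝 (S₁ η)) :=
    (continuous_snd.tendsto _).comp hlim
  have hcau : CauchySeq fun n => (q n).2 := by
    have hc := hp2.cauchySeq
    rw [Metric.cauchySeq_iff] at hc ⊢
    intro ε hε
    obtain ⟨N, hN⟩ := hc ε hε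
    refine ⟨N, fun m hm n hn' => ?_⟩
    have h3 := hN m hm n hn'
    have h4 := hn _ (Γ₁.sub_mem (hp m) (hp n)) _ (Γ₂.sub_mem (hq m) (hq n))
      (by simp [hq1])
    rw [dist_eq_norm] at h3 ⊢
    simp only [Prod.snd_sub] at h4
    rw [← h4]
    exact h3
  obtain ⟨w, hw⟩ := cauchySeq_tendsto_of_complete hcau
  have hmem : ((T₁ η, w) : K × L₂) ∈ closure (Γ₂ : Set (K × L₂)) := by
    refine mem_closure_iff_seq_limit.2 ⟨q, hq, ?_⟩
    have h5 : Tendsto (fun n => (q n).1) atTop (𝓝 (T₁ η)) := by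
      simp only [hq1]
      exact hp1
    exact h5.prodMk_nhds hw
  have hfin := h₂.eq_of (η := η) hmem (fun q' hq' => by
    obtain ⟨p', hp', hpq⟩ := hf' q' hq'
    have ho := h₁.orth p' hp' η
    have l1 : Tendsto (fun n => ⟪p'.2, (p n).2⟫_ℂ) atTop (𝓝 ⟪p'.2, S₁ η⟫_ℂ) :=
      tendsto_const_nhds.inner hp2
    have l2 : Tendsto (fun n => ⟪q'.2, (q n).2⟫_ℂ) atTop (𝓝 ⟪q'.2, w⟫_ℂ) :=
      tendsto_const_nhds.inner hw
    have l3 : (fun n => ⟪q'.2, (q n).2⟫_ℂ) = fun n => ⟪p'.2, (p n).2⟫_ℂ := by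
      funext n
      exact (GrC_inner hn hp' (hp n) hq' (hq n) hpq (hq1 n).symm).symm
    rw [l3] at l2
    have l4 := tendsto_nhds_unique l1 l2
    rw [← hpq, ← l4]
    exact ho)
  exact hfin.1.symm

private lemma GrC_dense {T : K →L[ℂ] K} {S₁ : K →L[ℂ] L₁}
    (h₁ : GT (Γ₁ : Set (K × L₁)) T S₁)
    (hc : ∀ w : L₁, ((0, w) : K × L₁) ∈ closure (Γ₁ : Set (K × L₁)) → w = 0)
    {p : K × L₁} (hp : p ∈ closure (Γ₁ : Set (K × L₁))) :
    p ∈ closure (Set.range fun η : K => ((T η, S₁ η) : K × L₁)) := by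
  let e : WithLp 2 (K × L₁) ≃L[ℂ] K × L₁ := WithLp.prodContinuousLinearEquiv 2 ℂ K L₁
  let f : K →ₗ[ℂ] K × L₁ := (T.prod S₁).toLinearMap
  let V : Submodule ℂ (WithLp 2 (K × L₁)) :=
    ((LinearMap.range f).comap
      (e : WithLp 2 (K × L₁) →L[ℂ] K × L₁).toLinearMap).topologicalClosure
  have hVc : CompleteSpace V := inferInstance
  let P : WithLp 2 (K × L₁) →L[ℂ] WithLp 2 (K × L₁) := V.starProjection
  have h4 : ∀ x y : WithLp 2 (K × L₁), ⟪x, y⟫_ℂ = ⟪(e x).1, (e y).1⟫_ℂ + ⟪(e x).2, (e y).2⟫_ℂ :=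
    fun x y => WithLp.prod_inner_apply x y
  have hV : ∀ x ∈ V, e x ∈ closure (Set.range fun η : K => ((T η, S₁ η) : K × L₁)) := by
    intro x hx
    have h2 : x ∈ closure (((LinearMap.range f).comap
        (e : WithLp 2 (K × L₁) →L[ℂ] K × L₁).toLinearMap : Submodule ℂ (WithLp 2 (K × L₁))) :
          Set (WithLp 2 (K × L₁))) := hx
    refine map_mem_closure e.continuous h2 fun x hx => ?_
    obtain ⟨η, hη⟩ := hx
    exact ⟨η, hη⟩
  have hsub : closure (Set.range fun η : K => ((T η, S₁ η) : K × L₁)) ⊆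
      closure (Γ₁ : Set (K × L₁)) := by
    refine closure_minimal ?_ isClosed_closure
    rintro _ ⟨η, rfl⟩
    exact h₁.mem η
  have hPm : P (e.symm p) ∈ V := Submodule.starProjection_apply_mem V _
  set b : WithLp 2 (K × L₁) := e.symm p - P (e.symm p) with hb
  have hbmem : e b ∈ closure (Γ₁ : Set (K × L₁)) := by
    have h5 : e b = p - e (P (e.symm p)) := by
      rw [hb, map_sub, e.apply_symm_apply]
    rw [h5]
    have h6 : p ∈ Γ₁.topologicalClosure := hp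
    have h7 : e (P (e.symm p)) ∈ Γ₁.topologicalClosure := hsub (hV _ hPm)
    exact Γ₁.topologicalClosure.sub_mem h6 h7
  have horth : ∀ η : K, ⟪(e b).1, T η⟫_ℂ + ⟪(e b).2, S₁ η⟫_ℂ = 0 := by
    intro η
    have h8 : e.symm (T η, S₁ η) ∈ V := Submodule.le_topologicalClosure _ (by
      show e (e.symm (T η, S₁ η)) ∈ LinearMap.range f
      rw [e.apply_symm_apply]
      exact ⟨η, rfl⟩)
    have h9 : ⟪e.symm (T η, S₁ η), b⟫_ℂ = 0 := by
      have h10 : b ∈ Vᗮ := by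
        rw [hb]
        exact Submodule.sub_starProjection_mem_orthogonal _
      exact (Submodule.mem_orthogonal _ _).1 h10 _ h8
    have h11 : ⟪b, e.symm (T η, S₁ η)⟫_ℂ = 0 := by
      rw [← inner_conj_symm, h9, map_zero]
    rw [h4, e.apply_symm_apply] at h11
    exact h11
  have hb1 : (e b).1 = 0 := by
    have h12 : ∀ η : K, ⟪(e b).1, η⟫_ℂ = 0 := fun η => by
      rw [h₁.orth' hbmem η]
      exact horth η
    exact inner_self_eq_zero.1 (h12 _)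
  have hb2 : (e b).2 = 0 := by
    apply hc
    have h13 : e b = ((0, (e b).2) : K × L₁) := Prod.ext hb1 rfl
    rw [← h13]
    exact hbmem
  have hb0 : e b = 0 := Prod.ext hb1 hb2
  have hpe : p = e (P (e.symm p)) := by
    have h5 : e b = p - e (P (e.symm p)) := by
      rw [hb, map_sub, e.apply_symm_apply]
    rw [hb0] at h5
    exact (sub_eq_zero.1 h5.symm)
  rw [hpe]
  exact hV _ hPm

theorem exists_of_T_eq {T : K →L[ℂ] K} {S₁ : K →L[ℂ] L₁} {S₂ : K →L[ℂ] L₂}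
    (h₁ : GT (Γ₁ : Set (K × L₁)) T S₁) (h₂ : GT (Γ₂ : Set (K × L₂)) T S₂)
    (hc : ∀ w : L₁, ((0, w) : K × L₁) ∈ closure (Γ₁ : Set (K × L₁)) → w = 0)
    {p : K × L₁} (hp : p ∈ closure (Γ₁ : Set (K × L₁))) :
    ∃ w : L₂, ((p.1, w) : K × L₂) ∈ closure (Γ₂ : Set (K × L₂)) ∧ ‖w‖ = ‖p.2‖ := by
  obtain ⟨x, hx, hlim⟩ := mem_closure_iff_seq_limit.1 (GrC_dense h₁ hc hp)
  choose η hη using hx
  simp only at hη
  have hnorm : ∀ v : K, ‖S₂ v‖ = ‖S₁ v‖ := by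
    intro v
    have e1 := h₁.S_inner v v
    have e2 := h₂.S_inner v v
    rw [← e1, inner_self_eq_norm_sq_to_K, inner_self_eq_norm_sq_to_K] at e2
    have e3 : ‖S₂ v‖ ^ 2 = ‖S₁ v‖ ^ 2 := by exact_mod_cast e2
    exact (sq_eq_sq₀ (norm_nonneg _) (norm_nonneg _)).1 e3
  have hx1 : Tendsto (fun n => T (η n)) atTop (𝓝 p.1) := by
    have := (continuous_fst.tendsto _).comp hlim
    refine this.congr fun n => ?_
    simp only [Function.comp, ← hη n]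
  have hx2 : Tendsto (fun n => S₁ (η n)) atTop (𝓝 p.2) := by
    have := (continuous_snd.tendsto _).comp hlim
    refine this.congr fun n => ?_
    simp only [Function.comp, ← hη n]
  have hcau : CauchySeq fun n => S₂ (η n) := by
    have hc := hx2.cauchySeq
    rw [Metric.cauchySeq_iff] at hc ⊢
    intro ε hε
    obtain ⟨N, hN⟩ := hc ε hε
    refine ⟨N, fun m hm n hn' => ?_⟩
    have h3 := hN m hm n hn'
    rw [dist_eq_norm, ← map_sub] at h3 ⊢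
    rw [hnorm]
    exact h3
  obtain ⟨w, hw⟩ := cauchySeq_tendsto_of_complete hcau
  refine ⟨w, ?_, ?_⟩
  · have h5 : Tendsto (fun n => ((T (η n), S₂ (η n)) : K × L₂)) atTop (𝓝 (p.1, w)) :=
      hx1.prodMk_nhds hw
    have h6 : ∀ n, ((T (η n), S₂ (η n)) : K × L₂) ∈ closure (Γ₂ : Set (K × L₂)) :=
      fun n => h₂.mem (η n)
    exact isClosed_closure.mem_of_tendsto h5 (Eventually.of_forall h6)
  · have l1 : Tendsto (fun n => ‖S₂ (η n)‖) atTop (𝓝 ‖w‖) := hw.norm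
    have l2 : Tendsto (fun n => ‖S₁ (η n)‖) atTop (𝓝 ‖p.2‖) := hx2.norm
    simp only [hnorm] at l1
    exact tendsto_nhds_unique l1 l2

end Pool.Agent.Helper23.ED
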