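import Pool.Agent.Helper23.ED.GrB

/-!
# Project ED: operators acting on the graph
-/

open scoped InnerProductSpace Topology ENNReal BoundedContinuousFunction
open ContinuousLinearMap Filter MeasureTheory

namespace Pool.Agent.Helper23.ED

open Pool.Agent.Helper23 Pool.Agent.Helper23.RBF
open Pool.Agent.Helper78.BC.Transport (Sub r)

universe u

variable {K : Type*} [NormedAddCommGroup K] [InnerProductSpace ℂ K] [CompleteSpace K]
variable {L : Type*} [NormedAddCommGroup L] [InnerProductSpace ℂ L] [CompleteSpace L]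
variable {Γ Γ₁ Γ₂ : Submodule ℂ (K × L)}

private lemma GrD_closure {A B : Set (K × L)} (X : K →L[ℂ] K) (P : L →L[ℂ] L)
    (h : ∀ p ∈ A, ((X p.1, P p.2) : K × L) ∈ closure B) {p : K × L} (hp : p ∈ closure A) :
    ((X p.1, P p.2) : K × L) ∈ closure B := by
  have hc : Continuous fun p : K × L => ((X p.1, P p.2) : K × L) := by fun_prop
  exact closure_minimal (t := (fun p : K × L => ((X p.1, P p.2) : K × L)) ⁻¹' closure B)
    (fun p hp => h p hp) (isClosed_closure.preimage hc) hp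

private lemma GrD_star_inner (A : K →L[ℂ] K) (x y : K) : ⟪(star A) x, y⟫_ℂ = ⟪x, A y⟫_ℂ := by
  rw [ContinuousLinearMap.star_eq_adjoint, ContinuousLinearMap.adjoint_inner_left]

theorem GT.rel {T : K →L[ℂ] K} {S : K →L[ℂ] L} (h : GT (Γ : Set (K × L)) T S)
    (X X' : K →L[ℂ] K) (P : L →L[ℂ] L)
    (hX : ∀ p ∈ Γ, ((X p.1, P p.2) : K × L) ∈ closure (Γ : Set (K × L)))
    (hX' : ∀ p ∈ Γ, (((star X') p.1, (star P) p.2) : K × L) ∈ closure (Γ : Set (K × L)))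
    (v : K) : X (T v) - T (X (T v)) = T (X' (v - T v)) := by
  have hT : ∀ x y : K, ⟪T x, y⟫_ℂ = ⟪x, T y⟫_ℂ := fun x y => by
    conv_lhs => rw [← h.T_star]
    exact GrD_star_inner T x y
  refine ext_inner_left ℂ fun η' => ?_
  have h1 := h.orth' (GrD_closure X P hX (h.mem v)) η'
  have h2 := h.orth' (GrD_closure (star X') (star P) hX' (h.mem η')) v
  simp only [GrD_star_inner] at h1 h2
  have h3 : ⟪T η', X' (v - T v)⟫_ℂ = ⟪S η', P (S v)⟫_ℂ := by
    rw [map_sub, inner_sub_right]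
    linear_combination h2
  have h4 : ⟪X (T v), η' - T η'⟫_ℂ = ⟪P (S v), S η'⟫_ℂ := by
    rw [inner_sub_right]
    linear_combination h1
  have h5 : ⟪η' - T η', X (T v)⟫_ℂ = ⟪S η', P (S v)⟫_ℂ := by
    rw [← inner_conj_symm, h4, inner_conj_symm]
  rw [← hT, h3, ← h5, inner_sub_left, inner_sub_right, hT]

theorem GT.scale {T₁ T₂ : K →L[ℂ] K} {S₁ S₂ : K →L[ℂ] L}
    (h₁ : GT (Γ₁ : Set (K × L)) T₁ S₁) (h₂ : GT (Γ₂ : Set (K × L)) T₂ S₂) {c : ℝ} (hc : 0 < c)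
    (hΓ : ∀ v w, ((v, w) : K × L) ∈ Γ₁ ↔ ((v, (c : ℂ) • w) : K × L) ∈ Γ₂) (v : K) :
    T₂ (T₁ v + ((c ^ 2 : ℝ) : ℂ) • (v - T₁ v)) = T₁ v := by
  have hc' : (c : ℂ) ≠ 0 := by exact_mod_cast hc.ne'
  have hmem : ((T₁ v, (c : ℂ) • S₁ v) : K × L) ∈ closure (Γ₂ : Set (K × L)) := by
    have := GrD_closure (A := (Γ₁ : Set (K × L))) (B := (Γ₂ : Set (K × L)))
      (ContinuousLinearMap.id ℂ K) ((c : ℂ) • ContinuousLinearMap.id ℂ L)
      (fun p hp => subset_closure ((hΓ p.1 p.2).1 hp)) (h₁.mem v)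
    simpa using this
  refine (h₂.eq_of hmem fun p hp => ?_).1
  have hp' : ((p.1, (c : ℂ)⁻¹ • p.2) : K × L) ∈ Γ₁ := by
    rw [hΓ, smul_smul, mul_inv_cancel₀ hc', one_smul]
    exact hp
  have ho := h₁.orth _ hp' v
  simp only [inner_smul_left, map_inv₀, Complex.conj_ofReal] at ho
  simp only [inner_add_right, inner_smul_right, inner_sub_right]
  have h6 : ⟪p.1, v⟫_ℂ - ⟪p.1, T₁ v⟫_ℂ = (c : ℂ)⁻¹ * ⟪p.2, S₁ v⟫_ℂ := by
    linear_combination ho
  rw [h6]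
  push_cast
  field_simp

theorem GT.conj {T₁ T₂ : K →L[ℂ] K} {S₁ S₂ : K →L[ℂ] L}
    (h₁ : GT (Γ₁ : Set (K × L)) T₁ S₁) (h₂ : GT (Γ₂ : Set (K × L)) T₂ S₂)
    {U : K →L[ℂ] K} (hU : star U * U = 1) (hU' : U * star U = 1)
    (hΓ : ∀ v w, ((v, w) : K × L) ∈ Γ₁ ↔ ((U v, w) : K × L) ∈ Γ₂) : T₂ = U * T₁ * star U := by
  have hUU : ∀ x, U ((star U) x) = x := fun x => by
    have := congrArg (fun A : K →L[ℂ] K => A x) hU'
    simpa using this
  ext η
  have hmem : ((U (T₁ ((star U) η)), S₁ ((star U) η)) : K × L) ∈ closure (Γ₂ : Set (K × L)) := by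
    have := GrD_closure (A := (Γ₁ : Set (K × L))) (B := (Γ₂ : Set (K × L)))
      U (ContinuousLinearMap.id ℂ L)
      (fun p hp => subset_closure ((hΓ p.1 p.2).1 hp)) (h₁.mem ((star U) η))
    simpa using this
  refine (h₂.eq_of hmem fun p hp => ?_).1
  have hp' : (((star U) p.1, p.2) : K × L) ∈ Γ₁ := by
    rw [hΓ, hUU]
    exact hp
  have ho := h₁.orth _ hp' ((star U) η)
  simp only [GrD_star_inner, hUU] at ho
  exact ho

end Pool.Agent.Helper23.ED
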