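import Pool.Agent.Helper23.ED.WtC

/-!
# Project ED: the graph of a faithful normal weight
-/

open scoped InnerProductSpace Topology ENNReal BoundedContinuousFunction
open ContinuousLinearMap Filter MeasureTheory

namespace Pool.Agent.Helper23.ED

open Pool.Agent.Helper23 Pool.Agent.Helper23.RBF
open Pool.Agent.Helper78.BC.Transport (Sub r)

universe u

variable {H : Type u} [NormedAddCommGroup H] [InnerProductSpace ℂ H] [CompleteSpace H]
variable {K : Type u} [NormedAddCommGroup K] [InnerProductSpace ℂ K] [CompleteSpace K]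
variable {L : Type u} [NormedAddCommGroup L] [InnerProductSpace ℂ L] [CompleteSpace L]
variable {N : VonNeumannAlgebra H} {ψ : (H →L[ℂ] H) → ℝ≥0∞} {ξ : H} {i : K →L[ℂ] H} {κ : K}
  {Λ : (H →L[ℂ] H) → L} {ρ : (H →L[ℂ] H) → (L →L[ℂ] L)}

namespace WtE

omit [CompleteSpace H] in
lemma re_mono {x y : H →L[ℂ] H} (h : x ≤ y) (v : H) :
    (⟪v, x v⟫_ℂ).re ≤ (⟪v, y v⟫_ℂ).re := by
  have h1 := ((ContinuousLinearMap.le_def x y).1 h).re_inner_nonneg_right v
  rw [sub_apply, inner_sub_right, map_sub] at h1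
  simp only [RCLike.re_to_complex] at h1
  linarith

lemma le_of_re {x y : H →L[ℂ] H} (hx : 0 ≤ x) (hy : 0 ≤ y)
    (h : ∀ v, (⟪v, x v⟫_ℂ).re ≤ (⟪v, y v⟫_ℂ).re) : x ≤ y := by
  rw [ContinuousLinearMap.le_def]
  have hx' := (ContinuousLinearMap.nonneg_iff_isPositive _).1 hx
  have hy' := (ContinuousLinearMap.nonneg_iff_isPositive _).1 hy
  have hs : IsSelfAdjoint (y - x) := hy'.isSelfAdjoint.sub hx'.isSelfAdjoint
  rw [ContinuousLinearMap.isPositive_def']
  refine ⟨hs, fun v => ?_⟩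
  rw [ContinuousLinearMap.reApplyInnerSelf_apply]
  have h1 := h v
  rw [sub_apply, inner_sub_left, map_sub]
  have e : ∀ z : H →L[ℂ] H, RCLike.re ⟪z v, v⟫_ℂ = (⟪v, z v⟫_ℂ).re := fun z =>
    inner_re_symm (𝕜 := ℂ) _ _
  rw [e, e]
  linarith

/-- the weighted sums -/
noncomputable def w (a : ℕ → H →L[ℂ] H) (k n : ℕ) : H →L[ℂ] H :=
  ∑ j ∈ Finset.Ico k n, (((2 : ℝ) ^ (j + 1) : ℝ) : ℂ) • (a j * star (a j))

open scoped ComplexOrder in
lemma term_nonneg (a : ℕ → H →L[ℂ] H) (j : ℕ) :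
    0 ≤ (((2 : ℝ) ^ (j + 1) : ℝ) : ℂ) • (a j * star (a j)) := by
  have h1 : 0 ≤ a j * star (a j) := mul_star_self_nonneg _
  have h2 : (0 : ℂ) ≤ (((2 : ℝ) ^ (j + 1) : ℝ) : ℂ) := by
    exact_mod_cast (by positivity : (0 : ℝ) ≤ 2 ^ (j + 1))
  exact smul_nonneg h2 h1

lemma w_nonneg (a : ℕ → H →L[ℂ] H) (k n : ℕ) : 0 ≤ w a k n :=
  Finset.sum_nonneg fun j _ => term_nonneg a j

lemma w_mem {a : ℕ → H →L[ℂ] H} (ha : ∀ j, a j ∈ N) (k n : ℕ) : w a k n ∈ N := by
  refine sum_mem fun j _ => ?_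
  exact N.toStarSubalgebra.smul_mem (mul_mem (ha j) (star_mem (ha j))) _

lemma w_mono (a : ℕ → H →L[ℂ] H) (k : ℕ) : Monotone (w a k) := by
  intro n m hnm
  exact Finset.sum_le_sum_of_subset_of_nonneg (Finset.Ico_subset_Ico_right hnm)
    fun j _ _ => term_nonneg a j

lemma w_anti (a : ℕ → H →L[ℂ] H) {k l : ℕ} (hkl : k ≤ l) (n : ℕ) : w a l n ≤ w a k n :=
  Finset.sum_le_sum_of_subset_of_nonneg (Finset.Ico_subset_Ico_left hkl)
    fun j _ _ => term_nonneg a j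

lemma w_psi (hψ : IsNSFWeight N ψ) (hG : Gns N ψ Λ ρ) {a : ℕ → H →L[ℂ] H}
    (ha : ∀ j, a j ∈ Dm N ψ) (hn : ∀ j, ‖Λ (a j)‖ ^ 2 ≤ (1 / 8 : ℝ) ^ j) (k n : ℕ) :
    ψ (w a k n) ≤ ENNReal.ofReal (∑ j ∈ Finset.Ico k n, 2 * (1 / 4 : ℝ) ^ j) := by
  have haN : ∀ j, a j ∈ N := fun j => (ha j).1
  induction n with
  | zero =>
    have : w a k 0 = 0 := by simp [w]
    rw [this, wt_zero hψ]
    exact bot_le
  | succ n ih =>
    by_cases hk : k ≤ n
    · have e1 : w a k (n + 1) = w a k n +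
          (((2 : ℝ) ^ (n + 1) : ℝ) : ℂ) • (a n * star (a n)) := by
        rw [w, Finset.sum_Ico_succ_top hk]
        rfl
      have h0 : 0 ≤ a n * star (a n) := mul_star_self_nonneg _
      have hm : a n * star (a n) ∈ N := mul_mem (haN n) (star_mem (haN n))
      rw [e1, hψ.add _ (w_mem haN k n) _ (N.toStarSubalgebra.smul_mem hm _) (w_nonneg a k n)
        (term_nonneg a n), hψ.smul _ hm h0 _ (by positivity), Finset.sum_Ico_succ_top hk,
        ENNReal.ofReal_add (Finset.sum_nonneg fun j _ => by positivity) (by positivity)]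
      refine add_le_add ih ?_
      have h1 : ψ (a n * star (a n)) = ENNReal.ofReal (‖Λ (a n)‖ ^ 2) := by
        rw [hG.norm _ (ha n), ENNReal.ofReal_toReal (ha n).2]
      rw [h1, ← ENNReal.ofReal_mul (by positivity)]
      refine ENNReal.ofReal_le_ofReal ?_
      calc (2 : ℝ) ^ (n + 1) * ‖Λ (a n)‖ ^ 2 ≤ 2 ^ (n + 1) * (1 / 8) ^ n := by
            gcongr
            exact hn n
        _ = 2 * (1 / 4) ^ n := by
            rw [pow_succ]
            have : (2 : ℝ) ^ n * (1 / 8) ^ n = (1 / 4) ^ n := by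
              rw [← mul_pow]; norm_num
            linear_combination 2 * this
    · have h1 : Finset.Ico k (n + 1) = ∅ := Finset.Ico_eq_empty (by omega)
      have : w a k (n + 1) = 0 := by simp [w, h1]
      rw [this, wt_zero hψ]
      exact bot_le

lemma geo (k n : ℕ) : ∑ j ∈ Finset.Ico k n, 2 * (1 / 4 : ℝ) ^ j ≤ 3 * (1 / 4 : ℝ) ^ k := by
  by_cases hk : k ≤ n
  · have h : ∑ j ∈ Finset.Ico k n, 2 * (1 / 4 : ℝ) ^ j =
        8 / 3 * ((1 / 4 : ℝ) ^ k - (1 / 4) ^ n) := by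
      induction n, hk using Nat.le_induction with
      | base => simp
      | succ m hm ih =>
        rw [Finset.sum_Ico_succ_top hm, ih, pow_succ]
        ring
    rw [h]
    have h1 : (0 : ℝ) ≤ (1 / 4) ^ n := by positivity
    have h2 : (0 : ℝ) ≤ (1 / 4) ^ k := by positivity
    linarith
  · rw [Finset.Ico_eq_empty (by omega)]
    simp

lemma term_le (a : ℕ → H →L[ℂ] H) {k j : ℕ} (hkj : k ≤ j) (u : H) :
    (2 : ℝ) ^ (j + 1) * ‖(star (a j)) u‖ ^ 2 ≤ (⟪u, w a k (j + 1) u⟫_ℂ).re := by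
  have h1 : (((2 : ℝ) ^ (j + 1) : ℝ) : ℂ) • (a j * star (a j)) ≤ w a k (j + 1) := by
    rw [w]
    exact Finset.single_le_sum (f := fun j => (((2 : ℝ) ^ (j + 1) : ℝ) : ℂ) • (a j * star (a j)))
      (fun j _ => term_nonneg a j) (Finset.mem_Ico.2 ⟨hkj, Nat.lt_succ_self j⟩)
  refine le_trans (le_of_eq ?_) (re_mono h1 u)
  have h2 : ⟪u, (a j * star (a j)) u⟫_ℂ = ((‖(star (a j)) u‖ ^ 2 : ℝ) : ℂ) := by
    change ⟪u, a j ((star (a j)) u)⟫_ℂ = _
    have h3 : ⟪u, a j ((star (a j)) u)⟫_ℂ = ⟪(star (a j)) u, (star (a j)) u⟫_ℂ := by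
      conv_rhs => rw [ContinuousLinearMap.star_eq_adjoint, adjoint_inner_left]
      rw [ContinuousLinearMap.star_eq_adjoint]
    rw [h3, inner_self_eq_norm_sq_to_K]
    simp
  rw [smul_apply, inner_smul_right, h2, ← Complex.ofReal_mul, Complex.ofReal_re]

end WtE

open WtE in
theorem Gp_zero' (Sb : Sub N ξ i κ) (hψ : IsNSFWeight N ψ) (hG : Gns N ψ Λ ρ) {v : K}
    (hv : ((v, 0) : K × L) ∈ closure (Gp N ψ ξ i Λ)) : v = 0 := by
  -- the approximating sequence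
  choose p hp hd using fun k : ℕ => Metric.mem_closure_iff.1 hv ((1 / 8 : ℝ) ^ k) (by positivity)
  choose a ha hia hpa using hp
  have hd1 : ∀ k, dist v (p k).1 < (1 / 8 : ℝ) ^ k := fun k =>
    lt_of_le_of_lt (le_max_left _ _) (hd k)
  have hd2 : ∀ k, ‖Λ (a k)‖ ^ 2 ≤ (1 / 8 : ℝ) ^ k := by
    intro k
    have h1 : dist (0 : L) (p k).2 < (1 / 8 : ℝ) ^ k := lt_of_le_of_lt (le_max_right _ _) (hd k)
    rw [hpa, dist_zero_left] at h1
    have h2 : (1 / 8 : ℝ) ^ k ≤ 1 := pow_le_one₀ (by norm_num) (by norm_num)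
    have h3 : 0 ≤ ‖Λ (a k)‖ := norm_nonneg _
    nlinarith
  have haN : ∀ j, a j ∈ N := fun j => (ha j).1
  -- the regularizations
  choose g hgN hg0 hgψ hgl using fun k : ℕ =>
    exists_reg hψ (w_mem haN k) (w_nonneg a k) (w_mono a k) one_pos
  have hgψ' : ∀ k, ψ (g k) ≤ ENNReal.ofReal (3 * (1 / 4 : ℝ) ^ k) := by
    intro k
    refine (hgψ k).trans (iSup_le fun n => ?_)
    exact (w_psi hψ hG ha hd2 k n).trans (ENNReal.ofReal_le_ofReal (geo k n))
  have hganti : ∀ {k l : ℕ}, k ≤ l → g l ≤ g k := by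
    intro k l hkl
    refine le_of_re (hg0 l) (hg0 k) fun v => ?_
    refine (hgl l v).2 ?_
    rintro _ ⟨n, rfl⟩
    refine (re_mono (fd_mono (w_nonneg a l n) (w_anti a hkl n) one_pos) v).trans ?_
    exact (hgl k v).1 ⟨n, rfl⟩
  have hGmono : Monotone fun k => g 0 - g k := fun k l hkl => sub_le_sub_left (hganti hkl) _
  have hG0 : ∀ k, 0 ≤ g 0 - g k := fun k => sub_nonneg.2 (hganti (Nat.zero_le k))
  obtain ⟨B, hBN, hB0, hBl⟩ := exists_sup (N := N) (w := fun k => g 0 - g k)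
    (fun k => sub_mem (hgN 0) (hgN k)) hG0 hGmono (C := ‖g 0‖) (by
      intro n v
      have h1 : (g 0 - g n : H →L[ℂ] H) ≤ g 0 := sub_le_self _ (hg0 n)
      refine (re_mono h1 v).trans ?_
      calc (⟪v, g 0 v⟫_ℂ).re ≤ ‖⟪v, g 0 v⟫_ℂ‖ := Complex.re_le_norm _
        _ ≤ ‖v‖ * ‖g 0 v‖ := norm_inner_le_norm _ _
        _ ≤ ‖v‖ * (‖g 0‖ * ‖v‖) := by gcongr; exact (g 0).le_opNorm v
        _ = ‖g 0‖ * ‖v‖ ^ 2 := by ring)
  have hBg : B ≤ g 0 := by
    refine le_of_re hB0 (hg0 0) fun v => (hBl v).2 ?_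
    rintro _ ⟨n, rfl⟩
    exact re_mono (sub_le_self _ (hg0 n)) v
  have hgi0 : 0 ≤ g 0 - B := sub_nonneg.2 hBg
  have hgile : ∀ k, g 0 - B ≤ g k := by
    intro k
    refine le_of_re hgi0 (hg0 k) fun v => ?_
    have h1 := (hBl v).1 ⟨k, rfl⟩
    simp only [sub_apply, inner_sub_right, Complex.sub_re] at h1 ⊢
    linarith
  have hgiψ : ψ (g 0 - B) = 0 := by
    have h1 : ∀ k : ℕ, ψ (g 0 - B) ≤ ENNReal.ofReal (3 * (1 / 4 : ℝ) ^ k) := fun k =>
      (wt_mono hψ (sub_mem (hgN 0) hBN) (hgN k) hgi0 (hgile k)).trans (hgψ' k)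
    have h2 : Tendsto (fun k : ℕ => ENNReal.ofReal (3 * (1 / 4 : ℝ) ^ k)) atTop (𝓝 0) := by
      have h3 : Tendsto (fun k : ℕ => 3 * (1 / 4 : ℝ) ^ k) atTop (𝓝 (3 * 0)) :=
        (tendsto_pow_atTop_nhds_zero_of_lt_one (by norm_num) (by norm_num)).const_mul 3
      have h4 := ENNReal.tendsto_ofReal h3
      simpa using h4
    exact le_antisymm (ge_of_tendsto' h2 h1) bot_le
  have hgi : g 0 - B = 0 := hψ.faithful _ (sub_mem (hgN 0) hBN) hgi0 hgiψ
  have hBeq : B = g 0 := (sub_eq_zero.1 hgi).symm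
  -- convergence of the quadratic forms
  have hlim : ∀ h : H, Tendsto (fun k => (⟪h, g k h⟫_ℂ).re) atTop (𝓝 0) := by
    intro h
    have hm : Monotone fun k => (⟪h, (g 0 - g k) h⟫_ℂ).re := fun k l hkl =>
      re_mono (hGmono hkl) h
    have h1 := tendsto_atTop_isLUB hm (hBl h)
    rw [hBeq] at h1
    have h2 := (tendsto_const_nhds (x := (⟪h, g 0 h⟫_ℂ).re)).sub h1
    rw [sub_self] at h2
    refine h2.congr fun k => ?_
    rw [sub_apply, inner_sub_right, Complex.sub_re]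
    ring
  -- the vectors `v_k` converge
  have hpv : Tendsto (fun j => (p j).1) atTop (𝓝 v) := by
    rw [tendsto_iff_dist_tendsto_zero]
    refine squeeze_zero (fun j => dist_nonneg) (fun j => ?_)
      (tendsto_pow_atTop_nhds_zero_of_lt_one (by norm_num : (0 : ℝ) ≤ 1 / 8) (by norm_num))
    rw [dist_comm]
    exact (hd1 j).le
  have hort : ∀ h : H, ⟪h, i v⟫_ℂ = 0 := by
    intro h
    choose u hub hu using fun k : ℕ => fd_min (w_nonneg a k) (w_mono a k) one_pos h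
    have hu1 : ∀ k, ‖h - u k‖ ^ 2 ≤ (⟪h, g k h⟫_ℂ).re := by
      intro k
      have h1 := hu k
      rw [(hgl k h).ciSup_eq, inv_one, one_mul] at h1
      have h2 : 0 ≤ ⨆ n, (⟪u k, w a k n (u k)⟫_ℂ).re := by
        refine Real.iSup_nonneg fun n => ?_
        have := re_mono (w_nonneg a k n) (u k)
        simpa using this
      linarith
    have hu2 : Tendsto u atTop (𝓝 h) := by
      rw [tendsto_iff_norm_sub_tendsto_zero]
      have h1 : Tendsto (fun k => ‖h - u k‖ ^ 2) atTop (𝓝 0) :=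
        squeeze_zero (fun k => sq_nonneg _) hu1 (hlim h)
      have h2 := h1.sqrt
      rw [Real.sqrt_zero] at h2
      refine h2.congr fun k => ?_
      rw [Real.sqrt_sq (norm_nonneg _), norm_sub_rev]
    have hu3 : ∀ k, ⟪u k, i v⟫_ℂ = 0 := by
      intro k
      obtain ⟨C, hC⟩ := hub k
      have h1 : ∀ j, k ≤ j → ‖(star (a j)) (u k)‖ ^ 2 ≤ C * (1 / 2 : ℝ) ^ (j + 1) := by
        intro j hj
        have h2 := (term_le a hj (u k)).trans (hC ⟨j + 1, rfl⟩)
        have h3 : (1 / 2 : ℝ) ^ (j + 1) * 2 ^ (j + 1) = 1 := by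
          rw [← mul_pow]; norm_num
        calc ‖(star (a j)) (u k)‖ ^ 2 =
            (2 ^ (j + 1) * ‖(star (a j)) (u k)‖ ^ 2) * (1 / 2) ^ (j + 1) := by
              linear_combination -(‖(star (a j)) (u k)‖ ^ 2) * h3
          _ ≤ C * (1 / 2 : ℝ) ^ (j + 1) := by gcongr
      have h4 : Tendsto (fun j => ‖(star (a j)) (u k)‖ ^ 2) atTop (𝓝 0) := by
        have h5 : Tendsto (fun j : ℕ => C * (1 / 2 : ℝ) ^ (j + 1)) atTop (𝓝 0) := by
          have h6 := ((tendsto_pow_atTop_nhds_zero_of_lt_one (by norm_num : (0 : ℝ) ≤ 1 / 2)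
            (by norm_num)).comp (tendsto_add_atTop_nat 1)).const_mul C
          rw [mul_zero] at h6
          exact h6
        refine tendsto_of_tendsto_of_tendsto_of_le_of_le' tendsto_const_nhds h5
          (Eventually.of_forall fun j => sq_nonneg _) ?_
        filter_upwards [eventually_ge_atTop k] with j hj using h1 j hj
      have h7 : Tendsto (fun j => (star (a j)) (u k)) atTop (𝓝 0) := by
        rw [tendsto_zero_iff_norm_tendsto_zero]
        have h8 := h4.sqrt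
        rw [Real.sqrt_zero] at h8
        refine h8.congr fun j => ?_
        rw [Real.sqrt_sq (norm_nonneg _)]
      have h9 : Tendsto (fun j => ⟪(star (a j)) (u k), ξ⟫_ℂ) atTop (𝓝 0) := by
        have := h7.inner (𝕜 := ℂ) (tendsto_const_nhds (x := ξ))
        rwa [inner_zero_left] at this
      have h10 : Tendsto (fun j => ⟪u k, i (p j).1⟫_ℂ) atTop (𝓝 ⟪u k, i v⟫_ℂ) :=
        (tendsto_const_nhds (x := u k)).inner ((i.continuous.tendsto v).comp hpv)
      refine tendsto_nhds_unique h10 (h9.congr fun j => ?_)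
      rw [hia, ContinuousLinearMap.star_eq_adjoint, adjoint_inner_left]
    have h11 : Tendsto (fun k => ⟪u k, i v⟫_ℂ) atTop (𝓝 ⟪h, i v⟫_ℂ) :=
      hu2.inner tendsto_const_nhds
    refine tendsto_nhds_unique h11 ?_
    simp only [hu3]
    exact tendsto_const_nhds
  have hiv : i v = 0 := inner_self_eq_zero.1 (hort (i v))
  exact Sb.i_inj (by rw [hiv, map_zero])

end Pool.Agent.Helper23.ED
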