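import Pool.Agent.Helper23.ED.WtA

/-!
# Project ED: the domain of a semifinite weight
-/

open scoped InnerProductSpace Topology ENNReal BoundedContinuousFunction
open ContinuousLinearMap Filter MeasureTheory

namespace Pool.Agent.Helper23.ED

open Pool.Agent.Helper23 Pool.Agent.Helper23.RBF
open Pool.Agent.Helper78.BC.Transport (Sub r)

universe u

variable {H : Type u} [NormedAddCommGroup H] [InnerProductSpace ℂ H] [CompleteSpace H]
variable {K : Type u} [NormedAddCommGroup K] [InnerProductSpace ℂ K] [CompleteSpace K]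
variable {L : Type u} [NormedAddCommGroup L] [InnerProductSpace ℂ L] [CompleteSpace L]
variable {N : VonNeumannAlgebra H} {ψ : (H →L[ℂ] H) → ℝ≥0∞} {ξ : H} {i : K →L[ℂ] H} {κ : K}
  {Λ : (H →L[ℂ] H) → L} {ρ : (H →L[ℂ] H) → (L →L[ℂ] L)}

namespace WtF

theorem Dm_zero (hψ : IsNSFWeight N ψ) : (0 : H →L[ℂ] H) ∈ Dm N ψ := by
  refine ⟨zero_mem N, ?_⟩
  rw [zero_mul, wt_zero hψ]
  exact ENNReal.zero_ne_top

theorem Lam_zero (hψ : IsNSFWeight N ψ) (hG : Gns N ψ Λ ρ) : Λ 0 = 0 := by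
  have h := hG.smul 0 0 (Dm_zero hψ)
  rwa [zero_smul, zero_smul] at h

end WtF

theorem Gp_sub (Sb : Sub N ξ i κ) (hψ : IsNSFWeight N ψ) (hG : Gns N ψ Λ ρ) :
    ∃ Γ : Submodule ℂ (K × L), (Γ : Set (K × L)) = Gp N ψ ξ i Λ := by
  refine ⟨{ carrier := Gp N ψ ξ i Λ, add_mem' := ?_, zero_mem' := ?_, smul_mem' := ?_ }, rfl⟩
  · rintro p q ⟨a, ha, h1, h2⟩ ⟨b, hb, h3, h4⟩
    refine ⟨a + b, Dm_add hψ ha hb, ?_, ?_⟩
    · rw [Prod.fst_add, map_add, h1, h3, add_apply]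
    · rw [Prod.snd_add, hG.add a ha b hb, h2, h4]
  · refine ⟨0, WtF.Dm_zero hψ, ?_, ?_⟩
    · rw [Prod.fst_zero, map_zero, zero_apply]
    · rw [Prod.snd_zero, WtF.Lam_zero hψ hG]
  · rintro c p ⟨a, ha, h1, h2⟩
    refine ⟨c • a, Dm_smul hψ c ha, ?_, ?_⟩
    · rw [Prod.smul_fst, map_smul, h1, smul_apply]
    · rw [Prod.smul_snd, hG.smul c a ha, h2]

theorem Gp_dense (Sb : Sub N ξ i κ) (hψ : IsNSFWeight N ψ) (hG : Gns N ψ Λ ρ) (η : K)
    (h : ∀ p ∈ Gp N ψ ξ i Λ, ⟪p.1, η⟫_ℂ = 0) : η = 0 := by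
  refine Sb.i_inj ?_
  rw [map_zero]
  refine hψ.semifinite (i η) fun x hx hx0 hxt => ?_
  obtain ⟨Y, hY, hYx⟩ := exists_sqrt_mem N hx hx0
  have ha : star Y ∈ Dm N ψ := by
    refine ⟨star_mem hY, ?_⟩
    rw [star_star, hYx]
    exact hxt
  have h1 : ∀ p ∈ N, ⟪p ξ, Y (i η)⟫_ℂ = 0 := by
    intro p hp
    have h2 : star Y * p ∈ Dm N ψ := Dm_mul hψ ha hp
    have h3 : i (r i (star Y * p) κ) = (star Y * p) ξ := by
      rw [Sb.i_r h2.1, Sb.vec]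
    have h4 := h (r i (star Y * p) κ, Λ (star Y * p)) ⟨_, h2, h3, rfl⟩
    have h5 : ⟪i (r i (star Y * p) κ), i η⟫_ℂ = ⟪r i (star Y * p) κ, η⟫_ℂ := by
      rw [← adjoint_inner_right, Sb.isom]
    rw [h4, h3, mul_apply_eq_comp, ContinuousLinearMap.star_eq_adjoint, adjoint_inner_left] at h5
    exact h5
  set w : K := r i Y η with hw
  have hiw : i w = Y (i η) := Sb.i_r hY η
  have h6 : i w = 0 := by
    by_contra hne
    have hpos : 0 < ‖i w‖ := norm_pos_iff.2 hne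
    obtain ⟨p, hp, hlt⟩ := Sb.cyc w ‖i w‖ hpos
    have h7 : ⟪i w, i w⟫_ℂ = ⟪i w - p ξ, i w⟫_ℂ := by
      rw [inner_sub_left, hiw, h1 p hp, sub_zero]
    have h8 : ‖i w‖ ^ 2 ≤ ‖i w - p ξ‖ * ‖i w‖ := by
      have h9 := norm_inner_le_norm (𝕜 := ℂ) (i w - p ξ) (i w)
      rw [← h7, inner_self_eq_norm_sq_to_K] at h9
      simpa using h9
    rw [norm_sub_rev] at hlt
    nlinarith
  rw [← hYx, mul_apply_eq_comp, ← hiw, h6, map_zero]

end Pool.Agent.Helper23.ED
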