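import Pool.Agent.Helper23.ED.WtD
import Pool.Agent.Helper23.ED.WtE
import Pool.Agent.Helper23.ED.WtF
import Pool.Agent.Helper23.ED.GrA
import Pool.Agent.Helper23.ED.GrC
import Pool.Agent.Helper23.ED.GrD
import Pool.Agent.Helper23.ED.FcA
import Pool.Agent.Helper23.ED.FcD

/-!
# Project ED: unitaries scaling a normal weight
-/

open scoped InnerProductSpace Topology ENNReal BoundedContinuousFunction
open ContinuousLinearMap Filter MeasureTheory

namespace Pool.Agent.Helper23.ED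

open Pool.Agent.Helper23 Pool.Agent.Helper23.RBF
open Pool.Agent.Helper78.BC.Transport (Sub r)

universe u

variable {H : Type u} [NormedAddCommGroup H] [InnerProductSpace ℂ H] [CompleteSpace H]
variable {K : Type u} [NormedAddCommGroup K] [InnerProductSpace ℂ K] [CompleteSpace K]
variable {L : Type u} [NormedAddCommGroup L] [InnerProductSpace ℂ L] [CompleteSpace L]
variable {N : VonNeumannAlgebra H} {ψ : (H →L[ℂ] H) → ℝ≥0∞} {ξ : H} {i : K →L[ℂ] H} {κ : K}
  {Λ : (H →L[ℂ] H) → L} {ρ : (H →L[ℂ] H) → (L →L[ℂ] L)}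

omit [CompleteSpace K] [CompleteSpace L] in
private lemma NgE_closure {A B : Set (K × L)} (X : K →L[ℂ] K) (P : L →L[ℂ] L)
    (h : ∀ p ∈ A, ((X p.1, P p.2) : K × L) ∈ closure B) {p : K × L} (hp : p ∈ closure A) :
    ((X p.1, P p.2) : K × L) ∈ closure B := by
  have hc : Continuous fun p : K × L => ((X p.1, P p.2) : K × L) := by fun_prop
  exact closure_minimal (t := (fun p : K × L => ((X p.1, P p.2) : K × L)) ⁻¹' closure B)
    (fun p hp => h p hp) (isClosed_closure.preimage hc) hp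

theorem exists_T' (Sb : Sub N ξ i κ) (hsep : ∀ a ∈ N, a ξ = 0 → a = 0)
    (hψ : IsNSFWeight N ψ) (hG : Gns N ψ Λ ρ) : ∃ (T : K →L[ℂ] K) (S : K →L[ℂ] L)
      (Ψ : (ℝ →ᵇ ℂ) →⋆ₐ[ℂ] (K →L[ℂ] K)), GT (Gp N ψ ξ i Λ) T S ∧ FCal ((2 : ℂ) • T) Ψ := by
  have _ := hsep
  obtain ⟨Γ, hΓ⟩ := Gp_sub Sb hψ hG
  obtain ⟨T, S, hT⟩ := exists_GT Γ
  obtain ⟨Ψ, hΨ⟩ := exists_fcal T hT.T_star hT.T_nonneg hT.T_le
    (hT.T_inj fun η h => Gp_dense Sb hψ hG η fun p hp => h p (by
      have : p ∈ (Γ : Set (K × L)) := by rw [hΓ]; exact hp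
      exact this))
    (hT.T_inj' fun v hv => Gp_zero' Sb hψ hG (by rw [← hΓ]; exact hv))
  exact ⟨T, S, Ψ, by rw [← hΓ]; exact hT, hΨ⟩

/-- two positive contractions with the same scaled transform are equal -/
private lemma NgE_eq {T T₁ T₂ : K →L[ℂ] K} (h0 : star T = T) (h1 : star T₁ = T₁)
    (h2 : star T₂ = T₂) (hp : ∀ v : K, 0 ≤ (⟪v, T v⟫_ℂ).re)
    (hq : ∀ v : K, (⟪v, T v⟫_ℂ).re ≤ ‖v‖ ^ 2) {l : ℝ} (hl : 0 < l)
    (h : ∀ v, T₁ (T v + (l : ℂ) • (v - T v)) = T₂ (T v + (l : ℂ) • (v - T v))) : T₁ = T₂ := by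
  have hs : ∀ (A : K →L[ℂ] K), star A = A → ∀ x y, ⟪A x, y⟫_ℂ = ⟪x, A y⟫_ℂ := by
    intro A hA x y
    conv_lhs => rw [← hA]
    rw [ContinuousLinearMap.star_eq_adjoint, ContinuousLinearMap.adjoint_inner_left]
  set X : K →L[ℂ] K := T + (l : ℂ) • (1 - T) with hX
  have hXv : ∀ v, X v = T v + (l : ℂ) • (v - T v) := fun v => rfl
  have hXs : star X = X := by
    rw [hX, star_add, star_smul, star_sub, star_one, h0]
    simp
  have hinj : ∀ y, X y = 0 → y = 0 := by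
    intro y hy
    have e1 : (⟪y, X y⟫_ℂ).re = 0 := by rw [hy, inner_zero_right, Complex.zero_re]
    rw [hXv, inner_add_right, inner_smul_right, inner_sub_right, Complex.add_re,
      Complex.re_ofReal_mul, Complex.sub_re] at e1
    have e2 : (⟪y, y⟫_ℂ).re = ‖y‖ ^ 2 := by
      rw [inner_self_eq_norm_sq_to_K]
      norm_cast
    rw [e2] at e1
    have e3 := hp y
    have e4 := hq y
    have e5 : 0 ≤ l * (‖y‖ ^ 2 - (⟪y, T y⟫_ℂ).re) := mul_nonneg hl.le (by linarith)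
    have e6 : (⟪y, T y⟫_ℂ).re = 0 := by linarith
    have e7 : l * ‖y‖ ^ 2 = 0 := by rw [e6] at e1; linarith
    rcases mul_eq_zero.1 e7 with h8 | h8
    · exact (hl.ne' h8).elim
    · exact norm_eq_zero.1 (pow_eq_zero_iff two_ne_zero |>.1 h8)
  ext w
  rw [← sub_eq_zero]
  apply hinj
  refine ext_inner_right ℂ fun v => ?_
  rw [hs X hXs, inner_sub_left, hs T₁ h1, hs T₂ h2, hXv, h v, sub_self, inner_zero_left]

theorem scal_iff' (Sb : Sub N ξ i κ) (hsep : ∀ a ∈ N, a ξ = 0 → a = 0)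
    (hψ : IsNSFWeight N ψ) (hG : Gns N ψ Λ ρ) {T : K →L[ℂ] K} {S : K →L[ℂ] L}
    {Ψ : (ℝ →ᵇ ℂ) →⋆ₐ[ℂ] (K →L[ℂ] K)} (hT : GT (Gp N ψ ξ i Λ) T S)
    (hΨ : FCal ((2 : ℂ) • T) Ψ) {u : H →L[ℂ] H} (hu : u ∈ N)
    (h1 : star u * u = 1) (h2 : u * star u = 1) {l : ℝ} (hl : 0 < l) :
    (∀ x ∈ N, 0 ≤ x → ψ (star u * x * u) = ENNReal.ofReal l * ψ x) ↔
      ∀ t, r i u * Ψ (expB t) = ph t (Real.log l) • (Ψ (expB t) * r i u) := by
  obtain ⟨Γ, hΓ⟩ := Gp_sub Sb hψ hG
  have hT' : GT (Γ : Set (K × L)) T S := by rw [hΓ]; exact hT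
  have mΓ : ∀ v w, ((v, w) : K × L) ∈ Γ ↔ ∃ a ∈ Dm N ψ, i v = a ξ ∧ w = Λ a := by
    intro v w
    have : ((v, w) : K × L) ∈ (Γ : Set (K × L)) ↔ ((v, w) : K × L) ∈ Gp N ψ ξ i Λ := by rw [hΓ]
    exact this
  have hus : star u ∈ N := star_mem hu
  set U : K →L[ℂ] K := r i u with hU
  have hUs : star U = r i (star u) := Pool.Agent.Helper78.BC.Transport.Sub.r_star u
  have hU1 : star U * U = 1 := by rw [hUs, hU, Sb.r_mul hus, h1, Sb.r_one]
  have hU2 : U * star U = 1 := by rw [hUs, hU, Sb.r_mul hu, h2, Sb.r_one]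
  have hUU1 : ∀ v, (star U) (U v) = v := fun v => by
    have := congrArg (fun A : K →L[ℂ] K => A v) hU1
    simpa using this
  have hUU2 : ∀ v, U ((star U) v) = v := fun v => by
    have := congrArg (fun A : K →L[ℂ] K => A v) hU2
    simpa using this
  have hiU : ∀ v, i (U v) = u (i v) := fun v => Sb.i_r hu v
  have hiUs : ∀ v, i ((star U) v) = star u (i v) := fun v => by rw [hUs]; exact Sb.i_r hus v
  have hc0 : 0 < Real.sqrt l := Real.sqrt_pos.2 hl
  set c : ℝ := Real.sqrt l with hc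
  have hcc : c ^ 2 = l := Real.sq_sqrt hl.le
  have hcC : (c : ℂ) ≠ 0 := by exact_mod_cast hc0.ne'
  -- the two graphs
  set Γ₁ : Submodule ℂ (K × L) := Γ.comap
    (((star U : K →L[ℂ] K) : K →ₗ[ℂ] K).prodMap (LinearMap.id : L →ₗ[ℂ] L)) with hΓ₁
  set Γ₂ : Submodule ℂ (K × L) := Γ.comap
    ((LinearMap.id : K →ₗ[ℂ] K).prodMap ((c : ℂ)⁻¹ • (LinearMap.id : L →ₗ[ℂ] L))) with hΓ₂
  have m1 : ∀ v w, ((v, w) : K × L) ∈ Γ₁ ↔ (((star U) v, w) : K × L) ∈ Γ := fun v w => Iff.rfl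
  have m2 : ∀ v w, ((v, w) : K × L) ∈ Γ₂ ↔ ((v, (c : ℂ)⁻¹ • w) : K × L) ∈ Γ :=
    fun v w => Iff.rfl
  obtain ⟨T₁, S₁, hT₁⟩ := exists_GT Γ₁
  obtain ⟨T₂, S₂, hT₂⟩ := exists_GT Γ₂
  have e1 : T₁ = U * T * star U := GT.conj hT' hT₁ hU1 hU2 fun v w => by rw [m1, hUU1]
  have e2 : ∀ v, T₂ (T v + (l : ℂ) • (v - T v)) = T v := by
    intro v
    have := GT.scale hT' hT₂ hc0 (fun v w => by
      rw [m2, smul_smul, inv_mul_cancel₀ hcC, one_smul]) v
    rwa [hcc] at this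
  -- closures of the graphs
  have cl1 : ∀ {v w}, ((v, w) : K × L) ∈ closure (Γ₁ : Set (K × L)) →
      (((star U) v, w) : K × L) ∈ closure (Gp N ψ ξ i Λ) := by
    intro v w h
    rw [← hΓ]
    have := NgE_closure (A := (Γ₁ : Set (K × L))) (B := (Γ : Set (K × L)))
      (star U) (ContinuousLinearMap.id ℂ L)
      (fun p hp => subset_closure ((m1 p.1 p.2).1 hp)) h
    simpa using this
  have cl2 : ∀ {v w}, ((v, w) : K × L) ∈ closure (Γ₂ : Set (K × L)) →
      ((v, (c : ℂ)⁻¹ • w) : K × L) ∈ closure (Gp N ψ ξ i Λ) := by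
    intro v w h
    rw [← hΓ]
    have := NgE_closure (A := (Γ₂ : Set (K × L))) (B := (Γ : Set (K × L)))
      (ContinuousLinearMap.id ℂ K) ((c : ℂ)⁻¹ • ContinuousLinearMap.id ℂ L)
      (fun p hp => subset_closure ((m2 p.1 p.2).1 hp)) h
    simpa using this
  have z1 : ∀ w : L, ((0, w) : K × L) ∈ closure (Γ₁ : Set (K × L)) → w = 0 := by
    intro w hw
    have := cl1 hw
    rw [map_zero] at this
    exact Gp_zero Sb hsep hψ hG this
  have z2 : ∀ w : L, ((0, w) : K × L) ∈ closure (Γ₂ : Set (K × L)) → w = 0 := by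
    intro w hw
    have := Gp_zero Sb hsep hψ hG (cl2 hw)
    exact (smul_eq_zero.1 this).resolve_left (inv_ne_zero hcC)
  -- norms
  have hn : ∀ a ∈ Dm N ψ, ENNReal.ofReal (‖Λ a‖ ^ 2) = ψ (a * star a) := by
    intro a ha
    rw [hG.norm a ha, ENNReal.ofReal_toReal ha.2]
  -- the weight
  have hmain : (∀ x ∈ N, 0 ≤ x → ψ (star u * x * u) = ENNReal.ofReal l * ψ x) ↔ T₁ = T₂ := by
    have hl0 : ENNReal.ofReal l ≠ 0 := by
      rw [Ne, ENNReal.ofReal_eq_zero, not_le]; exact hl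
    constructor
    · intro hx
      have ha1 : ∀ a ∈ N, ψ (a * star a) = ENNReal.ofReal l * ψ ((u * a) * star (u * a)) := by
        intro a ha
        have h3 := hx ((u * a) * star (u * a)) (mul_mem (mul_mem hu ha) (star_mem (mul_mem hu ha)))
          (mul_star_self_nonneg _)
        rw [← h3]
        congr 1
        rw [star_mul]
        calc a * star a = (star u * u) * a * star a * (star u * u) := by rw [h1]; simp
          _ = star u * (u * a * (star a * star u)) * u := by simp only [mul_assoc]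
      refine T_unique hT₁ hT₂ ?_ ?_ ?_
      · rintro ⟨v, w⟩ hp
        obtain ⟨a, ha, hia, rfl⟩ := (mΓ _ _).1 ((m1 v w).1 hp)
        have hD : u * a ∈ Dm N ψ := by
          refine ⟨mul_mem hu ha.1, fun h3 => ha.2 ?_⟩
          rw [ha1 a ha.1, h3, ENNReal.mul_top hl0]
        refine ⟨(v, (c : ℂ) • Λ (u * a)), ?_, rfl⟩
        rw [m2, smul_smul, inv_mul_cancel₀ hcC, one_smul, mΓ]
        refine ⟨u * a, hD, ?_, rfl⟩
        rw [← hUU2 v, hiU, hia]
        rfl
      · rintro ⟨v, w⟩ hp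
        obtain ⟨b, hb, hib, hw⟩ := (mΓ _ _).1 ((m2 v w).1 hp)
        have hD : star u * b ∈ Dm N ψ := by
          refine ⟨mul_mem hus hb.1, ?_⟩
          have h3 := ha1 (star u * b) (mul_mem hus hb.1)
          rw [← mul_assoc u, h2, one_mul] at h3
          rw [h3]
          exact ENNReal.mul_ne_top ENNReal.ofReal_ne_top hb.2
        refine ⟨(v, Λ (star u * b)), ?_, rfl⟩
        rw [m1, mΓ]
        refine ⟨star u * b, hD, ?_, rfl⟩
        rw [hiUs, hib]
        rfl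
      · rintro ⟨v, w⟩ hp ⟨v', w'⟩ hq hvv
        obtain rfl : v = v' := hvv
        obtain ⟨a, ha, hia, rfl⟩ := (mΓ _ _).1 ((m1 v w).1 hp)
        obtain ⟨b, hb, hib, hw⟩ := (mΓ _ _).1 ((m2 v w').1 hq)
        have hab : b = u * a := by
          refine sub_eq_zero.1 (hsep _ (sub_mem hb.1 (mul_mem hu ha.1)) ?_)
          rw [sub_apply, sub_eq_zero, ← hib, ← hUU2 v, hiU, hia]
          rfl
        have hw' : w' = (c : ℂ) • Λ b := by
          rw [← hw, smul_smul, mul_inv_cancel₀ hcC, one_smul]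
        have h3 := ha1 a ha.1
        rw [← hab, ← hn a ha, ← hn b hb, ← ENNReal.ofReal_mul hl.le,
          ENNReal.ofReal_eq_ofReal_iff (by positivity) (by positivity)] at h3
        change ‖Λ a‖ = ‖w'‖
        have h4 : ‖w'‖ ^ 2 = l * ‖Λ b‖ ^ 2 := by
          rw [hw', norm_smul, mul_pow, Complex.norm_real, Real.norm_eq_abs, sq_abs, hcc]
        refine (pow_left_inj₀ (norm_nonneg _) (norm_nonneg _) two_ne_zero).1 ?_
        rw [h3, h4]
    · intro hTT x hx hx0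
      have hT₂' : GT (Γ₂ : Set (K × L)) T₁ S₂ := by rw [hTT]; exact hT₂
      have A1 : ∀ a ∈ Dm N ψ, u * a ∈ Dm N ψ := by
        intro a ha
        have hia : i (r i a κ) = a ξ := by rw [Sb.i_r ha.1, Sb.vec]
        have hp : ((U (r i a κ), Λ a) : K × L) ∈ Γ₁ := by
          rw [m1, hUU1, mΓ]
          exact ⟨a, ha, hia, rfl⟩
        obtain ⟨w, hw, _⟩ := exists_of_T_eq hT₁ hT₂' z1 (subset_closure hp)
        exact (Gp_snd Sb hsep hψ hG (cl2 hw) (mul_mem hu ha.1) (by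
          change i (U (r i a κ)) = _
          rw [hiU, hia]
          rfl)).1
      have A2 : ∀ b ∈ Dm N ψ, star u * b ∈ Dm N ψ ∧
          ψ ((star u * b) * star (star u * b)) = ENNReal.ofReal l * ψ (b * star b) := by
        intro b hb
        have hib : i (r i b κ) = b ξ := by rw [Sb.i_r hb.1, Sb.vec]
        have hp : ((r i b κ, (c : ℂ) • Λ b) : K × L) ∈ Γ₂ := by
          rw [m2, smul_smul, inv_mul_cancel₀ hcC, one_smul, mΓ]
          exact ⟨b, hb, hib, rfl⟩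
        obtain ⟨w, hw, hwn⟩ := exists_of_T_eq hT₂' hT₁ z2 (subset_closure hp)
        obtain ⟨h3, h4⟩ := Gp_snd Sb hsep hψ hG (cl1 hw) (mul_mem hus hb.1) (by
          change i ((star U) (r i b κ)) = _
          rw [hiUs, hib]
          rfl)
        refine ⟨h3, ?_⟩
        rw [← hn _ h3, ← hn _ hb, ← ENNReal.ofReal_mul hl.le]
        congr 1
        have h4' : w = Λ (star u * b) := h4
        have hwn' : ‖w‖ = ‖(c : ℂ) • Λ b‖ := hwn
        rw [← h4', hwn', norm_smul, mul_pow, Complex.norm_real, Real.norm_eq_abs, sq_abs, hcc]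
      obtain ⟨Y, hY, hYY⟩ := exists_sqrt_mem N hx hx0
      have hsN : star Y ∈ N := star_mem hY
      have hss : star Y * star (star Y) = x := by rw [star_star]; exact hYY
      have huu : (star u * star Y) * star (star u * star Y) = star u * x * u := by
        rw [← hss]
        simp only [star_mul, star_star, mul_assoc]
      by_cases hfin : ψ x = ⊤
      · rw [hfin, ENNReal.mul_top hl0]
        by_contra hne
        have h3 : star u * star Y ∈ Dm N ψ := ⟨mul_mem hus hsN, by rw [huu]; exact hne⟩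
        have h4 := (A1 _ h3).2
        rw [← mul_assoc u, h2, one_mul, hss] at h4
        exact h4 hfin
      · have h3 : star Y ∈ Dm N ψ := ⟨hsN, by rw [hss]; exact hfin⟩
        have h4 := (A2 _ h3).2
        rw [huu, hss] at h4
        exact h4
  rw [hmain]
  -- the functional calculus
  obtain ⟨Ψ', hΨ', hΨG⟩ := hΨ.conj hU1 hU2
  have hR' : U * ((2 : ℂ) • T) * star U = (2 : ℂ) • T₁ := by
    rw [e1, mul_smul_comm, smul_mul_assoc]
  rw [hR'] at hΨ'
  have key := FCal.scale_iff hΨ hΨ' hl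
  have hk1 : T₁ = T₂ ↔ ∀ v, T₁ (T v + (l : ℂ) • (v - T v)) = T v := by
    constructor
    · intro h v
      rw [h, e2]
    · intro h
      exact NgE_eq hT'.T_star hT₁.T_star hT₂.T_star hT'.T_nonneg hT'.T_le hl fun v => by
        rw [h, e2]
  have hk2 : (∀ v, T₁ (T v + (l : ℂ) • (v - T v)) = T v) ↔
      ∀ v, ((2 : ℂ) • T₁) (((2 : ℂ) • T) v + (l : ℂ) • ((2 : ℂ) • v - ((2 : ℂ) • T) v)) =
        (2 : ℂ) • ((2 : ℂ) • T) v := by
    refine forall_congr' fun v => ?_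
    have h3 : ((2 : ℂ) • T) v + (l : ℂ) • ((2 : ℂ) • v - ((2 : ℂ) • T) v) =
        (2 : ℂ) • (T v + (l : ℂ) • (v - T v)) := by
      rw [smul_apply, ← smul_sub, smul_add, smul_comm (l : ℂ) (2 : ℂ)]
    rw [h3, smul_apply, map_smul, smul_apply]
    constructor
    · intro h; rw [h]
    · intro h
      have h4 : Function.Injective fun x : K => (2 : ℂ) • x := smul_right_injective K two_ne_zero
      exact h4 (h4 h)
  rw [hk1, hk2, key]
  refine forall_congr' fun t => ?_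
  rw [hΨG]
  constructor
  · intro h
    have h3 := congrArg (fun A => A * U) h
    simp only [mul_assoc, hU1, mul_one, smul_mul_assoc] at h3
    exact h3
  · intro h
    rw [h, smul_mul_assoc, mul_assoc, hU2, mul_one]

end Pool.Agent.Helper23.ED
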