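import Pool.Agent.Helper23.ED.WtA

/-!
# Project ED: the Hilbert space of a weight
-/

open scoped InnerProductSpace Topology ENNReal BoundedContinuousFunction
open ContinuousLinearMap Filter MeasureTheory

namespace Pool.Agent.Helper23.ED

open Pool.Agent.Helper23 Pool.Agent.Helper23.RBF
open Pool.Agent.Helper78.BC.Transport (Sub r)

universe u

variable {H : Type u} [NormedAddCommGroup H] [InnerProductSpace ℂ H] [CompleteSpace H]
variable {N : VonNeumannAlgebra H} {ψ : (H →L[ℂ] H) → ℝ≥0∞}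

namespace WtB

/-- the squares -/
noncomputable def sq (a : H →L[ℂ] H) : H →L[ℂ] H := a * star a

theorem sq_nonneg' (a : H →L[ℂ] H) : 0 ≤ sq a := mul_star_self_nonneg a

theorem sq_mem {a : H →L[ℂ] H} (ha : a ∈ N) : sq a ∈ N := mul_mem ha (star_mem ha)

/-- the square of the norm -/
noncomputable def q (ψ : (H →L[ℂ] H) → ℝ≥0∞) (a : H →L[ℂ] H) : ℝ := (ψ (sq a)).toReal

theorem q_nonneg (a : H →L[ℂ] H) : 0 ≤ q ψ a := ENNReal.toReal_nonneg

theorem smulN (c : ℂ) {a : H →L[ℂ] H} (ha : a ∈ N) : c • a ∈ N := smul_mem' c ha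

theorem psi_add (hψ : IsNSFWeight N ψ) {a b : H →L[ℂ] H} (ha : a ∈ Dm N ψ) (hb : b ∈ Dm N ψ) :
    (ψ (sq a + sq b)).toReal = q ψ a + q ψ b := by
  rw [hψ.add _ (sq_mem ha.1) _ (sq_mem hb.1) (sq_nonneg' a) (sq_nonneg' b)]
  exact ENNReal.toReal_add ha.2 hb.2

theorem psi_smul (hψ : IsNSFWeight N ψ) {a : H →L[ℂ] H} (ha : a ∈ Dm N ψ) {c : ℝ} (hc : 0 ≤ c) :
    (ψ ((c : ℂ) • sq a)).toReal = c * q ψ a := by
  rw [hψ.smul _ (sq_mem ha.1) (sq_nonneg' a) c hc, ENNReal.toReal_mul, ENNReal.toReal_ofReal hc]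
  rfl

/-- four squares -/
theorem q_four (hψ : IsNSFWeight N ψ) {a b c d : H →L[ℂ] H} (ha : a ∈ Dm N ψ) (hb : b ∈ Dm N ψ)
    (hc : c ∈ Dm N ψ) (hd : d ∈ Dm N ψ) (h : sq a + sq b = sq c + sq d) :
    q ψ a + q ψ b = q ψ c + q ψ d := by
  rw [← psi_add hψ ha hb, ← psi_add hψ hc hd, h]

theorem sq_smul (c : ℂ) (a : H →L[ℂ] H) : sq (c • a) = ((‖c‖ ^ 2 : ℝ) : ℂ) • sq a := by
  unfold sq
  rw [star_smul, smul_mul_smul_comm]
  congr 1
  rw [RCLike.star_def, Complex.mul_conj, Complex.normSq_eq_norm_sq]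

theorem q_smul (hψ : IsNSFWeight N ψ) (c : ℂ) {a : H →L[ℂ] H} (ha : a ∈ Dm N ψ) :
    q ψ (c • a) = ‖c‖ ^ 2 * q ψ a := by
  unfold q
  rw [sq_smul]
  exact psi_smul hψ ha (by positivity)

theorem q_par (hψ : IsNSFWeight N ψ) {a b : H →L[ℂ] H} (ha : a ∈ Dm N ψ) (hb : b ∈ Dm N ψ) :
    q ψ (a + b) + q ψ (a - b) = 2 * (q ψ a + q ψ b) := by
  have hn : -b ∈ Dm N ψ := by
    have := Dm_smul hψ (-1) hb
    rwa [neg_one_smul] at this
  have hs : a - b ∈ Dm N ψ := by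
    rw [sub_eq_add_neg]; exact Dm_add hψ ha hn
  have h1 : sq (a + b) + sq (a - b) = ((2 : ℝ) : ℂ) • (sq a + sq b) := by
    unfold sq
    rw [star_add, star_sub]
    push_cast
    rw [two_smul]
    noncomm_ring
  have h2 := psi_add hψ (Dm_add hψ ha hb) hs
  rw [← h2, h1, hψ.smul _ (add_mem (sq_mem ha.1) (sq_mem hb.1))
    (add_nonneg (sq_nonneg' a) (sq_nonneg' b)) 2 (by norm_num), ENNReal.toReal_mul,
    ENNReal.toReal_ofReal (by norm_num), psi_add hψ ha hb]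

theorem norm_sqrt {r : ℝ} (hr : 0 ≤ r) : ‖((√r : ℝ) : ℂ)‖ ^ 2 = r := by
  rw [Complex.norm_real, Real.norm_eq_abs, sq_abs, Real.sq_sqrt hr]

theorem q_tri (hψ : IsNSFWeight N ψ) {a b : H →L[ℂ] H} (ha : a ∈ Dm N ψ) (hb : b ∈ Dm N ψ)
    {c : ℝ} (hc : 0 < c) :
    q ψ (a + b) ≤ (1 + c ^ 2) * q ψ a + (1 + (c⁻¹) ^ 2) * q ψ b := by
  have p1 : (0 : ℝ) ≤ 1 + c ^ 2 := by positivity
  have p2 : (0 : ℝ) ≤ 1 + (c⁻¹) ^ 2 := by positivity
  have h1 : sq (a + b) + sq ((c : ℂ) • a + (-(c⁻¹ : ℝ) : ℂ) • b) =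
      sq (((√(1 + c ^ 2) : ℝ) : ℂ) • a) + sq (((√(1 + (c⁻¹) ^ 2) : ℝ) : ℂ) • b) := by
    rw [sq_smul, sq_smul, norm_sqrt p1, norm_sqrt p2]
    unfold sq
    have hcc : (c : ℂ) * (c⁻¹ : ℂ) = 1 := mul_inv_cancel₀ (by exact_mod_cast hc.ne')
    simp only [star_add, star_smul, add_mul, mul_add, smul_mul_smul_comm, RCLike.star_def,
      Complex.conj_ofReal, map_neg]
    push_cast
    have e1 : (c : ℂ) * -(c : ℂ)⁻¹ = -1 := by rw [mul_neg, hcc]
    have e2 : -(c : ℂ)⁻¹ * (c : ℂ) = -1 := by rw [neg_mul, mul_comm, hcc]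
    rw [e1, e2]
    module
  have hx : (c : ℂ) • a + (-(c⁻¹ : ℝ) : ℂ) • b ∈ Dm N ψ :=
    Dm_add hψ (Dm_smul hψ _ ha) (Dm_smul hψ _ hb)
  have h2 := q_four hψ (Dm_add hψ ha hb) hx (Dm_smul hψ _ ha) (Dm_smul hψ _ hb) h1
  rw [q_smul hψ _ ha, q_smul hψ _ hb, norm_sqrt p1, norm_sqrt p2] at h2
  have := q_nonneg (ψ := ψ) ((c : ℂ) • a + (-(c⁻¹ : ℝ) : ℂ) • b)
  linarith

theorem q_zero_iff (hψ : IsNSFWeight N ψ) {a : H →L[ℂ] H} (ha : a ∈ Dm N ψ) :
    q ψ a = 0 ↔ a = 0 := by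
  constructor
  · intro h
    unfold q at h
    rw [ENNReal.toReal_eq_zero_iff] at h
    rcases h with h | h
    · have h2 := hψ.faithful _ (sq_mem ha.1) (sq_nonneg' a) h
      exact (CStarRing.mul_star_self_eq_zero_iff a).mp h2
    · exact absurd h ha.2
  · rintro rfl
    unfold q sq
    rw [zero_mul, wt_zero hψ]
    rfl

theorem zero_mem' (hψ : IsNSFWeight N ψ) : (0 : H →L[ℂ] H) ∈ Dm N ψ := by
  refine ⟨zero_mem N, ?_⟩
  rw [zero_mul, wt_zero hψ]
  simp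

/-- the norm -/
noncomputable def s (ψ : (H →L[ℂ] H) → ℝ≥0∞) (a : H →L[ℂ] H) : ℝ := √(q ψ a)

theorem s_tri (hψ : IsNSFWeight N ψ) {a b : H →L[ℂ] H} (ha : a ∈ Dm N ψ) (hb : b ∈ Dm N ψ) :
    s ψ (a + b) ≤ s ψ a + s ψ b := by
  rcases eq_or_lt_of_le (q_nonneg (ψ := ψ) a) with h | h
  · have h0 := (q_zero_iff hψ ha).mp h.symm
    subst h0
    rw [zero_add]
    have : 0 ≤ s ψ (0 : H →L[ℂ] H) := Real.sqrt_nonneg _
    linarith
  rcases eq_or_lt_of_le (q_nonneg (ψ := ψ) b) with h' | h'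
  · have h0 := (q_zero_iff hψ hb).mp h'.symm
    subst h0
    rw [add_zero]
    have : 0 ≤ s ψ (0 : H →L[ℂ] H) := Real.sqrt_nonneg _
    linarith
  have ha0 : 0 < s ψ a := Real.sqrt_pos.mpr h
  have hb0 : 0 < s ψ b := Real.sqrt_pos.mpr h'
  have ha2 : s ψ a ^ 2 = q ψ a := Real.sq_sqrt h.le
  have hb2 : s ψ b ^ 2 = q ψ b := Real.sq_sqrt h'.le
  have hc : 0 < √(s ψ b / s ψ a) := Real.sqrt_pos.mpr (div_pos hb0 ha0)
  have h1 := q_tri hψ ha hb hc
  have h2 : √(s ψ b / s ψ a) ^ 2 = s ψ b / s ψ a := Real.sq_sqrt (div_pos hb0 ha0).le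
  rw [inv_pow, h2, ← ha2, ← hb2] at h1
  have h3 : (1 + s ψ b / s ψ a) * s ψ a ^ 2 + (1 + (s ψ b / s ψ a)⁻¹) * s ψ b ^ 2 =
      (s ψ a + s ψ b) ^ 2 := by
    field_simp
    ring
  rw [h3] at h1
  unfold s at h1 ⊢
  exact Real.sqrt_le_iff.mpr ⟨by positivity, h1⟩

/-- the domain as a submodule -/
noncomputable def DS (hψ : IsNSFWeight N ψ) : Submodule ℂ (H →L[ℂ] H) where
  carrier := Dm N ψ
  add_mem' ha hb := Dm_add hψ ha hb
  zero_mem' := zero_mem' hψ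
  smul_mem' c _ ha := Dm_smul hψ c ha

/-- the domain with the norm of the weight -/
def WD (hψ : IsNSFWeight N ψ) : Type u := ↥(DS hψ)

noncomputable instance (hψ : IsNSFWeight N ψ) : AddCommGroup (WD hψ) :=
  inferInstanceAs (AddCommGroup ↥(DS hψ))

noncomputable instance (hψ : IsNSFWeight N ψ) : Module ℂ (WD hψ) :=
  inferInstanceAs (Module ℂ ↥(DS hψ))

/-- the underlying operator -/
def op {hψ : IsNSFWeight N ψ} (a : WD hψ) : H →L[ℂ] H := (show ↥(DS hψ) from a).1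

theorem op_mem {hψ : IsNSFWeight N ψ} (a : WD hψ) : op a ∈ Dm N ψ := (show ↥(DS hψ) from a).2

theorem op_ext {hψ : IsNSFWeight N ψ} {a b : WD hψ} (h : op a = op b) : a = b := Subtype.ext h

theorem op_add {hψ : IsNSFWeight N ψ} (a b : WD hψ) : op (a + b) = op a + op b := rfl

theorem op_sub {hψ : IsNSFWeight N ψ} (a b : WD hψ) : op (a - b) = op a - op b := rfl

theorem op_zero {hψ : IsNSFWeight N ψ} : op (0 : WD hψ) = 0 := rfl

theorem op_smul {hψ : IsNSFWeight N ψ} (c : ℂ) (a : WD hψ) : op (c • a) = c • op a := rfl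

/-- an element of the domain -/
def mk {hψ : IsNSFWeight N ψ} (a : H →L[ℂ] H) (ha : a ∈ Dm N ψ) : WD hψ :=
  (⟨a, ha⟩ : ↥(DS hψ))

theorem op_mk {hψ : IsNSFWeight N ψ} (a : H →L[ℂ] H) (ha : a ∈ Dm N ψ) :
    op (mk (hψ := hψ) a ha) = a := rfl

noncomputable instance (hψ : IsNSFWeight N ψ) : Norm (WD hψ) := ⟨fun a => s ψ (op a)⟩

theorem norm_def {hψ : IsNSFWeight N ψ} (a : WD hψ) : ‖a‖ = s ψ (op a) := rfl

theorem core (hψ : IsNSFWeight N ψ) : NormedSpace.Core ℂ (WD hψ) where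
  norm_nonneg a := Real.sqrt_nonneg _
  norm_smul c a := by
    rw [norm_def, norm_def, op_smul]
    unfold s
    rw [q_smul hψ c (op_mem a), Real.sqrt_mul (by positivity), Real.sqrt_sq (norm_nonneg c)]
  norm_triangle a b := by
    rw [norm_def, norm_def, norm_def, op_add]
    exact s_tri hψ (op_mem a) (op_mem b)
  norm_eq_zero_iff a := by
    rw [norm_def]
    unfold s
    rw [Real.sqrt_eq_zero (q_nonneg _), q_zero_iff hψ (op_mem a)]
    constructor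
    · intro h
      exact op_ext (h.trans op_zero.symm)
    · rintro rfl
      rfl

noncomputable instance (hψ : IsNSFWeight N ψ) : NormedAddCommGroup (WD hψ) :=
  NormedAddCommGroup.ofCore (core hψ)

noncomputable instance (hψ : IsNSFWeight N ψ) : NormedSpace ℂ (WD hψ) :=
  NormedSpace.ofCore (core hψ)

theorem norm_def' {hψ : IsNSFWeight N ψ} (a : WD hψ) : ‖a‖ = s ψ (op a) := rfl

theorem norm_sq' {hψ : IsNSFWeight N ψ} (a : WD hψ) : ‖a‖ ^ 2 = q ψ (op a) :=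
  Real.sq_sqrt (q_nonneg _)

noncomputable instance (hψ : IsNSFWeight N ψ) : InnerProductSpace ℂ (WD hψ) :=
  InnerProductSpace.ofNorm ℂ fun a b => by
    rw [← pow_two, ← pow_two, ← pow_two, ← pow_two, norm_sq', norm_sq', norm_sq', norm_sq',
      op_add, op_sub]
    exact q_par hψ (op_mem a) (op_mem b)

/-- right multiplication -/
noncomputable def Rl (hψ : IsNSFWeight N ψ) {p : H →L[ℂ] H} (hp : p ∈ N) : WD hψ →ₗ[ℂ] WD hψ where
  toFun a := mk (op a * p) (Dm_mul hψ (op_mem a) hp)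
  map_add' a b := op_ext (by
    rw [op_mk, op_add, op_add, op_mk, op_mk, add_mul])
  map_smul' c a := op_ext (by
    rw [op_mk, op_smul, RingHom.id_apply, op_smul, op_mk, smul_mul_assoc])

theorem sq_mul_le (a p : H →L[ℂ] H) : sq (a * p) ≤ sq (((‖p‖ : ℝ) : ℂ) • a) := by
  have h1 : sq (a * p) = a * (p * star p) * star a := by
    unfold sq
    rw [star_mul]
    simp only [mul_assoc]
  have h2 : IsSelfAdjoint (p * star p) := IsSelfAdjoint.mul_star_self p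
  have h3 := CStarAlgebra.star_right_conjugate_le_norm_smul (a := a) (b := p * star p) h2
  rw [h1, sq_smul]
  refine h3.trans (le_of_eq ?_)
  rw [CStarRing.norm_self_mul_star, Complex.norm_real, norm_norm, Complex.coe_smul, ← pow_two]
  rfl

theorem Rl_bound (hψ : IsNSFWeight N ψ) {p : H →L[ℂ] H} (hp : p ∈ N) (a : WD hψ) :
    ‖Rl hψ hp a‖ ≤ ‖p‖ * ‖a‖ := by
  rw [norm_def', norm_def']
  have h1 : q ψ (op (Rl hψ hp a)) ≤ q ψ (((‖p‖ : ℝ) : ℂ) • op a) := by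
    refine ENNReal.toReal_mono (Dm_smul hψ _ (op_mem a)).2 ?_
    exact wt_mono hψ (sq_mem (mul_mem (op_mem a).1 hp)) (sq_mem (smulN _ (op_mem a).1))
      (sq_nonneg' _) (sq_mul_le (op a) p)
  rw [q_smul hψ _ (op_mem a), Complex.norm_real, norm_norm] at h1
  unfold s
  refine (Real.sqrt_le_sqrt h1).trans (le_of_eq ?_)
  rw [Real.sqrt_mul (by positivity), Real.sqrt_sq (norm_nonneg p)]

/-- the four squares of the polarization -/
theorem pol (hψ : IsNSFWeight N ψ) {p : H →L[ℂ] H} (hp : p ∈ N) (a b : WD hψ) :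
    ‖Rl hψ hp a + b‖ ^ 2 - ‖Rl hψ hp a - b‖ ^ 2 =
      ‖a + Rl hψ (star_mem hp) b‖ ^ 2 - ‖a - Rl hψ (star_mem hp) b‖ ^ 2 := by
  rw [norm_sq', norm_sq', norm_sq', norm_sq']
  have h := q_four hψ (op_mem (Rl hψ hp a + b)) (op_mem (a - Rl hψ (star_mem hp) b))
    (op_mem (a + Rl hψ (star_mem hp) b)) (op_mem (Rl hψ hp a - b)) (by
      rw [op_add, op_sub, op_add, op_sub]
      change sq (op a * p + op b) + sq (op a - op b * star p) =
        sq (op a + op b * star p) + sq (op a * p - op b)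
      unfold sq
      simp only [star_add, star_sub, star_mul, star_star]
      noncomm_ring)
  linarith

theorem adj (hψ : IsNSFWeight N ψ) {p : H →L[ℂ] H} (hp : p ∈ N) (a b : WD hψ) :
    ⟪Rl hψ hp a, b⟫_ℂ = ⟪a, Rl hψ (star_mem hp) b⟫_ℂ := by
  rw [inner_eq_sum_norm_sq_div_four, inner_eq_sum_norm_sq_div_four]
  have h1 := pol hψ hp a b
  have h2 := pol hψ hp a ((RCLike.I : ℂ) • b)
  rw [map_smul] at h2
  have h3 : (‖Rl hψ hp a + b‖ : ℂ) ^ 2 - (‖Rl hψ hp a - b‖ : ℂ) ^ 2 =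
      (‖a + Rl hψ (star_mem hp) b‖ : ℂ) ^ 2 - (‖a - Rl hψ (star_mem hp) b‖ : ℂ) ^ 2 := by
    exact_mod_cast h1
  have h4 : (‖Rl hψ hp a + (RCLike.I : ℂ) • b‖ : ℂ) ^ 2 -
      (‖Rl hψ hp a - (RCLike.I : ℂ) • b‖ : ℂ) ^ 2 =
      (‖a + (RCLike.I : ℂ) • Rl hψ (star_mem hp) b‖ : ℂ) ^ 2 -
        (‖a - (RCLike.I : ℂ) • Rl hψ (star_mem hp) b‖ : ℂ) ^ 2 := by
    exact_mod_cast h2
  simp only [Complex.coe_algebraMap] at *
  linear_combination h3 / 4 - (RCLike.I : ℂ) * h4 / 4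

/-- right multiplication as a continuous map -/
noncomputable def RC (hψ : IsNSFWeight N ψ) {p : H →L[ℂ] H} (hp : p ∈ N) : WD hψ →L[ℂ] WD hψ :=
  (Rl hψ hp).mkContinuous ‖p‖ (Rl_bound hψ hp)

open UniformSpace in
/-- the embedding in the completion -/
noncomputable def em (hψ : IsNSFWeight N ψ) : WD hψ →L[ℂ] Completion (WD hψ) :=
  Completion.toComplL

open UniformSpace in
theorem em_apply (hψ : IsNSFWeight N ψ) (a : WD hψ) : em hψ a = (a : Completion (WD hψ)) := rfl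

open UniformSpace in
/-- the extension of right multiplication -/
noncomputable def RE (hψ : IsNSFWeight N ψ) {p : H →L[ℂ] H} (hp : p ∈ N) :
    Completion (WD hψ) →L[ℂ] Completion (WD hψ) :=
  ((em hψ).comp (RC hψ hp)).extend (em hψ)

open UniformSpace in
theorem RE_coe (hψ : IsNSFWeight N ψ) {p : H →L[ℂ] H} (hp : p ∈ N) (a : WD hψ) :
    RE hψ hp (a : Completion (WD hψ)) = ((Rl hψ hp a : WD hψ) : Completion (WD hψ)) := by
  have h1 := ContinuousLinearMap.extend_eq (e := em hψ) ((em hψ).comp (RC hψ hp))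
    Completion.denseRange_coe (Completion.isUniformInducing_coe _) a
  exact h1

open UniformSpace in
theorem RE_star (hψ : IsNSFWeight N ψ) {p : H →L[ℂ] H} (hp : p ∈ N) :
    star (RE hψ hp) = RE hψ (star_mem hp) := by
  symm
  rw [ContinuousLinearMap.star_eq_adjoint (RE hψ hp), ContinuousLinearMap.eq_adjoint_iff]
  intro x y
  refine Completion.induction_on₂ x y ?_ ?_
  · exact isClosed_eq (by fun_prop) (by fun_prop)
  · intro a b
    rw [RE_coe, RE_coe, Completion.inner_coe, Completion.inner_coe]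
    have h := adj hψ hp b a
    rw [← inner_conj_symm, ← inner_conj_symm (𝕜 := ℂ) a, h]

end WtB

open WtB UniformSpace in
theorem exists_gns (hψ : IsNSFWeight N ψ) : ∃ (L : Type u) (_ : NormedAddCommGroup L)
    (_ : InnerProductSpace ℂ L) (_ : CompleteSpace L) (Λ : (H →L[ℂ] H) → L)
    (ρ : (H →L[ℂ] H) → (L →L[ℂ] L)), Gns N ψ Λ ρ := by
  classical
  refine ⟨Completion (WD hψ), inferInstance, inferInstance, inferInstance,
    fun a => if ha : a ∈ Dm N ψ then ((mk a ha : WD hψ) : Completion (WD hψ)) else 0,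
    fun p => if hp : p ∈ N then RE hψ hp else 0, ?_, ?_, ?_, ?_, ?_⟩
  · intro a ha b hb
    rw [dif_pos ha, dif_pos hb, dif_pos (Dm_add hψ ha hb), ← Completion.coe_add]
    rfl
  · intro c a ha
    rw [dif_pos ha, dif_pos (Dm_smul hψ c ha), ← Completion.coe_smul]
    rfl
  · intro a ha
    rw [dif_pos ha, Completion.norm_coe, norm_sq', op_mk]
    rfl
  · intro p hp a ha
    rw [dif_pos ha, dif_pos (Dm_mul hψ ha hp), dif_pos hp, RE_coe]
    rfl
  · intro p hp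
    rw [dif_pos hp, dif_pos (star_mem hp)]
    exact RE_star hψ hp

end Pool.Agent.Helper23.ED
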