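import Pool.Agent.Helper23.UBF
import Pool.Agent.Helper23.UFin
import Pool.Agent.Helper78.BC.Transport

/-!
# Project ED: every dominant weight. Definitions.
-/

open scoped InnerProductSpace Topology ENNReal BoundedContinuousFunction
open ContinuousLinearMap Filter MeasureTheory

namespace Pool.Agent.Helper23.ED

open Pool.Agent.Helper23 Pool.Agent.Helper23.RBF
open Pool.Agent.Helper78.BC.Transport (Sub r)

universe u

section fc

variable {H : Type*} [NormedAddCommGroup H] [InnerProductSpace ℂ H] [CompleteSpace H]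

/-- `Ψ` is the bounded functional calculus of `log ((2 - R) / R)`. -/
structure FCal (R : H →L[ℂ] H) (Ψ : (ℝ →ᵇ ℂ) →⋆ₐ[ℂ] (H →L[ℂ] H)) : Prop where
  psi_FR : Ψ FR = R
  psi_cont : ∀ (G : ℕ → (ℝ →ᵇ ℂ)) (G₀ : ℝ →ᵇ ℂ) (C : ℝ), (∀ n, ‖G n‖ ≤ C) →
    (∀ L : ℝ, TendstoUniformlyOn (fun n ρ => G n ρ) (fun ρ => G₀ ρ) atTop (Set.Icc (-L) L)) →
    ∀ v : H, Tendsto (fun n => Ψ (G n) v) atTop (𝓝 (Ψ G₀ v))

/-- the translate `ρ ↦ G (ρ + c)` -/
noncomputable def shiftB (c : ℝ) (G : ℝ →ᵇ ℂ) : ℝ →ᵇ ℂ :=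
  G.compContinuous ⟨fun ρ : ℝ => ρ + c, by fun_prop⟩

@[simp] lemma shiftB_apply (c : ℝ) (G : ℝ →ᵇ ℂ) (ρ : ℝ) : shiftB c G ρ = G (ρ + c) := rfl

/-- a conjugation of a Hilbert space -/
structure IsConj (C : H → H) : Prop where
  add : ∀ x y, C (x + y) = C x + C y
  smul : ∀ (c : ℂ) x, C (c • x) = (starRingEnd ℂ) c • C x
  inner : ∀ x y, ⟪C x, C y⟫_ℂ = ⟪y, x⟫_ℂ
  invol : ∀ x, C (C x) = x

/-- the phase `e^{i t c}` -/
noncomputable def ph (t c : ℝ) : ℂ := Complex.exp (((t * c : ℝ) : ℂ) * Complex.I)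

/-- the weight `x ↦ Σ ⟪ζ n, x ζ n⟫` -/
noncomputable def wt (ζ : ℕ → H) (x : H →L[ℂ] H) : ℝ≥0∞ :=
  ∑' n, ENNReal.ofReal (⟪ζ n, x (ζ n)⟫_ℂ).re

/-- the weight `wt ζ` on `N` is faithful and semifinite -/
structure NSF (N : VonNeumannAlgebra H) (ζ : ℕ → H) : Prop where
  faithful : ∀ x ∈ N, 0 ≤ x → wt ζ x = 0 → x = 0
  semifinite : ∀ η : H, (∀ x ∈ N, 0 ≤ x → wt ζ x ≠ ⊤ → x η = 0) → η = 0

end fc

section graph

variable {K : Type*} [NormedAddCommGroup K] [InnerProductSpace ℂ K] [CompleteSpace K]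
variable {L : Type*} [NormedAddCommGroup L] [InnerProductSpace ℂ L] [CompleteSpace L]

/-- `(T η, S η)` is the projection of `(η, 0)` on the closure of `Γ`. -/
structure GT (Γ : Set (K × L)) (T : K →L[ℂ] K) (S : K →L[ℂ] L) : Prop where
  mem : ∀ η, (T η, S η) ∈ closure Γ
  orth : ∀ p ∈ Γ, ∀ η, ⟪p.1, η⟫_ℂ = ⟪p.1, T η⟫_ℂ + ⟪p.2, S η⟫_ℂ

end graph

section weight

variable {H : Type u} [NormedAddCommGroup H] [InnerProductSpace ℂ H] [CompleteSpace H]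
variable {K : Type u} [NormedAddCommGroup K] [InnerProductSpace ℂ K] [CompleteSpace K]

/-- square summable sequences -/
abbrev LN (H : Type u) [NormedAddCommGroup H] [InnerProductSpace ℂ H] [CompleteSpace H] : Type u :=
  lp (fun _ : ℕ => H) 2

/-- the pairs `(a ξ, (C a* ζ n)_n)` with `a ∈ N` and `Σ ‖a* ζ n‖² < ∞` -/
def Gr (N : VonNeumannAlgebra H) (ξ : H) (i : K →L[ℂ] H) (C : H → H) (ζ : ℕ → H) :
    Set (K × LN H) :=
  {p | ∃ a ∈ N, i p.1 = a ξ ∧ ∀ n, p.2 n = C ((star a) (ζ n))}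

end weight

section smear

variable {K : Type*} [NormedAddCommGroup K] [InnerProductSpace ℂ K] [CompleteSpace K]

/-- `∫ f(t) U_t Y U_{-t} dt` -/
noncomputable def smear (U : ℝ → K →L[ℂ] K) (f : ℝ → ℂ) (Y : K →L[ℂ] K) : K →L[ℂ] K :=
  open Classical in
  if h : ∃ T : K →L[ℂ] K, ∀ v w, ⟪v, T w⟫_ℂ = ∫ t, f t * ⟪v, U t (Y (U (-t) w))⟫_ℂ
    then h.choose else 0

/-- the Gaussian `exp(-m (t - z)²)` -/
noncomputable def gau (m : ℝ) (z : ℂ) (t : ℝ) : ℂ := Complex.exp (-(m : ℂ) * ((t : ℂ) - z) ^ 2)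

/-- a strongly continuous one-parameter unitary group -/
structure UG (U : ℝ → K →L[ℂ] K) : Prop where
  cont : ∀ v, Continuous fun t => U t v
  zero : U 0 = 1
  add : ∀ s t, U (s + t) = U s * U t
  star : ∀ t, star (U t) = U (-t)

end smear

section amp

variable {H : Type*} [NormedAddCommGroup H] [InnerProductSpace ℂ H] [CompleteSpace H]

/-- the character `s ↦ e^{i a s}` -/
noncomputable def ems (a s : ℝ) : ℂ := ph a s

/-- the group `V_a ⊗ e^{i a s}` on `L²(ℝ; H)` -/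
noncomputable def UV (V : ℝ → H →L[ℂ] H) (a : ℝ) : L2R H →L[ℂ] L2R H :=
  lift (V a) * mulOp H (ems a)

/-- the field `t ↦ U_{2πt} c U_{-2πt}` in the Fourier picture -/
noncomputable def fcn (Ψ : (ℝ →ᵇ ℂ) →⋆ₐ[ℂ] (H →L[ℂ] H)) (c : H →L[ℂ] H) :
    L2R H →L[ℂ] L2R H :=
  fco fun t : ℝ => Ψ (expB (2 * Real.pi * t)) * c * Ψ (expB (-(2 * Real.pi * t)))

/-- elements of the amplification of `M` commuting with the explicit unitaries -/
def Rk1 (M N : VonNeumannAlgebra H) (Ψ : (ℝ →ᵇ ℂ) →⋆ₐ[ℂ] (H →L[ℂ] H)) :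
    Set (L2R H →L[ℂ] L2R H) :=
  {X | X ∈ amp M ∧ (∀ m, BM m → (∀ s, ‖m s‖ = 1) → mulOp H m * X = X * mulOp H m) ∧
    ∀ u ∈ N, star u * u = 1 → u * star u = 1 → fcn Ψ u * X = X * fcn Ψ u}

/-- the cocycle of a weight `ψ` on `N` with respect to the group `V` -/
structure Coc (N : VonNeumannAlgebra H) (V : ℝ → H →L[ℂ] H) (ψ : (H →L[ℂ] H) → ℝ≥0∞)
    (c : ℝ → H →L[ℂ] H) : Prop where
  mem : ∀ t, c t ∈ N
  unit : ∀ t, star (c t) * c t = 1 ∧ c t * star (c t) = 1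
  cont : ∀ v, Continuous fun t => c t v
  cocycle : ∀ s t, c (s + t) = c s * (V s * c t * V (-s))
  scal : ∀ u ∈ N, star u * u = 1 → u * star u = 1 → ∀ l : ℝ, 0 < l →
    (ScalingUnitary N ψ l u ↔ ∀ t, u * (c t * V t) = ph t (Real.log l) • (c t * V t * u))

/-- intertwiners of the group `W` with `e^{i t s} W` -/
def CS (N : VonNeumannAlgebra H) (W : ℝ → H →L[ℂ] H) (s : ℝ) : Set (H →L[ℂ] H) :=
  {x | x ∈ N ∧ ‖x‖ ≤ 1 ∧ ∀ t, x * W t = ph t s • (W t * x)}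

end amp

end Pool.Agent.Helper23.ED
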