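import Pool.Agent.Helper23.ED.Defs

/-!
# Project ED: weights which are normal in the sense of suprema: definitions
-/

open scoped InnerProductSpace Topology ENNReal BoundedContinuousFunction
open ContinuousLinearMap Filter MeasureTheory

namespace Pool.Agent.Helper23.ED

open Pool.Agent.Helper23 Pool.Agent.Helper23.RBF
open Pool.Agent.Helper78.BC.Transport (Sub r)

universe u

section fd

variable {H : Type*} [NormedAddCommGroup H] [InnerProductSpace ℂ H] [CompleteSpace H]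

/-- `x (1 + δ x)⁻¹` for positive `x` -/
noncomputable def fd (δ : ℝ) (x : H →L[ℂ] H) : H →L[ℂ] H :=
  x * Ring.inverse (1 + (δ : ℂ) • x)

end fd

section gns

variable {H : Type u} [NormedAddCommGroup H] [InnerProductSpace ℂ H] [CompleteSpace H]
variable {K : Type u} [NormedAddCommGroup K] [InnerProductSpace ℂ K] [CompleteSpace K]
variable {L : Type u} [NormedAddCommGroup L] [InnerProductSpace ℂ L] [CompleteSpace L]

/-- the domain `{a ∈ N | ψ(a a*) < ∞}` -/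
def Dm (N : VonNeumannAlgebra H) (ψ : (H →L[ℂ] H) → ℝ≥0∞) : Set (H →L[ℂ] H) :=
  {a | a ∈ N ∧ ψ (a * star a) ≠ ⊤}

/-- the Hilbert space of the weight; `ρ p` is right multiplication by `p` -/
structure Gns (N : VonNeumannAlgebra H) (ψ : (H →L[ℂ] H) → ℝ≥0∞) (Λ : (H →L[ℂ] H) → L)
    (ρ : (H →L[ℂ] H) → (L →L[ℂ] L)) : Prop where
  add : ∀ a ∈ Dm N ψ, ∀ b ∈ Dm N ψ, Λ (a + b) = Λ a + Λ b
  smul : ∀ (c : ℂ), ∀ a ∈ Dm N ψ, Λ (c • a) = c • Λ a
  norm : ∀ a ∈ Dm N ψ, ‖Λ a‖ ^ 2 = (ψ (a * star a)).toReal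
  mul : ∀ p ∈ N, ∀ a ∈ Dm N ψ, ρ p (Λ a) = Λ (a * p)
  star : ∀ p ∈ N, star (ρ p) = ρ (star p)

/-- the pairs `(a ξ, Λ a)` -/
def Gp (N : VonNeumannAlgebra H) (ψ : (H →L[ℂ] H) → ℝ≥0∞) (ξ : H) (i : K →L[ℂ] H)
    (Λ : (H →L[ℂ] H) → L) : Set (K × L) :=
  {p | ∃ a ∈ Dm N ψ, i p.1 = a ξ ∧ p.2 = Λ a}

end gns

end Pool.Agent.Helper23.ED
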