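import Pool.Agent.Helper23.ED.DefsW

/-!
# Project ED: the functions x (1 + δ x)⁻¹
-/

open scoped InnerProductSpace Topology ENNReal BoundedContinuousFunction
open ContinuousLinearMap Filter MeasureTheory

namespace Pool.Agent.Helper23.ED

open Pool.Agent.Helper23 Pool.Agent.Helper23.RBF
open Pool.Agent.Helper78.BC.Transport (Sub r)

universe u

variable {H : Type*} [NormedAddCommGroup H] [InnerProductSpace ℂ H] [CompleteSpace H]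

namespace FdA

theorem isUnit_one_add {x : H →L[ℂ] H} (hx : 0 ≤ x) {δ : ℝ} (hδ : 0 < δ) :
    IsUnit (1 + (δ : ℂ) • x) := by
  have h1 : IsStrictlyPositive (1 : H →L[ℂ] H) := IsStrictlyPositive.iff_of_unital.mpr
    ⟨zero_le_one, isUnit_one⟩
  have h2 : 0 ≤ (δ : ℂ) • x := by
    rw [nonneg_iff_isPositive] at hx ⊢
    exact hx.smul_of_nonneg (by exact_mod_cast hδ.le)
  exact CStarAlgebra.isUnit_of_le (1 : H →L[ℂ] H) (le_add_of_nonneg_right h2) h1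

/-- the basic solution `w = (1 + δ x)⁻¹ v` -/
theorem exists_sol {x : H →L[ℂ] H} (hx : 0 ≤ x) {δ : ℝ} (hδ : 0 < δ) (v : H) :
    ∃ w, v = w + (δ : ℂ) • x w ∧ fd δ x v = x w := by
  have hu := isUnit_one_add hx hδ
  refine ⟨Ring.inverse (1 + (δ : ℂ) • x) v, ?_, rfl⟩
  have h := Ring.mul_inverse_cancel _ hu
  have h2 := congrArg (fun T : H →L[ℂ] H => T v) h
  simpa using h2.symm

omit [CompleteSpace H] in
theorem inner_sa {x : H →L[ℂ] H} (hx : 0 ≤ x) (a b : H) : ⟪x a, b⟫_ℂ = ⟪a, x b⟫_ℂ :=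
  ((nonneg_iff_isPositive x).1 hx).inner_left_eq_inner_right a b

omit [CompleteSpace H] in
theorem re_nonneg {x : H →L[ℂ] H} (hx : 0 ≤ x) (a : H) : 0 ≤ (⟪a, x a⟫_ℂ).re :=
  ((nonneg_iff_isPositive x).1 hx).re_inner_nonneg_right a

omit [CompleteSpace H] in
theorem re_symm (a b : H) : (⟪a, b⟫_ℂ).re = (⟪b, a⟫_ℂ).re := by
  rw [← inner_conj_symm, Complex.conj_re]

omit [CompleteSpace H] in
theorem val_eq {x : H →L[ℂ] H} {δ : ℝ} {v w : H} (h1 : v = w + (δ : ℂ) • x w)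
    (h2 : fd δ x v = x w) :
    (⟪v, fd δ x v⟫_ℂ).re = (⟪w, x w⟫_ℂ).re + δ * ‖x w‖ ^ 2 := by
  have e : (⟪x w, x w⟫_ℂ).re = ‖x w‖ ^ 2 := by
    rw [inner_self_eq_norm_sq_to_K]
    norm_cast
  have e2 : (⟪v, fd δ x v⟫_ℂ).re = (⟪w + (δ : ℂ) • x w, x w⟫_ℂ).re := by
    rw [h2]
    exact congrArg (fun z => (⟪z, x w⟫_ℂ).re) h1
  rw [e2, inner_add_left, inner_smul_left, Complex.add_re, Complex.conj_ofReal,
    Complex.re_ofReal_mul, e]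

theorem isSelfAdjoint_fd {x : H →L[ℂ] H} (hx : 0 ≤ x) {δ : ℝ} (hδ : 0 < δ) (a b : H) :
    ⟪fd δ x a, b⟫_ℂ = ⟪a, fd δ x b⟫_ℂ := by
  obtain ⟨w, h1, h2⟩ := exists_sol hx hδ a
  obtain ⟨w', h1', h2'⟩ := exists_sol hx hδ b
  rw [h2, h2']
  have e1 : ⟪x w, b⟫_ℂ = ⟪x w, w'⟫_ℂ + (δ : ℂ) * ⟪x w, x w'⟫_ℂ := by
    rw [h1', inner_add_right, inner_smul_right]
  have e2 : ⟪a, x w'⟫_ℂ = ⟪w, x w'⟫_ℂ + (δ : ℂ) * ⟪x w, x w'⟫_ℂ := by
    rw [h1, inner_add_left, inner_smul_left, Complex.conj_ofReal]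
  rw [e1, e2, inner_sa hx]

omit [CompleteSpace H] in
theorem le_of_re {S T : H →L[ℂ] H} (hS : ∀ a b, ⟪S a, b⟫_ℂ = ⟪a, S b⟫_ℂ)
    (hT : ∀ a b, ⟪T a, b⟫_ℂ = ⟪a, T b⟫_ℂ)
    (h : ∀ v, (⟪v, S v⟫_ℂ).re ≤ (⟪v, T v⟫_ℂ).re) : S ≤ T := by
  rw [ContinuousLinearMap.le_def]
  refine ⟨?_, fun v => ?_⟩
  · intro a b
    have e1 : ((T - S : H →L[ℂ] H) : H →ₗ[ℂ] H) a = T a - S a := rfl
    have e2 : ((T - S : H →L[ℂ] H) : H →ₗ[ℂ] H) b = T b - S b := rfl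
    rw [e1, e2, inner_sub_left, inner_sub_right, hS, hT]
  · have e1 : (T - S : H →L[ℂ] H).reApplyInnerSelf v = RCLike.re ⟪T v - S v, v⟫_ℂ := rfl
    rw [e1]
    have h1 := h v
    have e2 : RCLike.re ⟪T v - S v, v⟫_ℂ = (⟪v, T v⟫_ℂ).re - (⟪v, S v⟫_ℂ).re := by
      rw [inner_sub_left, map_sub, hT, hS]
      rfl
    rw [e2]
    linarith

end FdA

open FdA

/-- the minimizer of the quadratic functional (it is `u₀ = (1 + δ x)⁻¹ v`) -/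
theorem fd_exact {x : H →L[ℂ] H} (hx : 0 ≤ x) {δ : ℝ} (hδ : 0 < δ) (v : H) :
    ∃ u₀, ∀ u, δ⁻¹ * ‖v - u‖ ^ 2 + (⟪u, x u⟫_ℂ).re =
      (⟪v, fd δ x v⟫_ℂ).re + δ⁻¹ * ‖u - u₀‖ ^ 2 + (⟪u - u₀, x (u - u₀)⟫_ℂ).re := by
  obtain ⟨w, h1, h2⟩ := exists_sol hx hδ v
  refine ⟨w, fun u => ?_⟩
  rw [val_eq h1 h2]
  obtain ⟨h, rfl⟩ : ∃ h, u = w + h := ⟨u - w, by abel⟩
  have e0 : w + h - w = h := by abel
  have e1 : v - (w + h) = (δ : ℂ) • x w - h := by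
    rw [h1]
    abel
  have e2 : ‖(δ : ℂ) • x w - h‖ ^ 2 = δ ^ 2 * ‖x w‖ ^ 2 - 2 * (δ * (⟪x w, h⟫_ℂ).re) + ‖h‖ ^ 2 := by
    rw [norm_sub_sq (𝕜 := ℂ), norm_smul, inner_smul_left, Complex.conj_ofReal]
    have : RCLike.re ((δ : ℂ) * ⟪x w, h⟫_ℂ) = δ * (⟪x w, h⟫_ℂ).re := Complex.re_ofReal_mul _ _
    rw [this, Complex.norm_real, Real.norm_of_nonneg hδ.le, mul_pow]
  have e3 : (⟪w + h, x (w + h)⟫_ℂ).re =
      (⟪w, x w⟫_ℂ).re + 2 * (⟪x w, h⟫_ℂ).re + (⟪h, x h⟫_ℂ).re := by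
    rw [map_add, inner_add_left, inner_add_right, inner_add_right]
    simp only [Complex.add_re]
    have a1 : (⟪w, x h⟫_ℂ).re = (⟪x w, h⟫_ℂ).re := by rw [inner_sa hx]
    have a2 : (⟪h, x w⟫_ℂ).re = (⟪x w, h⟫_ℂ).re := re_symm _ _
    rw [a1, a2]
    ring
  rw [e0, e1, e2, e3]
  field_simp
  ring

theorem fd_var {x : H →L[ℂ] H} (hx : 0 ≤ x) {δ : ℝ} (hδ : 0 < δ) (v u : H) :
    (⟪v, fd δ x v⟫_ℂ).re ≤ δ⁻¹ * ‖v - u‖ ^ 2 + (⟪u, x u⟫_ℂ).re := by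
  obtain ⟨w, hw⟩ := fd_exact hx hδ v
  rw [hw u]
  have h1 : 0 ≤ δ⁻¹ * ‖u - w‖ ^ 2 := by positivity
  have h2 := re_nonneg hx (u - w)
  linarith

theorem fd_attain {x : H →L[ℂ] H} (hx : 0 ≤ x) {δ : ℝ} (hδ : 0 < δ) (v : H) :
    ∃ u, δ⁻¹ * ‖v - u‖ ^ 2 + (⟪u, x u⟫_ℂ).re = (⟪v, fd δ x v⟫_ℂ).re := by
  obtain ⟨w, hw⟩ := fd_exact hx hδ v
  refine ⟨w, ?_⟩
  rw [hw w]
  simp

theorem fd_nonneg {x : H →L[ℂ] H} (hx : 0 ≤ x) {δ : ℝ} (hδ : 0 < δ) : 0 ≤ fd δ x := by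
  refine le_of_re (fun a b => by simp) (isSelfAdjoint_fd hx hδ) fun v => ?_
  obtain ⟨u, hu⟩ := fd_attain hx hδ v
  rw [← hu]
  have h2 := re_nonneg hx u
  have h1 : 0 ≤ δ⁻¹ * ‖v - u‖ ^ 2 := by positivity
  simp only [zero_apply, inner_zero_right, Complex.zero_re]
  linarith

theorem fd_le {x : H →L[ℂ] H} (hx : 0 ≤ x) {δ : ℝ} (hδ : 0 < δ) : fd δ x ≤ x := by
  refine le_of_re (isSelfAdjoint_fd hx hδ) (inner_sa hx) fun v => ?_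
  have := fd_var hx hδ v v
  simpa using this

theorem fd_mono {x y : H →L[ℂ] H} (hx : 0 ≤ x) (hxy : x ≤ y) {δ : ℝ} (hδ : 0 < δ) :
    fd δ x ≤ fd δ y := by
  have hy := hx.trans hxy
  refine le_of_re (isSelfAdjoint_fd hx hδ) (isSelfAdjoint_fd hy hδ) fun v => ?_
  obtain ⟨u, hu⟩ := fd_attain hy hδ v
  have h1 := fd_var hx hδ v u
  have h2 := re_nonneg (sub_nonneg.2 hxy) u
  rw [sub_apply, inner_sub_right, Complex.sub_re] at h2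
  linarith

theorem fd_anti {x : H →L[ℂ] H} (hx : 0 ≤ x) {δ δ' : ℝ} (hδ : 0 < δ) (h : δ ≤ δ') :
    fd δ' x ≤ fd δ x := by
  have hδ' := hδ.trans_le h
  refine le_of_re (isSelfAdjoint_fd hx hδ') (isSelfAdjoint_fd hx hδ) fun v => ?_
  obtain ⟨u, hu⟩ := fd_attain hx hδ v
  have h1 := fd_var hx hδ' v u
  have h2 : δ'⁻¹ * ‖v - u‖ ^ 2 ≤ δ⁻¹ * ‖v - u‖ ^ 2 :=
    mul_le_mul_of_nonneg_right (inv_anti₀ hδ h) (by positivity)
  linarith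

theorem fd_mem {N : VonNeumannAlgebra H} {x : H →L[ℂ] H} (hN : x ∈ N) (hx : 0 ≤ x) {δ : ℝ}
    (hδ : 0 < δ) : fd δ x ∈ N := by
  have hu := isUnit_one_add hx hδ
  set A : H →L[ℂ] H := 1 + (δ : ℂ) • x with hA
  have hAinv : Ring.inverse A ∈ N := by
    rw [← VonNeumannAlgebra.commutant_commutant N, VonNeumannAlgebra.mem_commutant_iff]
    intro z hz
    have hzx : x * z = z * x := (VonNeumannAlgebra.mem_commutant_iff.1 hz) x hN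
    have hzA : A * z = z * A := by
      rw [hA, add_mul, mul_add, one_mul, mul_one, smul_mul_assoc, mul_smul_comm, hzx]
    have i1 := Ring.mul_inverse_cancel _ hu
    have i2 := Ring.inverse_mul_cancel _ hu
    calc z * Ring.inverse A = Ring.inverse A * A * z * Ring.inverse A := by rw [i2, one_mul]
      _ = Ring.inverse A * (z * (A * Ring.inverse A)) := by
          rw [mul_assoc (Ring.inverse A) A z, hzA]
          simp only [mul_assoc]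
      _ = Ring.inverse A * z := by rw [i1, mul_one]
  exact mul_mem hN hAinv

theorem fd_lub {x : H →L[ℂ] H} (hx : 0 ≤ x) (v : H) :
    IsLUB (Set.range fun n : ℕ => (⟪v, fd (1 / ((n : ℝ) + 1)) x v⟫_ℂ).re) (⟪v, x v⟫_ℂ).re := by
  constructor
  · rintro _ ⟨n, rfl⟩
    have hδ : (0 : ℝ) < 1 / ((n : ℝ) + 1) := by positivity
    have := fd_var hx hδ v v
    simpa using this
  · intro b hb
    have key : ∀ n : ℕ, (⟪v, x v⟫_ℂ).re ≤ b + (1 / ((n : ℝ) + 1)) * ‖x v‖ ^ 2 := by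
      intro n
      set δ : ℝ := 1 / ((n : ℝ) + 1) with hδd
      have hδ : 0 < δ := by positivity
      have hbn : (⟪v, fd δ x v⟫_ℂ).re ≤ b := hb ⟨n, rfl⟩
      obtain ⟨w, h1, h2⟩ := exists_sol hx hδ v
      have e1 : ‖x w‖ ^ 2 ≤ ‖x v‖ ^ 2 := by
        have a1 : x v = x w + (δ : ℂ) • x (x w) := by
          conv_lhs => rw [h1]
          rw [map_add, map_smul]
        rw [a1, norm_add_sq (𝕜 := ℂ), inner_smul_right]
        have a2 : RCLike.re ((δ : ℂ) * ⟪x w, x (x w)⟫_ℂ) = δ * (⟪x w, x (x w)⟫_ℂ).re :=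
          Complex.re_ofReal_mul _ _
        rw [a2]
        have a3 := re_nonneg hx (x w)
        have a4 : 0 ≤ δ * (⟪x w, x (x w)⟫_ℂ).re := mul_nonneg hδ.le a3
        have a5 : 0 ≤ ‖(δ : ℂ) • x (x w)‖ ^ 2 := by positivity
        linarith
      have e2 : (⟪v, x v⟫_ℂ).re = (⟪v, fd δ x v⟫_ℂ).re + δ * (⟪x v, x w⟫_ℂ).re := by
        have b1 : x v = x w + (δ : ℂ) • x (x w) := by
          conv_lhs => rw [h1]
          rw [map_add, map_smul]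
        have b2 : ⟪v, x v⟫_ℂ = ⟪v, x w⟫_ℂ + (δ : ℂ) * ⟪v, x (x w)⟫_ℂ := by
          conv_lhs => rw [b1]
          rw [inner_add_right, inner_smul_right]
        rw [b2, h2, Complex.add_re, Complex.re_ofReal_mul, ← inner_sa hx v (x w)]
      have e3 : (⟪x v, x w⟫_ℂ).re ≤ ‖x v‖ * ‖x w‖ :=
        (Complex.re_le_norm _).trans (norm_inner_le_norm _ _)
      have e4 : ‖x v‖ * ‖x w‖ ≤ ‖x v‖ ^ 2 := by
        have : ‖x w‖ ≤ ‖x v‖ := by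
          exact (pow_le_pow_iff_left₀ (norm_nonneg _) (norm_nonneg _) two_ne_zero).1 e1
        rw [sq]
        exact mul_le_mul_of_nonneg_left this (norm_nonneg _)
      rw [e2]
      have e5 : δ * (⟪x v, x w⟫_ℂ).re ≤ δ * ‖x v‖ ^ 2 :=
        mul_le_mul_of_nonneg_left (e3.trans e4) hδ.le
      linarith
    have hlim : Tendsto (fun n : ℕ => b + (1 / ((n : ℝ) + 1)) * ‖x v‖ ^ 2) atTop (𝓝 b) := by
      have h1 := (tendsto_one_div_add_atTop_nhds_zero_nat (𝕜 := ℝ)).mul_const (‖x v‖ ^ 2)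
      have h2 := h1.const_add b
      simpa using h2
    exact ge_of_tendsto' hlim key

end Pool.Agent.Helper23.ED
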