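import Pool.Agent.Helper23.ED.FdA

/-!
# Project ED: minimizers for an increasing sequence of forms
-/

open scoped InnerProductSpace Topology ENNReal BoundedContinuousFunction
open ContinuousLinearMap Filter MeasureTheory

namespace Pool.Agent.Helper23.ED

open Pool.Agent.Helper23 Pool.Agent.Helper23.RBF
open Pool.Agent.Helper78.BC.Transport (Sub r)

universe u

variable {H : Type*} [NormedAddCommGroup H] [InnerProductSpace ℂ H] [CompleteSpace H]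

theorem fd_min {w : ℕ → H →L[ℂ] H} (hw : ∀ n, 0 ≤ w n) (hm : Monotone w) {δ : ℝ} (hδ : 0 < δ)
    (v : H) : ∃ u, BddAbove (Set.range fun n => (⟪u, w n u⟫_ℂ).re) ∧
      δ⁻¹ * ‖v - u‖ ^ 2 + ⨆ n, (⟪u, w n u⟫_ℂ).re ≤ ⨆ n, (⟪v, fd δ (w n) v⟫_ℂ).re := by
  have hδi : 0 < δ⁻¹ := inv_pos.2 hδ
  choose u hu using fun n => fd_exact (hw n) hδ v
  set f : ℕ → ℝ := fun n => (⟪v, fd δ (w n) v⟫_ℂ).re with hf
  have hfb : ∀ n, f n ≤ δ⁻¹ * ‖v‖ ^ 2 := by
    intro n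
    have := fd_var (hw n) hδ v 0
    simpa using this
  have hfB : BddAbove (Set.range f) := ⟨_, by rintro _ ⟨n, rfl⟩; exact hfb n⟩
  have hat : ∀ n, δ⁻¹ * ‖v - u n‖ ^ 2 + (⟪u n, w n (u n)⟫_ℂ).re = f n := by
    intro n
    have := hu n (u n)
    simpa using this
  have hmid : ∀ m n, m ≤ n → f m + δ⁻¹ * ‖u n - u m‖ ^ 2 ≤
      δ⁻¹ * ‖v - u n‖ ^ 2 + (⟪u n, w m (u n)⟫_ℂ).re := by
    intro m n _
    have h1 := hu m (u n)
    have h2 := re_inner_nonneg (hw m) (u n - u m)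
    linarith
  have hmid2 : ∀ m n, m ≤ n →
      δ⁻¹ * ‖v - u n‖ ^ 2 + (⟪u n, w m (u n)⟫_ℂ).re ≤ f n := by
    intro m n hmn
    have h1 := hat n
    have h2 := le_re_inner (hm hmn) (u n)
    linarith
  have hfm : Monotone f := by
    intro m n hmn
    have h1 := hmid m n hmn
    have h2 := hmid2 m n hmn
    have h3 : 0 ≤ δ⁻¹ * ‖u n - u m‖ ^ 2 := by positivity
    linarith
  have hft : Tendsto f atTop (𝓝 (⨆ n, f n)) := tendsto_atTop_ciSup hfm hfB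
  have hcau : CauchySeq u := by
    rw [Metric.cauchySeq_iff']
    intro ε hε
    have h1 := hft.cauchySeq
    rw [Metric.cauchySeq_iff'] at h1
    obtain ⟨N, hN⟩ := h1 (δ⁻¹ * ε ^ 2) (by positivity)
    refine ⟨N, fun n hn => ?_⟩
    have h2 := hN n hn
    rw [Real.dist_eq, abs_lt] at h2
    have h3 := hmid N n hn
    have h4 := hmid2 N n hn
    rw [dist_eq_norm]
    have h5 : δ⁻¹ * ‖u n - u N‖ ^ 2 < δ⁻¹ * ε ^ 2 := by linarith [h2.2]
    have h6 : ‖u n - u N‖ ^ 2 < ε ^ 2 := lt_of_mul_lt_mul_left h5 hδi.le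
    exact lt_of_pow_lt_pow_left₀ 2 hε.le h6
  obtain ⟨u₀, hu₀⟩ := cauchySeq_tendsto_of_complete hcau
  have hkey : ∀ m, δ⁻¹ * ‖v - u₀‖ ^ 2 + (⟪u₀, w m u₀⟫_ℂ).re ≤ ⨆ n, f n := by
    intro m
    have h1 : Tendsto (fun n => δ⁻¹ * ‖v - u n‖ ^ 2 + (⟪u n, w m (u n)⟫_ℂ).re) atTop
        (𝓝 (δ⁻¹ * ‖v - u₀‖ ^ 2 + (⟪u₀, w m u₀⟫_ℂ).re)) := by
      refine Tendsto.add ?_ ?_
      · exact (((tendsto_const_nhds.sub hu₀).norm).pow 2).const_mul _
      · exact (Complex.continuous_re.tendsto _).comp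
          (hu₀.inner (((w m).continuous.tendsto u₀).comp hu₀))
    refine le_of_tendsto_of_tendsto h1 hft ?_
    filter_upwards [eventually_ge_atTop m] with n hn
    exact hmid2 m n hn
  refine ⟨u₀, ⟨(⨆ n, f n) - δ⁻¹ * ‖v - u₀‖ ^ 2, ?_⟩, ?_⟩
  · rintro _ ⟨m, rfl⟩
    have := hkey m
    change (⟪u₀, w m u₀⟫_ℂ).re ≤ _
    linarith
  · have h1 : ⨆ n, (⟪u₀, w n u₀⟫_ℂ).re ≤ (⨆ n, f n) - δ⁻¹ * ‖v - u₀‖ ^ 2 :=
      ciSup_le fun m => by
        have := hkey m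
        linarith
    linarith

/-- the supremum of a bounded increasing sequence of a von Neumann algebra -/
theorem exists_sup {N : VonNeumannAlgebra H} {w : ℕ → H →L[ℂ] H} (hN : ∀ n, w n ∈ N)
    (hw : ∀ n, 0 ≤ w n) (hm : Monotone w) {C : ℝ} (hC : ∀ n v, (⟪v, w n v⟫_ℂ).re ≤ C * ‖v‖ ^ 2) :
    ∃ B ∈ N, 0 ≤ B ∧ ∀ v, IsLUB (Set.range fun n => (⟪v, w n v⟫_ℂ).re) (⟪v, B v⟫_ℂ).re := by
  have hmv : ∀ v, Monotone fun n => (⟪v, w n v⟫_ℂ).re := fun v m n hmn => le_re_inner (hm hmn) v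
  have hbd : ∀ v, BddAbove (Set.range fun n => (⟪v, w n v⟫_ℂ).re) := fun v =>
    ⟨C * ‖v‖ ^ 2, by rintro _ ⟨n, rfl⟩; exact hC n v⟩
  have hsq : ∀ m n, m ≤ n → ∀ v, ‖w n v - w m v‖ ^ 2 ≤
      |C| * ((⟪v, w n v⟫_ℂ).re - (⟪v, w m v⟫_ℂ).re) := by
    intro m n hmn v
    have h0 : 0 ≤ w n - w m := sub_nonneg.2 (hm hmn)
    obtain ⟨S, hS⟩ := CStarAlgebra.nonneg_iff_eq_star_mul_self.1 h0
    have hn : ∀ x, ‖S x‖ ^ 2 = (⟪x, w n x⟫_ℂ).re - (⟪x, w m x⟫_ℂ).re := by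
      intro x
      have h1 : (⟪x, (w n - w m) x⟫_ℂ) = ⟪S x, S x⟫_ℂ := by
        rw [hS]
        change ⟪x, (star S) (S x)⟫_ℂ = _
        rw [inner_star_right]
      rw [sub_apply, inner_sub_right, inner_self_eq_norm_sq_to_K] at h1
      have h2 := congrArg Complex.re h1
      rw [Complex.sub_re] at h2
      rw [h2]
      norm_cast
    have hSC : ∀ x, ‖S x‖ ^ 2 ≤ |C| * ‖x‖ ^ 2 := by
      intro x
      rw [hn x]
      have h1 := hC n x
      have h2 := re_inner_nonneg (hw m) x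
      have h3 : C * ‖x‖ ^ 2 ≤ |C| * ‖x‖ ^ 2 :=
        mul_le_mul_of_nonneg_right (le_abs_self C) (by positivity)
      linarith
    have hSn : ‖S‖ ≤ √|C| := by
      refine S.opNorm_le_bound (Real.sqrt_nonneg _) fun x => ?_
      have h1 := hSC x
      rw [← Real.sqrt_sq (norm_nonneg (S x)), ← Real.sqrt_sq (norm_nonneg x),
        ← Real.sqrt_mul (abs_nonneg C)]
      exact Real.sqrt_le_sqrt h1
    have h2 : w n v - w m v = (star S) (S v) := by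
      rw [← sub_apply, hS]; rfl
    rw [h2, ← hn v]
    have h3 : ‖(star S) (S v)‖ ≤ √|C| * ‖S v‖ := by
      refine ((star S).le_opNorm _).trans ?_
      rw [norm_star]
      gcongr
    calc ‖(star S) (S v)‖ ^ 2 ≤ (√|C| * ‖S v‖) ^ 2 := by gcongr
      _ = |C| * ‖S v‖ ^ 2 := by rw [mul_pow, Real.sq_sqrt (abs_nonneg C)]
  have hconv : ∀ v, ∃ y, Tendsto (fun n => w n v) atTop (𝓝 y) := by
    intro v
    refine cauchySeq_tendsto_of_complete ?_
    rw [Metric.cauchySeq_iff']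
    intro ε hε
    have h1 := (tendsto_atTop_ciSup (hmv v) (hbd v)).cauchySeq
    rw [Metric.cauchySeq_iff'] at h1
    obtain ⟨M, hM⟩ := h1 (ε ^ 2 / (|C| + 1)) (by positivity)
    refine ⟨M, fun n hn => ?_⟩
    have h2 := hM n hn
    rw [Real.dist_eq, abs_lt] at h2
    have h3 := hsq M n hn v
    have h5 : |C| * ((⟪v, w n v⟫_ℂ).re - (⟪v, w M v⟫_ℂ).re) ≤ |C| * (ε ^ 2 / (|C| + 1)) :=
      mul_le_mul_of_nonneg_left h2.2.le (abs_nonneg C)
    have h6 : |C| * (ε ^ 2 / (|C| + 1)) < ε ^ 2 := by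
      rw [← mul_div_assoc, div_lt_iff₀ (by positivity)]
      nlinarith [abs_nonneg C, pow_pos hε 2]
    rw [dist_eq_norm]
    exact lt_of_pow_lt_pow_left₀ 2 hε.le (by linarith)
  choose b hb using hconv
  have hb' : Tendsto (fun n x => w n x) atTop (𝓝 b) := tendsto_pi_nhds.2 hb
  set B : H →L[ℂ] H := continuousLinearMapOfTendsto w hb' with hB
  have hBv : ∀ v, Tendsto (fun n => w n v) atTop (𝓝 (B v)) := hb
  have hin : ∀ v, Tendsto (fun n => (⟪v, w n v⟫_ℂ).re) atTop (𝓝 (⟪v, B v⟫_ℂ).re) := fun v =>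
    (Complex.continuous_re.tendsto _).comp (tendsto_const_nhds.inner (hBv v))
  refine ⟨B, ?_, ?_, fun v => isLUB_of_tendsto_atTop (hmv v) (hin v)⟩
  · rw [mem_iff_commutes]
    intro g hg
    ext v
    change g (B v) = B (g v)
    refine tendsto_nhds_unique ((g.continuous.tendsto _).comp (hBv v)) ?_
    refine (hBv (g v)).congr fun n => ?_
    exact commute_apply (hN n) hg v
  · rw [nonneg_iff_isPositive]
    refine ⟨fun x y => ?_, fun x => ?_⟩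
    · refine tendsto_nhds_unique ((hBv x).inner tendsto_const_nhds) ?_
      refine (tendsto_const_nhds.inner (hBv y)).congr fun n => ?_
      exact (((nonneg_iff_isPositive _).1 (hw n)).inner_left_eq_inner_right x y).symm
    · have h1 : 0 ≤ (⟪x, B x⟫_ℂ).re :=
        ge_of_tendsto' (hin x) fun n => re_inner_nonneg (hw n) x
      change 0 ≤ RCLike.re ⟪B x, x⟫_ℂ
      rw [inner_re_symm]
      exact h1

end Pool.Agent.Helper23.ED
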