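import Pool.Agent.Helper23.ED.Defs

/-!
# Project ED: existence of a dominant weight which is a sum of vector functionals
-/

open scoped InnerProductSpace Topology ENNReal BoundedContinuousFunction
open ContinuousLinearMap Filter MeasureTheory

namespace Pool.Agent.Helper23.ED

open Pool.Agent.Helper23 Pool.Agent.Helper23.RBF
open Pool.Agent.Helper78.BC.Transport (Sub r)

universe u

variable {H : Type*} [NormedAddCommGroup H] [InnerProductSpace ℂ H] [CompleteSpace H]
variable {M N : VonNeumannAlgebra H} {ξ : H} {E : (H →L[ℂ] H) → (H →L[ℂ] H)}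

theorem exists_dominant_wt (S : Setting M N E ξ) (hN : TwoIsom N) :
    ∃ ζ : ℕ → H, IsDominant N (wt ζ) := by
  classical
  obtain ⟨W, hW⟩ := exists_W_of hN
  have hN' : ∀ x, x ∈ N ↔ W.conjStarAlgEquiv x ∈ amp N := conj_mem_amp hW fun a ha => ha
  have h := transport_dominant W hN' (wK_dominant_of S.dense_commN hN S.conjGK)
  have : Countable hw := hw_countable
  obtain ⟨f, hf⟩ := exists_injective_nat JJ
  refine ⟨Function.extend f (fun j => W.symm (ten (gJ j) ξ)) 0, ?_⟩
  have e : wt (Function.extend f (fun j => W.symm (ten (gJ j) ξ)) 0) =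
      fun x : H →L[ℂ] H => wK ξ (W.conjStarAlgEquiv x) := by
    funext x
    rw [wt, wK, ← tsum_extend_zero hf]
    refine tsum_congr fun n => ?_
    by_cases hn : ∃ j, f j = n
    · obtain ⟨j, rfl⟩ := hn
      rw [hf.extend_apply, hf.extend_apply, inner_conj]
    · rw [Function.extend_apply' _ _ _ hn, Function.extend_apply' _ _ _ hn]
      simp
  rw [e]
  exact h

end Pool.Agent.Helper23.ED
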