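import Pool.Agent.Helper23.ED.WuA

/-!
# Project ED: conjugation by the cocycle
-/

open scoped InnerProductSpace Topology ENNReal BoundedContinuousFunction
open ContinuousLinearMap Filter MeasureTheory

namespace Pool.Agent.Helper23.ED

open Pool.Agent.Helper23 Pool.Agent.Helper23.RBF
open Pool.Agent.Helper78.BC.Transport (Sub r)

universe u

open TopologicalSpace

variable {H : Type*} [NormedAddCommGroup H] [InnerProductSpace ℂ H] [CompleteSpace H]
variable {N : VonNeumannAlgebra H} {ξ : H} {V c : ℝ → H →L[ℂ] H} {ψ : (H →L[ℂ] H) → ℝ≥0∞}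

namespace WuB

lemma norm_le_one_of_isom {T : H →L[ℂ] H} (h : star T * T = 1) : ‖T‖ ≤ 1 :=
  ContinuousLinearMap.opNorm_le_bound _ zero_le_one fun v => by
    rw [norm_of_isom h v, one_mul]

/-- joint continuity of the product of two bounded strongly continuous fields -/
lemma cont_comp {S T : ℝ → H →L[ℂ] H} (hS1 : ∀ t, ‖S t‖ ≤ 1)
    (hS : ∀ v, Continuous fun t => S t v) (hT : ∀ v, Continuous fun t => T t v) (v : H) :
    Continuous fun t => S t (T t v) := by
  have h1 : Continuous (fun p : ℝ × H => S p.1 p.2) := by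
    refine continuous_prod_of_continuous_lipschitzWith' (fun p : ℝ × H => S p.1 p.2) 1 ?_ hS
    intro s
    refine LipschitzWith.of_dist_le_mul fun x y => ?_
    rw [dist_eq_norm, dist_eq_norm, ← map_sub, NNReal.coe_one]
    exact (S s).le_of_opNorm_le (hS1 s) _
  exact h1.comp (continuous_id.prodMk (hT v))

lemma V_neg (hV : UG V) (t : ℝ) : V t * V (-t) = 1 := by
  rw [← hV.add, add_neg_cancel, hV.zero]

lemma V_neg' (hV : UG V) (t : ℝ) : V (-t) * V t = 1 := by
  rw [← hV.add, neg_add_cancel, hV.zero]

lemma c_zero (hV : UG V) (hc : Coc N V ψ c) : c 0 = 1 := by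
  have h1 := hc.cocycle 0 0
  rw [neg_zero, hV.zero, add_zero, one_mul, mul_one] at h1
  have h2 : star (c 0) * c 0 = star (c 0) * (c 0 * c 0) := by rw [← h1]
  rw [← mul_assoc, (hc.unit 0).1, one_mul] at h2
  exact h2.symm

end WuB

open WuB

theorem coc_ug (hV : UG V) (hc : Coc N V ψ c) : UG (fun t => c t * V t) := by
  have hadd : ∀ s t, c (s + t) * V (s + t) = (c s * V s) * (c t * V t) := by
    intro s t
    rw [hc.cocycle, hV.add]
    calc c s * (V s * c t * V (-s)) * (V s * V t)
        = c s * V s * c t * (V (-s) * V s) * V t := by simp only [mul_assoc]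
      _ = _ := by rw [V_neg' hV]; simp only [mul_assoc, one_mul]
  have hzero : c 0 * V 0 = 1 := by rw [c_zero hV hc, hV.zero, one_mul]
  refine ⟨fun v => ?_, hzero, hadd, fun t => ?_⟩
  · exact cont_comp (fun t => norm_le_one_of_isom (hc.unit t).1) hc.cont hV.cont v
  · have h1 := hadd (-t) t
    rw [neg_add_cancel, hzero] at h1
    have h2 : (c t * V t) * star (c t * V t) = 1 := by
      rw [star_mul, hV.star]
      calc c t * V t * (V (-t) * star (c t)) = c t * (V t * V (-t)) * star (c t) := by
            simp only [mul_assoc]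
        _ = 1 := by rw [V_neg hV, mul_one, (hc.unit t).2]
    change star (c t * V t) = c (-t) * V (-t)
    calc star (c t * V t) = (c (-t) * V (-t) * (c t * V t)) * star (c t * V t) := by
          rw [← h1, one_mul]
      _ = c (-t) * V (-t) := by rw [mul_assoc, h2, mul_one]

namespace WuB

lemma ems_bm (a : ℝ) : BM (ems a) := by
  refine ⟨?_, 1, zero_le_one, fun s => ?_⟩
  · unfold ems ph
    fun_prop
  · unfold ems ph
    rw [Complex.norm_exp_ofReal_mul_I]

/-- the Fourier transform turns modulations into translations -/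
lemma Fo_ems (a : ℝ) (F : L2R H) :
    Fo H (mulOp H (ems a) F) = tr H (a / (2 * Real.pi)) (Fo H F) := by
  have key : ∀ G : L2R H, mulOp H (ems a) ((Fo H).symm G) =
      (Fo H).symm (tr H (a / (2 * Real.pi)) G) := by
    intro G
    refine L2R_ext_schwartz (φ := fun G : L2R H => mulOp H (ems a) ((Fo H).symm G))
      (ψ := fun G : L2R H => (Fo H).symm (tr H (a / (2 * Real.pi)) G)) ?_ ?_ (fun f => ?_) G
    · exact (mulOp H (ems a)).continuous.comp (Fo H).symm.continuous
    · exact (Fo H).symm.continuous.comp (tr H _).continuous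
    · have e1 : ∀ f : SchwartzMap ℝ H, (Fo H).symm (f.toLp 2) =
          (FourierTransformInv.fourierInv f : SchwartzMap ℝ H).toLp 2 :=
        fun f => SchwartzMap.toLp_fourierInv_eq f
      rw [tr_toLp, e1, e1]
      ext1
      filter_upwards [mulOp_coe (ems_bm a)
          ((FourierTransformInv.fourierInv f : SchwartzMap ℝ H).toLp 2),
        (FourierTransformInv.fourierInv f : SchwartzMap ℝ H).coeFn_toLp 2,
        (FourierTransformInv.fourierInv (trS (a / (2 * Real.pi)) f) :
          SchwartzMap ℝ H).coeFn_toLp 2] with s h1 h2 h3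
      rw [h1, h2, h3, SchwartzMap.fourierInv_coe, SchwartzMap.fourierInv_coe,
        Real.fourierInv_eq_fourier_neg, Real.fourierInv_eq_fourier_neg,
        ← SchwartzMap.fourier_coe, ← SchwartzMap.fourier_coe, fourier_trS]
      congr 1
      unfold ems ph chr
      congr 1
      push_cast
      have : (Real.pi : ℂ) ≠ 0 := by exact_mod_cast Real.pi_ne_zero
      field_simp
  have h := key (Fo H F)
  rw [LinearIsometryEquiv.symm_apply_apply] at h
  rw [h, LinearIsometryEquiv.apply_symm_apply]

end WuB

/-- the unitary conjugating `c_a V_a ⊗ e^{ias}` into `V_a ⊗ e^{ias}` -/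
theorem exists_Cc (hV : UG V) (hc : Coc N V ψ c) : ∃ X ∈ amp N, star X * X = 1 ∧
    X * star X = 1 ∧ ∀ a, X * UV (fun t => c t * V t) a = UV V a * X := by
  have hU := coc_ug hV hc
  -- the adjoint field is strongly continuous
  have hstar : ∀ t, star (c t) = V t * star (c t * V t) := by
    intro t
    rw [star_mul, hV.star, ← mul_assoc, V_neg hV, one_mul]
  have hst : ∀ v, Continuous fun t => star (c t) v := by
    intro v
    have h1 : ∀ t, star (c t) v = V t ((c (-t) * V (-t)) v) := by
      intro t
      rw [hstar, hU.star]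
      rfl
    simp only [h1]
    refine cont_comp (fun t => norm_le_one_of_isom ?_) hV.cont (fun v => ?_) v
    · rw [hV.star, V_neg' hV]
    · exact (hU.cont v).comp continuous_neg
  have hn : ∀ t, ‖star (c t)‖ ≤ 1 := fun t =>
    norm_le_one_of_isom (by rw [star_star]; exact (hc.unit t).2)
  have hD : Dec (fun t : ℝ => star (c (2 * Real.pi * t))) :=
    Dec.of_cont zero_le_one (fun s => hn _) (fun v => (hst v).comp (by fun_prop))
  have hD' : Dec (fun t : ℝ => c (2 * Real.pi * t)) :=
    Dec.of_cont zero_le_one (fun s => norm_le_one_of_isom (hc.unit _).1)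
      (fun v => (hc.cont v).comp (by fun_prop))
  have hadj : star (fco fun t : ℝ => star (c (2 * Real.pi * t))) =
      fco fun t : ℝ => c (2 * Real.pi * t) :=
    fco_adj hD hD' fun s x y => by rw [inner_star_right]
  refine ⟨fco fun t : ℝ => star (c (2 * Real.pi * t)), ?_, ?_, ?_, fun a => ?_⟩
  · exact fco_mem_amp hD fun s => star_mem (hc.mem _)
  · rw [hadj, fco_mul hD' hD]
    have : (fun s : ℝ => c (2 * Real.pi * s) * star (c (2 * Real.pi * s))) =
        fun _ => (1 : H →L[ℂ] H) := by
      funext s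
      exact (hc.unit _).2
    rw [this, fco_const, lift_one]
  · rw [hadj, fco_mul hD hD']
    have : (fun s : ℝ => star (c (2 * Real.pi * s)) * c (2 * Real.pi * s)) =
        fun _ => (1 : H →L[ℂ] H) := by
      funext s
      exact (hc.unit _).1
    rw [this, fco_const, lift_one]
  · have hrel : ∀ t : ℝ, star (c t) * (c a * V a) = V a * star (c (t - a)) := by
      intro t
      have h1 := hc.cocycle a (t - a)
      rw [add_sub_cancel] at h1
      have h2 : c t * V a = c a * V a * c (t - a) := by
        rw [h1]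
        calc c a * (V a * c (t - a) * V (-a)) * V a
            = c a * V a * c (t - a) * (V (-a) * V a) := by simp only [mul_assoc]
          _ = _ := by rw [V_neg' hV, mul_one]
      calc star (c t) * (c a * V a)
          = star (c t) * (c a * V a) * (c (t - a) * star (c (t - a))) := by
            rw [(hc.unit _).2, mul_one]
        _ = star (c t) * (c a * V a * c (t - a)) * star (c (t - a)) := by
            simp only [mul_assoc]
        _ = (star (c t) * c t) * V a * star (c (t - a)) := by
            rw [← h2]; simp only [mul_assoc]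
        _ = _ := by rw [(hc.unit _).1, one_mul]
    ext F : 1
    refine (Fo H).injective ?_
    change Fo H (fco _ (lift (c a * V a) (mulOp H (ems a) F))) =
      Fo H (lift (V a) (mulOp H (ems a) (fco _ F)))
    rw [Fo_fco, Fo_lift, Fo_ems, Fo_lift, Fo_ems, Fo_fco]
    set G := Fo H F with hG
    ext1
    filter_upwards [dec_coe hD (lift (c a * V a) (tr H (a / (2 * Real.pi)) G)),
      lift_coe (c a * V a) (tr H (a / (2 * Real.pi)) G), tr_coe (a / (2 * Real.pi)) G,
      lift_coe (V a) (tr H (a / (2 * Real.pi))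
        (dec (fun t : ℝ => star (c (2 * Real.pi * t))) G)),
      tr_coe (a / (2 * Real.pi)) (dec (fun t : ℝ => star (c (2 * Real.pi * t))) G),
      ae_tr (a / (2 * Real.pi)) (dec_coe hD G)] with s h1 h2 h3 h4 h5 h6
    rw [h1, h2, h3, h4, h5, h6]
    have h7 := congrArg (fun T : H →L[ℂ] H => T (G (s - a / (2 * Real.pi))))
      (hrel (2 * Real.pi * s))
    have h8 : 2 * Real.pi * (s - a / (2 * Real.pi)) = 2 * Real.pi * s - a := by
      have := Real.pi_pos
      field_simp
    rw [h8]
    exact h7

theorem exists_W_coc [SeparableSpace H] (hV : UG V) (hd : Dense (orb N.commutant ξ : Set H))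
    (hc : Coc N V ψ c) (hψ : IsDominant N ψ) :
    ∃ W : H ≃ₗᵢ[ℂ] L2R H, (∀ a ∈ N.commutant, ∀ x, W (a x) = lift a (W x)) ∧
      ∀ t x, W (c t (V t x)) = UV V t (W x) := by
  have hU := coc_ug hV hc
  have hs : ∀ s, ∃ u ∈ N, star u * u = 1 ∧ u * star u = 1 ∧
      ∀ t, u * (c t * V t) = ph t s • (c t * V t * u) := by
    intro s
    obtain ⟨u, hu⟩ := hψ.scale (Real.exp s) (Real.exp_pos s)
    refine ⟨u, hu.1, hu.2.1, hu.2.2.1, ?_⟩
    have h1 := (hc.scal u hu.1 hu.2.1 hu.2.2.1 (Real.exp s) (Real.exp_pos s)).1 hu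
    intro t
    have h2 := h1 t
    rwa [Real.log_exp] at h2
  obtain ⟨v, w, hvv, hww, hvw, hT⟩ := hψ.properlyInfinite
  have hv : v ∈ N := by
    rw [mem_iff_commutes]
    intro a ha
    exact ((hT a fun u hu => (mem_comm_iff.1 ha u hu.1)).1).symm
  have hw : w ∈ N := by
    rw [mem_iff_commutes]
    intro a ha
    exact ((hT a fun u hu => (mem_comm_iff.1 ha u hu.1)).2).symm
  have hcomm : ∀ t, v * (c t * V t) = c t * V t * v ∧ w * (c t * V t) = c t * V t * w := by
    intro t
    refine hT (c t * V t) fun u hu => ?_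
    have h1 := (hc.scal u hu.1 hu.2.1 hu.2.2.1 1 one_pos).1 hu t
    have h2 : ph t (Real.log 1) = 1 := by
      unfold ph
      simp
    rwa [h2, one_smul] at h1
  obtain ⟨V', hV'1, hV'2⟩ := exists_W_UV hU hd hs hv hw hvv hww hvw (fun t => (hcomm t).1)
    (fun t => (hcomm t).2)
  obtain ⟨X, hX, hX1, hX2, hXU⟩ := exists_Cc hV hc
  have hXn : ∀ x, ‖X x‖ = ‖x‖ := fun x => norm_of_isom hX1 x
  let XE : L2R H ≃ₗᵢ[ℂ] L2R H :=
    { toFun := X
      invFun := (star X : L2R H →L[ℂ] L2R H)
      map_add' := map_add X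
      map_smul' := map_smul X
      left_inv := fun x => congrArg (fun T : L2R H →L[ℂ] L2R H => T x) hX1
      right_inv := fun x => congrArg (fun T : L2R H →L[ℂ] L2R H => T x) hX2
      norm_map' := hXn }
  refine ⟨V'.trans XE, fun a ha x => ?_, fun t x => ?_⟩
  · change X (V' (a x)) = lift a (X (V' x))
    rw [hV'1 a ha, amp_comm hX ha]
  · change X (V' (c t (V t x))) = UV V t (X (V' x))
    have h1 := hV'2 t x
    have h2 : V' (c t (V t x)) = UV (fun t => c t * V t) t (V' x) := h1
    rw [h2]
    exact congrArg (fun T : L2R H →L[ℂ] L2R H => T (V' x)) (hXU t)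

end Pool.Agent.Helper23.ED
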