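import Pool.Agent.Helper23.ED.FcA
import Pool.Agent.Helper43.TTF.G

/-!
# Project ED: the boundary condition
-/

open scoped InnerProductSpace Topology ENNReal BoundedContinuousFunction
open ContinuousLinearMap Filter MeasureTheory

namespace Pool.Agent.Helper23.ED

open Pool.Agent.Helper23 Pool.Agent.Helper23.RBF
open Pool.Agent.Helper78.BC.Transport (Sub r)

universe u

variable {H : Type*} [NormedAddCommGroup H] [InnerProductSpace ℂ H] [CompleteSpace H]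
variable {A : VonNeumannAlgebra H} {ξ : H} {R : H →L[ℂ] H} {D : H →L[ℝ] H}
  {Ψ : (ℝ →ᵇ ℂ) →⋆ₐ[ℂ] (H →L[ℂ] H)}

namespace GgE

open Pool.Agent.Helper43.TTF

/-- the square of `1 / cosh (ρ / 2)` -/
noncomputable def gg (ρ : ℝ) : ℝ := (Real.cosh (ρ / 2))⁻¹ * (Real.cosh (ρ / 2))⁻¹

lemma gg_pos (ρ : ℝ) : 0 < gg ρ := by
  have := Real.cosh_pos (ρ / 2)
  unfold gg
  positivity

lemma gg_cont : Continuous gg := by
  have h : Continuous fun ρ : ℝ => (Real.cosh (ρ / 2))⁻¹ :=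
    Continuous.inv₀ (by fun_prop) fun ρ => (Real.cosh_pos _).ne'
  exact h.mul h

lemma gg_neg (ρ : ℝ) : gg (-ρ) = gg ρ := by
  unfold gg
  rw [neg_div, Real.cosh_neg]

lemma gg_ge {L ρ : ℝ} (h : |ρ| ≤ L) : gg L ≤ gg ρ := by
  have h1 : Real.cosh (ρ / 2) ≤ Real.cosh (L / 2) := by
    rw [Real.cosh_le_cosh, abs_div, abs_div]
    have : |ρ| ≤ |L| := h.trans (le_abs_self L)
    gcongr
  have h2 := Real.cosh_pos (ρ / 2)
  have h3 : (Real.cosh (L / 2))⁻¹ ≤ (Real.cosh (ρ / 2))⁻¹ := inv_anti₀ h2 h1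
  have h4 : 0 ≤ (Real.cosh (L / 2))⁻¹ := by positivity [Real.cosh_pos (L / 2)]
  unfold gg
  exact mul_le_mul h3 h3 h4 (h4.trans h3)

lemma FT_sq_apply (ρ : ℝ) : (FT * FT : ℝ →ᵇ ℂ) ρ = (gg ρ : ℂ) := by
  rw [BoundedContinuousFunction.mul_apply, FT_apply, ← Complex.ofReal_mul]
  rfl

/-- regularised inverse of `gg` -/
noncomputable def kB (n : ℕ) : ℝ →ᵇ ℂ :=
  BoundedContinuousFunction.ofNormedAddCommGroup
    (fun ρ : ℝ => ((1 / (gg ρ + 1 / ((n : ℝ) + 1)) : ℝ) : ℂ))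
    (by
      refine Complex.continuous_ofReal.comp (Continuous.div continuous_const
        (gg_cont.add continuous_const) ?_)
      intro ρ
      have := gg_pos ρ
      positivity) ((n : ℝ) + 1) (by
      intro ρ
      have h0 := gg_pos ρ
      rw [Complex.norm_real, Real.norm_of_nonneg (by positivity), div_le_iff₀ (by positivity)]
      have h2 : (0 : ℝ) < (n : ℝ) + 1 := by positivity
      have h3 : ((n : ℝ) + 1) * (gg ρ + 1 / ((n : ℝ) + 1)) = ((n : ℝ) + 1) * gg ρ + 1 := by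
        field_simp
      rw [h3]
      nlinarith [mul_pos h2 h0])

lemma kB_apply (n : ℕ) (ρ : ℝ) :
    kB n ρ = ((1 / (gg ρ + 1 / ((n : ℝ) + 1)) : ℝ) : ℂ) := rfl

lemma kB_conj (n : ℕ) (ρ : ℝ) : kB n ρ = (starRingEnd ℂ) (kB n (-ρ)) := by
  rw [kB_apply, kB_apply, Complex.conj_ofReal, gg_neg]

lemma kB_star (n : ℕ) : star (kB n) = kB n := by
  ext ρ
  rw [BoundedContinuousFunction.star_apply, kB_apply]
  exact Complex.conj_ofReal _

lemma mul_apply' (n : ℕ) (ρ : ℝ) : (FT * FT * kB n : ℝ →ᵇ ℂ) ρ =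
    ((gg ρ / (gg ρ + 1 / ((n : ℝ) + 1)) : ℝ) : ℂ) := by
  rw [BoundedContinuousFunction.mul_apply, FT_sq_apply, kB_apply, ← Complex.ofReal_mul]
  congr 1
  ring

lemma norm_le' (n : ℕ) : ‖(FT * FT * kB n : ℝ →ᵇ ℂ)‖ ≤ 1 := by
  rw [BoundedContinuousFunction.norm_le zero_le_one]
  intro ρ
  have h0 := gg_pos ρ
  rw [mul_apply', Complex.norm_real, Real.norm_of_nonneg (by positivity),
    div_le_one (by positivity)]
  have : (0 : ℝ) < 1 / ((n : ℝ) + 1) := by positivity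
  linarith

lemma tendsto' (L : ℝ) :
    TendstoUniformlyOn (fun n ρ => (FT * FT * kB n : ℝ →ᵇ ℂ) ρ) (fun ρ => (1 : ℝ →ᵇ ℂ) ρ) atTop
      (Set.Icc (-L) L) := by
  rw [Metric.tendstoUniformlyOn_iff]
  intro ε hε
  have hd := gg_pos L
  obtain ⟨m, hm⟩ := exists_nat_gt (1 / (ε * gg L))
  filter_upwards [eventually_ge_atTop m] with n hn ρ hρ
  have h0 := gg_pos ρ
  have h1 : gg L ≤ gg ρ := gg_ge (abs_le.2 hρ)
  have hn' : (0 : ℝ) < (n : ℝ) + 1 := by positivity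
  have h2 : (1 : ℂ) - ((gg ρ / (gg ρ + 1 / ((n : ℝ) + 1)) : ℝ) : ℂ) =
      (((1 / ((n : ℝ) + 1)) / (gg ρ + 1 / ((n : ℝ) + 1)) : ℝ) : ℂ) := by
    have h3 : ((1 / ((n : ℝ) + 1)) / (gg ρ + 1 / ((n : ℝ) + 1)) : ℝ) =
        1 - gg ρ / (gg ρ + 1 / ((n : ℝ) + 1)) := by
      have h4 : gg ρ + 1 / ((n : ℝ) + 1) ≠ 0 := by positivity
      rw [eq_sub_iff_add_eq, ← add_div, div_eq_one_iff_eq h4]
      ring
    rw [h3]
    push_cast
    ring
  rw [mul_apply', one_bcf, dist_eq_norm, h2, Complex.norm_real,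
    Real.norm_of_nonneg (by positivity)]
  have h5 : (1 / ((n : ℝ) + 1)) / (gg ρ + 1 / ((n : ℝ) + 1)) ≤ (1 / ((n : ℝ) + 1)) / gg L := by
    apply div_le_div_of_nonneg_left (by positivity) hd
    have : (0 : ℝ) < 1 / ((n : ℝ) + 1) := by positivity
    linarith
  refine h5.trans_lt ?_
  have h6 : 1 / (ε * gg L) < (n : ℝ) + 1 := by
    have : (m : ℝ) ≤ n := by exact_mod_cast hn
    linarith
  rw [div_lt_iff₀ (by positivity)] at h6
  rw [div_lt_iff₀ hd, div_lt_iff₀ hn']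
  linarith [h6]

lemma D_smul2 (h : TTData A ξ R D) (v : H) : D ((2 : ℂ) • v) = (2 : ℂ) • D v := by
  have h2 := h.D_conj 2 v
  rwa [Complex.conj_ofNat] at h2

lemma D_xi (h : TTData A ξ R D) {x y : H →L[ℂ] H} (hy : y ∈ A)
    (hr : R (x ξ) = (2 : ℂ) • y ξ - R (y ξ)) : D (x ξ) = R ((star y) ξ) := by
  have h1 : D (R (x ξ)) = R (D (y ξ)) := by
    rw [hr, map_sub, D_smul2 h, h.D_R]
    abel
  rw [h.D_R, h.D_mem y hy] at h1
  have h2 : R (D (x ξ) - R ((star y) ξ)) = (2 : ℂ) • (D (x ξ) - R ((star y) ξ)) := by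
    rw [map_sub, smul_sub]
    rw [map_sub, map_smul] at h1
    have h3 : R (D (x ξ)) = (2 : ℂ) • D (x ξ) - ((2 : ℂ) • R ((star y) ξ) - R (R ((star y) ξ))) := by
      rw [← h1]
      abel
    rw [h3]
    abel
  exact sub_eq_zero.1 (h.R_inj' _ h2)

lemma main (hΨ : Modular A ξ R D Ψ) {x y b : H →L[ℂ] H} (hy : y ∈ A)
    (hb : b ∈ A) (h : R (x ξ) = (2 : ℂ) • y ξ - R (y ξ)) (n : ℕ) :
    ⟪b ξ, Ψ (FT * FT * kB n) (x ξ)⟫_ℂ = ⟪(star y) ξ, Ψ (FT * FT * kB n) ((star b) ξ)⟫_ℂ := by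
  have hd := hΨ.data
  have hK : ∀ v, D (Ψ (kB n) v) = Ψ (kB n) (D v) := hΨ.psi_D _ _ (kB_conj n)
  -- `Ψ (FT * FT) = R (2 - R)`
  have hTT : ∀ v, Ψ (FT * FT) v = R ((2 : ℂ) • v - R v) := by
    intro v
    rw [FT_sq, psi_mul_apply, map_sub, hΨ.psi_FR, psi_two, sub_apply, smul_apply,
      one_apply_eq_self]
  have hTT' : ∀ v, D (D v) = Ψ (FT * FT) v := fun v => by rw [hTT, hd.D_sq]
  have e1 : ⟪b ξ, Ψ (FT * FT * kB n) (x ξ)⟫_ℂ = ⟪D (Ψ (kB n) (x ξ)), D (b ξ)⟫_ℂ := by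
    rw [hd.D_symm, hTT', ← psi_mul_apply]
  have hself : ∀ v w : H, ⟪R v, w⟫_ℂ = ⟪v, R w⟫_ℂ := by
    intro v w
    rw [← inner_star_right, hd.R_star]
  have e2 : ⟪(star y) ξ, Ψ (FT * FT * kB n) ((star b) ξ)⟫_ℂ =
      ⟪Ψ (kB n) (R ((star y) ξ)), (2 : ℂ) • (star b) ξ - R ((star b) ξ)⟫_ℂ := by
    rw [psi_star, kB_star, hself, ← hΨ.psi_FR]
    have h5 : (2 : ℂ) • (star b) ξ - Ψ FR ((star b) ξ) = Ψ (2 - FR) ((star b) ξ) := by
      rw [map_sub, psi_two, sub_apply, smul_apply, one_apply_eq_self]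
    rw [h5, ← psi_mul_apply, ← psi_mul_apply, FT_sq]
    congr 3
    ring
  rw [e1, e2, hK, D_xi hd hy h, hd.D_mem b hb]

end GgE

/-- if `x ξ = Δ y ξ` then `φ(b* x) = φ(y b*)` -/
theorem sesq (hΨ : Modular A ξ R D Ψ) {x y b : H →L[ℂ] H} (hx : x ∈ A) (hy : y ∈ A)
    (hb : b ∈ A) (h : R (x ξ) = (2 : ℂ) • y ξ - R (y ξ)) :
    ⟪b ξ, x ξ⟫_ℂ = ⟪(star y) ξ, (star b) ξ⟫_ℂ := by
  have h1 : ∀ v : H, Tendsto (fun n => Ψ (Pool.Agent.Helper43.TTF.FT *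
      Pool.Agent.Helper43.TTF.FT * GgE.kB n) v) atTop (𝓝 v) := by
    intro v
    have h2 := hΨ.psi_cont _ 1 1 GgE.norm_le' GgE.tendsto' v
    rwa [map_one, one_apply_eq_self] at h2
  have h2 := (tendsto_const_nhds (x := b ξ)).inner (𝕜 := ℂ) (h1 (x ξ))
  have h3 := (tendsto_const_nhds (x := (star y) ξ)).inner (𝕜 := ℂ) (h1 ((star b) ξ))
  refine tendsto_nhds_unique h2 (h3.congr fun n => ?_)
  exact (GgE.main hΨ hy hb h n).symm

end Pool.Agent.Helper23.ED
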