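import Pool.Agent.Helper23.ED.GgD
import Pool.Agent.Helper23.ED.GgE

/-!
# Project ED: unitaries commuting with the modular group of the dual weight preserve the weight
-/

open scoped InnerProductSpace Topology ENNReal BoundedContinuousFunction
open ContinuousLinearMap Filter MeasureTheory

namespace Pool.Agent.Helper23.ED

open Pool.Agent.Helper23 Pool.Agent.Helper23.RBF
open Pool.Agent.Helper78.BC.Transport (Sub r)

universe u

variable {H : Type*} [NormedAddCommGroup H] [InnerProductSpace ℂ H] [CompleteSpace H]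
variable {M N : VonNeumannAlgebra H} {ξ : H} {E : (H →L[ℂ] H) → (H →L[ℂ] H)}

theorem GK_of_comm (S : Setting M N E ξ) {R : H →L[ℂ] H} {D : H →L[ℝ] H}
    {Ψ : (ℝ →ᵇ ℂ) →⋆ₐ[ℂ] (H →L[ℂ] H)} (hΨ : Modular M ξ R D Ψ) {X : L2R H →L[ℂ] L2R H}
    (hX : X ∈ amp N) (h1 : star X * X = 1) (h2 : X * star X = 1)
    (hc : ∀ a, X * UV (fun t => Ψ (expB t)) a = UV (fun t => Ψ (expB t)) a * X) :
    X ∈ GK N ξ := by
  refine GK_of_weak hX h1 h2 fun n f f' hf hf' b hb => ?_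
  have hxN : slX X f' (mulOp ℂ (he n) f) ∈ N := slX_mem hX _ _
  have hyN : slX X (mulOp ℂ (he n) f') f ∈ N := slX_mem hX _ _
  have hbmI : BM (ind (Set.Ico (-(n : ℝ)) n)) := ind_bm measurableSet_Ico
  -- the two vectors `X (h f ⊗ ξ)` and `X (f ⊗ ξ)` in terms of functions of `log Δ + s`
  have e1 : X (ten (mulOp ℂ (he n) f) ξ) = PP Ψ (he n) (X (ten f ξ)) := by
    rw [← PP_ten hΨ (he_bm n) f]
    exact congrArg (fun T : L2R H →L[ℂ] L2R H => T (ten f ξ)) (comm_PP hΨ hc (he_bm n))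
  have e2 : PP Ψ (ind (Set.Ico (-(n : ℝ)) n)) (X (ten f ξ)) = X (ten f ξ) := by
    have h3 : X (PP Ψ (ind (Set.Ico (-(n : ℝ)) n)) (ten f ξ)) =
        PP Ψ (ind (Set.Ico (-(n : ℝ)) n)) (X (ten f ξ)) :=
      congrArg (fun T : L2R H →L[ℂ] L2R H => T (ten f ξ)) (comm_PP hΨ hc hbmI)
    have h4 : mulOp ℂ (ind (Set.Ico (-(n : ℝ)) n)) f = f := hf
    rw [← h3, PP_ten hΨ hbmI f, h4]
  have hRsymm : ∀ v w : H, ⟪R v, w⟫_ℂ = ⟪v, R w⟫_ℂ := by
    intro v w
    rw [← ContinuousLinearMap.adjoint_inner_right, ← ContinuousLinearMap.star_eq_adjoint,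
      hΨ.data.R_star]
  have hrel : R ((slX X f' (mulOp ℂ (he n) f)) ξ) =
      (2 : ℂ) • (slX X (mulOp ℂ (he n) f') f) ξ - R ((slX X (mulOp ℂ (he n) f') f) ξ) := by
    refine ext_inner_left ℂ fun v => ?_
    have h5 := PP_rel hΨ hf' v (X (ten f ξ))
    rw [e2, ← e1, ← inner_slX, ← inner_slX] at h5
    rw [← hRsymm, h5, inner_sub_left, inner_sub_right, inner_smul_left, inner_smul_right, hRsymm,
      Complex.conj_ofNat]
  have h6 := sesq hΨ (S.le _ hxN) (S.le _ hyN) (S.le _ hb) hrel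
  rw [inner_slX] at h6
  rw [h6, inner_star_left, inner_slX]

end Pool.Agent.Helper23.ED
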