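import Pool.Agent.Helper23.ED.Defs

/-!
# Project ED: explicit unitaries commuting with the modular group of the dual weight
-/

open scoped InnerProductSpace Topology ENNReal BoundedContinuousFunction FourierTransform SchwartzMap
open ContinuousLinearMap Filter MeasureTheory

namespace Pool.Agent.Helper23.ED

open Pool.Agent.Helper23 Pool.Agent.Helper23.RBF
open Pool.Agent.Helper78.BC.Transport (Sub r)

universe u

variable {H : Type*} [NormedAddCommGroup H] [InnerProductSpace ℂ H] [CompleteSpace H]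
variable {M N : VonNeumannAlgebra H} {ξ : H} {E : (H →L[ℂ] H) → (H →L[ℂ] H)}

namespace GgB

lemma fourierInv_trS (t : ℝ) (f : 𝓢(ℝ, H)) (w : ℝ) :
    𝓕⁻ (trS t f) w = chr (-t) w • 𝓕⁻ f w := by
  have h0 : ∀ g : 𝓢(ℝ, H), 𝓕⁻ g w = 𝓕 g (-w) := fun g => by
    rw [SchwartzMap.fourierInv_coe, SchwartzMap.fourier_coe, Real.fourierInv_eq_fourier_neg]
  rw [h0, h0, fourier_trS]
  congr 1
  unfold chr
  congr 2
  push_cast
  ring

lemma fourierInv_tr (t : ℝ) (F : L2R H) : 𝓕⁻ (tr H t F) = mulOp H (chr (-t)) (𝓕⁻ F) := by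
  refine L2R_ext_schwartz (φ := fun F : L2R H => (𝓕⁻ (tr H t F) : L2R H))
    (ψ := fun F : L2R H => mulOp H (chr (-t)) (𝓕⁻ F)) ?_ ?_ (fun f => ?_) F
  · exact (Lp.fourierTransformₗᵢ ℝ H).symm.continuous.comp (tr H t).continuous
  · exact (mulOp H (chr (-t))).continuous.comp (Lp.fourierTransformₗᵢ ℝ H).symm.continuous
  · rw [tr_toLp, SchwartzMap.toLp_fourierInv_eq, SchwartzMap.toLp_fourierInv_eq]
    ext1
    filter_upwards [mulOp_coe (chr_bm (-t)) ((𝓕⁻ f).toLp 2), (𝓕⁻ f).coeFn_toLp 2,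
      (𝓕⁻ (trS t f)).coeFn_toLp 2] with s h1 h2 h3
    rw [h1, h2, h3, fourierInv_trS]

lemma symm_tr (t : ℝ) (F : L2R H) :
    (Fo H).symm (tr H t F) = mulOp H (chr (-t)) ((Fo H).symm F) := fourierInv_tr t F

lemma ems_eq (a : ℝ) : ems a = chr (-(a / (2 * Real.pi))) := by
  funext s
  unfold ems ph chr
  congr 2
  have : (2 * Real.pi) ≠ 0 := by positivity
  rw [← Complex.ofReal_neg]
  congr 1
  field_simp

lemma ems_bm (a : ℝ) : BM (ems a) := by
  rw [ems_eq]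
  exact chr_bm _

lemma Fo_ems (a : ℝ) (F : L2R H) :
    Fo H (mulOp H (ems a) F) = tr H (a / (2 * Real.pi)) (Fo H F) := by
  refine (Fo H).symm.injective ?_
  rw [symm_tr, LinearIsometryEquiv.symm_apply_apply, LinearIsometryEquiv.symm_apply_apply, ems_eq]

lemma tr_dec {T : ℝ → H →L[ℂ] H} (hT : Dec T) (hT' : ∀ t, Dec fun s => T (s - t)) (t : ℝ)
    (F : L2R H) : tr H t (dec T F) = dec (fun s => T (s - t)) (tr H t F) := by
  ext1
  filter_upwards [tr_coe t (dec T F), ae_tr t (dec_coe hT F),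
    dec_coe (hT' t) (tr H t F), tr_coe t F] with s h1 h2 h3 h4
  rw [h1, h2, h3, h4]

end GgB

open GgB in
theorem fcn_comm {A : VonNeumannAlgebra H} {R : H →L[ℂ] H} {D : H →L[ℝ] H}
    {Ψ : (ℝ →ᵇ ℂ) →⋆ₐ[ℂ] (H →L[ℂ] H)} (hΨ : Modular A ξ R D Ψ) (c : H →L[ℂ] H) (a : ℝ) :
    fcn Ψ c * UV (fun t => Ψ (expB t)) a = UV (fun t => Ψ (expB t)) a * fcn Ψ c := by
  set T : ℝ → H →L[ℂ] H :=
    fun t : ℝ => Ψ (expB (2 * Real.pi * t)) * c * Ψ (expB (-(2 * Real.pi * t))) with hT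
  have hd : Dec T := hΨ.conj_dec c
  have hU : ∀ t : ℝ, Dec fun s : ℝ => Ψ (expB (2 * Real.pi * (s - t))) := fun t =>
    Dec.of_cont zero_le_one (fun s => (psi_norm_le Ψ _).trans (expB_norm _))
      (fun v => (hΨ.U_cont v).comp (by fun_prop))
  have hU' : ∀ t : ℝ, Dec fun s : ℝ => Ψ (expB (-(2 * Real.pi * (s - t)))) := fun t =>
    Dec.of_cont zero_le_one (fun s => (psi_norm_le Ψ _).trans (expB_norm _))
      (fun v => (hΨ.U_cont v).comp (by fun_prop))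
  have hd' : ∀ t, Dec fun s => T (s - t) := fun t => ((hU t).comp (Dec.const c)).comp (hU' t)
  have hp : (2 * Real.pi) ≠ 0 := by positivity
  have hkey : ∀ s : ℝ, T s * Ψ (expB a) = Ψ (expB a) * T (s - a / (2 * Real.pi)) := by
    intro s
    have e1 : 2 * Real.pi * (s - a / (2 * Real.pi)) = 2 * Real.pi * s - a := by field_simp
    simp only [hT]
    rw [e1, ← mul_assoc, ← mul_assoc, psi_expB_mul, mul_assoc _ (Ψ _) (Ψ _), psi_expB_mul]
    congr 3
    · congr 2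
      ring
    · congr 1
      ring
  ext F : 1
  refine (Fo H).injective ?_
  change Fo H (fco T (lift (Ψ (expB a)) (mulOp H (ems a) F))) =
    Fo H (lift (Ψ (expB a)) (mulOp H (ems a) (fco T F)))
  rw [Fo_fco, Fo_lift, Fo_ems, Fo_lift, Fo_ems, Fo_fco, tr_dec hd hd']
  have h1 := dec_comp hd (Dec.const (Ψ (expB a))) (tr H (a / (2 * Real.pi)) (Fo H F))
  have h2 := dec_comp (Dec.const (Ψ (expB a))) (hd' (a / (2 * Real.pi)))
    (tr H (a / (2 * Real.pi)) (Fo H F))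
  refine h1.trans (Eq.trans ?_ h2.symm)
  congr 2
  funext s
  exact hkey s

theorem fcn_unit {A : VonNeumannAlgebra H} {R : H →L[ℂ] H} {D : H →L[ℝ] H}
    {Ψ : (ℝ →ᵇ ℂ) →⋆ₐ[ℂ] (H →L[ℂ] H)} (hΨ : Modular A ξ R D Ψ)
    (hN : ∀ (t : ℝ), ∀ a ∈ N, Ψ (expB t) * a * Ψ (expB (-t)) ∈ N) {u : H →L[ℂ] H}
    (hu : u ∈ N) (h1 : star u * u = 1) (h2 : u * star u = 1) :
    fcn Ψ u ∈ amp N ∧ star (fcn Ψ u) * fcn Ψ u = 1 ∧ fcn Ψ u * star (fcn Ψ u) = 1 := by
  refine ⟨fco_mem_amp (hΨ.conj_dec u) fun s => hN _ u hu, ?_, ?_⟩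
  · unfold fcn
    rw [hΨ.conj_star]
    exact hΨ.conj_isom h1
  · unfold fcn
    rw [hΨ.conj_star]
    exact hΨ.conj_isom h2

open GgB in
theorem mulOp_UV (V : ℝ → H →L[ℂ] H) {m : ℝ → ℂ} (hm : BM m) (a : ℝ) :
    mulOp H m * UV V a = UV V a * mulOp H m := by
  ext F : 1
  change mulOp H m (lift (V a) (mulOp H (ems a) F)) = lift (V a) (mulOp H (ems a) (mulOp H m F))
  rw [mulOp_lift hm, mulOp_mulOp hm (ems_bm a), mulOp_mulOp (ems_bm a) hm]
  congr 3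
  funext s
  ring

open GgB in
theorem tr_UV (V : ℝ → H →L[ℂ] H) (c a : ℝ) :
    tr H (-c) * UV V a = ph a c • (UV V a * tr H (-c)) := by
  ext F : 1
  change tr H (-c) (lift (V a) (mulOp H (ems a) F)) =
    ph a c • lift (V a) (mulOp H (ems a) (tr H (-c) F))
  rw [tr_lift, tr_mulOp (ems_bm a), ← map_smul, ← mulOp_constMul _ (ems_bm a)]
  congr 3
  funext s
  unfold ems ph
  rw [← Complex.exp_add]
  congr 1
  push_cast
  ring

end Pool.Agent.Helper23.ED
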