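import Pool.Agent.Helper23.ED.RkB
import Pool.Agent.Helper23.ED.GgA
import Pool.Agent.Helper23.ED.GgB

/-!
# Project ED: the isomorphism for an arbitrary dominant weight
-/

open scoped InnerProductSpace Topology ENNReal BoundedContinuousFunction
open ContinuousLinearMap Filter MeasureTheory

namespace Pool.Agent.Helper23.ED

open Pool.Agent.Helper23 Pool.Agent.Helper23.RBF
open Pool.Agent.Helper78.BC.Transport (Sub r)

universe u

variable {H : Type*} [NormedAddCommGroup H] [InnerProductSpace ℂ H] [CompleteSpace H]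
variable {M N : VonNeumannAlgebra H} {ξ : H} {E : (H →L[ℂ] H) → (H →L[ℂ] H)}

namespace MnA

omit [CompleteSpace H] in
lemma ph_zero_right (a : ℝ) : ph a 0 = 1 := by
  simp [ph]

/-- a scaling unitary on the side of `L²(ℝ; H)` -/
def SU (N : VonNeumannAlgebra H) (V : ℝ → H →L[ℂ] H) (s : ℝ) (U : L2R H →L[ℂ] L2R H) : Prop :=
  U ∈ amp N ∧ star U * U = 1 ∧ U * star U = 1 ∧ ∀ a, U * UV V a = ph a s • (UV V a * U)

/-- the quotient of two unitaries of the same scale commutes with the group -/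
lemma quot_comm {V : ℝ → H →L[ℂ] H} {s : ℝ} {T U : L2R H →L[ℂ] L2R H}
    (hT : SU N V s T) (hU : SU N V s U) (a : ℝ) :
    star T * U * UV V a = UV V a * (star T * U) := by
  obtain ⟨_, hT1, hT2, hT3⟩ := hT
  obtain ⟨_, _, _, hU3⟩ := hU
  have h1 : UV V a * star T = ph a s • (star T * UV V a) := by
    have h2 := congrArg (fun X => star T * X * star T) (hT3 a)
    simp only [mul_smul_comm, smul_mul_assoc] at h2
    rw [← mul_assoc, hT1, one_mul] at h2
    rw [h2, ← mul_assoc, mul_assoc (star T * UV V a), hT2, mul_one]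
  rw [mul_assoc, hU3 a, mul_smul_comm, ← mul_assoc, ← mul_assoc, h1, smul_mul_assoc]

lemma quot_unit {V : ℝ → H →L[ℂ] H} {s : ℝ} {T U : L2R H →L[ℂ] L2R H}
    (hT : SU N V s T) (hU : SU N V s U) :
    star T * U ∈ amp N ∧ star (star T * U) * (star T * U) = 1 ∧
      (star T * U) * star (star T * U) = 1 := by
  obtain ⟨hT0, hT1, hT2, _⟩ := hT
  obtain ⟨hU0, hU1, hU2, _⟩ := hU
  refine ⟨mul_mem (star_mem hT0) hU0, ?_, ?_⟩
  · rw [star_mul, star_star, mul_assoc, ← mul_assoc T, hT2, one_mul, hU1]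
  · rw [star_mul, star_star, mul_assoc, ← mul_assoc U, hU2, one_mul, hT1]

/-- multiplication operators by unimodular functions are unitary -/
lemma mulOp_unit {m : ℝ → ℂ} (hm : BM m) (h1 : ∀ s, ‖m s‖ = 1) :
    star (mulOp H m) * mulOp H m = 1 ∧ mulOp H m * star (mulOp H m) = 1 := by
  have hc : ∀ s, (starRingEnd ℂ) (m s) * m s = 1 := by
    intro s
    rw [mul_comm, Complex.mul_conj, Complex.normSq_eq_norm_sq, h1 s]
    norm_num
  have h0 : ∀ F : L2R H, mulOp H (fun _ : ℝ => (1 : ℂ)) F = F := by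
    intro F
    ext1
    have hb : BM (fun _ : ℝ => (1 : ℂ)) := ⟨measurable_const, 1, zero_le_one, fun s => by simp⟩
    filter_upwards [mulOp_coe hb F] with s hs
    rw [hs, one_smul]
  constructor
  · rw [mulOp_star hm]
    ext F : 1
    change mulOp H (fun s => (starRingEnd ℂ) (m s)) (mulOp H m F) = F
    rw [mulOp_mulOp hm.conj hm]
    simp only [hc]
    exact h0 F
  · rw [mulOp_star hm]
    ext F : 1
    change mulOp H m (mulOp H (fun s => (starRingEnd ℂ) (m s)) F) = F
    rw [mulOp_mulOp hm hm.conj]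
    simp only [mul_comm (m _), hc]
    exact h0 F

end MnA

theorem main_of_W (S : BFlow M N E ξ) {R : H →L[ℂ] H} {D : H →L[ℝ] H}
    {Ψ : (ℝ →ᵇ ℂ) →⋆ₐ[ℂ] (H →L[ℂ] H)} (hΨ : Modular M ξ R D Ψ)
    (hN : ∀ (t : ℝ), ∀ a ∈ N, Ψ (expB t) * a * Ψ (expB (-t)) ∈ N)
    {ψ : (H →L[ℂ] H) → ℝ≥0∞} {c : ℝ → H →L[ℂ] H} (hc : Coc N (fun t => Ψ (expB t)) ψ c)
    (W : H ≃ₗᵢ[ℂ] L2R H) (hW : ∀ a ∈ N.commutant, ∀ x, W (a x) = lift a (W x))
    (hWc : ∀ t x, W (c t (Ψ (expB t) x)) = UV (fun t => Ψ (expB t)) t (W x)) :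
    ∃ π : (H →L[ℂ] H) → (H →L[ℂ] H), IsStarIso S.Balg (Calg M N ψ) π ∧
      BoundedStronglyContinuous S.Balg π ∧ IntertwinesFlows N ψ S.Balg (btU M N ξ) π ∧
      ∀ x ∈ S.Balg, E (π x) = ⟪ξ, x ξ⟫_ℂ • (1 : H →L[ℂ] H) := by
  classical
  set V : ℝ → H →L[ℂ] H := fun t => Ψ (expB t) with hV
  have hN' : ∀ x, x ∈ N ↔ W.conjStarAlgEquiv x ∈ amp N := conj_mem_amp hW fun a ha => ha
  have hM : ∀ x, x ∈ M ↔ W.conjStarAlgEquiv x ∈ amp M := conj_mem_amp hW fun a ha => S.comm_le ha
  have hinj : Function.Injective ⇑W.conjStarAlgEquiv := EquivLike.injective _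
  have e1 : ∀ X, W.conjStarAlgEquiv (W.conjStarAlgEquiv.symm X) = X :=
    W.conjStarAlgEquiv.apply_symm_apply
  have hcV : ∀ t, W.conjStarAlgEquiv (c t * V t) = UV V t := by
    intro t
    ext F : 1
    rw [LinearIsometryEquiv.conjStarAlgEquiv_apply_apply]
    have h1 := hWc t (W.symm F)
    rw [W.apply_symm_apply] at h1
    exact h1
  -- scaling unitaries
  have hsc : ∀ l u, 0 < l → (ScalingUnitary N ψ l u ↔
      MnA.SU N V (Real.log l) (W.conjStarAlgEquiv u)) := by
    intro l u hl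
    have h0 : u ∈ N → star u * u = 1 → u * star u = 1 → (ScalingUnitary N ψ l u ↔
        ∀ a, W.conjStarAlgEquiv u * UV V a = ph a (Real.log l) •
          (UV V a * W.conjStarAlgEquiv u)) := by
      intro h1 h2 h3
      rw [hc.scal u h1 h2 h3 l hl]
      refine forall_congr' fun t => ?_
      rw [← hcV t, ← map_mul, ← map_mul, ← map_smul]
      exact hinj.eq_iff.symm
    constructor
    · intro h
      refine ⟨(hN' u).1 h.1, ?_, ?_, (h0 h.1 h.2.1 h.2.2.1).1 h⟩
      · rw [← map_star, ← map_mul, h.2.1, map_one]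
      · rw [← map_star, ← map_mul, h.2.2.1, map_one]
    · rintro ⟨h1, h2, h3, h4⟩
      rw [← map_star, ← map_mul] at h2 h3
      exact (h0 ((hN' u).2 h1) (hinj (h2.trans (map_one _).symm))
        (hinj (h3.trans (map_one _).symm))).2 h4
  have hGK : ∀ U, MnA.SU N V 0 U → U ∈ GK N ξ := by
    rintro U ⟨h1, h2, h3, h4⟩
    refine GK_of_comm S.toSetting hΨ h1 h2 h3 fun a => ?_
    have h5 := h4 a
    rw [MnA.ph_zero_right, one_smul] at h5
    exact h5
  have hC : ∀ x, x ∈ Calg M N ψ ↔ ∃ y, y ∈ Bicent M N ξ ∧ W.conjStarAlgEquiv x = piU M N ξ y := by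
    intro x
    rw [mem_Calg x, hM x]
    constructor
    · rintro ⟨h1, h2⟩
      have h3 : ∀ U, MnA.SU N V 0 U → U * W.conjStarAlgEquiv x = W.conjStarAlgEquiv x * U := by
        intro U hU
        have h3 := h2 (W.conjStarAlgEquiv.symm U) ((hsc 1 _ one_pos).2 (by
          rw [e1, Real.log_one]; exact hU))
        have h4 := congrArg W.conjStarAlgEquiv h3
        rwa [map_mul, map_mul, e1] at h4
      refine Rk1_sur S hΨ hN ⟨h1, fun m hm hm1 => ?_, fun u hu hu1 hu2 => ?_⟩
      · obtain ⟨h5, h6⟩ := MnA.mulOp_unit (H := H) hm hm1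
        refine h3 _ ⟨mulOp_mem_amp hm, h5, h6, fun a => ?_⟩
        rw [MnA.ph_zero_right, one_smul]
        exact mulOp_UV V hm a
      · obtain ⟨h4, h5, h6⟩ := fcn_unit hΨ hN hu hu1 hu2
        refine h3 _ ⟨h4, h5, h6, fun a => ?_⟩
        rw [MnA.ph_zero_right, one_smul]
        exact fcn_comm hΨ u a
    · rintro ⟨y, hy, hxy⟩
      refine ⟨by rw [hxy]; exact S.piU_mem hy, fun u hu => ?_⟩
      apply hinj
      rw [map_mul, map_mul, hxy]
      have h1 := (hsc 1 u one_pos).1 hu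
      rw [Real.log_one] at h1
      exact S.comm_of_bicent (hGK _ h1) hy
  have hmemC : ∀ x ∈ S.Balg, W.conjStarAlgEquiv.symm (piU M N ξ x) ∈ Calg M N ψ := by
    intro x hx
    rw [hC, e1]
    exact ⟨x, hx, rfl⟩
  refine ⟨fun x => W.conjStarAlgEquiv.symm (piU M N ξ x), ?_, ?_, ?_, ?_⟩
  · refine ⟨hmemC, fun x hx y hy hxy => ?_, fun X hX => ?_, fun x hx y hy => ?_,
      fun x hx y hy => ?_, fun c x hx => ?_, fun x hx => ?_⟩
    · refine S.piU_inj hx hy ?_
      have h1 := congrArg W.conjStarAlgEquiv hxy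
      rwa [e1, e1] at h1
    · obtain ⟨x, hx, hxX⟩ := (hC X).1 hX
      refine ⟨x, hx, ?_⟩
      apply hinj
      rw [e1]
      exact hxX.symm
    · change W.conjStarAlgEquiv.symm (piU M N ξ (x + y)) = _
      rw [S.piU_add hx hy, map_add]
    · change W.conjStarAlgEquiv.symm (piU M N ξ (x * y)) = _
      rw [S.piU_mul hx hy, map_mul]
    · change W.conjStarAlgEquiv.symm (piU M N ξ (c • x)) = _
      rw [S.piU_smul c hx, map_smul]
    · change W.conjStarAlgEquiv.symm (piU M N ξ (star x)) = _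
      rw [S.piU_star hx, map_star]
  · intro F x hx C hbd hcv η
    have hbd1 : ∀ᶠ y in F, y ∈ Bicent M N ξ := hbd.mono fun y hy => hy.1
    have hcongr : ∀ᶠ y in F, (if y ∈ Bicent M N ξ then y else x) = y :=
      hbd1.mono fun y hy => if_pos hy
    have h1 := S.piU_tendsto (F := F) (z := fun y => if y ∈ Bicent M N ξ then y else x) (x := x)
      (C := C) (fun y => by
        by_cases h : y ∈ Bicent M N ξ
        · simp only [if_pos h]; exact h
        · simp only [if_neg h]; exact hx) hx (by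
        filter_upwards [hbd, hcongr] with y h1 h2
        rw [h2]; exact h1.2) (by
        refine (hcv ξ).congr' ?_
        filter_upwards [hcongr] with y h2
        rw [h2]) (W η)
    simp only [LinearIsometryEquiv.symm_conjStarAlgEquiv_apply_apply]
    refine (W.symm.continuous.tendsto _).comp ?_
    refine h1.congr' ?_
    filter_upwards [hcongr] with y h2
    rw [h2]
  · intro l hl u hu x hx
    apply hinj
    rw [map_mul, map_mul, map_star, e1, e1, ← S.tr_piU hx hl]
    set T := tr H (-Real.log l) with hT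
    set U := W.conjStarAlgEquiv u with hU
    have hTs0 : ScalingUnitary (amp N) (wK ξ) l T := tr_scaling hl
    have hTs : MnA.SU N V (Real.log l) T :=
      ⟨hTs0.1, hTs0.2.1, hTs0.2.2.1, fun a => tr_UV V (Real.log l) a⟩
    have hUs : MnA.SU N V (Real.log l) U := (hsc l u hl).1 hu
    have hG : star T * U ∈ GK N ξ := by
      obtain ⟨h1, h2, h3⟩ := MnA.quot_unit hTs hUs
      exact GK_of_comm S.toSetting hΨ h1 h2 h3 fun a => MnA.quot_comm hTs hUs a
    have hcomm := S.comm_of_bicent hG hx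
    have hTU : T * (star T * U) = U := by rw [← mul_assoc, hTs.2.2.1, one_mul]
    have h1 : U * piU M N ξ x * star U =
        T * ((star T * U) * piU M N ξ x) * star U := by
      rw [← mul_assoc, hTU]
    rw [h1, hcomm]
    have h2 : star T * U * star U = star T := by rw [mul_assoc, hUs.2.2.1, mul_one]
    calc T * piU M N ξ x * star T =
        T * piU M N ξ x * (star T * U * star U) := by rw [h2]
      _ = _ := by simp only [mul_assoc]
  · intro x hx
    set y := W.conjStarAlgEquiv.symm (piU M N ξ x) with hy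
    have hyM : y ∈ M := ((mem_Calg y).1 (hmemC x hx)).1
    have hK : ∀ k ∈ K0 N ξ, ∀ᵐ s, W k s ∈ K0 N ξ := by
      intro k hk
      set P := (K0 N ξ).starProjection with hP
      have hPN : P ∈ N.commutant := proj_orb_mem N ξ
      have h1 : lift P (W k) = W k := by
        rw [← hW P hPN, Submodule.starProjection_eq_self_iff.2 hk]
      have h2 := lift_coe P (W k)
      rw [h1] at h2
      filter_upwards [h2] with s hs
      rw [hs]
      exact Submodule.starProjection_apply_mem _ _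
    have hin : ∀ k ∈ K0 N ξ, ∀ k' ∈ K0 N ξ, ⟪k, y k'⟫_ℂ =
        ⟪ξ, x ξ⟫_ℂ * ⟪k, k'⟫_ℂ := by
      intro k hk k' hk'
      have h1 := S.inner_piU hx AP.bicent_one (hK k hk) (hK k' hk')
      rw [S.piU_one, one_apply_eq_self, one_apply_eq_self, W.inner_map_map] at h1
      rw [← h1, hy, LinearIsometryEquiv.symm_conjStarAlgEquiv_apply_apply]
      have h2 := W.symm.inner_map_map (W k) (piU M N ξ x (W k'))
      rw [W.symm_apply_apply] at h2
      exact h2
    have hxi : ξ ∈ K0 N ξ := S.xi_mem_K0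
    set c : ℂ := ⟪ξ, x ξ⟫_ℂ with hc
    have hEN : E y ∈ N := S.E_mem y hyM
    have hz : E y - c • (1 : H →L[ℂ] H) ∈ N := sub_mem hEN (smul_mem' _ (one_mem N))
    set z := E y - c • (1 : H →L[ℂ] H) with hzdef
    have h0 : ⟪z ξ, z ξ⟫_ℂ = 0 := by
      have h1 : z ξ = E y ξ - c • ξ := rfl
      have h2 := S.E_inner hz (one_mem N) hyM
      rw [one_apply_eq_self] at h2
      have h3 := hin (z ξ) (mem_K0 hz) ξ hxi
      calc ⟪z ξ, z ξ⟫_ℂ = ⟪z ξ, E y ξ - c • ξ⟫_ℂ := rfl
        _ = 0 := by rw [inner_sub_right, h2, h3, inner_smul_right, sub_self]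
    have hz0 : z = 0 := S.sep z (S.le z hz) (inner_self_eq_zero.1 h0)
    exact sub_eq_zero.1 hz0

end Pool.Agent.Helper23.ED
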