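import Pool.Agent.Helper23.ED.CoE
import Pool.Agent.Helper23.ED.MnA
import Pool.Agent.Helper23.ED.KrA
import Pool.Agent.Helper23.ED.WuB

/-!
# Project ED: assembly for normal weights
-/

open scoped InnerProductSpace Topology ENNReal BoundedContinuousFunction
open ContinuousLinearMap Filter MeasureTheory

namespace Pool.Agent.Helper23.ED

open Pool.Agent.Helper23 Pool.Agent.Helper23.RBF
open Pool.Agent.Helper78.BC.Transport (Sub r)

universe u

open TopologicalSpace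

variable {H : Type u} [NormedAddCommGroup H] [InnerProductSpace ℂ H] [CompleteSpace H]
variable {M N : VonNeumannAlgebra H} {ξ : H} {E : (H →L[ℂ] H) → (H →L[ℂ] H)}

theorem main_every' [SeparableSpace H] (S : Setting M N E ξ) (hN : TypeIIIOne N)
    (TB : ∀ x ∈ Bicent N N ξ, ∃ c : ℂ, x = c • 1) :
    IsRelativeBicentralizerFlow N ξ S.Balg (btU M N ξ) ∧
    (∃ ψ : (H →L[ℂ] H) → ℝ≥0∞, IsDominant N ψ) ∧
    ∀ ψ : (H →L[ℂ] H) → ℝ≥0∞, IsDominant N ψ →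
      ∃ π : (H →L[ℂ] H) → (H →L[ℂ] H), IsStarIso S.Balg (Calg M N ψ) π ∧
        BoundedStronglyContinuous S.Balg π ∧ IntertwinesFlows N ψ S.Balg (btU M N ξ) π ∧
        ∀ x ∈ S.Balg, E (π x) = ⟪ξ, x ξ⟫_ℂ • (1 : H →L[ℂ] H) := by
  have B := S.bflow hN TB
  obtain ⟨Ψ, hΨ, hinv⟩ := exists_modular' S
  have hV : UG (fun t => Ψ (expB t)) := hΨ.fcal.ug
  obtain ⟨ζ, hζ⟩ := exists_dominant_wt S hN.1
  refine ⟨B.isRelativeBicentralizerFlow, ⟨_, hζ⟩, fun ψ hψ => ?_⟩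
  obtain ⟨c, hc⟩ := exists_coc' S hΨ hinv hψ.toIsNSFWeight
  obtain ⟨W, hW, hWc⟩ := exists_W_coc hV S.dense_commN hc hψ
  exact main_of_W B hΨ hinv hc W hW hWc

end Pool.Agent.Helper23.ED
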