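import Pool.Agent.Helper23.ED.Defs
import Pool.Agent.Helper23.ED.GgB
import Pool.Agent.Helper23.VDefs

/-!
# Project ED: functions of log Δ + s
-/

open scoped InnerProductSpace Topology ENNReal BoundedContinuousFunction
open ContinuousLinearMap Filter MeasureTheory

namespace Pool.Agent.Helper23.ED

open Pool.Agent.Helper23 Pool.Agent.Helper23.RBF
open Pool.Agent.Helper78.BC.Transport (Sub r)

universe u

variable {H : Type*} [NormedAddCommGroup H] [InnerProductSpace ℂ H] [CompleteSpace H]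
variable {A : VonNeumannAlgebra H} {ξ : H} {R : H →L[ℂ] H} {D : H →L[ℝ] H}
  {Ψ : (ℝ →ᵇ ℂ) →⋆ₐ[ℂ] (H →L[ℂ] H)}

/-- the function `m(ρ + s)` of `log Δ ⊗ 1 + 1 ⊗ s` -/
noncomputable def PP (Ψ : (ℝ →ᵇ ℂ) →⋆ₐ[ℂ] (H →L[ℂ] H)) (m : ℝ → ℂ) : L2R H →L[ℂ] L2R H :=
  WW Ψ * mulOp H m * star (WW Ψ)

theorem WW_unit (hΨ : Modular A ξ R D Ψ) : WW Ψ * star (WW Ψ) = 1 ∧ star (WW Ψ) * WW Ψ = 1 := by
  unfold WW
  rw [hΨ.W_star]
  exact ⟨hΨ.W_mul, hΨ.W_mul'⟩

namespace GgC

lemma inj_real {g : ℝ → ℝ} (hg : Integrable g) (h0 : ∀ a : ℝ, ∫ s, ems a s * (g s : ℂ) = 0) :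
    g =ᵐ[volume] 0 := by
  have hmeas : AEMeasurable (fun s => ENNReal.ofReal (g s)) volume :=
    hg.aestronglyMeasurable.aemeasurable.ennreal_ofReal
  have hmeas' : AEMeasurable (fun s => ENNReal.ofReal (-g s)) volume :=
    hg.neg.aestronglyMeasurable.aemeasurable.ennreal_ofReal
  have hμ : IsFiniteMeasure (volume.withDensity fun s => ENNReal.ofReal (g s)) :=
    isFiniteMeasure_withDensity_ofReal hg.2
  have hν : IsFiniteMeasure (volume.withDensity fun s => ENNReal.ofReal (-g s)) :=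
    isFiniteMeasure_withDensity_ofReal hg.neg.2
  have key : ∀ t : ℝ, ∀ f : ℝ → ℝ, Integrable f →
      charFun (volume.withDensity fun s => ENNReal.ofReal (f s)) t =
        ∫ s, ems t s * ((max (f s) 0 : ℝ) : ℂ) := by
    intro t f hf
    rw [charFun_apply_real, integral_withDensity_eq_integral_toReal_smul₀
      hf.aestronglyMeasurable.aemeasurable.ennreal_ofReal
      (Eventually.of_forall fun s => ENNReal.ofReal_lt_top)]
    refine integral_congr_ae (Eventually.of_forall fun s => ?_)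
    simp only [ems, ph, ENNReal.toReal_ofReal', Complex.real_smul]
    push_cast
    ring
  have hi : ∀ t : ℝ, ∀ f : ℝ → ℝ, Integrable f →
      Integrable fun s => ems t s * ((max (f s) 0 : ℝ) : ℂ) := by
    intro t f hf
    have h1 : Integrable fun s => ((max (f s) 0 : ℝ) : ℂ) := hf.pos_part.ofReal
    refine h1.bdd_mul (c := 1) ?_ (Eventually.of_forall fun s => ?_)
    · refine Continuous.aestronglyMeasurable ?_
      unfold ems ph
      fun_prop
    · unfold ems ph
      rw [Complex.norm_exp_ofReal_mul_I]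
  have h1 : (volume.withDensity fun s => ENNReal.ofReal (g s)) =
      (volume.withDensity fun s => ENNReal.ofReal (-g s)) := by
    apply Measure.ext_of_charFun
    ext t
    rw [key t g hg, key t (fun s => -g s) hg.neg, ← sub_eq_zero,
      ← integral_sub (hi t g hg) (hi t (fun s => -g s) hg.neg), ← h0 t]
    refine integral_congr_ae (Eventually.of_forall fun s => ?_)
    simp only []
    rw [← mul_sub, ← Complex.ofReal_sub]
    congr 2
    rcases le_total (g s) 0 with h | h
    · rw [max_eq_right h, max_eq_left (by linarith)]; ring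
    · rw [max_eq_left h, max_eq_right (by linarith)]; ring
  have h2 := (withDensity_eq_iff hmeas hmeas' ?_).1 h1
  · filter_upwards [h2] with s hs
    have hs' := congrArg ENNReal.toReal hs
    rw [ENNReal.toReal_ofReal', ENNReal.toReal_ofReal'] at hs'
    simp only [Pi.zero_apply]
    rcases le_total (g s) 0 with h | h
    · rw [max_eq_right h, max_eq_left (by linarith)] at hs'; linarith
    · rw [max_eq_left h, max_eq_right (by linarith)] at hs'; linarith
  · exact (hg.lintegral_lt_top).ne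

lemma ems_cont (a : ℝ) : Continuous (ems a) := by
  unfold ems ph
  fun_prop

lemma ems_norm (a s : ℝ) : ‖ems a s‖ = 1 := by
  unfold ems ph
  rw [Complex.norm_exp_ofReal_mul_I]

lemma ems_conj (a s : ℝ) : (starRingEnd ℂ) (ems a s) = ems (-a) s := by
  unfold ems ph
  rw [← Complex.exp_conj, map_mul, Complex.conj_I, Complex.conj_ofReal]
  congr 1
  push_cast
  ring

lemma inj_cplx {h : ℝ → ℂ} (hh : Integrable h) (h0 : ∀ a : ℝ, ∫ s, ems a s * h s = 0) :
    h =ᵐ[volume] 0 := by
  have hi : ∀ a : ℝ, ∀ f : ℝ → ℂ, Integrable f → Integrable fun s => ems a s * f s := fun a f hf =>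
    hf.bdd_mul (c := 1) (ems_cont a).aestronglyMeasurable
      (Eventually.of_forall fun s => (ems_norm a s).le)
  have hc : ∀ a : ℝ, ∫ s, ems a s * (starRingEnd ℂ) (h s) = 0 := by
    intro a
    have h1 := congrArg (starRingEnd ℂ) (h0 (-a))
    rw [← integral_conj, map_zero] at h1
    rw [← h1]
    refine integral_congr_ae (Eventually.of_forall fun s => ?_)
    simp only [map_mul, ems_conj, neg_neg]
  have hhc : Integrable fun s => (starRingEnd ℂ) (h s) := by
    refine ⟨Complex.continuous_conj.comp_aestronglyMeasurable hh.1, ?_⟩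
    refine hh.2.congr' ?_
    exact Eventually.of_forall fun s => by rw [RCLike.norm_conj]
  have hre : (fun s => (h s).re) =ᵐ[volume] 0 := by
    refine inj_real hh.re fun a => ?_
    have h1 : ∫ s, (ems a s * h s + ems a s * (starRingEnd ℂ) (h s)) = 0 := by
      rw [integral_add (hi a _ hh) (hi a _ hhc), h0, hc, add_zero]
    have h2 : ∫ s, ems a s * ((h s).re : ℂ) =
        (1 / 2 : ℂ) * ∫ s, (ems a s * h s + ems a s * (starRingEnd ℂ) (h s)) := by
      rw [← integral_const_mul]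
      refine integral_congr_ae (Eventually.of_forall fun s => ?_)
      simp only []
      rw [← mul_add, Complex.add_conj]
      push_cast
      ring
    rw [h1, mul_zero] at h2
    exact h2
  have him : (fun s => (h s).im) =ᵐ[volume] 0 := by
    refine inj_real hh.im fun a => ?_
    have h1 : ∫ s, (ems a s * h s - ems a s * (starRingEnd ℂ) (h s)) = 0 := by
      rw [integral_sub (hi a _ hh) (hi a _ hhc), h0, hc, sub_zero]
    have h2 : ∫ s, ems a s * ((h s).im : ℂ) =
        (1 / (2 * Complex.I) : ℂ) *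
          ∫ s, (ems a s * h s - ems a s * (starRingEnd ℂ) (h s)) := by
      rw [← integral_const_mul]
      refine integral_congr_ae (Eventually.of_forall fun s => ?_)
      simp only []
      rw [← mul_sub, Complex.sub_conj]
      push_cast
      have := Complex.I_ne_zero
      field_simp
    rw [h1, mul_zero] at h2
    exact h2
  filter_upwards [hre, him] with s h1 h2
  exact Complex.ext h1 h2

lemma comm_mulOp {Y : L2R H →L[ℂ] L2R H}
    (hc : ∀ a, Y * mulOp H (ems a) = mulOp H (ems a) * Y) {m : ℝ → ℂ} (hm : BM m) :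
    Y * mulOp H m = mulOp H m * Y := by
  ext G : 1
  refine ext_inner_left ℂ fun F => ?_
  have key : ∀ m : ℝ → ℂ, BM m → ⟪F, (Y * mulOp H m) G⟫_ℂ - ⟪F, (mulOp H m * Y) G⟫_ℂ =
      ∫ s, m s * (⟪((star Y) F) s, G s⟫_ℂ - ⟪F s, (Y G) s⟫_ℂ) := by
    intro m hm
    change ⟪F, Y (mulOp H m G)⟫_ℂ - ⟪F, mulOp H m (Y G)⟫_ℂ = _
    rw [← inner_star_left Y, L2.inner_def, L2.inner_def,
      ← integral_sub (L2.integrable_inner _ _) (L2.integrable_inner _ _)]
    refine integral_congr_ae ?_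
    filter_upwards [mulOp_coe hm G, mulOp_coe hm (Y G)] with s h1 h2
    rw [h1, h2, inner_smul_right, inner_smul_right]
    ring
  have hi : Integrable fun s => (⟪((star Y) F) s, G s⟫_ℂ - ⟪F s, (Y G) s⟫_ℂ) :=
    (L2.integrable_inner _ _).sub (L2.integrable_inner _ _)
  have h0 := inj_cplx hi fun a => by
    rw [← key (ems a) (GgB.ems_bm a), hc a, sub_self]
  rw [← sub_eq_zero, key m hm]
  refine (integral_congr_ae ?_).trans (integral_zero ℝ ℂ)
  filter_upwards [h0] with s hs
  rw [hs, Pi.zero_apply, mul_zero]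

end GgC

open GgB in
theorem PP_ems (hΨ : Modular A ξ R D Ψ) (a : ℝ) :
    PP Ψ (ems a) = UV (fun t => Ψ (expB t)) a := by
  have hp : (2 * Real.pi) ≠ 0 := by positivity
  have hU : ∀ t : ℝ, Dec fun s : ℝ => Ψ (expB (2 * Real.pi * (s - t))) := fun t =>
    Dec.of_cont zero_le_one (fun s => (psi_norm_le Ψ _).trans (expB_norm _))
      (fun v => (hΨ.U_cont v).comp (by fun_prop))
  have h1 : WW Ψ * mulOp H (ems a) = UV (fun t => Ψ (expB t)) a * WW Ψ := by
    ext F : 1
    refine (Fo H).injective ?_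
    change Fo H (WW Ψ (mulOp H (ems a) F)) =
      Fo H (lift (Ψ (expB a)) (mulOp H (ems a) (WW Ψ F)))
    unfold WW
    rw [Fo_fco, Fo_lift, Fo_ems, Fo_ems, Fo_fco, tr_dec hΨ.U_dec hU]
    have h2 := dec_comp (Dec.const (Ψ (expB a))) (hU (a / (2 * Real.pi)))
      (tr H (a / (2 * Real.pi)) (Fo H F))
    refine Eq.trans ?_ h2.symm
    congr 2
    funext s
    change _ = Ψ (expB a) * Ψ (expB (2 * Real.pi * (s - a / (2 * Real.pi))))
    rw [psi_expB_mul]
    congr 2
    field_simp
    ring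
  unfold PP
  rw [h1, mul_assoc, (WW_unit hΨ).1, mul_one]

theorem PP_ten (hΨ : Modular A ξ R D Ψ) {m : ℝ → ℂ} (hm : BM m) (f : L2R ℂ) :
    PP Ψ m (ten f ξ) = ten (mulOp ℂ m f) ξ := by
  have h1 : ∀ f : L2R ℂ, star (WW Ψ) (ten f ξ) = ten f ξ := by
    intro f
    unfold WW
    rw [hΨ.W_star]
    exact hΨ.W'_ten f
  have h2 : ∀ f : L2R ℂ, WW Ψ (ten f ξ) = ten f ξ := by
    intro f
    have h3 := DFunLike.congr_fun (WW_unit hΨ).1 (ten f ξ)
    change WW Ψ (star (WW Ψ) (ten f ξ)) = ten f ξ at h3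
    rwa [h1] at h3
  change WW Ψ (mulOp H m (star (WW Ψ) (ten f ξ))) = _
  rw [h1, mulOp_ten hm, h2]

theorem comm_PP (hΨ : Modular A ξ R D Ψ) {X : L2R H →L[ℂ] L2R H}
    (hc : ∀ a, X * UV (fun t => Ψ (expB t)) a = UV (fun t => Ψ (expB t)) a * X)
    {m : ℝ → ℂ} (hm : BM m) : X * PP Ψ m = PP Ψ m * X := by
  obtain ⟨hW1, hW2⟩ := WW_unit hΨ
  have h1 : ∀ a, (star (WW Ψ) * X * WW Ψ) * mulOp H (ems a) =
      mulOp H (ems a) * (star (WW Ψ) * X * WW Ψ) := by
    intro a
    have h2 := hc a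
    rw [← PP_ems hΨ a] at h2
    unfold PP at h2
    calc (star (WW Ψ) * X * WW Ψ) * mulOp H (ems a)
        = star (WW Ψ) * (X * (WW Ψ * mulOp H (ems a) * star (WW Ψ))) * WW Ψ := by
          simp only [mul_assoc, hW2, mul_one]
      _ = star (WW Ψ) * ((WW Ψ * mulOp H (ems a) * star (WW Ψ)) * X) * WW Ψ := by rw [h2]
      _ = (star (WW Ψ) * WW Ψ) * mulOp H (ems a) * (star (WW Ψ) * X * WW Ψ) := by
          simp only [mul_assoc]
      _ = _ := by rw [hW2, one_mul]
  have h3 := GgC.comm_mulOp h1 hm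
  unfold PP
  calc X * (WW Ψ * mulOp H m * star (WW Ψ))
      = (WW Ψ * star (WW Ψ)) * X * (WW Ψ * mulOp H m * star (WW Ψ)) := by
        rw [hW1, one_mul]
    _ = WW Ψ * ((star (WW Ψ) * X * WW Ψ) * mulOp H m) * star (WW Ψ) := by
        simp only [mul_assoc]
    _ = WW Ψ * (mulOp H m * (star (WW Ψ) * X * WW Ψ)) * star (WW Ψ) := by rw [h3]
    _ = (WW Ψ * mulOp H m * star (WW Ψ)) * X * (WW Ψ * star (WW Ψ)) := by
        simp only [mul_assoc]
    _ = _ := by rw [hW1, mul_one]

end Pool.Agent.Helper23.ED
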