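import Pool.Agent.Helper23.ED.GgC

/-!
# Project ED: the relation between slices
-/

open scoped InnerProductSpace Topology ENNReal BoundedContinuousFunction
open ContinuousLinearMap Filter MeasureTheory

namespace Pool.Agent.Helper23.ED

open Pool.Agent.Helper23 Pool.Agent.Helper23.RBF
open Pool.Agent.Helper78.BC.Transport (Sub r)

universe u

variable {H : Type*} [NormedAddCommGroup H] [InnerProductSpace ℂ H] [CompleteSpace H]
variable {A : VonNeumannAlgebra H} {ξ : H} {R : H →L[ℂ] H} {D : H →L[ℝ] H}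
  {Ψ : (ℝ →ᵇ ℂ) →⋆ₐ[ℂ] (H →L[ℂ] H)}

private lemma GgD_kap {m : ℕ} {f' : L2R ℂ} (hf' : Pn m f' = f') (g : L2R ℂ) (ρ : ℝ) :
    kap f' (mulOp ℂ (he m) g) ρ = ((Real.exp ρ : ℝ) : ℂ) *
      kap (mulOp ℂ (he m) f') (mulOp ℂ (ind (Set.Ico (-(m : ℝ)) m)) g) ρ := by
  rw [kap_apply, kap_apply, L2.inner_def, L2.inner_def, ← integral_const_mul]
  refine integral_congr_ae ?_
  filter_upwards [tr_coe (-ρ) (mulOp ℂ (he m) g), ae_tr (-ρ) (mulOp_coe (he_bm m) g),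
    tr_coe (-ρ) (mulOp ℂ (ind (Set.Ico (-(m : ℝ)) m)) g),
    ae_tr (-ρ) (mulOp_coe (ind_bm (measurableSet_Ico (a := -(m : ℝ)) (b := m))) g),
    mulOp_coe (he_bm m) f', supp_of_Pn hf'] with s h1 h2 h3 h4 h5 h6
  rw [h1, h2, h3, h4, h5, inner_smul_right, inner_smul_left, inner_smul_right]
  by_cases hs : s ∈ Set.Ico (-(m : ℝ)) m
  · by_cases hs' : s - -ρ ∈ Set.Ico (-(m : ℝ)) m
    · rw [he_of_mem hs, he_of_mem hs', ind_of_mem hs', Complex.conj_ofReal, one_mul,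
        ← mul_assoc, ← Complex.ofReal_mul, ← Real.exp_add]
      congr 3
      ring
    · rw [he_of_notMem hs', ind_of_notMem hs']
      ring
  · rw [h6 hs, inner_zero_left]
    ring

private lemma GgD_rel {m : ℕ} {f' : L2R ℂ} (hf' : Pn m f' = f') (g : L2R ℂ) :
    star FR * kap f' (mulOp ℂ (he m) g) =
      star (2 - FR) * kap (mulOp ℂ (he m) f') (mulOp ℂ (ind (Set.Ico (-(m : ℝ)) m)) g) := by
  rw [star_two_sub]
  ext ρ
  rw [BoundedContinuousFunction.mul_apply, BoundedContinuousFunction.mul_apply,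
    BoundedContinuousFunction.star_apply, two_sub_FR, FR_apply, GgD_kap hf', Complex.star_def,
    Complex.conj_ofReal, ← mul_assoc, ← Complex.ofReal_mul]
  congr 2
  ring

private lemma GgD_ten (hΨ : Modular A ξ R D Ψ) {m : ℕ} {f' : L2R ℂ} (hf' : Pn m f' = f') (v : H)
    (g : L2R ℂ) (w : H) : ⟪ten f' (R v), WW Ψ (mulOp H (he m) (ten g w))⟫_ℂ =
      ⟪ten (mulOp ℂ (he m) f') ((2 : ℂ) • v - R v),
        WW Ψ (mulOp H (ind (Set.Ico (-(m : ℝ)) m)) (ten g w))⟫_ℂ := by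
  rw [mulOp_ten (he_bm m), mulOp_ten (ind_bm measurableSet_Ico), WW, hΨ.key, hΨ.key,
    ← hΨ.psi_two_sub, ← hΨ.psi_FR, psi_adj, psi_adj, ← psi_mul_apply, ← psi_mul_apply,
    GgD_rel hf']

theorem PP_rel (hΨ : Modular A ξ R D Ψ) {m : ℕ} {f' : L2R ℂ} (hf' : Pn m f' = f') (v : H)
    (G : L2R H) : ⟪ten f' (R v), PP Ψ (he m) G⟫_ℂ =
      ⟪ten (mulOp ℂ (he m) f') ((2 : ℂ) • v - R v),
        PP Ψ (ind (Set.Ico (-(m : ℝ)) m)) G⟫_ℂ := by
  set X : L2R H →L[ℂ] L2R H := WW Ψ * mulOp H (he m) with hX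
  set Y : L2R H →L[ℂ] L2R H := WW Ψ * mulOp H (ind (Set.Ico (-(m : ℝ)) m)) with hY
  have h0 : star X (ten f' (R v)) -
      star Y (ten (mulOp ℂ (he m) f') ((2 : ℂ) • v - R v)) = 0 := by
    refine eq_zero_of_ten fun g w => ?_
    have h1 := GgD_ten hΨ hf' v g w
    change ⟪ten f' (R v), X (ten g w)⟫_ℂ =
      ⟪ten (mulOp ℂ (he m) f') ((2 : ℂ) • v - R v), Y (ten g w)⟫_ℂ at h1
    rw [inner_sub_right, inner_star_right, inner_star_right, sub_eq_zero,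
      ← inner_conj_symm, h1, inner_conj_symm]
  change ⟪ten f' (R v), X (star (WW Ψ) G)⟫_ℂ =
    ⟪ten (mulOp ℂ (he m) f') ((2 : ℂ) • v - R v), Y (star (WW Ψ) G)⟫_ℂ
  have h2 : ∀ G' : L2R H, ⟪ten f' (R v), X G'⟫_ℂ =
      ⟪ten (mulOp ℂ (he m) f') ((2 : ℂ) • v - R v), Y G'⟫_ℂ := fun G' => by
    have h3 : ⟪(star X) (ten f' (R v)), G'⟫_ℂ =
        ⟪(star Y) (ten (mulOp ℂ (he m) f') ((2 : ℂ) • v - R v)), G'⟫_ℂ := by
      rw [sub_eq_zero.1 h0]
    rwa [inner_star_left, inner_star_left] at h3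
  exact h2 _

end Pool.Agent.Helper23.ED
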