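import Pool.Agent.Helper23.ED.Defs

/-!
# Project ED: basic properties of T
-/

open scoped InnerProductSpace Topology ENNReal BoundedContinuousFunction
open ContinuousLinearMap Filter MeasureTheory

namespace Pool.Agent.Helper23.ED

open Pool.Agent.Helper23 Pool.Agent.Helper23.RBF
open Pool.Agent.Helper78.BC.Transport (Sub r)

universe u

variable {K : Type*} [NormedAddCommGroup K] [InnerProductSpace ℂ K] [CompleteSpace K]
variable {L : Type*} [NormedAddCommGroup L] [InnerProductSpace ℂ L] [CompleteSpace L]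
variable {Γ : Submodule ℂ (K × L)} {T : K →L[ℂ] K} {S : K →L[ℂ] L}

theorem GT.orth' (h : GT (Γ : Set (K × L)) T S) {p : K × L} (hp : p ∈ closure (Γ : Set (K × L)))
    (η : K) : ⟪p.1, η⟫_ℂ = ⟪p.1, T η⟫_ℂ + ⟪p.2, S η⟫_ℂ := by
  have hc : IsClosed {q : K × L | ⟪q.1, η⟫_ℂ = ⟪q.1, T η⟫_ℂ + ⟪q.2, S η⟫_ℂ} := by
    apply isClosed_eq
    · exact (continuous_fst.inner continuous_const)
    · exact (continuous_fst.inner continuous_const).add (continuous_snd.inner continuous_const)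
  exact closure_minimal (fun q hq => h.orth q hq η) hc hp

theorem GT.eq_of (h : GT (Γ : Set (K × L)) T S) {η : K} {p₀ : K × L}
    (hp₀ : p₀ ∈ closure (Γ : Set (K × L)))
    (ho : ∀ p ∈ Γ, ⟪p.1, η⟫_ℂ = ⟪p.1, p₀.1⟫_ℂ + ⟪p.2, p₀.2⟫_ℂ) : T η = p₀.1 ∧ S η = p₀.2 := by
  have hd : (T η - p₀.1, S η - p₀.2) ∈ closure (Γ : Set (K × L)) := by
    have h1 : (T η, S η) ∈ Γ.topologicalClosure := h.mem η
    have h2 : p₀ ∈ Γ.topologicalClosure := hp₀
    have h3 := Γ.topologicalClosure.sub_mem h1 h2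
    exact h3
  have hz : ∀ p : K × L, p ∈ closure (Γ : Set (K × L)) →
      ⟪p.1, T η - p₀.1⟫_ℂ + ⟪p.2, S η - p₀.2⟫_ℂ = 0 := by
    intro p hp
    have hc : IsClosed {q : K × L | ⟪q.1, T η - p₀.1⟫_ℂ + ⟪q.2, S η - p₀.2⟫_ℂ = 0} := by
      apply isClosed_eq
      · exact (continuous_fst.inner continuous_const).add (continuous_snd.inner continuous_const)
      · exact continuous_const
    refine closure_minimal (fun q hq => ?_) hc hp
    have h1 := h.orth q hq η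
    have h2 := ho q hq
    simp only [Set.mem_setOf_eq, inner_sub_right]
    linear_combination (-1 : ℂ) * h1 + h2
  have h0 := hz _ hd
  simp only [inner_self_eq_norm_sq_to_K] at h0
  have h1 : ((‖T η - p₀.1‖ ^ 2 + ‖S η - p₀.2‖ ^ 2 : ℝ) : ℂ) = 0 := by
    push_cast
    exact h0
  have h2 : ‖T η - p₀.1‖ ^ 2 + ‖S η - p₀.2‖ ^ 2 = 0 := by exact_mod_cast h1
  have h3 : ‖T η - p₀.1‖ = 0 := by
    have := sq_nonneg ‖T η - p₀.1‖
    have := sq_nonneg ‖S η - p₀.2‖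
    exact pow_eq_zero_iff (two_ne_zero) |>.1 (by linarith)
  have h4 : ‖S η - p₀.2‖ = 0 := by
    have := sq_nonneg ‖T η - p₀.1‖
    have := sq_nonneg ‖S η - p₀.2‖
    exact pow_eq_zero_iff (two_ne_zero) |>.1 (by linarith)
  exact ⟨sub_eq_zero.1 (norm_eq_zero.1 h3), sub_eq_zero.1 (norm_eq_zero.1 h4)⟩

theorem GT.S_inner (h : GT (Γ : Set (K × L)) T S) (η η' : K) :
    ⟪S η', S η⟫_ℂ = ⟪T η', η - T η⟫_ℂ := by
  have h1 := h.orth' (h.mem η') η
  simp only at h1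
  rw [inner_sub_right, h1]
  ring

theorem GT.T_star (h : GT (Γ : Set (K × L)) T S) : star T = T := by
  have key : ∀ a b : K, ⟪T a, b⟫_ℂ = ⟪a, T b⟫_ℂ := by
    intro a b
    have h1 := h.orth' (h.mem a) b
    have h2 := h.orth' (h.mem b) a
    simp only at h1 h2
    rw [h1, ← inner_conj_symm a (T b), h2, map_add, inner_conj_symm, inner_conj_symm]
  rw [ContinuousLinearMap.star_eq_adjoint]
  refine ContinuousLinearMap.ext fun v => ?_
  refine ext_inner_left ℂ fun w => ?_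
  rw [ContinuousLinearMap.adjoint_inner_right, key]

private theorem GrB_norm (h : GT (Γ : Set (K × L)) T S) (v : K) :
    (⟪v, T v⟫_ℂ).re = ‖T v‖ ^ 2 + ‖S v‖ ^ 2 := by
  have h1 := h.orth' (h.mem v) v
  simp only at h1
  rw [← inner_conj_symm v (T v), h1, Complex.conj_re, Complex.add_re]
  rw [inner_self_eq_norm_sq_to_K, inner_self_eq_norm_sq_to_K]
  norm_cast

theorem GT.T_nonneg (h : GT (Γ : Set (K × L)) T S) (v : K) : 0 ≤ (⟪v, T v⟫_ℂ).re := by
  rw [GrB_norm h v]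
  positivity

theorem GT.T_le (h : GT (Γ : Set (K × L)) T S) (v : K) : (⟪v, T v⟫_ℂ).re ≤ ‖v‖ ^ 2 := by
  have h1 := GrB_norm h v
  have h2 : (⟪v, T v⟫_ℂ).re ≤ ‖v‖ * ‖T v‖ :=
    (Complex.re_le_norm _).trans (norm_inner_le_norm _ _)
  have h3 := sq_nonneg ‖S v‖
  have h4 : ‖T v‖ ≤ ‖v‖ := by
    by_contra hcon
    push Not at hcon
    have h5 : 0 < ‖T v‖ := lt_of_le_of_lt (norm_nonneg _) hcon
    nlinarith
  have h5 : ‖v‖ * ‖T v‖ ≤ ‖v‖ * ‖v‖ := mul_le_mul_of_nonneg_left h4 (norm_nonneg _)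
  calc (⟪v, T v⟫_ℂ).re ≤ ‖v‖ * ‖T v‖ := h2
    _ ≤ ‖v‖ * ‖v‖ := h5
    _ = ‖v‖ ^ 2 := by ring

theorem GT.T_inj (h : GT (Γ : Set (K × L)) T S)
    (hd : ∀ η : K, (∀ p ∈ Γ, ⟪p.1, η⟫_ℂ = 0) → η = 0) (v : K) (hv : T v = 0) : v = 0 := by
  have h1 := GrB_norm h v
  rw [hv] at h1
  simp only [inner_zero_right, Complex.zero_re, norm_zero] at h1
  have h2 : S v = 0 := by
    have : ‖S v‖ ^ 2 = 0 := by nlinarith
    exact norm_eq_zero.1 (pow_eq_zero_iff (two_ne_zero) |>.1 this)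
  refine hd v fun p hp => ?_
  have h3 := h.orth p hp v
  rw [h3, hv, h2, inner_zero_right, inner_zero_right, add_zero]

theorem GT.T_inj' (h : GT (Γ : Set (K × L)) T S)
    (hz : ∀ v : K, ((v, 0) : K × L) ∈ closure (Γ : Set (K × L)) → v = 0) (v : K)
    (hv : T v = v) : v = 0 := by
  have h1 := GrB_norm h v
  rw [hv] at h1
  have h0 : (⟪v, v⟫_ℂ).re = ‖v‖ ^ 2 := by
    rw [inner_self_eq_norm_sq_to_K]
    norm_cast
  have h2 : S v = 0 := by
    have : ‖S v‖ ^ 2 = 0 := by linarith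
    exact norm_eq_zero.1 (pow_eq_zero_iff (two_ne_zero) |>.1 this)
  apply hz
  have h3 := h.mem v
  rw [hv, h2] at h3
  exact h3

end Pool.Agent.Helper23.ED
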