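import Pool.Agent.Helper23.ED.Defs

/-!
# Project ED: isometries from injective intertwiners
-/

open scoped InnerProductSpace Topology ENNReal BoundedContinuousFunction
open ContinuousLinearMap Filter MeasureTheory

namespace Pool.Agent.Helper23.ED

open Pool.Agent.Helper23 Pool.Agent.Helper23.RBF
open Pool.Agent.Helper78.BC.Transport (Sub r)

universe u

variable {H : Type*} [NormedAddCommGroup H] [InnerProductSpace ℂ H] [CompleteSpace H]
variable {K : Type*} [NormedAddCommGroup K] [InnerProductSpace ℂ K] [CompleteSpace K]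

theorem exists_isom_of_inj (A : H →L[ℂ] K) (hA : ∀ v, A v = 0 → v = 0) :
    ∃ I : H →L[ℂ] K, (∀ x y, ⟪I x, I y⟫_ℂ = ⟪x, y⟫_ℂ) ∧
      ∀ (a : H →L[ℂ] H) (b : K →L[ℂ] K), (∀ x, A (a x) = b (A x)) →
        (∀ x, A ((star a) x) = (star b) (A x)) → ∀ x, I (a x) = b (I x) := by
  set B : H →L[ℂ] H := (adjoint A).comp A with hB
  have hB0 : 0 ≤ B := by
    rw [ContinuousLinearMap.nonneg_iff_isPositive]
    exact ContinuousLinearMap.isPositive_adjoint_comp_self A
  set P : H →L[ℂ] H := CFC.sqrt B with hP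
  have hP0 : 0 ≤ P := CFC.sqrt_nonneg B
  have hPP : P * P = B := CFC.sqrt_mul_sqrt_self B hB0
  have hPs : star P = P := hP0.star_eq
  have hPi : ∀ x y, ⟪P x, y⟫_ℂ = ⟪x, P y⟫_ℂ := by
    intro x y
    have h := adjoint_inner_left P y x
    rw [← star_eq_adjoint, hPs] at h
    exact h
  have hin : ∀ x y, ⟪P x, P y⟫_ℂ = ⟪A x, A y⟫_ℂ := by
    intro x y
    have h1 : P (P y) = adjoint A (A y) := congrArg (fun T : H →L[ℂ] H => T y) hPP
    rw [hPi, h1, adjoint_inner_right]
  have hnorm : ∀ x, ‖P x‖ = ‖A x‖ := by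
    intro x
    have h1 := hin x x
    rw [inner_self_eq_norm_sq_to_K, inner_self_eq_norm_sq_to_K] at h1
    have h4 : ‖P x‖ ^ 2 = ‖A x‖ ^ 2 := by exact_mod_cast h1
    exact (sq_eq_sq₀ (norm_nonneg _) (norm_nonneg _)).1 h4
  have hPinj : ∀ v, P v = 0 → v = 0 := by
    intro v hv
    apply hA
    have := hnorm v
    rw [hv, norm_zero] at this
    exact norm_eq_zero.1 this.symm
  -- dense range
  have hd : DenseRange P := by
    have h1 : (LinearMap.range (P : H →ₗ[ℂ] H)).topologicalClosure = ⊤ := by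
      rw [Submodule.topologicalClosure_eq_top_iff, Submodule.eq_bot_iff]
      intro y hy
      rw [Submodule.mem_orthogonal] at hy
      apply hPinj
      have h2 : ⟪P y, P y⟫_ℂ = 0 := by
        rw [← hPi]
        exact hy (P (P y)) ⟨P y, rfl⟩
      exact inner_self_eq_zero.1 h2
    have h2 := Submodule.dense_iff_topologicalClosure_eq_top.2 h1
    exact h2
  have hd' : DenseRange (P : H →ₗ[ℂ] H) := hd
  have hC : ∀ x, ‖(A : H →ₗ[ℂ] K) x‖ ≤ 1 * ‖(P : H →ₗ[ℂ] H) x‖ := by
    intro x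
    rw [one_mul]
    exact (hnorm x).ge
  refine ⟨(A : H →ₗ[ℂ] K).extendOfNorm (P : H →ₗ[ℂ] H), ?_, ?_⟩
  · set I := (A : H →ₗ[ℂ] K).extendOfNorm (P : H →ₗ[ℂ] H) with hI
    have hIP : ∀ x, I (P x) = A x := fun x => LinearMap.extendOfNorm_eq hd' ⟨1, hC⟩ x
    intro x y
    have h1 : ∀ x y, ⟪I (P x), I y⟫_ℂ = ⟪P x, y⟫_ℂ := by
      intro x y
      refine hd.induction_on (p := fun y => ⟪I (P x), I y⟫_ℂ = ⟪P x, y⟫_ℂ) y ?_ ?_
      · exact isClosed_eq (by fun_prop) (by fun_prop)
      · intro z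
        rw [hIP, hIP, hin]
    refine hd.induction_on (p := fun x => ⟪I x, I y⟫_ℂ = ⟪x, y⟫_ℂ) x ?_ ?_
    · exact isClosed_eq (by fun_prop) (by fun_prop)
    · intro z
      exact h1 z y
  · set I := (A : H →ₗ[ℂ] K).extendOfNorm (P : H →ₗ[ℂ] H) with hI
    have hIP : ∀ x, I (P x) = A x := fun x => LinearMap.extendOfNorm_eq hd' ⟨1, hC⟩ x
    intro a b hab hab' x
    have hc : Commute B a := by
      change B * a = a * B
      ext v
      change (adjoint A) (A (a v)) = a ((adjoint A) (A v))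
      refine ext_inner_left ℂ (fun y => ?_)
      rw [adjoint_inner_right, hab, ← adjoint_inner_left a, adjoint_inner_right,
        ← star_eq_adjoint a, hab', star_eq_adjoint, adjoint_inner_left]
    have hc' : Commute P a := Commute.cfcₙ_nnreal hc _
    have hPa : ∀ v, P (a v) = a (P v) := fun v => congrArg (fun T : H →L[ℂ] H => T v) hc'.eq
    refine hd.induction_on (p := fun x => I (a x) = b (I x)) x ?_ ?_
    · exact isClosed_eq (by fun_prop) (by fun_prop)
    · intro z
      rw [← hPa, hIP, hIP, hab]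

end Pool.Agent.Helper23.ED
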