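import Pool.Agent.Helper23.ED.Defs

/-!
# Project ED: the graph of a weight
-/

open scoped InnerProductSpace Topology ENNReal BoundedContinuousFunction
open ContinuousLinearMap Filter MeasureTheory

namespace Pool.Agent.Helper23.ED

open Pool.Agent.Helper23 Pool.Agent.Helper23.RBF
open Pool.Agent.Helper78.BC.Transport (Sub r)

universe u

variable {H : Type u} [NormedAddCommGroup H] [InnerProductSpace ℂ H] [CompleteSpace H]
variable {K : Type u} [NormedAddCommGroup K] [InnerProductSpace ℂ K] [CompleteSpace K]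
variable {N : VonNeumannAlgebra H} {ξ : H} {i : K →L[ℂ] H} {κ : K} {C : H → H} {ζ : ℕ → H}

private lemma NgA_conj_zero (hC : IsConj C) : C 0 = 0 := by
  have h := hC.smul 0 0
  simpa using h

private lemma NgA_conj_sub (hC : IsConj C) (x y : H) : C (x - y) = C x - C y := by
  have h := hC.add (x - y) y
  rw [sub_add_cancel] at h
  rw [h, add_sub_cancel_right]

private lemma NgA_conj_norm (hC : IsConj C) (x : H) : ‖C x‖ = ‖x‖ := by
  have h := hC.inner x x
  rw [inner_self_eq_norm_sq_to_K, inner_self_eq_norm_sq_to_K] at h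
  have h2 : ‖C x‖ ^ 2 = ‖x‖ ^ 2 := by exact_mod_cast h
  exact (sq_eq_sq₀ (norm_nonneg _) (norm_nonneg _)).1 h2

private lemma NgA_conj_cont (hC : IsConj C) : Continuous C := by
  have : Isometry C := by
    refine Isometry.of_dist_eq fun x y => ?_
    rw [dist_eq_norm, dist_eq_norm, ← NgA_conj_sub hC, NgA_conj_norm hC]
  exact this.continuous

theorem exists_conj (H : Type u) [NormedAddCommGroup H] [InnerProductSpace ℂ H]
    [CompleteSpace H] : ∃ C : H → H, IsConj C := by
  obtain ⟨w, b, -⟩ := exists_hilbertBasis ℂ H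
  refine ⟨fun x => b.repr.symm (star (b.repr x)), ?_, ?_, ?_, ?_⟩
  · intro x y
    simp
  · intro c x
    rw [map_smul, star_smul, map_smul]
    rfl
  · intro x y
    rw [← b.repr.inner_map_map, LinearIsometryEquiv.apply_symm_apply,
      LinearIsometryEquiv.apply_symm_apply, ← b.repr.inner_map_map y x,
      lp.inner_eq_tsum, lp.inner_eq_tsum]
    refine tsum_congr fun k => ?_
    rw [lp.star_apply, lp.star_apply]
    simp only [RCLike.inner_apply]
    simp [mul_comm]
  · intro x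
    simp

theorem Gr_sub (Sb : Sub N ξ i κ) (hC : IsConj C) :
    ∃ Γ : Submodule ℂ (K × LN H), (Γ : Set (K × LN H)) = Gr N ξ i C ζ := by
  refine ⟨{ carrier := Gr N ξ i C ζ, add_mem' := ?_, zero_mem' := ?_, smul_mem' := ?_ }, rfl⟩
  · rintro p q ⟨a, ha, ha1, ha2⟩ ⟨b, hb, hb1, hb2⟩
    refine ⟨a + b, add_mem ha hb, ?_, fun n => ?_⟩
    · simp [ha1, hb1]
    · simp only [Prod.snd_add, lp.coeFn_add, Pi.add_apply, ha2 n, hb2 n, star_add,
        ContinuousLinearMap.add_apply, hC.add]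
  · refine ⟨0, zero_mem N, by simp, fun n => ?_⟩
    simp [NgA_conj_zero hC]
  · rintro c p ⟨a, ha, ha1, ha2⟩
    refine ⟨c • a, smul_mem' c ha, ?_, fun n => ?_⟩
    · simp [ha1]
    · simp only [Prod.smul_snd, lp.coeFn_smul, Pi.smul_apply, ha2 n, star_smul,
        ContinuousLinearMap.smul_apply, hC.smul]
      simp

/-- `Gr` as a submodule of the pairs is stable under right multiplication -/
theorem Gr_right (Sb : Sub N ξ i κ) (hC : IsConj C) {x : H →L[ℂ] H} (hx : x ∈ N) {v : K}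
    {a : H →L[ℂ] H} (ha : a ∈ N) (hs : Summable fun n => ‖(star a) (ζ n)‖ ^ 2)
    (hv : i v = a (x ξ)) : ∃ w : LN H, ((v, w) : K × LN H) ∈ Gr N ξ i C ζ := by
  have hmem : Memℓp (fun n : ℕ => C ((star (a * x)) (ζ n))) 2 := by
    refine memℓp_gen ?_
    have h2 : Summable fun n => ‖star x‖ ^ 2 * ‖(star a) (ζ n)‖ ^ 2 := hs.mul_left _
    refine Summable.of_nonneg_of_le (fun n => by positivity) (fun n => ?_) h2
    rw [NgA_conj_norm hC, star_mul, ContinuousLinearMap.mul_apply]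
    have h3 := (star x).le_opNorm ((star a) (ζ n))
    have h4 : ‖(star x) ((star a) (ζ n))‖ ^ (2 : ℕ) ≤ (‖star x‖ * ‖(star a) (ζ n)‖) ^ (2 : ℕ) :=
      pow_le_pow_left₀ (norm_nonneg _) h3 2
    rw [mul_pow] at h4
    simpa using h4
  refine ⟨⟨fun n : ℕ => C ((star (a * x)) (ζ n)), hmem⟩, a * x, mul_mem ha hx, ?_, fun n => rfl⟩
  simpa using hv

theorem Gr_pair (Sb : Sub N ξ i κ) (hC : IsConj C) {p : K × LN H}
    (hp : p ∈ closure (Gr N ξ i C ζ)) {b : H →L[ℂ] H} (hb : b ∈ N.commutant) (n : ℕ) :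
    ⟪C (p.2 n), b ξ⟫_ℂ = ⟪(star b) (ζ n), i p.1⟫_ℂ := by
  have hcl : IsClosed {q : K × LN H | ⟪C (q.2 n), b ξ⟫_ℂ = ⟪(star b) (ζ n), i q.1⟫_ℂ} := by
    have h1 : Continuous fun q : K × LN H => q.2 n :=
      (lp.lipschitzWith_one_eval (E := fun _ : ℕ => H) 2 n).continuous.comp continuous_snd
    have h2 : Continuous fun q : K × LN H => C (q.2 n) := (NgA_conj_cont hC).comp h1
    exact isClosed_eq (h2.inner continuous_const)
      (continuous_const.inner (i.continuous.comp continuous_fst))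
  have hsub : Gr N ξ i C ζ ⊆
      {q : K × LN H | ⟪C (q.2 n), b ξ⟫_ℂ = ⟪(star b) (ζ n), i q.1⟫_ℂ} := by
    rintro q ⟨a, ha, ha1, ha2⟩
    simp only [Set.mem_setOf_eq]
    rw [ha2 n, hC.invol, inner_star_left, commute_apply ha hb, ha1, inner_star_left]
  exact closure_minimal hsub hcl hp

theorem Gr_snd (Sb : Sub N ξ i κ) (hsep : ∀ a ∈ N, a ξ = 0 → a = 0) (hC : IsConj C)
    {p : K × LN H} (hp : p ∈ closure (Gr N ξ i C ζ)) {a : H →L[ℂ] H} (ha : a ∈ N)
    (h1 : i p.1 = a ξ) (n : ℕ) : p.2 n = C ((star a) (ζ n)) := by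
  have hd := dense_of_separating N ξ hsep
  have key : C (p.2 n) = (star a) (ζ n) := by
    refine ext_inner_right ℂ fun v => ?_
    have hcl : IsClosed {v : H | ⟪C (p.2 n), v⟫_ℂ = ⟪(star a) (ζ n), v⟫_ℂ} :=
      isClosed_eq (continuous_const.inner continuous_id) (continuous_const.inner continuous_id)
    have hsub : (orb N.commutant ξ : Set H) ⊆ {v : H | ⟪C (p.2 n), v⟫_ℂ = ⟪(star a) (ζ n), v⟫_ℂ} := by
      rintro _ ⟨b, hb, rfl⟩
      simp only [Set.mem_setOf_eq]
      rw [Gr_pair Sb hC hp hb n, h1, inner_star_left, inner_star_left, commute_apply ha hb]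
    have := closure_minimal hsub hcl
    rw [hd.closure_eq] at this
    exact this (Set.mem_univ v)
  rw [← key, hC.invol]

theorem Gr_zero (Sb : Sub N ξ i κ) (hsep : ∀ a ∈ N, a ξ = 0 → a = 0) (hC : IsConj C)
    {w : LN H} (hw : ((0, w) : K × LN H) ∈ closure (Gr N ξ i C ζ)) : w = 0 := by
  ext n
  have h := Gr_snd Sb hsep hC hw (zero_mem N) (by simp) n
  simpa [NgA_conj_zero hC] using h

end Pool.Agent.Helper23.ED
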