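import Pool.Agent.Helper23.ED.NgD
import Pool.Agent.Helper23.ED.GrA
import Pool.Agent.Helper23.ED.GrC
import Pool.Agent.Helper23.ED.GrD
import Pool.Agent.Helper23.ED.FcA
import Pool.Agent.Helper23.ED.FcD

/-!
# Project ED: unitaries scaling the weight
-/

open scoped InnerProductSpace Topology ENNReal BoundedContinuousFunction
open ContinuousLinearMap Filter MeasureTheory

namespace Pool.Agent.Helper23.ED

open Pool.Agent.Helper23 Pool.Agent.Helper23.RBF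
open Pool.Agent.Helper78.BC.Transport (Sub r)

universe u

variable {H : Type u} [NormedAddCommGroup H] [InnerProductSpace ℂ H] [CompleteSpace H]
variable {K : Type u} [NormedAddCommGroup K] [InnerProductSpace ℂ K] [CompleteSpace K]
variable {N : VonNeumannAlgebra H} {ξ : H} {i : K →L[ℂ] H} {κ : K} {C : H → H} {ζ : ℕ → H}

theorem exists_T (Sb : Sub N ξ i κ) (hsep : ∀ a ∈ N, a ξ = 0 → a = 0) (hC : IsConj C)
    (hζ : NSF N ζ) : ∃ (T : K →L[ℂ] K) (S : K →L[ℂ] LN H)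
      (Ψ : (ℝ →ᵇ ℂ) →⋆ₐ[ℂ] (K →L[ℂ] K)), GT (Gr N ξ i C ζ) T S ∧ FCal ((2 : ℂ) • T) Ψ := by
  obtain ⟨Γ, hΓ⟩ := Gr_sub (ζ := ζ) Sb hC
  obtain ⟨T, S, h⟩ := exists_GT Γ
  have hd : ∀ η : K, (∀ p ∈ Γ, ⟪p.1, η⟫_ℂ = 0) → η = 0 := by
    intro η hη
    refine Gr_dense Sb hsep hC hζ η fun p hp => hη p ?_
    rw [← hΓ] at hp
    exact hp
  have hz : ∀ v : K, ((v, 0) : K × LN H) ∈ closure (Γ : Set (K × LN H)) → v = 0 := by
    intro v hv
    rw [hΓ] at hv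
    exact Gr_zero' Sb hsep hC hζ hv
  obtain ⟨Ψ, hΨ⟩ := exists_fcal T h.T_star h.T_nonneg h.T_le (h.T_inj hd) (h.T_inj' hz)
  rw [hΓ] at h
  exact ⟨T, S, Ψ, h, hΨ⟩

theorem NgB_star_left (a : H →L[ℂ] H) (x y : H) : ⟪x, a y⟫_ℂ = ⟪(star a) x, y⟫_ℂ := by
  rw [star_eq_adjoint, adjoint_inner_left]

theorem NgB_C_norm (hC : IsConj C) (x : H) : ‖C x‖ = ‖x‖ := by
  have h := hC.inner x x
  rw [inner_self_eq_norm_sq_to_K, inner_self_eq_norm_sq_to_K] at h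
  have h2 : ‖C x‖ ^ 2 = ‖x‖ ^ 2 := by exact_mod_cast h
  exact (sq_eq_sq₀ (norm_nonneg _) (norm_nonneg _)).1 h2

theorem NgB_wt (ζ : ℕ → H) (a : H →L[ℂ] H) :
    wt ζ (a * star a) = ∑' n, ENNReal.ofReal (‖(star a) (ζ n)‖ ^ 2) := by
  unfold wt
  refine tsum_congr fun n => ?_
  have h : ⟪ζ n, (a * star a) (ζ n)⟫_ℂ = ((‖(star a) (ζ n)‖ ^ 2 : ℝ) : ℂ) := by
    have h0 : (a * star a) (ζ n) = a ((star a) (ζ n)) := rfl
    rw [h0, NgB_star_left, inner_self_eq_norm_sq_to_K]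
    push_cast
    rfl
  rw [h, Complex.ofReal_re]

theorem NgB_lp (w : LN H) : ENNReal.ofReal (‖w‖ ^ 2) = ∑' n, ENNReal.ofReal (‖w n‖ ^ 2) := by
  have h1 := lp.hasSum_norm (p := 2) (by norm_num) w
  have h2 : HasSum (fun n => ‖w n‖ ^ 2) (‖w‖ ^ 2) := by
    have e : ((2 : ℝ≥0∞).toReal) = (2 : ℕ) := by norm_num
    rw [e] at h1
    simpa only [Real.rpow_natCast] using h1
  rw [← h2.tsum_eq]
  exact ENNReal.ofReal_tsum_of_nonneg (fun n => by positivity) h2.summable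

theorem NgB_mem (hC : IsConj C) {a : H →L[ℂ] H} (w : LN H)
    (hw : ∀ n, w n = C ((star a) (ζ n))) : ENNReal.ofReal (‖w‖ ^ 2) = wt ζ (a * star a) := by
  rw [NgB_lp, NgB_wt]
  refine tsum_congr fun n => ?_
  rw [hw, NgB_C_norm hC]

theorem NgB_exists (hC : IsConj C) {a : H →L[ℂ] H} (h : wt ζ (a * star a) ≠ ⊤) :
    ∃ w : LN H, ∀ n, w n = C ((star a) (ζ n)) := by
  rw [NgB_wt] at h
  have h1 : Summable fun n => ‖(star a) (ζ n)‖ ^ 2 := by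
    have h2 := ENNReal.summable_toReal h
    refine h2.congr fun n => ?_
    rw [ENNReal.toReal_ofReal (by positivity)]
  have h3 : Memℓp (fun n => C ((star a) (ζ n))) 2 := by
    refine memℓp_gen ?_
    refine h1.congr fun n => ?_
    have e : ((2 : ℝ≥0∞).toReal) = (2 : ℕ) := by norm_num
    rw [e, Real.rpow_natCast, NgB_C_norm hC]
  exact ⟨⟨_, h3⟩, fun n => rfl⟩

theorem NgB_norm_eq {L₁ L₂ : Type*} [NormedAddCommGroup L₁] [NormedAddCommGroup L₂] (x : L₁)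
    (y : L₂) (h : ENNReal.ofReal (‖x‖ ^ 2) = ENNReal.ofReal (‖y‖ ^ 2)) : ‖x‖ = ‖y‖ := by
  rw [ENNReal.ofReal_eq_ofReal_iff (by positivity) (by positivity)] at h
  exact (sq_eq_sq₀ (norm_nonneg _) (norm_nonneg _)).1 h

/-- one direction of the comparison of two weights with the same operator -/
theorem NgB_aux (Sb : Sub N ξ i κ) (hsep : ∀ a ∈ N, a ξ = 0 → a = 0) (hC : IsConj C)
    {ζ₁ ζ₂ : ℕ → H} {T : K →L[ℂ] K} {S₁ S₂ : K →L[ℂ] LN H}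
    (h₁ : GT (Gr N ξ i C ζ₁) T S₁) (h₂ : GT (Gr N ξ i C ζ₂) T S₂) {a : H →L[ℂ] H} (ha : a ∈ N)
    (h : wt ζ₁ (a * star a) ≠ ⊤) : wt ζ₂ (a * star a) = wt ζ₁ (a * star a) := by
  obtain ⟨Γ₁, hΓ₁⟩ := Gr_sub (ζ := ζ₁) Sb hC
  obtain ⟨Γ₂, hΓ₂⟩ := Gr_sub (ζ := ζ₂) Sb hC
  obtain ⟨w₁, hw₁⟩ := NgB_exists hC h
  have hv : i (r i a κ) = a ξ := by rw [Sb.i_r ha, Sb.vec]
  have hp : ((r i a κ, w₁) : K × LN H) ∈ Gr N ξ i C ζ₁ := ⟨a, ha, hv, hw₁⟩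
  have hp' : ((r i a κ, w₁) : K × LN H) ∈ closure (Γ₁ : Set (K × LN H)) := by
    rw [hΓ₁]
    exact subset_closure hp
  have hc : ∀ w : LN H, ((0, w) : K × LN H) ∈ closure (Γ₁ : Set (K × LN H)) → w = 0 := by
    intro w hw
    rw [hΓ₁] at hw
    exact Gr_zero Sb hsep hC hw
  obtain ⟨w₂, hw₂, hn⟩ := exists_of_T_eq (Γ₁ := Γ₁) (Γ₂ := Γ₂) (by rw [hΓ₁]; exact h₁)
    (by rw [hΓ₂]; exact h₂) hc hp'
  rw [hΓ₂] at hw₂
  have hw₂' : ∀ n, w₂ n = C ((star a) (ζ₂ n)) := fun n => Gr_snd Sb hsep hC hw₂ ha hv n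
  rw [← NgB_mem hC w₁ hw₁, ← NgB_mem hC w₂ hw₂']
  have hn' : ‖w₂‖ = ‖w₁‖ := hn
  rw [hn']

theorem NgB_eq_iff (Sb : Sub N ξ i κ) (hsep : ∀ a ∈ N, a ξ = 0 → a = 0) (hC : IsConj C)
    {ζ₁ ζ₂ : ℕ → H} {T₁ T₂ : K →L[ℂ] K} {S₁ S₂ : K →L[ℂ] LN H}
    (h₁ : GT (Gr N ξ i C ζ₁) T₁ S₁) (h₂ : GT (Gr N ξ i C ζ₂) T₂ S₂) :
    (∀ x ∈ N, 0 ≤ x → wt ζ₁ x = wt ζ₂ x) ↔ T₁ = T₂ := by
  obtain ⟨Γ₁, hΓ₁⟩ := Gr_sub (ζ := ζ₁) Sb hC
  obtain ⟨Γ₂, hΓ₂⟩ := Gr_sub (ζ := ζ₂) Sb hC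
  have key : ∀ {ζ₁ ζ₂ : ℕ → H}, (∀ x ∈ N, 0 ≤ x → wt ζ₁ x = wt ζ₂ x) →
      ∀ p ∈ Gr N ξ i C ζ₁, ∃ q ∈ Gr N ξ i C ζ₂, q.1 = p.1 := by
    intro ζ₁ ζ₂ hw p hp
    obtain ⟨a, ha, hv, hw₁⟩ := hp
    have hx : (a * star a) ∈ N := mul_mem ha (star_mem ha)
    have hne : wt ζ₁ (a * star a) ≠ ⊤ := by
      rw [← NgB_mem hC p.2 hw₁]
      exact ENNReal.ofReal_ne_top
    rw [hw _ hx (mul_star_self_nonneg a)] at hne
    obtain ⟨w, hw'⟩ := NgB_exists hC hne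
    exact ⟨(p.1, w), ⟨a, ha, hv, hw'⟩, rfl⟩
  constructor
  · intro hw
    refine T_unique (Γ₁ := Γ₁) (Γ₂ := Γ₂) (S₁ := S₁) (S₂ := S₂) (by rw [hΓ₁]; exact h₁)
      (by rw [hΓ₂]; exact h₂) ?_ ?_ ?_
    · intro p hp
      have hp' : p ∈ (Γ₁ : Set (K × LN H)) := hp
      rw [hΓ₁] at hp'
      obtain ⟨q, hq, h3⟩ := key hw p hp'
      rw [← hΓ₂] at hq
      exact ⟨q, hq, h3⟩
    · intro p hp
      have hp' : p ∈ (Γ₂ : Set (K × LN H)) := hp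
      rw [hΓ₂] at hp'
      obtain ⟨q, hq, h3⟩ := key (fun x hx h0 => (hw x hx h0).symm) p hp'
      rw [← hΓ₁] at hq
      exact ⟨q, hq, h3⟩
    · intro p hp q hq hpq
      have hp' : p ∈ (Γ₁ : Set (K × LN H)) := hp
      have hq' : q ∈ (Γ₂ : Set (K × LN H)) := hq
      rw [hΓ₁] at hp'
      rw [hΓ₂] at hq'
      obtain ⟨a, ha, hv, hw₁⟩ := hp'
      obtain ⟨b, hb, hv', hw₂⟩ := hq'
      have hab : a = b := by
        have h4 : (a - b) ξ = 0 := by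
          rw [sub_apply, ← hv, ← hv', hpq, sub_self]
        exact sub_eq_zero.1 (hsep _ (sub_mem ha hb) h4)
      subst hab
      refine NgB_norm_eq _ _ ?_
      rw [NgB_mem hC p.2 hw₁, NgB_mem hC q.2 hw₂]
      exact hw _ (mul_mem ha (star_mem ha)) (mul_star_self_nonneg a)
  · intro hT x hx h0
    subst hT
    obtain ⟨a, ha, hax⟩ : ∃ a ∈ N, x = a * star a := by
      obtain ⟨Y, hY, hYx⟩ := exists_sqrt_mem N hx h0
      exact ⟨star Y, star_mem hY, by rw [star_star, hYx]⟩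
    subst hax
    by_cases h : wt ζ₁ (a * star a) = ⊤
    · by_cases h' : wt ζ₂ (a * star a) = ⊤
      · rw [h, h']
      · exact NgB_aux Sb hsep hC h₂ h₁ ha h'
    · exact (NgB_aux Sb hsep hC h₁ h₂ ha h).symm

/-- the weight of the rotated vectors -/
theorem NgB_wt_rot (ζ : ℕ → H) (u x : H →L[ℂ] H) :
    wt (fun n => u (ζ n)) x = wt ζ (star u * x * u) := by
  unfold wt
  refine tsum_congr fun n => ?_
  have h : (star u * x * u) (ζ n) = (star u) (x (u (ζ n))) := rfl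
  have h3 : ⟪ζ n, (star u) (x (u (ζ n)))⟫_ℂ = ⟪u (ζ n), x (u (ζ n))⟫_ℂ := by
    rw [NgB_star_left (star u), star_star]
  rw [h, h3]

/-- the weight of the rescaled vectors -/
theorem NgB_wt_scale (ζ : ℕ → H) (x : H →L[ℂ] H) {l : ℝ} (hl : 0 < l) :
    wt (fun n => ((Real.sqrt l : ℝ) : ℂ) • ζ n) x = ENNReal.ofReal l * wt ζ x := by
  unfold wt
  rw [← ENNReal.tsum_mul_left]
  refine tsum_congr fun n => ?_
  rw [← ENNReal.ofReal_mul hl.le]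
  congr 1
  rw [map_smul, inner_smul_left, inner_smul_right, Complex.conj_ofReal, ← mul_assoc,
    ← Complex.ofReal_mul, Real.mul_self_sqrt hl.le, Complex.re_ofReal_mul]

theorem NgB_gr_rot (Sb : Sub N ξ i κ) (ζ : ℕ → H) {u : H →L[ℂ] H} (hu : u ∈ N)
    (h1 : star u * u = 1) (h2 : u * star u = 1) (v : K) (w : LN H) :
    ((v, w) : K × LN H) ∈ Gr N ξ i C ζ ↔
      ((r i u v, w) : K × LN H) ∈ Gr N ξ i C (fun n => u (ζ n)) := by
  constructor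
  · rintro ⟨a, ha, hv, hw⟩
    refine ⟨u * a, mul_mem hu ha, ?_, fun n => ?_⟩
    · have h3 : i (r i u v) = u (i v) := Sb.i_r hu v
      change i (r i u v) = (u * a) ξ
      rw [h3]
      have hv' : i v = a ξ := hv
      rw [hv']
      rfl
    · have h3 : (star (u * a)) (u (ζ n)) = (star a) (ζ n) := by
        rw [star_mul]
        change (star a) ((star u) (u (ζ n))) = (star a) (ζ n)
        have h4 : (star u) (u (ζ n)) = ζ n := by
          change (star u * u) (ζ n) = ζ n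
          rw [h1]
          rfl
        rw [h4]
      change w n = C ((star (u * a)) (u (ζ n)))
      rw [h3]
      exact hw n
  · rintro ⟨a, ha, hv, hw⟩
    refine ⟨star u * a, mul_mem (star_mem hu) ha, ?_, fun n => ?_⟩
    · have h3 : i (r i u v) = u (i v) := Sb.i_r hu v
      have hv' : i (r i u v) = a ξ := hv
      change i v = (star u) (a ξ)
      rw [← hv', h3]
      change i v = (star u * u) (i v)
      rw [h1]
      rfl
    · have h3 : (star (star u * a)) (ζ n) = (star a) (u (ζ n)) := by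
        rw [star_mul, star_star]
        rfl
      change w n = C ((star (star u * a)) (ζ n))
      rw [h3]
      exact hw n

theorem NgB_gr_scale (hC : IsConj C) (ζ : ℕ → H) {c : ℝ} (hc : 0 < c) (v : K) (w : LN H) :
    ((v, w) : K × LN H) ∈ Gr N ξ i C ζ ↔
      ((v, (c : ℂ) • w) : K × LN H) ∈ Gr N ξ i C (fun n => (c : ℂ) • ζ n) := by
  have hc0 : (c : ℂ) ≠ 0 := by
    exact_mod_cast hc.ne'
  have key : ∀ (a : H →L[ℂ] H) (n : ℕ),
      C ((star a) ((c : ℂ) • ζ n)) = (c : ℂ) • C ((star a) (ζ n)) := by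
    intro a n
    rw [map_smul, hC.smul, Complex.conj_ofReal]
  constructor
  · rintro ⟨a, ha, hv, hw⟩
    refine ⟨a, ha, hv, fun n => ?_⟩
    have hw' : w n = C ((star a) (ζ n)) := hw n
    change ((c : ℂ) • w) n = C ((star a) ((c : ℂ) • ζ n))
    rw [key, ← hw']
    rfl
  · rintro ⟨a, ha, hv, hw⟩
    refine ⟨a, ha, hv, fun n => ?_⟩
    have hw' : ((c : ℂ) • w) n = C ((star a) ((c : ℂ) • ζ n)) := hw n
    rw [key] at hw'
    have hw2 : (c : ℂ) • w n = (c : ℂ) • C ((star a) (ζ n)) := hw'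
    exact smul_right_injective H hc0 hw2

/-- an operator that vanishes on the range of `T + l (1 - T)` is zero -/
theorem NgB_zero {T D : K →L[ℂ] K} (h0 : ∀ v : K, 0 ≤ (⟪v, T v⟫_ℂ).re)
    (h1 : ∀ v : K, (⟪v, T v⟫_ℂ).re ≤ ‖v‖ ^ 2) {l : ℝ} (hl : 0 < l)
    (hD : ∀ v, D (T v + (l : ℂ) • (v - T v)) = 0) : D = 0 := by
  have hw : ∀ w : K, (⟪w, T w + (l : ℂ) • (w - T w)⟫_ℂ) = 0 → w = 0 := by
    intro w hw
    have h3 := congrArg Complex.re hw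
    rw [inner_add_right, inner_smul_right, inner_sub_right, inner_self_eq_norm_sq_to_K,
      Complex.add_re, Complex.re_ofReal_mul, Complex.sub_re, Complex.zero_re] at h3
    have h4 : (((‖w‖ : ℂ)) ^ 2).re = ‖w‖ ^ 2 := by
      rw [← Complex.ofReal_pow, Complex.ofReal_re]
    have h4' : ((RCLike.ofReal ‖w‖ : ℂ) ^ 2).re = ‖w‖ ^ 2 := h4
    rw [h4'] at h3
    have h5 := h0 w
    have h6 := h1 w
    have h7 : ‖w‖ ^ 2 = 0 := by
      rcases le_or_gt l 1 with hl1 | hl1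
      · nlinarith [sq_nonneg ‖w‖]
      · nlinarith [sq_nonneg ‖w‖]
    have h8 : ‖w‖ = 0 := by
      exact pow_eq_zero_iff (two_ne_zero) |>.1 h7
    exact norm_eq_zero.1 h8
  have hs : star D = 0 := by
    ext y
    have h3 : (⟪(star D) y, T ((star D) y) + (l : ℂ) • ((star D) y - T ((star D) y))⟫_ℂ) = 0 := by
      rw [star_eq_adjoint, adjoint_inner_left, ← star_eq_adjoint, hD, inner_zero_right]
    exact hw _ h3
  rw [← star_star D, hs, star_zero]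

theorem scal_iff (Sb : Sub N ξ i κ) (hsep : ∀ a ∈ N, a ξ = 0 → a = 0) (hC : IsConj C)
    (hζ : NSF N ζ) {T : K →L[ℂ] K} {S : K →L[ℂ] LN H} {Ψ : (ℝ →ᵇ ℂ) →⋆ₐ[ℂ] (K →L[ℂ] K)}
    (hT : GT (Gr N ξ i C ζ) T S) (hΨ : FCal ((2 : ℂ) • T) Ψ) {u : H →L[ℂ] H} (hu : u ∈ N)
    (h1 : star u * u = 1) (h2 : u * star u = 1) {l : ℝ} (hl : 0 < l) :
    (∀ x ∈ N, 0 ≤ x → wt ζ (star u * x * u) = ENNReal.ofReal l * wt ζ x) ↔
      ∀ t, r i u * Ψ (expB t) = ph t (Real.log l) • (Ψ (expB t) * r i u) := by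
  -- the two modified weights
  obtain ⟨Γ, hΓ⟩ := Gr_sub (ζ := ζ) Sb hC
  obtain ⟨Γ₁, hΓ₁⟩ := Gr_sub (ζ := fun n => u (ζ n)) Sb hC
  obtain ⟨Γ₂, hΓ₂⟩ := Gr_sub (ζ := fun n => ((Real.sqrt l : ℝ) : ℂ) • ζ n) Sb hC
  obtain ⟨T₁, S₁, hT₁⟩ := exists_GT Γ₁
  obtain ⟨T₂, S₂, hT₂⟩ := exists_GT Γ₂
  have hTΓ : GT (Γ : Set (K × LN H)) T S := by rw [hΓ]; exact hT
  have mΓ : ∀ p : K × LN H, p ∈ Γ ↔ p ∈ Gr N ξ i C ζ := fun p => by
    rw [← hΓ]; rfl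
  have mΓ₁ : ∀ p : K × LN H, p ∈ Γ₁ ↔ p ∈ Gr N ξ i C (fun n => u (ζ n)) := fun p => by
    rw [← hΓ₁]; rfl
  have mΓ₂ : ∀ p : K × LN H, p ∈ Γ₂ ↔
      p ∈ Gr N ξ i C (fun n => ((Real.sqrt l : ℝ) : ℂ) • ζ n) := fun p => by
    rw [← hΓ₂]; rfl
  -- the unitary on `K`
  have hU1 : star (r i u) * r i u = 1 := by
    rw [Pool.Agent.Helper78.BC.Transport.Sub.r_star, Sb.r_mul (star_mem hu), h1, Sb.r_one]
  have hU2 : r i u * star (r i u) = 1 := by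
    rw [Pool.Agent.Helper78.BC.Transport.Sub.r_star, Sb.r_mul hu, h2, Sb.r_one]
  have e1 : T₁ = r i u * T * star (r i u) := by
    refine GT.conj hTΓ hT₁ hU1 hU2 fun v w => ?_
    rw [mΓ, mΓ₁]
    exact NgB_gr_rot Sb ζ hu h1 h2 v w
  have hsq : 0 < Real.sqrt l := Real.sqrt_pos.2 hl
  have e2 : ∀ v, T₂ (T v + (l : ℂ) • (v - T v)) = T v := by
    intro v
    have h3 := GT.scale hTΓ hT₂ hsq (fun v w => by
      rw [mΓ, mΓ₂]
      exact NgB_gr_scale hC ζ hsq v w) v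
    rw [Real.sq_sqrt hl.le] at h3
    exact h3
  have e3 : T₁ = T₂ ↔ ∀ v, T₁ (T v + (l : ℂ) • (v - T v)) = T v := by
    constructor
    · intro h v
      rw [h]
      exact e2 v
    · intro h
      refine sub_eq_zero.1 (NgB_zero hTΓ.T_nonneg hTΓ.T_le hl fun v => ?_)
      rw [sub_apply, h, e2, sub_self]
  -- the functional calculus of the rotated operator
  obtain ⟨Ψ', hΨ', hcj⟩ := hΨ.conj hU1 hU2
  have e4 := hΨ.scale_iff hΨ' hl
  have e5 : (∀ v, T₁ (T v + (l : ℂ) • (v - T v)) = T v) ↔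
      ∀ v, (r i u * ((2 : ℂ) • T) * star (r i u)) (((2 : ℂ) • T) v +
        (l : ℂ) • ((2 : ℂ) • v - ((2 : ℂ) • T) v)) = (2 : ℂ) • ((2 : ℂ) • T) v := by
    have e6 : r i u * ((2 : ℂ) • T) * star (r i u) = (2 : ℂ) • T₁ := by
      rw [e1, mul_smul_comm, smul_mul_assoc]
    rw [e6]
    refine forall_congr' fun v => ?_
    have e7 : ((2 : ℂ) • T) v + (l : ℂ) • ((2 : ℂ) • v - ((2 : ℂ) • T) v) =
        (2 : ℂ) • (T v + (l : ℂ) • (v - T v)) := by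
      rw [smul_apply, ← smul_sub, smul_comm, ← smul_add]
    rw [e7, smul_apply, smul_apply, map_smul]
    constructor
    · intro h
      rw [h]
    · intro h
      exact smul_right_injective K (two_ne_zero) (smul_right_injective K (two_ne_zero) h)
  have e8 : (∀ t, Ψ' (expB t) = ph t (Real.log l) • Ψ (expB t)) ↔
      ∀ t, r i u * Ψ (expB t) = ph t (Real.log l) • (Ψ (expB t) * r i u) := by
    refine forall_congr' fun t => ?_
    rw [hcj]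
    constructor
    · intro h
      have h3 : r i u * Ψ (expB t) = (r i u * Ψ (expB t) * star (r i u)) * r i u := by
        rw [mul_assoc (r i u * Ψ (expB t)), hU1, mul_one]
      rw [h3, h, smul_mul_assoc]
    · intro h
      rw [h, smul_mul_assoc, mul_assoc, hU2, mul_one]
  have e9 : (∀ x ∈ N, 0 ≤ x → wt ζ (star u * x * u) = ENNReal.ofReal l * wt ζ x) ↔
      T₁ = T₂ := by
    rw [← NgB_eq_iff Sb hsep hC (ζ₁ := fun n => u (ζ n))
      (ζ₂ := fun n => ((Real.sqrt l : ℝ) : ℂ) • ζ n) (S₁ := S₁) (S₂ := S₂)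
      (by rw [← hΓ₁]; exact hT₁) (by rw [← hΓ₂]; exact hT₂)]
    refine forall_congr' fun x => forall_congr' fun hx => forall_congr' fun h0 => ?_
    rw [NgB_wt_rot, NgB_wt_scale ζ x hl]
  rw [e9, e3, e5, e4, e8]

end Pool.Agent.Helper23.ED
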