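import Pool.Agent.Helper23.ED.NgA

/-!
# Project ED: the graph of a faithful semifinite weight
-/

open scoped InnerProductSpace Topology ENNReal BoundedContinuousFunction
open ContinuousLinearMap Filter MeasureTheory

set_option linter.unusedVariables false

namespace Pool.Agent.Helper23.ED

open Pool.Agent.Helper23 Pool.Agent.Helper23.RBF
open Pool.Agent.Helper78.BC.Transport (Sub r)

universe u

variable {H : Type u} [NormedAddCommGroup H] [InnerProductSpace ℂ H] [CompleteSpace H]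
variable {K : Type u} [NormedAddCommGroup K] [InnerProductSpace ℂ K] [CompleteSpace K]
variable {N : VonNeumannAlgebra H} {ξ : H} {i : K →L[ℂ] H} {κ : K} {C : H → H} {ζ : ℕ → H}

namespace NgD

lemma inner_ii (Sb : Sub N ξ i κ) (v w : K) : ⟪i v, i w⟫_ℂ = ⟪v, w⟫_ℂ := by
  rw [← adjoint_inner_right, Sb.isom]

lemma star_in (a : H →L[ℂ] H) (x y : H) : ⟪a x, y⟫_ℂ = ⟪x, (star a) y⟫_ℂ := by
  rw [ContinuousLinearMap.star_eq_adjoint, adjoint_inner_right]

lemma eq_zero_of_orth (Sb : Sub N ξ i κ) (k : K) (h : ∀ b ∈ N, ⟪b ξ, i k⟫_ℂ = 0) : i k = 0 := by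
  by_contra hne
  have hpos : 0 < ‖i k‖ := norm_pos_iff.2 hne
  obtain ⟨b, hb, h1⟩ := Sb.cyc k (‖i k‖) hpos
  have h2 : ⟪i k - b ξ, i k⟫_ℂ = ((‖i k‖ ^ 2 : ℝ) : ℂ) := by
    rw [inner_sub_left, h b hb, sub_zero, inner_self_eq_norm_sq_to_K]
    simp
  have h3 : ‖i k‖ ^ 2 ≤ ‖b ξ - i k‖ * ‖i k‖ := by
    have h4 := norm_inner_le_norm (𝕜 := ℂ) (i k - b ξ) (i k)
    rw [h2, norm_sub_rev] at h4
    rw [Complex.norm_real, Real.norm_of_nonneg (by positivity)] at h4
    exact h4
  nlinarith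

lemma summ {Y x : H →L[ℂ] H} (hY : star Y * Y = x) (hx : wt ζ x ≠ ⊤) :
    Summable fun n => ‖Y (ζ n)‖ ^ 2 := by
  have h1 : ∀ n, (⟪ζ n, x (ζ n)⟫_ℂ).re = ‖Y (ζ n)‖ ^ 2 := by
    intro n
    rw [← hY]
    change (⟪ζ n, (star Y) (Y (ζ n))⟫_ℂ).re = _
    rw [← star_in, inner_self_eq_norm_sq_to_K]
    norm_cast
  have h2 : wt ζ x = ∑' n, ENNReal.ofReal (‖Y (ζ n)‖ ^ 2) := by
    rw [wt]
    exact tsum_congr fun n => by rw [h1]
  rw [h2] at hx
  have h3 := ENNReal.summable_toReal hx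
  refine h3.congr fun n => ?_
  exact ENNReal.toReal_ofReal (sq_nonneg _)

end NgD

open NgD in
theorem Gr_dense (Sb : Sub N ξ i κ) (hsep : ∀ a ∈ N, a ξ = 0 → a = 0) (hC : IsConj C)
    (hζ : NSF N ζ) (η : K) (h : ∀ p ∈ Gr N ξ i C ζ, ⟪p.1, η⟫_ℂ = 0) : η = 0 := by
  have key : i η = 0 := by
    refine hζ.semifinite (i η) fun x hx hx0 hfin => ?_
    obtain ⟨Y, hY, hYx⟩ := exists_sqrt_mem N hx hx0
    have hsum := summ hYx hfin
    have h1 : i (adjoint i (Y (i η))) = Y (i η) := Sb.inv Y hY η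
    have h2 : Y (i η) = 0 := by
      rw [← h1]
      refine eq_zero_of_orth Sb _ fun b hb => ?_
      rw [h1]
      have h3 : i (r i (star Y * b) κ) = (star Y) (b ξ) := by
        rw [Sb.i_r (mul_mem (star_mem hY) hb), Sb.vec]
        rfl
      obtain ⟨w, hw⟩ := Gr_right (C := C) (ζ := ζ) Sb hC hb (star_mem hY)
        (by rw [star_star]; exact hsum) h3
      have h4 := h _ hw
      change ⟪r i (star Y * b) κ, η⟫_ℂ = 0 at h4
      rw [← inner_ii Sb, h3, star_in, star_star] at h4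
      exact h4
    rw [← hYx]
    change (star Y) (Y (i η)) = 0
    rw [h2, map_zero]
  rw [← Sb.isom η, key, map_zero]

open NgD in
theorem Gr_zero' (Sb : Sub N ξ i κ) (hsep : ∀ a ∈ N, a ξ = 0 → a = 0) (hC : IsConj C)
    (hζ : NSF N ζ) {v : K} (hv : ((v, 0) : K × LN H) ∈ closure (Gr N ξ i C ζ)) : v = 0 := by
  have hC0 : C 0 = 0 := by
    have := hC.smul 0 0
    simpa using this
  have h1 : ∀ b ∈ N.commutant, ∀ n, ⟪b (ζ n), i v⟫_ℂ = 0 := by
    intro b hb n
    have h2 := Gr_pair Sb hC hv (star_mem hb) n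
    change ⟪C ((0 : LN H) n), (star b) ξ⟫_ℂ = ⟪(star (star b)) (ζ n), i v⟫_ℂ at h2
    rw [star_star] at h2
    rw [← h2]
    have h3 : ((0 : LN H) n) = 0 := rfl
    rw [h3, hC0, inner_zero_left]
  set W : Submodule ℂ H := ⨆ n, orb N.commutant (ζ n) with hW
  set q := W.topologicalClosure.starProjection with hq
  have hqN : q ∈ N := by
    have hsp : IsStarProjection q := isStarProjection_starProjection
    rw [VonNeumannAlgebra.IsStarProjection.mem_iff hsp]
    intro y hy
    rw [hq, Submodule.range_starProjection, Module.End.mem_invtSubmodule]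
    intro x hx
    rw [Submodule.mem_comap]
    have h2 : W ≤ Submodule.comap (y : H →ₗ[ℂ] H) W := by
      refine iSup_le fun n => ?_
      rintro _ ⟨a, ha, rfl⟩
      rw [Submodule.mem_comap]
      exact (le_iSup (fun n => orb N.commutant (ζ n)) n) ⟨y * a, mul_mem hy ha, rfl⟩
    have h3 : (W : Set H) ⊆ y ⁻¹' (W.topologicalClosure : Set H) := fun z hz =>
      Submodule.le_topologicalClosure _ (h2 hz)
    have h4 : closure (W : Set H) ⊆ y ⁻¹' (W.topologicalClosure : Set H) :=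
      closure_minimal h3 ((Submodule.isClosed_topologicalClosure _).preimage y.continuous)
    exact h4 hx
  have hqζ : ∀ n, q (ζ n) = ζ n := by
    intro n
    refine Submodule.starProjection_eq_self_iff.2 (Submodule.le_topologicalClosure _ ?_)
    exact (le_iSup (fun n => orb N.commutant (ζ n)) n) ⟨1, one_mem _, rfl⟩
  have hq1 : (1 - q) ∈ N := sub_mem (one_mem N) hqN
  have hsp : IsStarProjection q := isStarProjection_starProjection
  have h0 : (0 : H →L[ℂ] H) ≤ 1 - q := by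
    have := hsp.one_sub.nonneg
    exact this
  have h5 : wt ζ (1 - q) = 0 := by
    rw [wt, ENNReal.tsum_eq_zero]
    intro n
    rw [sub_apply, one_apply_eq_self, hqζ, sub_self, inner_zero_right]
    simp
  have h6 := hζ.faithful _ hq1 h0 h5
  have h7 : q (i v) = 0 := by
    rw [hq, Submodule.starProjection_apply_eq_zero_iff, Submodule.mem_orthogonal]
    intro u hu
    have hcl : IsClosed {u : H | ⟪u, i v⟫_ℂ = 0} :=
      isClosed_eq (continuous_id.inner continuous_const) continuous_const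
    have h8 : W ≤ (LinearMap.ker ((innerSL ℂ (i v)) : H →ₗ[ℂ] ℂ)) := by
      refine iSup_le fun n => ?_
      rintro _ ⟨b, hb, rfl⟩
      rw [LinearMap.mem_ker]
      change ⟪i v, b (ζ n)⟫_ℂ = 0
      rw [← inner_conj_symm, h1 b hb n, map_zero]
    have h9 : (W : Set H) ⊆ {u : H | ⟪u, i v⟫_ℂ = 0} := by
      intro z hz
      have := h8 hz
      rw [LinearMap.mem_ker] at this
      change ⟪i v, z⟫_ℂ = 0 at this
      change ⟪z, i v⟫_ℂ = 0
      rw [← inner_conj_symm, this, map_zero]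
    exact closure_minimal h9 hcl hu
  have h8 : i v = 0 := by
    have h9 : (1 - q) (i v) = 0 := by rw [h6]; rfl
    rw [sub_apply, one_apply_eq_self, h7, sub_zero] at h9
    exact h9
  rw [← Sb.isom v, h8, map_zero]

end Pool.Agent.Helper23.ED
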