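import Pool.Agent.Helper23.ED.WtF
import Pool.Agent.Helper23.ED.GrD

/-!
# Project ED: the relation between T and elements of the commutant, normal weights
-/

open scoped InnerProductSpace Topology ENNReal BoundedContinuousFunction
open ContinuousLinearMap Filter MeasureTheory

namespace Pool.Agent.Helper23.ED

open Pool.Agent.Helper23 Pool.Agent.Helper23.RBF
open Pool.Agent.Helper78.BC.Transport (Sub r)

universe u

variable {H : Type u} [NormedAddCommGroup H] [InnerProductSpace ℂ H] [CompleteSpace H]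
variable {K : Type u} [NormedAddCommGroup K] [InnerProductSpace ℂ K] [CompleteSpace K]
variable {L : Type u} [NormedAddCommGroup L] [InnerProductSpace ℂ L] [CompleteSpace L]
variable {N : VonNeumannAlgebra H} {ψ : (H →L[ℂ] H) → ℝ≥0∞} {ξ : H} {i : K →L[ℂ] H} {κ : K}
  {Λ : (H →L[ℂ] H) → L} {ρ : (H →L[ℂ] H) → (L →L[ℂ] L)}

open Pool.Agent.Helper78.BC in
private lemma NgF_mem (Sb : Sub N ξ i κ) (hsep : ∀ a ∈ N, a ξ = 0 → a = 0)
    (hψ : IsNSFWeight N ψ) (hG : Gns N ψ Λ ρ) {X : K →L[ℂ] K}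
    (hX : X ∈ (Transport.B N i).commutant) {p : H →L[ℂ] H} (hp : p ∈ N)
    (h1 : i (X κ) = p ξ) {q : K × L} (hq : q ∈ Gp N ψ ξ i Λ) :
    ((X q.1, ρ p q.2) : K × L) ∈ Gp N ψ ξ i Λ := by
  obtain ⟨a, ha, h2, h3⟩ := hq
  refine ⟨a * p, Dm_mul hψ ha hp, ?_, ?_⟩
  · have h4 : q.1 = r i a κ := Sb.i_inj (by rw [h2, Sb.i_r ha.1, Sb.vec])
    have h5 : X (r i a κ) = r i a (X κ) :=
      (commute_apply (Transport.r_mem Sb hsep ha.1) hX κ).symm
    change i (X q.1) = a (p ξ)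
    rw [h4, h5, Sb.i_r ha.1, h1]
  · change ρ p q.2 = Λ (a * p)
    rw [h3, hG.mul p hp a ha]

open Pool.Agent.Helper78.BC in
theorem n_rel' (Sb : Sub N ξ i κ) (hsep : ∀ a ∈ N, a ξ = 0 → a = 0) (hψ : IsNSFWeight N ψ)
    (hG : Gns N ψ Λ ρ) {T : K →L[ℂ] K} {S : K →L[ℂ] L} (hT : GT (Gp N ψ ξ i Λ) T S)
    {X X' : K →L[ℂ] K} (hX : X ∈ (Transport.B N i).commutant)
    (hX' : X' ∈ (Transport.B N i).commutant) {p : H →L[ℂ] H} (hp : p ∈ N)
    (h1 : i (X κ) = p ξ) (h2 : i ((star X') κ) = (star p) ξ) (v : K) :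
    X (T v) - T (X (T v)) = T (X' (v - T v)) := by
  obtain ⟨Γ, hΓ⟩ := Gp_sub Sb hψ hG
  have hT' : GT (Γ : Set (K × L)) T S := by rw [hΓ]; exact hT
  have hmem : ∀ q : K × L, q ∈ Γ → q ∈ Gp N ψ ξ i Λ := fun q hq => by
    rw [← hΓ]
    exact hq
  refine hT'.rel X X' (ρ p) (fun q hq => ?_) (fun q hq => ?_) v
  · rw [hΓ]
    exact subset_closure (NgF_mem Sb hsep hψ hG hX hp h1 (hmem q hq))
  · rw [hΓ, hG.star p hp]
    exact subset_closure
      (NgF_mem Sb hsep hψ hG (star_mem hX') (star_mem hp) h2 (hmem q hq))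

end Pool.Agent.Helper23.ED
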