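import Pool.Agent.Helper23.ED.Defs
import Pool.Agent.Helper78.USlices

/-!
# Project ED: the relative commutant of the explicit unitaries
-/

open scoped InnerProductSpace Topology ENNReal BoundedContinuousFunction
open ContinuousLinearMap Filter MeasureTheory

namespace Pool.Agent.Helper23.ED

open Pool.Agent.Helper23 Pool.Agent.Helper23.RBF
open Pool.Agent.Helper78.BC.Transport (Sub r)

universe u

variable {H : Type*} [NormedAddCommGroup H] [InnerProductSpace ℂ H] [CompleteSpace H]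
variable {M N : VonNeumannAlgebra H} {ξ : H} {E : (H →L[ℂ] H) → (H →L[ℂ] H)}

namespace RkA

/-- commutation with the fields of all elements of `N` -/
lemma comm_fld1 {R : H →L[ℂ] H} {D : H →L[ℝ] H} {Ψ : (ℝ →ᵇ ℂ) →⋆ₐ[ℂ] (H →L[ℂ] H)}
    (hΨ : Modular M ξ R D Ψ)
    {X : L2R H →L[ℂ] L2R H} (hX : X ∈ Rk1 M N Ψ) {a : H →L[ℂ] H} (ha : a ∈ N) :
    fco (U14.fld Ψ a) * X = X * fco (U14.fld Ψ a) := by
  have hadd : ∀ b c : H →L[ℂ] H,
      fco (U14.fld Ψ (b + c)) = fco (U14.fld Ψ b) + fco (U14.fld Ψ c) := by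
    intro b c
    rw [U14.fld_add, U14.fco_add (U14.fld_dec hΨ b) (U14.fld_dec hΨ c)]
  have hsmul : ∀ (c : ℂ) (b : H →L[ℂ] H),
      fco (U14.fld Ψ (c • b)) = c • fco (U14.fld Ψ b) := by
    intro c b
    rw [U14.fld_smul, U14.fco_smul c (U14.fld_dec hΨ b)]
  obtain ⟨u, k, hk, -⟩ := CStarAlgebra.exists_sum_four_unitary (⟨a, ha⟩ : N.toStarSubalgebra)
  have ha' : a = ∑ i, k i • ((u i : N.toStarSubalgebra) : H →L[ℂ] H) := by
    have := congrArg (fun z : N.toStarSubalgebra => (z : H →L[ℂ] H)) hk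
    simpa using this
  have hl : fco (U14.fld Ψ a) =
      ∑ i, k i • fco (U14.fld Ψ ((u i : N.toStarSubalgebra) : H →L[ℂ] H)) := by
    rw [ha', Fin.sum_univ_four, Fin.sum_univ_four, hadd, hadd, hadd, hsmul, hsmul, hsmul, hsmul]
  rw [hl, Finset.sum_mul, Finset.mul_sum]
  refine Finset.sum_congr rfl fun i _ => ?_
  rw [smul_mul_assoc, mul_smul_comm]
  congr 1
  refine hX.2.2 _ (u i : N.toStarSubalgebra).2 ?_ ?_
  · have := Unitary.star_mul_self_of_mem (u i).2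
    exact congrArg (fun z : N.toStarSubalgebra => (z : H →L[ℂ] H)) this
  · have := Unitary.mul_star_self_of_mem (u i).2
    exact congrArg (fun z : N.toStarSubalgebra => (z : H →L[ℂ] H)) this

/-- the slices are shifted by asymptotic eigenoperators -/
theorem shift_all1 (S : Setting M N E ξ) {R : H →L[ℂ] H} {D : H →L[ℝ] H}
    {Ψ : (ℝ →ᵇ ℂ) →⋆ₐ[ℂ] (H →L[ℂ] H)} (hΨ : Modular M ξ R D Ψ)
    (hN : ∀ (t : ℝ), ∀ a ∈ N, Ψ (expB t) * a * Ψ (expB (-t)) ∈ N)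
    {X : L2R H →L[ℂ] L2R H} (hX : X ∈ Rk1 M N Ψ) (f g : L2R ℂ)
    {l : ℝ} {a : ℕ → H →L[ℂ] H} (ha : LamSeq N ξ l a)
    (hconj : ∀ f : L2R ℂ, Tendsto (fun n => ‖fco (U14.fld Ψ (a n)) (ten f ξ) -
      ten (tr ℂ (Real.log l) f) (a n ξ)‖) atTop (𝓝 0)) (η : H) :
    Tendsto (fun n => (a n * slX X f g -
      slX X (tr ℂ (Real.log l) f) (tr ℂ (Real.log l) g) * a n) η) atTop (𝓝 0) := by
  set t := Real.log l with ht
  set D : ℕ → (L2R H →L[ℂ] L2R H) := fun n => fco (U14.fld Ψ (a n)) - tr H t * lift (a n) with hD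
  have h1 := U14.conv_all S hΨ hN ha hconj (X (ten g η))
  have h2 := U14.conv_all S hΨ hN ha hconj (ten g η)
  have h3 : Tendsto (fun n => sl (tr ℂ t f) (X (D n (ten g η)) - D n (X (ten g η)))) atTop
      (𝓝 0) := by
    have h4 := ((X.continuous.tendsto 0).comp h2).sub h1
    rw [map_zero, sub_zero] at h4
    have h5 := ((sl (tr ℂ t f) : L2R H →L[ℂ] H).continuous.tendsto 0).comp h4
    rwa [map_zero] at h5
  refine h3.congr fun n => ?_
  have hc : fco (U14.fld Ψ (a n)) (X (ten g η)) = X (fco (U14.fld Ψ (a n)) (ten g η)) :=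
    congrArg (fun T : L2R H →L[ℂ] L2R H => T (ten g η)) (comm_fld1 hΨ hX (ha.1 n))
  have e1 : X (D n (ten g η)) - D n (X (ten g η)) =
      tr H t (lift (a n) (X (ten g η))) - X (ten (tr ℂ t g) (a n η)) := by
    have e2 : D n (ten g η) = fco (U14.fld Ψ (a n)) (ten g η) - ten (tr ℂ t g) (a n η) := by
      change fco (U14.fld Ψ (a n)) (ten g η) - tr H t (lift (a n) (ten g η)) = _
      rw [lift_ten, tr_ten]
    have e3 : D n (X (ten g η)) = fco (U14.fld Ψ (a n)) (X (ten g η)) -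
      tr H t (lift (a n) (X (ten g η))) := rfl
    rw [e2, e3, map_sub, hc]
    abel
  rw [e1, map_sub, sl_tr, tr_neg_tr, sl_lift]
  rfl

end RkA

theorem Rk1_slX (S : BFlow M N E ξ) {R : H →L[ℂ] H} {D : H →L[ℝ] H}
    {Ψ : (ℝ →ᵇ ℂ) →⋆ₐ[ℂ] (H →L[ℂ] H)} (hΨ : Modular M ξ R D Ψ)
    (hN : ∀ (t : ℝ), ∀ a ∈ N, Ψ (expB t) * a * Ψ (expB (-t)) ∈ N)
    {X : L2R H →L[ℂ] L2R H} (hX : X ∈ Rk1 M N Ψ) (f g : L2R ℂ) :
    slX X f g ∈ Bicent M N ξ ∧ ∀ l : ℝ, 0 < l →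
      btU M N ξ l (slX X f g) = slX X (tr ℂ (Real.log l) f) (tr ℂ (Real.log l) g) := by
  have hsh : ∀ (f g : L2R ℂ) (l : ℝ), 0 < l → ∀ a : ℕ → H →L[ℂ] H, LamSeq N ξ l a → ∀ η : H,
      Tendsto (fun n => (a n * slX X f g -
        slX X (tr ℂ (Real.log l) f) (tr ℂ (Real.log l) g) * a n) η) atTop (𝓝 0) :=
    fun f g l hl a ha η => RkA.shift_all1 S.toSetting hΨ hN hX f g ha
      (fun f => S.toSetting.lamSeq_conj hΨ hl ha f) η
  have hbic : ∀ f g : L2R ℂ, slX X f g ∈ Bicent M N ξ := by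
    intro f g
    refine ⟨slX_mem hX.1 f g, fun a ha η => ?_⟩
    have h1 := (hsh f g 1 one_pos a ha η).neg
    rw [neg_zero, Real.log_one, tr_zero] at h1
    refine h1.congr fun n => ?_
    rw [sub_apply, neg_sub]
    rfl
  refine ⟨hbic f g, fun l hl => ?_⟩
  symm
  exact S.flow_uniq _ (hbic f g) _ (hbic _ _).1 l hl fun a ha => hsh f g l hl a ha ξ

end Pool.Agent.Helper23.ED
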