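import Pool.Agent.Helper23.ED.Defs

/-!
# Project ED: measurable selection by nearest points
-/

open scoped InnerProductSpace Topology ENNReal BoundedContinuousFunction
open ContinuousLinearMap Filter MeasureTheory

namespace Pool.Agent.Helper23.ED

open Pool.Agent.Helper23 Pool.Agent.Helper23.RBF
open Pool.Agent.Helper78.BC.Transport (Sub r)

universe u

variable {H : Type*} [NormedAddCommGroup H] [InnerProductSpace ℂ H] [CompleteSpace H]

/-- bounded families have weak limits along ultrafilters -/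
private theorem SlA_ultra (F : Ultrafilter ℝ) (v : ℝ → H) {c : ℝ} (hv : ∀ s, ‖v s‖ ≤ c) :
    ∃ v₀ : H, ∀ w : H, Tendsto (fun s => ⟪w, v s⟫_ℂ) (F : Filter ℝ) (𝓝 ⟪w, v₀⟫_ℂ) := by
  have hc : 0 ≤ c := (norm_nonneg _).trans (hv 0)
  have hex : ∀ w : H, ∃ l : ℂ, Tendsto (fun s => ⟪v s, w⟫_ℂ) (F : Filter ℝ) (𝓝 l) ∧
      ‖l‖ ≤ c * ‖w‖ := by
    intro w
    have hK : IsCompact (Metric.closedBall (0 : ℂ) (c * ‖w‖)) := isCompact_closedBall _ _
    obtain ⟨l, hl, hFl⟩ := hK.ultrafilter_le_nhds (F.map fun s => ⟪v s, w⟫_ℂ) (by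
      rw [Ultrafilter.coe_map, le_principal_iff, mem_map]
      refine Filter.univ_mem' fun s => ?_
      rw [Set.mem_preimage, mem_closedBall_zero_iff]
      exact (norm_inner_le_norm _ _).trans (mul_le_mul_of_nonneg_right (hv s) (norm_nonneg _)))
    exact ⟨l, hFl, mem_closedBall_zero_iff.1 hl⟩
  choose L hL hLn using hex
  have hadd : ∀ x y, L (x + y) = L x + L y := fun x y =>
    tendsto_nhds_unique (hL (x + y)) (by simpa only [inner_add_right] using (hL x).add (hL y))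
  have hsmul : ∀ (a : ℂ) x, L (a • x) = a * L x := fun a x =>
    tendsto_nhds_unique (hL (a • x)) (by
      simpa only [inner_smul_right] using (hL x).const_mul a)
  let L' : H →L[ℂ] ℂ := LinearMap.mkContinuous
    { toFun := L, map_add' := hadd, map_smul' := by simpa using hsmul } c hLn
  refine ⟨(InnerProductSpace.toDual ℂ H).symm L', fun w => ?_⟩
  have h1 : ⟪(InnerProductSpace.toDual ℂ H).symm L', w⟫_ℂ = L w :=
    InnerProductSpace.toDual_symm_apply
  have h2 : ⟪w, (InnerProductSpace.toDual ℂ H).symm L'⟫_ℂ = (starRingEnd ℂ) (L w) := by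
    rw [← h1, inner_conj_symm]
  rw [h2]
  have h3 : (fun s => ⟪w, v s⟫_ℂ) = fun s => (starRingEnd ℂ) ⟪v s, w⟫_ℂ := by
    funext s; rw [inner_conj_symm]
  rw [h3]
  exact (Complex.continuous_conj.tendsto _).comp (hL w)

/-- nearest points -/
private theorem SlA_near {K : Set H} (hne : K.Nonempty) (hcv : Convex ℝ K) (hcl : IsClosed K)
    (x : H) : ∃ p ∈ K, (∀ v ∈ K, ‖x - p‖ ≤ ‖x - v‖) ∧
      ∀ v ∈ K, (⟪x - p, v - p⟫_ℂ).re ≤ 0 := by
  letI : InnerProductSpace ℝ H := InnerProductSpace.rclikeToReal ℂ H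
  obtain ⟨p, hp, he⟩ := exists_norm_eq_iInf_of_complete_convex hne hcl.isComplete hcv x
  refine ⟨p, hp, fun v hv => ?_, fun v hv => ?_⟩
  · rw [he]
    exact ciInf_le ⟨0, by rintro _ ⟨w, rfl⟩; exact norm_nonneg _⟩ (⟨v, hv⟩ : K)
  · exact (norm_eq_iInf_iff_real_inner_le_zero hcv hp).1 he v hv

theorem exists_sel {C : ℝ → Set H} (hne : ∀ s, (C s).Nonempty) (hcv : ∀ s, Convex ℝ (C s))
    (hcl : ∀ s, IsClosed (C s)) {r : ℝ} (hbd : ∀ s, ∀ v ∈ C s, ‖v‖ ≤ r)
    (hgr : ∀ (F : Ultrafilter ℝ) (s : ℝ), (F : Filter ℝ) ≤ 𝓝 s → ∀ (v : ℝ → H) (v₀ : H),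
      (∀ s', v s' ∈ C s') →
      (∀ w : H, Tendsto (fun s' => ⟪w, v s'⟫_ℂ) (F : Filter ℝ) (𝓝 ⟪w, v₀⟫_ℂ)) → v₀ ∈ C s)
    (η : H) : ∃ p : ℝ → H, (∀ s, p s ∈ C s) ∧ (∀ s, ∀ v ∈ C s, ‖p s - v‖ ≤ ‖η - v‖) ∧
      ∀ w : H, Measurable fun s => ⟪w, p s⟫_ℂ := by
  have hN := fun (s : ℝ) (x : H) => SlA_near (hne s) (hcv s) (hcl s) x
  choose P hPC hPd hPi using hN
  -- measurability of the distance
  have hdm : ∀ x : H, Measurable fun s => ‖x - P s x‖ := by
    intro x
    have hlsc : LowerSemicontinuous fun s => ‖x - P s x‖ := by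
      rw [lowerSemicontinuous_iff_isClosed_preimage]
      intro α
      rw [isClosed_iff_ultrafilter]
      intro s₀ F hF hmem
      obtain ⟨v₀, hv₀⟩ := SlA_ultra F (fun s => P s x) (fun s => hbd s _ (hPC s x))
      have hv₀C : v₀ ∈ C s₀ := hgr F s₀ hF _ v₀ (fun s' => hPC s' x) hv₀
      have h1 : Tendsto (fun s => (⟪x - v₀, x - P s x⟫_ℂ).re) (F : Filter ℝ)
          (𝓝 (⟪x - v₀, x - v₀⟫_ℂ).re) := by
        refine (Complex.continuous_re.tendsto _).comp ?_
        simp_rw [inner_sub_right]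
        exact tendsto_const_nhds.sub (hv₀ _)
      have h2 : ∀ᶠ s in (F : Filter ℝ), (⟪x - v₀, x - P s x⟫_ℂ).re ≤ ‖x - v₀‖ * α := by
        filter_upwards [hmem] with s hs
        refine (Complex.re_le_norm _).trans ((norm_inner_le_norm _ _).trans ?_)
        exact mul_le_mul_of_nonneg_left hs (norm_nonneg _)
      have h3 := le_of_tendsto h1 h2
      have h4 : (⟪x - v₀, x - v₀⟫_ℂ).re = ‖x - v₀‖ * ‖x - v₀‖ := by
        have := inner_self_eq_norm_mul_norm (𝕜 := ℂ) (x - v₀)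
        simpa using this
      rw [h4] at h3
      have h5 : ‖x - v₀‖ ≤ α := by
        rcases (norm_nonneg (x - v₀)).eq_or_lt with h0 | h0
        · obtain ⟨s, hs⟩ := (F.neBot.nonempty_of_mem hmem)
          rw [← h0]
          exact (norm_nonneg _).trans hs
        · exact le_of_mul_le_mul_left h3 h0
      exact (hPd s₀ x v₀ hv₀C).trans h5
    exact hlsc.measurable
  refine ⟨fun s => P s η, fun s => hPC s η, fun s v hv => ?_, ?_⟩
  · have h1 := hPi s η v hv
    have h2 : ‖η - v‖ ^ 2 = ‖η - P s η‖ ^ 2 - 2 * (⟪η - P s η, v - P s η⟫_ℂ).re +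
        ‖v - P s η‖ ^ 2 := by
      have := norm_sub_sq (𝕜 := ℂ) (η - P s η) (v - P s η)
      rw [sub_sub_sub_cancel_right] at this
      exact this
    have h3 : ‖P s η - v‖ ^ 2 ≤ ‖η - v‖ ^ 2 := by
      rw [norm_sub_rev (P s η) v, h2]
      nlinarith [sq_nonneg ‖η - P s η‖]
    exact le_of_sq_le_sq h3 (norm_nonneg _)
  · -- contraction
    have hcon : ∀ s x y, ‖P s x - P s y‖ ≤ ‖x - y‖ := by
      intro s x y
      have h1 := hPi s x (P s y) (hPC s y)
      have h2 := hPi s y (P s x) (hPC s x)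
      have h3 : (⟪x - y, P s x - P s y⟫_ℂ).re =
          ‖P s x - P s y‖ ^ 2 - (⟪x - P s x, P s y - P s x⟫_ℂ).re -
            (⟪y - P s y, P s x - P s y⟫_ℂ).re := by
        have h4 : x - y = (P s x - P s y) + (x - P s x) - (y - P s y) := by abel
        rw [h4, inner_sub_left, inner_add_left, Complex.sub_re, Complex.add_re]
        have h5 : (⟪P s x - P s y, P s x - P s y⟫_ℂ).re = ‖P s x - P s y‖ ^ 2 := by
          have := inner_self_eq_norm_sq (𝕜 := ℂ) (P s x - P s y)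
          simpa using this
        have h6 : ⟪x - P s x, P s y - P s x⟫_ℂ = -⟪x - P s x, P s x - P s y⟫_ℂ := by
          rw [← inner_neg_right, neg_sub]
        rw [h5, h6, Complex.neg_re]
        ring
      have h4 : (⟪x - y, P s x - P s y⟫_ℂ).re ≤ ‖x - y‖ * ‖P s x - P s y‖ :=
        (Complex.re_le_norm _).trans (norm_inner_le_norm _ _)
      by_contra hlt
      rw [not_le] at hlt
      nlinarith [norm_nonneg (x - y), norm_nonneg (P s x - P s y)]
    -- the derivative of the square of the distance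
    have hup : ∀ s x h, ‖x + h - P s (x + h)‖ ^ 2 ≤
        ‖x - P s x‖ ^ 2 + 2 * (⟪h, x - P s x⟫_ℂ).re + ‖h‖ ^ 2 := by
      intro s x h
      have h1 := hPd s (x + h) (P s x) (hPC s x)
      have h2 : ‖x + h - P s x‖ ^ 2 = ‖h‖ ^ 2 + 2 * (⟪h, x - P s x⟫_ℂ).re +
          ‖x - P s x‖ ^ 2 := by
        have := norm_add_sq (𝕜 := ℂ) h (x - P s x)
        rw [show h + (x - P s x) = x + h - P s x by abel] at this
        exact this
      have h3 : ‖x + h - P s (x + h)‖ ^ 2 ≤ ‖x + h - P s x‖ ^ 2 :=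
        pow_le_pow_left₀ (norm_nonneg _) h1 2
      linarith
    have hlow : ∀ s x h, ‖x - P s x‖ ^ 2 + 2 * (⟪h, x - P s x⟫_ℂ).re - ‖h‖ ^ 2 ≤
        ‖x + h - P s (x + h)‖ ^ 2 := by
      intro s x h
      have h1 := hup s (x + h) (-h)
      rw [add_neg_cancel_right, inner_neg_left, Complex.neg_re, norm_neg] at h1
      have h2 : (⟪h, x + h - P s (x + h)⟫_ℂ).re = (⟪h, x - P s x⟫_ℂ).re + ‖h‖ ^ 2 +
          (⟪h, P s x - P s (x + h)⟫_ℂ).re := by
        have h3 : x + h - P s (x + h) = (x - P s x) + h + (P s x - P s (x + h)) := by abel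
        rw [h3, inner_add_right, inner_add_right, Complex.add_re, Complex.add_re]
        have h5 : (⟪h, h⟫_ℂ).re = ‖h‖ ^ 2 := by
          have := inner_self_eq_norm_sq (𝕜 := ℂ) h
          simpa using this
        rw [h5]
      have h4 : -(‖h‖ ^ 2) ≤ (⟪h, P s x - P s (x + h)⟫_ℂ).re := by
        have h5 : |(⟪h, P s x - P s (x + h)⟫_ℂ).re| ≤ ‖h‖ * ‖P s x - P s (x + h)‖ :=
          (Complex.abs_re_le_norm _).trans (norm_inner_le_norm _ _)
        have h6 : ‖P s x - P s (x + h)‖ ≤ ‖h‖ := by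
          have := hcon s x (x + h)
          rwa [sub_add_cancel_left, norm_neg] at this
        have h7 := (abs_le.1 h5).1
        nlinarith [norm_nonneg h]
      linarith
    have hre : ∀ w : H, Measurable fun s => (⟪w, P s η⟫_ℂ).re := by
      intro w
      let q : ℕ → ℝ → ℝ := fun n s => ((n : ℝ) + 1) *
        (‖η + (((n : ℝ) + 1)⁻¹ : ℂ) • w - P s (η + (((n : ℝ) + 1)⁻¹ : ℂ) • w)‖ ^ 2 -
          ‖η - P s η‖ ^ 2) / 2
      have hq : ∀ n, Measurable (q n) := fun n =>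
        ((((hdm _).pow_const 2).sub ((hdm _).pow_const 2)).const_mul _).div_const _
      have hlim : ∀ s, Tendsto (fun n => q n s) atTop (𝓝 (⟪w, η - P s η⟫_ℂ).re) := by
        intro s
        rw [tendsto_iff_norm_sub_tendsto_zero]
        have hb : ∀ n : ℕ, ‖q n s - (⟪w, η - P s η⟫_ℂ).re‖ ≤ ‖w‖ ^ 2 / 2 * (1 / ((n : ℝ) + 1)) := by
          intro n
          have hn : (0 : ℝ) < (n : ℝ) + 1 := by positivity
          have h1 := hup s η ((((n : ℝ) + 1)⁻¹ : ℂ) • w)
          have h2 := hlow s η ((((n : ℝ) + 1)⁻¹ : ℂ) • w)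
          have h3 : (⟪(((n : ℝ) + 1)⁻¹ : ℂ) • w, η - P s η⟫_ℂ).re =
              ((n : ℝ) + 1)⁻¹ * (⟪w, η - P s η⟫_ℂ).re := by
            rw [inner_smul_left]
            have h0 : (((n : ℝ) + 1)⁻¹ : ℂ) = ((((n : ℝ) + 1)⁻¹ : ℝ) : ℂ) := by push_cast; rfl
            rw [h0, Complex.conj_ofReal, Complex.re_ofReal_mul]
          have h4 : ‖(((n : ℝ) + 1)⁻¹ : ℂ) • w‖ = ((n : ℝ) + 1)⁻¹ * ‖w‖ := by
            rw [norm_smul]
            congr 1
            have : (((n : ℝ) + 1)⁻¹ : ℂ) = ((((n : ℝ) + 1)⁻¹ : ℝ) : ℂ) := by push_cast; rfl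
            rw [this, Complex.norm_real, Real.norm_eq_abs, abs_of_pos (inv_pos.2 hn)]
          rw [h3, h4] at h1 h2
          rw [Real.norm_eq_abs, abs_le]
          set D := ‖η + (((n : ℝ) + 1)⁻¹ : ℂ) • w - P s (η + (((n : ℝ) + 1)⁻¹ : ℂ) • w)‖ ^ 2
          set E := ‖η - P s η‖ ^ 2
          set I := (⟪w, η - P s η⟫_ℂ).re
          have hq' : q n s = ((n : ℝ) + 1) * (D - E) / 2 := rfl
          rw [hq']
          have e1 : ((n : ℝ) + 1) * (((n : ℝ) + 1)⁻¹) = 1 := mul_inv_cancel₀ hn.ne'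
          have e2 : ((n : ℝ) + 1) * ((((n : ℝ) + 1)⁻¹ * ‖w‖) ^ 2) = ‖w‖ ^ 2 * (1 / ((n : ℝ) + 1)) := by
            field_simp
          have u1 : ((n : ℝ) + 1) * (D - E) ≤ 2 * I + ‖w‖ ^ 2 * (1 / ((n : ℝ) + 1)) := by
            have : ((n : ℝ) + 1) * (D - E) ≤ ((n : ℝ) + 1) *
                (2 * (((n : ℝ) + 1)⁻¹ * I) + (((n : ℝ) + 1)⁻¹ * ‖w‖) ^ 2) :=
              mul_le_mul_of_nonneg_left (by linarith) hn.le
            refine this.trans (le_of_eq ?_)
            rw [mul_add, e2]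
            linear_combination (2 * I) * e1
          have u2 : 2 * I - ‖w‖ ^ 2 * (1 / ((n : ℝ) + 1)) ≤ ((n : ℝ) + 1) * (D - E) := by
            have : ((n : ℝ) + 1) * (2 * (((n : ℝ) + 1)⁻¹ * I) - (((n : ℝ) + 1)⁻¹ * ‖w‖) ^ 2) ≤
                ((n : ℝ) + 1) * (D - E) :=
              mul_le_mul_of_nonneg_left (by linarith) hn.le
            refine le_trans (le_of_eq ?_) this
            rw [mul_sub, e2]
            linear_combination (-2 * I) * e1
          constructor <;> linarith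
        refine squeeze_zero (fun n => norm_nonneg _) hb ?_
        have := (tendsto_one_div_add_atTop_nhds_zero_nat (𝕜 := ℝ)).const_mul (‖w‖ ^ 2 / 2)
        simpa using this
      have hm : Measurable fun s => (⟪w, η - P s η⟫_ℂ).re :=
        measurable_of_tendsto_metrizable hq (tendsto_pi_nhds.2 hlim)
      have he : (fun s => (⟪w, P s η⟫_ℂ).re) =
          fun s => (⟪w, η⟫_ℂ).re - (⟪w, η - P s η⟫_ℂ).re := by
        funext s
        rw [inner_sub_right, Complex.sub_re]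
        ring
      rw [he]
      exact measurable_const.sub hm
    intro w
    refine measurable_of_re_im (hre w) ?_
    have him : (fun s => RCLike.im ⟪w, P s η⟫_ℂ) = fun s => (⟪Complex.I • w, P s η⟫_ℂ).re := by
      funext s
      rw [inner_smul_left, Complex.conj_I]
      simp
    rw [him]
    exact hre _

end Pool.Agent.Helper23.ED
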