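import Pool.Agent.Helper23.ED.SlA

/-!
# Project ED: nearest intertwiners
-/

open scoped InnerProductSpace Topology ENNReal BoundedContinuousFunction
open ContinuousLinearMap Filter MeasureTheory

namespace Pool.Agent.Helper23.ED

open Pool.Agent.Helper23 Pool.Agent.Helper23.RBF
open Pool.Agent.Helper78.BC.Transport (Sub r)

universe u

open TopologicalSpace

variable {H : Type*} [NormedAddCommGroup H] [InnerProductSpace ℂ H] [CompleteSpace H]
variable {N : VonNeumannAlgebra H} {ξ : H} {W : ℝ → H →L[ℂ] H}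

/-- weak operator ultralimits of contractions -/
private lemma slB_ulim {ι : Type*} (F : Ultrafilter ι) {x : ι → H →L[ℂ] H}
    (hx : ∀ i, ‖x i‖ ≤ 1) : ∃ X : H →L[ℂ] H, ‖X‖ ≤ 1 ∧
      ∀ w v, Tendsto (fun i => ⟪w, x i v⟫_ℂ) (F : Filter ι) (𝓝 ⟪w, X v⟫_ℂ) := by
  have hb : ∀ w v i, ‖⟪w, x i v⟫_ℂ‖ ≤ ‖w‖ * ‖v‖ := by
    intro w v i
    refine (norm_inner_le_norm _ _).trans ?_
    refine mul_le_mul_of_nonneg_left ?_ (norm_nonneg _)
    refine ((x i).le_opNorm v).trans ?_
    have := mul_le_mul_of_nonneg_right (hx i) (norm_nonneg v)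
    rwa [one_mul] at this
  have hL : ∀ w v, ∃ l : ℂ, ‖l‖ ≤ ‖w‖ * ‖v‖ ∧
      Tendsto (fun i => ⟪w, x i v⟫_ℂ) (F : Filter ι) (𝓝 l) := by
    intro w v
    obtain ⟨l, hl, hl'⟩ := (isCompact_closedBall (0 : ℂ) (‖w‖ * ‖v‖)).ultrafilter_le_nhds
      (F.map fun i => ⟪w, x i v⟫_ℂ) (by
        rw [le_principal_iff]
        refine Filter.mem_map.2 (Filter.univ_mem' fun i => ?_)
        rw [Set.mem_preimage, mem_closedBall_zero_iff]
        exact hb w v i)
    exact ⟨l, mem_closedBall_zero_iff.1 hl, hl'⟩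
  choose L hLn hLt using hL
  have huniq : ∀ w v l, Tendsto (fun i => ⟪w, x i v⟫_ℂ) (F : Filter ι) (𝓝 l) → L w v = l :=
    fun w v l h => tendsto_nhds_unique (hLt w v) h
  set B : H →ₗ⋆[ℂ] H →ₗ[ℂ] ℂ := LinearMap.mk₂'ₛₗ (starRingEnd ℂ) (RingHom.id ℂ) L
    (by
      intro w w' v
      refine huniq _ _ _ ?_
      have := (hLt w v).add (hLt w' v)
      refine this.congr fun i => ?_
      rw [inner_add_left])
    (by
      intro c w v
      refine huniq _ _ _ ?_
      have := (hLt w v).const_mul ((starRingEnd ℂ) c)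
      refine this.congr fun i => ?_
      rw [inner_smul_left])
    (by
      intro w v v'
      refine huniq _ _ _ ?_
      have := (hLt w v).add (hLt w v')
      refine this.congr fun i => ?_
      rw [map_add, inner_add_right])
    (by
      intro c w v
      refine huniq _ _ _ ?_
      have := (hLt w v).const_mul c
      refine this.congr fun i => ?_
      rw [map_smul, inner_smul_right]) with hB
  have hB' : ∀ w v, B w v = L w v := fun w v => rfl
  set B' : H →L⋆[ℂ] H →L[ℂ] ℂ := B.mkContinuous₂ 1 (fun w v => by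
    rw [hB', one_mul]; exact hLn w v) with hB'd
  have hBa : ∀ w v, B' w v = L w v := fun w v => rfl
  set Y : H →L[ℂ] H := InnerProductSpace.continuousLinearMapOfBilin B' with hY
  have hYa : ∀ w v, ⟪Y w, v⟫_ℂ = L w v := fun w v => by
    rw [hY, InnerProductSpace.continuousLinearMapOfBilin_apply, hBa]
  have hYn : ‖Y‖ ≤ 1 := by
    refine ContinuousLinearMap.opNorm_le_bound _ zero_le_one fun w => ?_
    have h1 : ‖⟪Y w, Y w⟫_ℂ‖ ≤ ‖w‖ * ‖Y w‖ := by
      rw [hYa]; exact hLn _ _
    rw [inner_self_eq_norm_sq_to_K, norm_pow, RCLike.norm_ofReal, abs_norm, sq] at h1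
    rw [one_mul]
    by_cases h0 : ‖Y w‖ = 0
    · rw [h0]; exact norm_nonneg _
    · have hpos : 0 < ‖Y w‖ := lt_of_le_of_ne (norm_nonneg _) (Ne.symm h0)
      exact le_of_mul_le_mul_right h1 hpos
  refine ⟨ContinuousLinearMap.adjoint Y, ?_, ?_⟩
  · rw [LinearIsometryEquiv.norm_map]
    exact hYn
  · intro w v
    rw [ContinuousLinearMap.adjoint_inner_right, hYa]
    exact hLt w v

/-- closedness of the field of intertwiners -/
private lemma slB_closed {ι : Type*} (F : Ultrafilter ι) {σ : ι → ℝ} {s : ℝ}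
    (hσ : Tendsto σ (F : Filter ι) (𝓝 s)) {x : ι → H →L[ℂ] H} (hx : ∀ i, x i ∈ CS N W (σ i)) :
    ∃ X ∈ CS N W s, ∀ w v, Tendsto (fun i => ⟪w, x i v⟫_ℂ) (F : Filter ι) (𝓝 ⟪w, X v⟫_ℂ) := by
  obtain ⟨X, hX1, hX⟩ := slB_ulim F (fun i => (hx i).2.1)
  refine ⟨X, ⟨?_, hX1, ?_⟩, hX⟩
  · rw [mem_iff_commutes]
    intro g hg
    ext v
    refine ext_inner_left ℂ fun w => ?_
    change ⟪w, g (X v)⟫_ℂ = ⟪w, X (g v)⟫_ℂ
    have h1 := hX ((ContinuousLinearMap.adjoint g) w) v
    have h2 := hX w (g v)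
    rw [ContinuousLinearMap.adjoint_inner_left] at h1
    refine tendsto_nhds_unique h1 (h2.congr fun i => ?_)
    rw [ContinuousLinearMap.adjoint_inner_left]
    have := mem_iff_commutes.1 (hx i).1 g hg
    have h3 := congrArg (fun T : H →L[ℂ] H => T v) this
    exact congrArg (fun z => ⟪w, z⟫_ℂ) h3.symm
  · intro t
    ext v
    refine ext_inner_left ℂ fun w => ?_
    change ⟪w, X (W t v)⟫_ℂ = ⟪w, ph t s • (W t (X v))⟫_ℂ
    rw [inner_smul_right]
    have h1 := hX w (W t v)
    have h2 := hX ((ContinuousLinearMap.adjoint (W t)) w) v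
    rw [ContinuousLinearMap.adjoint_inner_left] at h2
    have h3 : Tendsto (fun i => ph t (σ i)) (F : Filter ι) (𝓝 (ph t s)) := by
      have hc : Continuous fun c : ℝ => ph t c := by
        unfold ph
        fun_prop
      exact (hc.tendsto s).comp hσ
    refine tendsto_nhds_unique h1 ((h3.mul h2).congr fun i => ?_)
    rw [ContinuousLinearMap.adjoint_inner_left]
    have h4 := congrArg (fun T : H →L[ℂ] H => T v) ((hx i).2.2 t)
    have h5 : x i (W t v) = ph t (σ i) • W t (x i v) := h4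
    rw [h5, inner_smul_right]

private lemma slB_zero_mem (s : ℝ) : (0 : H →L[ℂ] H) ∈ CS N W s := by
  refine ⟨zero_mem N, ?_, fun t => ?_⟩
  · rw [norm_zero]; exact zero_le_one
  · rw [zero_mul, mul_zero, smul_zero]

omit [CompleteSpace H] in
/-- countability of a Hilbert basis -/
private lemma slB_countable [SeparableSpace H] {ι : Type*} (b : HilbertBasis ι ℂ H) :
    Countable ι := by
  refine Pairwise.countable_of_isOpen_disjoint
    (s := fun i : ι => Metric.ball (b i : H) (1 / 2)) ?_ (fun i => Metric.isOpen_ball)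
    (fun i => ⟨b i, Metric.mem_ball_self (by norm_num)⟩)
  intro i j hij
  refine Set.disjoint_left.2 fun x hx hy => ?_
  rw [Metric.mem_ball] at hx hy
  have h1 : dist (b i : H) (b j) < 1 := by
    calc dist (b i : H) (b j) ≤ dist (b i : H) x + dist x (b j) := dist_triangle _ _ _
      _ = dist x (b i : H) + dist x (b j) := by rw [dist_comm]
      _ < 1 := by linarith
  have h2 : ‖(b i : H) - b j‖ ^ 2 = 2 := by
    have h4 := @norm_sub_sq ℂ H _ _ _ (b i) (b j)
    rw [b.orthonormal.2 hij, b.orthonormal.1 i, b.orthonormal.1 j] at h4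
    rw [h4]
    simp
    norm_num
  rw [dist_eq_norm] at h1
  nlinarith [norm_nonneg ((b i : H) - b j)]

/-- weakly measurable fields of contractions are decomposable -/
private lemma slB_dec [SeparableSpace H] {x : ℝ → H →L[ℂ] H} (hb : ∀ s, ‖x s‖ ≤ 1)
    (hm : ∀ w v, Measurable fun s => ⟪w, x s v⟫_ℂ) : Dec x := by
  obtain ⟨ι, b, -⟩ := exists_hilbertBasis ℂ H
  have hι : Countable ι := slB_countable b
  refine ⟨fun F hF => ?_, 1, zero_le_one, hb⟩
  obtain ⟨F', hF', hFF'⟩ := hF
  have key : StronglyMeasurable fun s => x s (F' s) := by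
    have h1 : ∀ w, Measurable fun s => ⟪w, x s (F' s)⟫_ℂ := by
      intro w
      have h2 : ∀ s, Tendsto (fun T : Finset ι => ∑ i ∈ T, ⟪w, x s (b i)⟫_ℂ * ⟪b i, F' s⟫_ℂ)
          atTop (𝓝 ⟪w, x s (F' s)⟫_ℂ) := by
        intro s
        have h3 := b.hasSum_inner_mul_inner ((ContinuousLinearMap.adjoint (x s)) w) (F' s)
        rw [ContinuousLinearMap.adjoint_inner_left] at h3
        refine Tendsto.congr (fun T => ?_) h3
        refine Finset.sum_congr rfl fun i _ => ?_
        change ⟪(ContinuousLinearMap.adjoint (x s)) w, b i⟫_ℂ * ⟪b i, F' s⟫_ℂ = _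
        rw [ContinuousLinearMap.adjoint_inner_left]
      refine measurable_of_tendsto_metrizable' atTop (fun T => ?_) (tendsto_pi_nhds.2 h2)
      refine Finset.measurable_fun_sum _ fun i _ => ?_
      refine (hm w (b i)).mul ?_
      have h4 : StronglyMeasurable fun s => ⟪b i, F' s⟫_ℂ :=
        (continuous_const.inner continuous_id : Continuous fun z : H => ⟪b i, z⟫_ℂ).comp_stronglyMeasurable hF'
      exact h4.measurable
    have h5 : ∀ s, Tendsto (fun T : Finset ι => ∑ i ∈ T, ⟪b i, x s (F' s)⟫_ℂ • (b i : H))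
        atTop (𝓝 (x s (F' s))) := by
      intro s
      have h3 := b.hasSum_repr (x s (F' s))
      refine Tendsto.congr (fun T => ?_) h3
      refine Finset.sum_congr rfl fun i _ => ?_
      change b.repr (x s (F' s)) i • b i = _
      rw [b.repr_apply_apply]
    refine stronglyMeasurable_of_tendsto atTop (fun T => ?_) (tendsto_pi_nhds.2 h5)
    refine Finset.stronglyMeasurable_fun_sum _ fun i _ => ?_
    exact (h1 (b i)).stronglyMeasurable.smul_const _
  refine ⟨_, key, ?_⟩
  filter_upwards [hFF'] with s hs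
  rw [hs]

theorem exists_near [SeparableSpace H] (hW : UG W) (hd : Dense (orb N.commutant ξ : Set H))
    (η : H) : ∃ x : ℝ → H →L[ℂ] H, (∀ s, x s ∈ CS N W s) ∧
      (∀ s, ∀ y ∈ CS N W s, ‖x s ξ - y ξ‖ ≤ ‖η - y ξ‖) ∧ Dec x ∧ Dec (fun s => star (x s)) := by
  obtain ⟨p, hp, hp', hpm⟩ := exists_sel (C := fun s => {v | ∃ x ∈ CS N W s, x ξ = v})
    (fun s => ⟨_, 0, slB_zero_mem s, rfl⟩)
    (by
      intro s
      rintro _ ⟨x, hx, rfl⟩ _ ⟨y, hy, rfl⟩ a c ha hc hac
      refine ⟨(a : ℂ) • x + (c : ℂ) • y, ⟨?_, ?_, ?_⟩, rfl⟩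
      · exact add_mem (smul_mem' _ hx.1) (smul_mem' _ hy.1)
      · refine (norm_add_le _ _).trans ?_
        rw [norm_smul, norm_smul, Complex.norm_real, Complex.norm_real, Real.norm_of_nonneg ha,
          Real.norm_of_nonneg hc]
        have h1 := mul_le_mul_of_nonneg_left hx.2.1 ha
        have h2 := mul_le_mul_of_nonneg_left hy.2.1 hc
        linarith
      · intro t
        rw [add_mul, mul_add, smul_mul_assoc, smul_mul_assoc, hx.2.2, hy.2.2, smul_add,
          mul_smul_comm, mul_smul_comm, smul_comm (a : ℂ), smul_comm (c : ℂ)])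
    (by
      intro s
      refine IsSeqClosed.isClosed ?_
      intro v v₀ hv hv0
      choose x hx hxv using hv
      obtain ⟨X, hX, hXt⟩ := slB_closed (hyperfilter ℕ) (σ := fun _ => s)
        tendsto_const_nhds hx
      refine ⟨X, hX, ?_⟩
      refine ext_inner_left ℂ fun w => ?_
      refine tendsto_nhds_unique (hXt w ξ) ?_
      have h1 : Tendsto (fun n => ⟪w, v n⟫_ℂ) ((hyperfilter ℕ : Ultrafilter ℕ) : Filter ℕ)
          (𝓝 ⟪w, v₀⟫_ℂ) := by
        refine Tendsto.mono_left ?_ Nat.hyperfilter_le_atTop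
        exact (tendsto_const_nhds (x := w)).inner hv0
      refine h1.congr fun n => ?_
      rw [hxv])
    (r := ‖ξ‖)
    (by
      rintro s _ ⟨x, hx, rfl⟩
      refine (x.le_opNorm ξ).trans ?_
      have := mul_le_mul_of_nonneg_right hx.2.1 (norm_nonneg ξ)
      rwa [one_mul] at this)
    (by
      intro F s hF v v₀ hv hv0
      choose x hx hxv using hv
      obtain ⟨X, hX, hXt⟩ := slB_closed F (σ := fun s' => s') hF hx
      refine ⟨X, hX, ?_⟩
      refine ext_inner_left ℂ fun w => ?_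
      refine tendsto_nhds_unique (hXt w ξ) ?_
      refine (hv0 w).congr fun n => ?_
      rw [hxv])
    η
  choose x hx hxp using hp
  have hm : ∀ w v, Measurable fun s => ⟪w, x s v⟫_ℂ := by
    intro w v
    obtain ⟨u, hu, hut⟩ := mem_closure_iff_seq_limit.1 (hd v)
    have h1 : ∀ n, Measurable fun s => ⟪w, x s (u n)⟫_ℂ := by
      intro n
      obtain ⟨b, hb, hbu⟩ := hu n
      have h2 : (fun s => ⟪w, x s (u n)⟫_ℂ) =
          fun s => ⟪(ContinuousLinearMap.adjoint b) w, p s⟫_ℂ := by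
        funext s
        rw [ContinuousLinearMap.adjoint_inner_left, ← hxp s, ← hbu, commute_apply (hx s).1 hb]
      rw [h2]
      exact hpm _
    refine measurable_of_tendsto_metrizable h1 (tendsto_pi_nhds.2 fun s => ?_)
    have h3 : Tendsto (fun n => x s (u n)) atTop (𝓝 (x s v)) :=
      ((x s).continuous.tendsto v).comp hut
    exact (tendsto_const_nhds (x := w)).inner h3
  refine ⟨x, hx, ?_, slB_dec (fun s => (hx s).2.1) hm, slB_dec (fun s => ?_) ?_⟩
  · intro s y hy
    rw [hxp s]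
    exact hp' s _ ⟨y, hy, rfl⟩
  · rw [norm_star]
    exact (hx s).2.1
  · intro w v
    have h1 : (fun s => ⟪w, (star (x s)) v⟫_ℂ) = fun s => (starRingEnd ℂ) ⟪v, x s w⟫_ℂ := by
      funext s
      rw [ContinuousLinearMap.star_eq_adjoint, ContinuousLinearMap.adjoint_inner_right,
        inner_conj_symm]
    rw [h1]
    exact Complex.continuous_conj.measurable.comp (hm v w)

end Pool.Agent.Helper23.ED
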