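import Pool.Agent.Helper23.ED.SlB

/-!
# Project ED: measurable families of intertwiners
-/

open scoped InnerProductSpace Topology ENNReal BoundedContinuousFunction
open ContinuousLinearMap Filter MeasureTheory

namespace Pool.Agent.Helper23.ED

open Pool.Agent.Helper23 Pool.Agent.Helper23.RBF
open Pool.Agent.Helper78.BC.Transport (Sub r)

universe u

open TopologicalSpace

variable {H : Type*} [NormedAddCommGroup H] [InnerProductSpace ℂ H] [CompleteSpace H]
variable {N : VonNeumannAlgebra H} {ξ : H} {W : ℝ → H →L[ℂ] H}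

namespace SlC

theorem bm_ems (a : ℝ) : BM (ems a) := by
  refine ⟨?_, 1, zero_le_one, fun s => ?_⟩
  · have : Continuous (ems a) := by
      unfold ems ph
      fun_prop
    exact this.measurable
  · unfold ems ph
    rw [Complex.norm_exp_ofReal_mul_I]

theorem dec_star {T : ℝ → H →L[ℂ] H} (h : Dec T) (h' : Dec (fun s => star (T s))) :
    star (dec T) = dec (fun s => star (T s)) := by
  symm
  rw [ContinuousLinearMap.star_eq_adjoint (dec T), ContinuousLinearMap.eq_adjoint_iff]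
  intro x y
  refine dec_adj h h' (fun s x y => ?_) x y
  rw [ContinuousLinearMap.star_eq_adjoint, ContinuousLinearMap.adjoint_inner_left]

theorem norm_le_one {u : H →L[ℂ] H} (hu : star u * u = 1) : ‖u‖ ≤ 1 := by
  refine ContinuousLinearMap.opNorm_le_bound _ zero_le_one fun v => ?_
  have h1 : ‖u v‖ ^ 2 = ‖v‖ ^ 2 := by
    have h2 : ⟪u v, u v⟫_ℂ = ⟪v, v⟫_ℂ := by
      rw [← ContinuousLinearMap.adjoint_inner_right, ← ContinuousLinearMap.star_eq_adjoint]
      congr 1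
      exact congrArg (fun T : H →L[ℂ] H => T v) hu
    rw [inner_self_eq_norm_sq_to_K, inner_self_eq_norm_sq_to_K] at h2
    exact_mod_cast h2
  rw [one_mul]
  exact (sq_eq_sq₀ (norm_nonneg _) (norm_nonneg _)).1 h1 |>.le

/-- the nearest intertwiners to a dense sequence approximate every intertwiner -/
theorem approx (hd : Dense (orb N.commutant ξ : Set H)) {η : ℕ → H} (hη : DenseRange η)
    {x : ℕ → H →L[ℂ] H} (hxN : ∀ j, x j ∈ N) (hx1 : ∀ j, ‖x j‖ ≤ 1) {u : H →L[ℂ] H} (huN : u ∈ N)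
    (hu1 : ‖u‖ ≤ 1) (hnear : ∀ j, ‖x j ξ - u ξ‖ ≤ ‖η j - u ξ‖) (v : H) {ε : ℝ} (hε : 0 < ε) :
    ∃ j, ‖x j v - u v‖ < ε := by
  obtain ⟨w, hw, hwv⟩ := Metric.dense_iff.1 hd v (ε / 4) (by positivity)
  obtain ⟨b, hb, rfl⟩ := hwv
  rw [Metric.mem_ball, dist_eq_norm] at hw
  have hpos : 0 < ε / (2 * (‖b‖ + 1)) := by positivity
  obtain ⟨j, hj⟩ := hη.exists_dist_lt (u ξ) hpos
  rw [dist_comm, dist_eq_norm] at hj
  refine ⟨j, ?_⟩
  have e1 : x j v - u v = b (x j ξ - u ξ) - x j (b ξ - v) + u (b ξ - v) := by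
    rw [map_sub, map_sub, map_sub, commute_apply (hxN j) hb, commute_apply huN hb]
    abel
  have h1 : ‖b (x j ξ - u ξ)‖ ≤ ‖b‖ * (ε / (2 * (‖b‖ + 1))) :=
    (b.le_opNorm _).trans (mul_le_mul_of_nonneg_left ((hnear j).trans hj.le) (norm_nonneg _))
  have h2 : ‖b‖ * (ε / (2 * (‖b‖ + 1))) ≤ ε / 2 := by
    have h3 : ‖b‖ * (ε / (2 * (‖b‖ + 1))) = (‖b‖ / (‖b‖ + 1)) * (ε / 2) := by
      field_simp
    rw [h3]
    have h4 : ‖b‖ / (‖b‖ + 1) ≤ 1 := by
      rw [div_le_one (by positivity)]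
      linarith
    calc (‖b‖ / (‖b‖ + 1)) * (ε / 2) ≤ 1 * (ε / 2) :=
          mul_le_mul_of_nonneg_right h4 (by positivity)
      _ = ε / 2 := one_mul _
  have h5 : ‖x j (b ξ - v)‖ ≤ ‖b ξ - v‖ := by
    simpa using (x j).le_of_opNorm_le (hx1 j) (b ξ - v)
  have h6 : ‖u (b ξ - v)‖ ≤ ‖b ξ - v‖ := by
    simpa using u.le_of_opNorm_le hu1 (b ξ - v)
  rw [e1]
  calc ‖b (x j ξ - u ξ) - x j (b ξ - v) + u (b ξ - v)‖
      ≤ ‖b (x j ξ - u ξ)‖ + ‖x j (b ξ - v)‖ + ‖u (b ξ - v)‖ :=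
        (norm_add_le _ _).trans (add_le_add_left (norm_sub_le _ _) _)
    _ < ε := by linarith

end SlC

theorem exists_fam [SeparableSpace H] (hW : UG W) (hd : Dense (orb N.commutant ξ : Set H))
    (hs : ∀ s, ∃ u ∈ N, star u * u = 1 ∧ u * star u = 1 ∧
      ∀ t, u * W t = ph t s • (W t * u)) :
    ∃ Z : ℕ → (L2R H →L[ℂ] L2R H), (∀ j, Z j ∈ amp N) ∧ (∀ j, ‖Z j‖ ≤ 1) ∧
      (∀ j a, Z j * lift (W a) = UV W a * Z j) ∧
      (∀ F, (∀ j, Z j F = 0) → F = 0) ∧ ∀ F, (∀ j, (star (Z j)) F = 0) → F = 0 := by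
  have : Nonempty H := ⟨0⟩
  let η : ℕ → H := denseSeq H
  have hη : DenseRange η := denseRange_denseSeq H
  choose x hxC hnear hDec hDec' using fun j => exists_near hW hd (η j)
  have happ : ∀ s, ∃ u : H →L[ℂ] H, star u * u = 1 ∧ u * star u = 1 ∧ ∀ v : H, ∀ ε : ℝ, 0 < ε →
      ∃ j, ‖x j s v - u v‖ < ε := by
    intro s
    obtain ⟨u, huN, h1, h2, h3⟩ := hs s
    have hu1 := SlC.norm_le_one h1
    exact ⟨u, h1, h2, fun v ε hε => SlC.approx hd hη (fun j => (hxC j s).1)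
      (fun j => (hxC j s).2.1) huN hu1 (fun j => hnear j s u ⟨huN, hu1, h3⟩) v hε⟩
  refine ⟨fun j => dec (x j), fun j => dec_mem_amp (hDec j) fun s => (hxC j s).1,
    fun j => dec_norm zero_le_one fun s => (hxC j s).2.1, fun j a => ?_, fun F hF => ?_,
    fun F hF => ?_⟩
  · ext F : 1
    ext1
    change dec (x j) (lift (W a) F) =ᵐ[volume] lift (W a) (mulOp H (ems a) (dec (x j) F))
    filter_upwards [dec_coe (hDec j) (lift (W a) F), lift_coe (W a) F,
      lift_coe (W a) (mulOp H (ems a) (dec (x j) F)), mulOp_coe (SlC.bm_ems a) (dec (x j) F),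
      dec_coe (hDec j) F] with s h1 h2 h3 h4 h5
    rw [h1, h2, h3, h4, h5, map_smul]
    exact congrArg (fun T : H →L[ℂ] H => T (F s)) ((hxC j s).2.2 a)
  · have h1 : ∀ᵐ s, ∀ j, x j s (F s) = 0 := by
      rw [ae_all_iff]
      intro j
      have h2 : dec (x j) F =ᵐ[volume] 0 := by
        have h3 : dec (x j) F = 0 := hF j
        rw [h3]
        exact Lp.coeFn_zero _ _ _
      filter_upwards [dec_coe (hDec j) F, h2] with s h4 h5
      rw [← h4, h5]
      rfl
    ext1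
    refine EventuallyEq.trans ?_ (Lp.coeFn_zero _ _ _).symm
    filter_upwards [h1] with s h2
    obtain ⟨u, hu, _, happ⟩ := happ s
    have h3 : u (F s) = 0 := by
      by_contra hne
      obtain ⟨j, hj⟩ := happ (F s) ‖u (F s)‖ (norm_pos_iff.2 hne)
      rw [h2 j, zero_sub, norm_neg] at hj
      exact lt_irrefl _ hj
    have h4 : (star u * u) (F s) = F s := by rw [hu]; rfl
    rw [← h4]
    change star u (u (F s)) = 0
    rw [h3, map_zero]
  · have h1 : ∀ᵐ s, ∀ j, star (x j s) (F s) = 0 := by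
      rw [ae_all_iff]
      intro j
      have h2 : dec (fun s => star (x j s)) F =ᵐ[volume] 0 := by
        have h3 : star (dec (x j)) F = 0 := hF j
        rw [SlC.dec_star (hDec j) (hDec' j)] at h3
        rw [h3]
        exact Lp.coeFn_zero _ _ _
      filter_upwards [dec_coe (hDec' j) F, h2] with s h4 h5
      rw [← h4, h5]
      rfl
    ext1
    refine EventuallyEq.trans ?_ (Lp.coeFn_zero _ _ _).symm
    filter_upwards [h1] with s h2
    obtain ⟨u, _, hu, happ⟩ := happ s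
    have h3 : ∀ v : H, ⟪F s, u v⟫_ℂ = 0 := by
      intro v
      by_contra hne
      have hpos : 0 < ‖⟪F s, u v⟫_ℂ‖ := norm_pos_iff.2 hne
      obtain ⟨j, hj⟩ := happ v (‖⟪F s, u v⟫_ℂ‖ / (‖F s‖ + 1)) (by positivity)
      have h4 : ⟪F s, x j s v⟫_ℂ = 0 := by
        rw [← ContinuousLinearMap.adjoint_inner_left, ← ContinuousLinearMap.star_eq_adjoint, h2 j,
          inner_zero_left]
      have h5 : ‖⟪F s, u v⟫_ℂ‖ ≤ ‖F s‖ * ‖x j s v - u v‖ := by
        have h6 : ⟪F s, u v⟫_ℂ = -⟪F s, x j s v - u v⟫_ℂ := by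
          rw [inner_sub_right, h4]
          ring
        rw [h6, norm_neg]
        exact norm_inner_le_norm _ _
      have h7 : ‖F s‖ * ‖x j s v - u v‖ ≤ ‖F s‖ * (‖⟪F s, u v⟫_ℂ‖ / (‖F s‖ + 1)) :=
        mul_le_mul_of_nonneg_left hj.le (norm_nonneg _)
      have h8 : ‖F s‖ * (‖⟪F s, u v⟫_ℂ‖ / (‖F s‖ + 1)) < ‖⟪F s, u v⟫_ℂ‖ := by
        rw [← mul_div_assoc, div_lt_iff₀ (by positivity)]
        nlinarith [norm_nonneg (F s)]
      linarith
    have h9 : ⟪F s, F s⟫_ℂ = 0 := by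
      have h10 : (u * star u) (F s) = F s := by rw [hu]; rfl
      have h11 := h3 (star u (F s))
      have h12 : u (star u (F s)) = F s := h10
      rwa [h12] at h11
    exact inner_self_eq_zero.1 h9

end Pool.Agent.Helper23.ED
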