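import Pool.Agent.Helper23.ED.Defs

/-!
# Project ED: smeared operators
-/

open scoped InnerProductSpace Topology ENNReal BoundedContinuousFunction
open ContinuousLinearMap Filter MeasureTheory

namespace Pool.Agent.Helper23.ED

open Pool.Agent.Helper23 Pool.Agent.Helper23.RBF
open Pool.Agent.Helper78.BC.Transport (Sub r)

universe u

variable {K : Type*} [NormedAddCommGroup K] [InnerProductSpace ℂ K] [CompleteSpace K]
variable {U : ℝ → K →L[ℂ] K} {f : ℝ → ℂ}

namespace SmA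

lemma inner_U (hU : UG U) (t : ℝ) (v w : K) : ⟪U t v, w⟫_ℂ = ⟪v, U (-t) w⟫_ℂ := by
  rw [← hU.star t, ContinuousLinearMap.star_eq_adjoint, ContinuousLinearMap.adjoint_inner_right]

lemma inner_U' (hU : UG U) (t : ℝ) (v w : K) : ⟪v, U t w⟫_ℂ = ⟪U (-t) v, w⟫_ℂ := by
  rw [inner_U hU, neg_neg]

lemma neg_U (hU : UG U) (t : ℝ) (v : K) : U (-t) (U t v) = v := by
  have h := hU.add (-t) t
  rw [neg_add_cancel, hU.zero] at h
  exact (congrArg (fun T : K →L[ℂ] K => T v) h).symm

lemma norm_U (hU : UG U) (t : ℝ) (v : K) : ‖U t v‖ = ‖v‖ := by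
  have h : ‖U t v‖ ^ 2 = ‖v‖ ^ 2 := by
    have h1 : ⟪U t v, U t v⟫_ℂ = ⟪v, v⟫_ℂ := by
      rw [inner_U hU, neg_U hU]
    rw [inner_self_eq_norm_sq_to_K, inner_self_eq_norm_sq_to_K] at h1
    exact_mod_cast h1
  exact (sq_eq_sq₀ (norm_nonneg _) (norm_nonneg _)).1 h

lemma cont_conj (hU : UG U) (Y : K →L[ℂ] K) (w : K) :
    Continuous fun t => U t (Y (U (-t) w)) := by
  have hg : Continuous fun t => Y (U (-t) w) := Y.continuous.comp ((hU.cont w).comp continuous_neg)
  rw [continuous_iff_continuousAt]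
  intro t0
  have h1 : Tendsto (fun t => U t (Y (U (-t) w) - Y (U (-t0) w))) (𝓝 t0) (𝓝 0) := by
    rw [tendsto_zero_iff_norm_tendsto_zero]
    have h2 : Tendsto (fun t => ‖Y (U (-t) w) - Y (U (-t0) w)‖) (𝓝 t0) (𝓝 0) := by
      have := (hg.tendsto t0).sub_const (Y (U (-t0) w))
      rw [sub_self] at this
      simpa using this.norm
    refine h2.congr fun t => ?_
    rw [norm_U hU]
  have h3 := h1.add ((hU.cont (Y (U (-t0) w))).tendsto t0)
  rw [zero_add] at h3
  refine h3.congr fun t => ?_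
  rw [map_sub, sub_add_cancel]

lemma norm_conj (hU : UG U) (Y : K →L[ℂ] K) (t : ℝ) (w : K) :
    ‖U t (Y (U (-t) w))‖ ≤ ‖Y‖ * ‖w‖ := by
  rw [norm_U hU]
  exact (Y.le_opNorm _).trans (by rw [norm_U hU])

lemma integrable_conj (hU : UG U) (hf : Integrable f) (Y : K →L[ℂ] K) (w : K) :
    Integrable fun t => f t • U t (Y (U (-t) w)) :=
  hf.smul_bdd (‖Y‖ * ‖w‖) (cont_conj hU Y w).aestronglyMeasurable
    (Eventually.of_forall fun t => norm_conj hU Y t w)

lemma norm_int (hU : UG U) (hf : Integrable f) (Y : K →L[ℂ] K) (w : K) :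
    ‖∫ t, f t • U t (Y (U (-t) w))‖ ≤ (∫ t, ‖f t‖) * ‖Y‖ * ‖w‖ := by
  calc ‖∫ t, f t • U t (Y (U (-t) w))‖ ≤ ∫ t, ‖f t‖ * (‖Y‖ * ‖w‖) := by
        refine norm_integral_le_of_norm_le (hf.norm.mul_const _) (Eventually.of_forall fun t => ?_)
        rw [norm_smul]
        exact mul_le_mul_of_nonneg_left (norm_conj hU Y t w) (norm_nonneg _)
    _ = (∫ t, ‖f t‖) * ‖Y‖ * ‖w‖ := by
        rw [integral_mul_const, mul_assoc]

lemma inner_int (hU : UG U) (hf : Integrable f) (Y : K →L[ℂ] K) (v w : K) :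
    ⟪v, ∫ t, f t • U t (Y (U (-t) w))⟫_ℂ = ∫ t, f t * ⟪v, U t (Y (U (-t) w))⟫_ℂ := by
  rw [← integral_inner (integrable_conj hU hf Y w)]
  refine integral_congr_ae (Eventually.of_forall fun t => ?_)
  simp only [inner_smul_right]

lemma exists_smear (hU : UG U) (hf : Integrable f) (Y : K →L[ℂ] K) :
    ∃ T : K →L[ℂ] K, ∀ v w, ⟪v, T w⟫_ℂ = ∫ t, f t * ⟪v, U t (Y (U (-t) w))⟫_ℂ := by
  refine ⟨LinearMap.mkContinuous
    { toFun := fun w => ∫ t, f t • U t (Y (U (-t) w))
      map_add' := fun w w' => ?_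
      map_smul' := fun c w => ?_ } ((∫ t, ‖f t‖) * ‖Y‖) fun w => ?_, fun v w => ?_⟩
  · rw [← integral_add (integrable_conj hU hf Y w) (integrable_conj hU hf Y w')]
    refine integral_congr_ae (Eventually.of_forall fun t => ?_)
    simp only [map_add, smul_add]
  · simp only [RingHom.id_apply]
    rw [← integral_smul]
    refine integral_congr_ae (Eventually.of_forall fun t => ?_)
    simp only [map_smul]
    rw [smul_comm]
  · exact norm_int hU hf Y w
  · exact inner_int hU hf Y v w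

end SmA

theorem UG.norm (hU : UG U) (t : ℝ) (v : K) : ‖U t v‖ = ‖v‖ := SmA.norm_U hU t v

theorem smear_spec (hU : UG U) (hf : Integrable f) (Y : K →L[ℂ] K) (v w : K) :
    ⟪v, smear U f Y w⟫_ℂ = ∫ t, f t * ⟪v, U t (Y (U (-t) w))⟫_ℂ := by
  have h := SmA.exists_smear hU hf Y
  rw [smear, dif_pos h]
  exact h.choose_spec v w

lemma SmA.smear_apply (hU : UG U) (hf : Integrable f) (Y : K →L[ℂ] K) (w : K) :
    smear U f Y w = ∫ t, f t • U t (Y (U (-t) w)) := by
  refine ext_inner_left ℂ fun v => ?_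
  rw [smear_spec hU hf, SmA.inner_int hU hf]

theorem smear_norm (hU : UG U) (hf : Integrable f) (Y : K →L[ℂ] K) :
    ‖smear U f Y‖ ≤ (∫ t, ‖f t‖) * ‖Y‖ := by
  refine ContinuousLinearMap.opNorm_le_bound _
    (mul_nonneg (integral_nonneg fun t => norm_nonneg _) (norm_nonneg _)) fun w => ?_
  rw [SmA.smear_apply hU hf]
  exact SmA.norm_int hU hf Y w

theorem smear_mem (hU : UG U) (hf : Integrable f) {A : VonNeumannAlgebra K} {Y : K →L[ℂ] K}
    (hY : ∀ t, U t * Y * U (-t) ∈ A) : smear U f Y ∈ A := by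
  rw [mem_iff_commutes]
  intro g hg
  refine ContinuousLinearMap.ext fun w => ext_inner_left ℂ fun v => ?_
  change ⟪v, g (smear U f Y w)⟫_ℂ = ⟪v, smear U f Y (g w)⟫_ℂ
  rw [smear_spec hU hf, ← ContinuousLinearMap.adjoint_inner_left, smear_spec hU hf]
  refine integral_congr_ae (Eventually.of_forall fun t => ?_)
  simp only
  rw [ContinuousLinearMap.adjoint_inner_left]
  have h1 : g (U t (Y (U (-t) w))) = U t (Y (U (-t) (g w))) :=
    congrArg (fun T : K →L[ℂ] K => T w) (mem_iff_commutes.1 (hY t) g hg)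
  rw [h1]

theorem smear_star (hU : UG U) (hf : Integrable f) (Y : K →L[ℂ] K) :
    star (smear U f Y) = smear U (fun t => (starRingEnd ℂ) (f t)) (star Y) := by
  have hf' : Integrable fun t => (starRingEnd ℂ) (f t) :=
    Complex.conjCLE.toContinuousLinearMap.integrable_comp hf
  refine ContinuousLinearMap.ext fun w => ext_inner_left ℂ fun v => ?_
  rw [smear_spec hU hf', ContinuousLinearMap.star_eq_adjoint,
    ContinuousLinearMap.adjoint_inner_right, ← inner_conj_symm, smear_spec hU hf, ← integral_conj]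
  refine integral_congr_ae (Eventually.of_forall fun t => ?_)
  simp only [map_mul]
  rw [inner_conj_symm, SmA.inner_U hU, SmA.inner_U' hU t v, ContinuousLinearMap.star_eq_adjoint,
    ContinuousLinearMap.adjoint_inner_right]

end Pool.Agent.Helper23.ED
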