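import Pool.Agent.Helper23.ED.SmA

/-!
# Project ED: Gaussian smearing
-/

open scoped InnerProductSpace Topology ENNReal BoundedContinuousFunction
open ContinuousLinearMap Filter MeasureTheory

namespace Pool.Agent.Helper23.ED

open Pool.Agent.Helper23 Pool.Agent.Helper23.RBF
open Pool.Agent.Helper78.BC.Transport (Sub r)

universe u

variable {K : Type*} [NormedAddCommGroup K] [InnerProductSpace ℂ K] [CompleteSpace K]
variable {U : ℝ → K →L[ℂ] K}

namespace SmB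

lemma norm_gau (m : ℝ) (z : ℂ) (t : ℝ) :
    ‖gau m z t‖ = Real.exp (m * z.im ^ 2) * Real.exp (-m * (t - z.re) ^ 2) := by
  rw [gau, Complex.norm_exp, ← Real.exp_add]
  congr 1
  have : (-(m : ℂ) * ((t : ℂ) - z) ^ 2).re = -m * ((t - z.re) ^ 2 - z.im ^ 2) := by
    simp only [sq, Complex.neg_re, Complex.mul_re, Complex.sub_re, Complex.ofReal_re,
      Complex.ofReal_im, Complex.neg_im, Complex.sub_im]
    ring
  rw [this]
  ring

lemma cont_gau (m : ℝ) (z : ℂ) : Continuous (gau m z) := by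
  unfold gau
  fun_prop

lemma int_gauss {m : ℝ} (hm : 0 < m) (x : ℝ) :
    Integrable fun t : ℝ => Real.exp (-m * (t - x) ^ 2) :=
  (integrable_exp_neg_mul_sq hm).comp_sub_right x

/-- the derivative of the Gaussian in `z` -/
noncomputable def dgau (m : ℝ) (z : ℂ) (t : ℝ) : ℂ := 2 * (m : ℂ) * ((t : ℂ) - z) * gau m z t

lemma cont_dgau (m : ℝ) (z : ℂ) : Continuous (dgau m z) := by
  unfold dgau
  have := cont_gau m z
  fun_prop

lemma gau_add (m : ℝ) (z h : ℂ) (t : ℝ) :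
    gau m (z + h) t = gau m z t * Complex.exp (2 * (m : ℂ) * ((t : ℂ) - z) * h - (m : ℂ) * h ^ 2) := by
  rw [gau, gau, ← Complex.exp_add]
  congr 1
  ring

/-- the constant in the second order estimate -/
noncomputable def cst (m y : ℝ) : ℝ :=
  (m + 2 * m ^ 2) * Real.exp (m * y ^ 2 + (m + 1) * (2 * |y| + 1) + 2 * (m + 1) ^ 2 / m)

lemma bound_aux {m : ℝ} (hm : 0 < m) (z : ℂ) (t : ℝ) {q : ℝ} (hq : q = 2 * ‖(t : ℂ) - z‖ + 1) :
    ‖gau m z t‖ * (m + m ^ 2 * q ^ 2 * Real.exp (m * q))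
      ≤ cst m z.im * Real.exp (-(m / 2) * (t - z.re) ^ 2) := by
  have hn : ‖(t : ℂ) - z‖ ≤ |t - z.re| + |z.im| := by
    have := Complex.norm_le_abs_re_add_abs_im ((t : ℂ) - z)
    simpa using this
  have hq1 : 1 ≤ q := by have := norm_nonneg ((t : ℂ) - z); linarith
  have hq2 : q ≤ 2 * |t - z.re| + (2 * |z.im| + 1) := by linarith
  have hqq : q ^ 2 ≤ 2 * Real.exp q := by
    have := Real.quadratic_le_exp_of_nonneg (x := q) (by linarith)
    nlinarith
  have h1 : m + m ^ 2 * q ^ 2 * Real.exp (m * q) ≤ (m + 2 * m ^ 2) * Real.exp ((m + 1) * q) := by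
    have e1 : (1 : ℝ) ≤ Real.exp ((m + 1) * q) := Real.one_le_exp (by positivity)
    have e2 : Real.exp ((m + 1) * q) = Real.exp (m * q) * Real.exp q := by
      rw [← Real.exp_add]; congr 1; ring
    have e3 : m ^ 2 * q ^ 2 * Real.exp (m * q) ≤ m ^ 2 * (2 * Real.exp q) * Real.exp (m * q) := by
      gcongr
    have e4 : m ≤ m * Real.exp ((m + 1) * q) := by nlinarith
    have e5 : m ^ 2 * (2 * Real.exp q) * Real.exp (m * q) = 2 * m ^ 2 * Real.exp ((m + 1) * q) := by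
      rw [e2]; ring
    linarith
  have h2 : Real.exp ((m + 1) * q)
      ≤ Real.exp ((m + 1) * (2 * |t - z.re| + (2 * |z.im| + 1))) := by
    apply Real.exp_le_exp.mpr
    have : 0 < m + 1 := by linarith
    nlinarith
  have h3 : ‖gau m z t‖ * (m + m ^ 2 * q ^ 2 * Real.exp (m * q))
      ≤ (Real.exp (m * z.im ^ 2) * Real.exp (-m * (t - z.re) ^ 2)) *
        ((m + 2 * m ^ 2) * Real.exp ((m + 1) * (2 * |t - z.re| + (2 * |z.im| + 1)))) := by
    rw [norm_gau]
    have : (m + 2 * m ^ 2) * Real.exp ((m + 1) * q) ≤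
        (m + 2 * m ^ 2) * Real.exp ((m + 1) * (2 * |t - z.re| + (2 * |z.im| + 1))) := by
      gcongr
    have h4 := h1.trans this
    gcongr
  refine h3.trans ?_
  have key : m * z.im ^ 2 + -m * (t - z.re) ^ 2 + (m + 1) * (2 * |t - z.re| + (2 * |z.im| + 1))
      ≤ (m * z.im ^ 2 + (m + 1) * (2 * |z.im| + 1) + 2 * (m + 1) ^ 2 / m)
        + -(m / 2) * (t - z.re) ^ 2 := by
    have hs : (t - z.re) ^ 2 = |t - z.re| ^ 2 := (sq_abs _).symm
    rw [hs]
    generalize |t - z.re| = s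
    have : 0 ≤ (m / 2) * (s - 2 * (m + 1) / m) ^ 2 := by positivity
    have e : (m / 2) * (s - 2 * (m + 1) / m) ^ 2
        = (m / 2) * s ^ 2 - 2 * (m + 1) * s + 2 * (m + 1) ^ 2 / m := by
      field_simp
      ring
    rw [e] at this
    nlinarith
  calc (Real.exp (m * z.im ^ 2) * Real.exp (-m * (t - z.re) ^ 2)) *
        ((m + 2 * m ^ 2) * Real.exp ((m + 1) * (2 * |t - z.re| + (2 * |z.im| + 1))))
      = (m + 2 * m ^ 2) * Real.exp (m * z.im ^ 2 + -m * (t - z.re) ^ 2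
          + (m + 1) * (2 * |t - z.re| + (2 * |z.im| + 1))) := by
        rw [Real.exp_add, Real.exp_add]; ring
    _ ≤ (m + 2 * m ^ 2) * Real.exp ((m * z.im ^ 2 + (m + 1) * (2 * |z.im| + 1)
          + 2 * (m + 1) ^ 2 / m) + -(m / 2) * (t - z.re) ^ 2) := by
        gcongr
    _ = cst m z.im * Real.exp (-(m / 2) * (t - z.re) ^ 2) := by
        rw [cst, Real.exp_add]; ring

lemma norm_exp_sub (u : ℂ) : ‖Complex.exp u - 1 - u‖ ≤ ‖u‖ ^ 2 * Real.exp ‖u‖ := by
  have := Complex.norm_exp_sub_sum_le_norm_mul_exp u 2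
  simpa [Finset.sum_range_succ, sub_sub] using this

lemma taylor {m : ℝ} (hm : 0 < m) (z h : ℂ) (hh : ‖h‖ ≤ 1) (t : ℝ) :
    ‖gau m (z + h) t - gau m z t - h * dgau m z t‖
      ≤ ‖h‖ ^ 2 * (cst m z.im * Real.exp (-(m / 2) * (t - z.re) ^ 2)) := by
  set q : ℝ := 2 * ‖(t : ℂ) - z‖ + 1 with hq
  set w : ℂ := 2 * (m : ℂ) * ((t : ℂ) - z) * h - (m : ℂ) * h ^ 2 with hw
  have hid : gau m (z + h) t - gau m z t - h * dgau m z t
      = gau m z t * ((Complex.exp w - 1 - w) - (m : ℂ) * h ^ 2) := by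
    rw [gau_add, dgau, hw]
    ring
  have hwn : ‖w‖ ≤ ‖h‖ * (m * q) := by
    calc ‖w‖ ≤ ‖2 * (m : ℂ) * ((t : ℂ) - z) * h‖ + ‖(m : ℂ) * h ^ 2‖ := norm_sub_le _ _
      _ = 2 * m * ‖(t : ℂ) - z‖ * ‖h‖ + m * ‖h‖ ^ 2 := by
          simp [abs_of_pos hm]
      _ ≤ ‖h‖ * (m * q) := by
          rw [hq]
          have : m * ‖h‖ ^ 2 ≤ m * ‖h‖ := by
            have := norm_nonneg h
            nlinarith [mul_nonneg this (sub_nonneg.mpr hh)]
          nlinarith
  have hq0 : 0 ≤ q := by positivity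
  have hwm : ‖w‖ ≤ m * q := by
    refine hwn.trans ?_
    have : 0 ≤ m * q := by positivity
    nlinarith
  have h1 : ‖Complex.exp w - 1 - w‖ ≤ ‖h‖ ^ 2 * (m ^ 2 * q ^ 2 * Real.exp (m * q)) := by
    calc ‖Complex.exp w - 1 - w‖ ≤ ‖w‖ ^ 2 * Real.exp ‖w‖ := norm_exp_sub w
      _ ≤ (‖h‖ * (m * q)) ^ 2 * Real.exp (m * q) := by
          gcongr
      _ = ‖h‖ ^ 2 * (m ^ 2 * q ^ 2 * Real.exp (m * q)) := by ring
  have h2 : ‖(Complex.exp w - 1 - w) - (m : ℂ) * h ^ 2‖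
      ≤ ‖h‖ ^ 2 * (m + m ^ 2 * q ^ 2 * Real.exp (m * q)) := by
    calc ‖(Complex.exp w - 1 - w) - (m : ℂ) * h ^ 2‖
        ≤ ‖Complex.exp w - 1 - w‖ + ‖(m : ℂ) * h ^ 2‖ := norm_sub_le _ _
      _ ≤ ‖h‖ ^ 2 * (m ^ 2 * q ^ 2 * Real.exp (m * q)) + m * ‖h‖ ^ 2 := by
          gcongr
          simp [abs_of_pos hm]
      _ = ‖h‖ ^ 2 * (m + m ^ 2 * q ^ 2 * Real.exp (m * q)) := by ring
  rw [hid, norm_mul]
  calc ‖gau m z t‖ * ‖(Complex.exp w - 1 - w) - (m : ℂ) * h ^ 2‖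
      ≤ ‖gau m z t‖ * (‖h‖ ^ 2 * (m + m ^ 2 * q ^ 2 * Real.exp (m * q))) := by gcongr
    _ = ‖h‖ ^ 2 * (‖gau m z t‖ * (m + m ^ 2 * q ^ 2 * Real.exp (m * q))) := by ring
    _ ≤ ‖h‖ ^ 2 * (cst m z.im * Real.exp (-(m / 2) * (t - z.re) ^ 2)) :=
        mul_le_mul_of_nonneg_left (bound_aux hm z t hq) (by positivity)

lemma int_dgau {m : ℝ} (hm : 0 < m) (z : ℂ) : Integrable (dgau m z) := by
  have hi : Integrable fun t : ℝ => 4 * (m + 1) * (cst m z.im / m * Real.exp (-(m / 2) * (t - z.re) ^ 2)) := by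
    exact (((int_gauss (half_pos hm) z.re).const_mul _).const_mul _)
  refine hi.mono' (cont_dgau m z).aestronglyMeasurable (Eventually.of_forall fun t => ?_)
  have h1 := bound_aux hm z t rfl
  set q : ℝ := 2 * ‖(t : ℂ) - z‖ + 1 with hq
  have hq1 : 1 ≤ q := by have := norm_nonneg ((t : ℂ) - z); linarith
  have hg := norm_nonneg (gau m z t)
  have he : 1 ≤ Real.exp (m * q) := Real.one_le_exp (by positivity)
  have h2 : ‖dgau m z t‖ ≤ m * q * ‖gau m z t‖ := by
    rw [dgau, norm_mul, norm_mul, norm_mul]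
    have : ‖(2 : ℂ)‖ * ‖(m : ℂ)‖ * ‖(t : ℂ) - z‖ ≤ m * q := by
      simp only [Complex.norm_real, Real.norm_eq_abs, abs_of_pos hm, Complex.norm_ofNat]
      rw [hq]
      nlinarith
    exact mul_le_mul_of_nonneg_right this hg
  have h3 : m * (m * q * ‖gau m z t‖) ≤ ‖gau m z t‖ * (m + m ^ 2 * q ^ 2 * Real.exp (m * q)) := by
    have : m ^ 2 * q ≤ m + m ^ 2 * q ^ 2 * Real.exp (m * q) := by
      have a1 : q ≤ q ^ 2 := by nlinarith
      have a2 : q ^ 2 ≤ q ^ 2 * Real.exp (m * q) := by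
        have : 0 ≤ q ^ 2 := by positivity
        nlinarith
      have a3 : m ^ 2 * q ≤ m ^ 2 * (q ^ 2 * Real.exp (m * q)) := by
        gcongr
        exact a1.trans a2
      nlinarith
    calc m * (m * q * ‖gau m z t‖) = ‖gau m z t‖ * (m ^ 2 * q) := by ring
      _ ≤ _ := by gcongr
  have h4 := h3.trans h1
  have h5 : m * q * ‖gau m z t‖ ≤ cst m z.im / m * Real.exp (-(m / 2) * (t - z.re) ^ 2) := by
    rw [div_mul_eq_mul_div, le_div_iff₀ hm]
    linarith
  have h6 : 0 ≤ cst m z.im / m * Real.exp (-(m / 2) * (t - z.re) ^ 2) := by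
    unfold cst
    positivity
  calc ‖dgau m z t‖ ≤ m * q * ‖gau m z t‖ := h2
    _ ≤ 1 * (cst m z.im / m * Real.exp (-(m / 2) * (t - z.re) ^ 2)) := by rw [one_mul]; exact h5
    _ ≤ _ := by
      apply mul_le_mul_of_nonneg_right _ h6
      nlinarith

end SmB

open SmB

theorem gau_int {m : ℝ} (hm : 0 < m) (z : ℂ) : Integrable (gau m z) := by
  have hi : Integrable fun t : ℝ => Real.exp (m * z.im ^ 2) * Real.exp (-m * (t - z.re) ^ 2) :=
    (int_gauss hm z.re).const_mul _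
  refine hi.mono' (cont_gau m z).aestronglyMeasurable (Eventually.of_forall fun t => ?_)
  rw [norm_gau]

theorem gau_norm {m : ℝ} (hm : 0 < m) (z : ℂ) :
    ∫ t, ‖gau m z t‖ = Real.sqrt (Real.pi / m) * Real.exp (m * z.im ^ 2) := by
  simp_rw [norm_gau]
  rw [integral_const_mul, integral_sub_right_eq_self (fun t : ℝ => Real.exp (-m * t ^ 2)) z.re,
    integral_gaussian, mul_comm]

theorem gau_conj (m : ℝ) (z : ℂ) (t : ℝ) :
    (starRingEnd ℂ) (gau m z t) = gau m ((starRingEnd ℂ) z) t := by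
  rw [gau, gau, ← Complex.exp_conj]
  simp

namespace SmB

lemma mat_eq (hU : UG U) (Y : K →L[ℂ] K) (v w : K) (t : ℝ) :
    ⟪v, U t (Y (U (-t) w))⟫_ℂ = ⟪U (-t) v, Y (U (-t) w)⟫_ℂ := by
  rw [← hU.star t, ContinuousLinearMap.star_eq_adjoint, ContinuousLinearMap.adjoint_inner_left]

lemma int_mat (hU : UG U) {f : ℝ → ℂ} (hf : Integrable f) (Y : K →L[ℂ] K) (v w : K) :
    Integrable fun t => f t * ⟪v, U t (Y (U (-t) w))⟫_ℂ := by
  have hc : Continuous fun t : ℝ => ⟪v, U t (Y (U (-t) w))⟫_ℂ := by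
    simp_rw [mat_eq hU]
    have h1 : Continuous fun t : ℝ => U (-t) v := (hU.cont v).comp continuous_neg
    have h2 : Continuous fun t : ℝ => U (-t) w := (hU.cont w).comp continuous_neg
    exact h1.inner (Y.continuous.comp h2)
  have hb : ∀ t, ‖⟪v, U t (Y (U (-t) w))⟫_ℂ‖ ≤ ‖v‖ * (‖Y‖ * ‖w‖) := by
    intro t
    refine (norm_inner_le_norm _ _).trans ?_
    rw [hU.norm]
    gcongr
    refine (Y.le_opNorm _).trans ?_
    rw [hU.norm]
  refine (hf.norm.mul_const (‖v‖ * (‖Y‖ * ‖w‖))).mono'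
    (hf.1.mul hc.aestronglyMeasurable) (Eventually.of_forall fun t => ?_)
  rw [norm_mul]
  exact mul_le_mul_of_nonneg_left (hb t) (norm_nonneg _)

lemma smear_sub (hU : UG U) {f g : ℝ → ℂ} (hf : Integrable f) (hg : Integrable g)
    (Y : K →L[ℂ] K) : smear U (fun t => f t - g t) Y = smear U f Y - smear U g Y := by
  ext w
  refine ext_inner_left ℂ fun v => ?_
  have hfg : Integrable fun t => f t - g t := hf.sub hg
  rw [ContinuousLinearMap.sub_apply, inner_sub_right, smear_spec hU hfg, smear_spec hU hf,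
    smear_spec hU hg, ← integral_sub (int_mat hU hf Y v w) (int_mat hU hg Y v w)]
  refine integral_congr_ae (Eventually.of_forall fun t => ?_)
  simp only [sub_mul]

lemma smear_smul (hU : UG U) {f : ℝ → ℂ} (hf : Integrable f) (c : ℂ)
    (Y : K →L[ℂ] K) : smear U (fun t => c * f t) Y = c • smear U f Y := by
  ext w
  refine ext_inner_left ℂ fun v => ?_
  rw [ContinuousLinearMap.smul_apply, inner_smul_right, smear_spec hU (hf.const_mul c),
    smear_spec hU hf, ← integral_const_mul]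
  refine integral_congr_ae (Eventually.of_forall fun t => ?_)
  simp only [mul_assoc]

lemma smear_est (hU : UG U) {m : ℝ} (hm : 0 < m) (Y : K →L[ℂ] K) (z h : ℂ) (hh : ‖h‖ ≤ 1) :
    ‖smear U (gau m (z + h)) Y - smear U (gau m z) Y - h • smear U (dgau m z) Y‖
      ≤ ((cst m z.im * ∫ t : ℝ, Real.exp (-(m / 2) * (t - z.re) ^ 2)) * ‖Y‖) * ‖h‖ ^ 2 := by
  have i1 := gau_int hm (z + h)
  have i2 := gau_int hm z
  have i3 : Integrable fun t => h * dgau m z t := (int_dgau hm z).const_mul h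
  have i4 : Integrable fun t => gau m (z + h) t - gau m z t := i1.sub i2
  have e : smear U (gau m (z + h)) Y - smear U (gau m z) Y - h • smear U (dgau m z) Y
      = smear U (fun t => gau m (z + h) t - gau m z t - h * dgau m z t) Y := by
    rw [smear_sub hU i4 i3 Y, smear_smul hU (int_dgau hm z) h Y, smear_sub hU i1 i2 Y]
  rw [e]
  refine (smear_norm hU ((i1.sub i2).sub i3) Y).trans ?_
  have hI : ∫ t : ℝ, ‖gau m (z + h) t - gau m z t - h * dgau m z t‖
      ≤ ∫ t : ℝ, ‖h‖ ^ 2 * (cst m z.im * Real.exp (-(m / 2) * (t - z.re) ^ 2)) := by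
    refine integral_mono ((i1.sub i2).sub i3).norm
      (((int_gauss (half_pos hm) z.re).const_mul _).const_mul _) fun t => ?_
    exact taylor hm z h hh t
  rw [integral_const_mul, integral_const_mul] at hI
  calc (∫ t : ℝ, ‖gau m (z + h) t - gau m z t - h * dgau m z t‖) * ‖Y‖
      ≤ (‖h‖ ^ 2 * (cst m z.im * ∫ t : ℝ, Real.exp (-(m / 2) * (t - z.re) ^ 2))) * ‖Y‖ :=
        mul_le_mul_of_nonneg_right hI (norm_nonneg _)
    _ = _ := by ring

end SmB

/-- the smeared operators depend analytically on `z` -/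
theorem smear_diff (hU : UG U) {m : ℝ} (hm : 0 < m) (Y : K →L[ℂ] K) :
    Differentiable ℂ (fun z : ℂ => smear U (gau m z) Y) := by
  intro z
  have hd : HasDerivAt (fun z : ℂ => smear U (gau m z) Y) (smear U (dgau m z) Y) z := by
    rw [hasDerivAt_iff_isLittleO]
    refine Asymptotics.IsBigO.trans_isLittleO ?_
      (Asymptotics.isLittleO_pow_sub_sub z (m := 2) (by norm_num))
    refine Asymptotics.IsBigO.of_bound
      ((cst m z.im * ∫ t : ℝ, Real.exp (-(m / 2) * (t - z.re) ^ 2)) * ‖Y‖) ?_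
    filter_upwards [Metric.ball_mem_nhds z one_pos] with x hx
    have hx' : ‖x - z‖ ≤ 1 := by
      rw [← dist_eq_norm]
      exact (Metric.mem_ball.mp hx).le
    have := smear_est hU hm Y z (x - z) hx'
    rw [add_sub_cancel] at this
    simpa using this
  exact hd.differentiableAt

end Pool.Agent.Helper23.ED
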