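import Pool.Agent.Helper23.ED.SmB
import Pool.Agent.Helper43.TTF.G

/-!
# Project ED: the Fourier transform of the Gaussian
-/

open scoped InnerProductSpace Topology ENNReal BoundedContinuousFunction
open ContinuousLinearMap Filter MeasureTheory

namespace Pool.Agent.Helper23.ED

open Pool.Agent.Helper23 Pool.Agent.Helper23.RBF
open Pool.Agent.Helper78.BC.Transport (Sub r)

universe u

open Pool.Agent.Helper43.TTF (FT)

variable {K : Type*} [NormedAddCommGroup K] [InnerProductSpace ℂ K] [CompleteSpace K]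
variable {A : VonNeumannAlgebra K} {κ : K} {R : K →L[ℂ] K} {D : K →L[ℝ] K}
  {Ψ : (ℝ →ᵇ ℂ) →⋆ₐ[ℂ] (K →L[ℂ] K)}

/-- the Fourier transform of the Gaussian -/
noncomputable def GZ (m : ℝ) (hm : 0 < m) (z : ℂ) : ℝ →ᵇ ℂ :=
  BoundedContinuousFunction.ofNormedAddCommGroup
    (fun ρ : ℝ => ((Real.sqrt (Real.pi / m) : ℝ) : ℂ) *
      Complex.exp (Complex.I * z * ρ - (ρ : ℂ) ^ 2 / (4 * m))) (by fun_prop)
    (Real.sqrt (Real.pi / m) * Real.exp (m * z.im ^ 2)) (by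
      intro ρ
      rw [norm_mul, Complex.norm_real, Real.norm_of_nonneg (Real.sqrt_nonneg _),
        Complex.norm_exp]
      refine mul_le_mul_of_nonneg_left (Real.exp_le_exp.2 ?_) (Real.sqrt_nonneg _)
      have h1 : (Complex.I * z * ρ - (ρ : ℂ) ^ 2 / (4 * m)).re = -(z.im * ρ) - ρ ^ 2 / (4 * m) := by
        have h2 : (ρ : ℂ) ^ 2 / (4 * m) = ((ρ ^ 2 / (4 * m) : ℝ) : ℂ) := by push_cast; ring
        rw [h2, Complex.sub_re, Complex.ofReal_re]
        simp [Complex.mul_re]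
      rw [h1]
      have h3 : m * z.im ^ 2 - (-(z.im * ρ) - ρ ^ 2 / (4 * m)) =
          (2 * m * z.im + ρ) ^ 2 / (4 * m) := by
        field_simp
        ring
      have h4 : 0 ≤ (2 * m * z.im + ρ) ^ 2 / (4 * m) := by positivity
      linarith)

theorem gau_fourier {m : ℝ} (hm : 0 < m) (z : ℂ) (ρ : ℝ) :
    ∫ t, gau m z t * expB t ρ = GZ m hm z ρ := by
  have hm' : (m : ℂ) ≠ 0 := by exact_mod_cast hm.ne'
  have h1 : ∀ t : ℝ, gau m z t * expB t ρ =
      Complex.exp (-(m : ℂ) * (t : ℂ) ^ 2 + (2 * m * z + ρ * Complex.I) * (t : ℂ) +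
        -(m : ℂ) * z ^ 2) := by
    intro t
    rw [expB_apply, gau, ← Complex.exp_add]
    congr 1
    push_cast
    ring
  have h2 : (-(m : ℂ)).re < 0 := by
    rw [Complex.neg_re, Complex.ofReal_re]
    linarith
  have h3 : ((Real.pi : ℂ) / -(-(m : ℂ))) ^ (1 / 2 : ℂ) =
      ((Real.sqrt (Real.pi / m) : ℝ) : ℂ) := by
    rw [neg_neg, Real.sqrt_eq_rpow, Complex.ofReal_cpow (div_nonneg Real.pi_pos.le hm.le)]
    push_cast
    rfl
  have h4 : (-(m : ℂ) * z ^ 2 - (2 * m * z + ρ * Complex.I) ^ 2 / (4 * -(m : ℂ))) =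
      Complex.I * z * ρ - (ρ : ℂ) ^ 2 / (4 * m) := by
    field_simp
    ring_nf
    rw [Complex.I_sq]
    ring
  calc ∫ t, gau m z t * expB t ρ = ∫ t : ℝ,
      Complex.exp (-(m : ℂ) * (t : ℂ) ^ 2 + (2 * m * z + ρ * Complex.I) * (t : ℂ) +
        -(m : ℂ) * z ^ 2) := integral_congr_ae (Eventually.of_forall h1)
    _ = _ := by
      rw [integral_cexp_quadratic h2, h3, h4]
      rfl

theorem GZ_shift {m : ℝ} (hm : 0 < m) (z : ℂ) :
    (2 - FR) * GZ m hm z = FT * GZ m hm (z - Complex.I / 2) := by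
  ext ρ
  have e2 : (2 : ℝ →ᵇ ℂ) ρ = 2 := rfl
  have e3 : ∀ w : ℂ, GZ m hm w ρ = ((Real.sqrt (Real.pi / m) : ℝ) : ℂ) *
      Complex.exp (Complex.I * w * ρ - (ρ : ℂ) ^ 2 / (4 * m)) := fun _ => rfl
  rw [BoundedContinuousFunction.mul_apply, BoundedContinuousFunction.mul_apply,
    BoundedContinuousFunction.sub_apply, Pool.Agent.Helper43.TTF.FR_apply,
    Pool.Agent.Helper43.TTF.FT_apply, e2, e3, e3]
  have h1 : Complex.exp (Complex.I * (z - Complex.I / 2) * ρ - (ρ : ℂ) ^ 2 / (4 * m)) =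
      Complex.exp (Complex.I * z * ρ - (ρ : ℂ) ^ 2 / (4 * m)) *
        ((Real.exp (ρ / 2) : ℝ) : ℂ) := by
    rw [Complex.ofReal_exp, ← Complex.exp_add]
    congr 1
    push_cast
    ring_nf
    rw [Complex.I_sq]
    ring
  have h2 : 2 - 2 / (1 + Real.exp ρ) = (Real.cosh (ρ / 2))⁻¹ * Real.exp (ρ / 2) := by
    rw [Pool.Agent.Helper43.TTF.cosh_half]
    have h1 : Real.exp ρ = Real.exp (ρ / 2) * Real.exp (ρ / 2) := by
      rw [← Real.exp_add]; ring_nf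
    have h2 : (0 : ℝ) < Real.exp (ρ / 2) := Real.exp_pos _
    have h4 : (0 : ℝ) < 1 + Real.exp ρ := by positivity
    rw [h1] at h4 ⊢
    field_simp
    ring
  have h3 : (2 : ℂ) - ((2 / (1 + Real.exp ρ) : ℝ) : ℂ) =
      (((Real.cosh (ρ / 2))⁻¹ : ℝ) : ℂ) * ((Real.exp (ρ / 2) : ℝ) : ℂ) := by
    rw [← Complex.ofReal_mul, ← h2]
    push_cast
    ring
  rw [h1, h3]
  ring

end Pool.Agent.Helper23.ED
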