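import Pool.Agent.Helper23.ED.DefsW

/-!
# Project ED: first properties of weights and of their domain
-/

open scoped InnerProductSpace Topology ENNReal BoundedContinuousFunction
open ContinuousLinearMap Filter MeasureTheory

namespace Pool.Agent.Helper23.ED

open Pool.Agent.Helper23 Pool.Agent.Helper23.RBF
open Pool.Agent.Helper78.BC.Transport (Sub r)

universe u

variable {H : Type u} [NormedAddCommGroup H] [InnerProductSpace ℂ H] [CompleteSpace H]
variable {N : VonNeumannAlgebra H} {ψ : (H →L[ℂ] H) → ℝ≥0∞}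

theorem wt_mono (hψ : IsNSFWeight N ψ) {x y : H →L[ℂ] H} (hx : x ∈ N) (hy : y ∈ N)
    (h0 : 0 ≤ x) (h : x ≤ y) : ψ x ≤ ψ y := by
  have h1 := hψ.add x hx (y - x) (sub_mem hy hx) h0 (sub_nonneg.2 h)
  rw [add_sub_cancel] at h1
  rw [h1]
  exact le_self_add

theorem wt_zero (hψ : IsNSFWeight N ψ) : ψ 0 = 0 := by
  have h := hψ.smul 0 (zero_mem N) le_rfl 0 le_rfl
  rw [smul_zero, ENNReal.ofReal_zero, zero_mul] at h
  exact h

private theorem WtA_mem {a : H →L[ℂ] H} (ha : a ∈ N) : a * star a ∈ N :=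
  mul_mem ha (star_mem ha)

private theorem WtA_nonneg (a : H →L[ℂ] H) : 0 ≤ a * star a := mul_star_self_nonneg a

theorem Dm_add (hψ : IsNSFWeight N ψ) {a b : H →L[ℂ] H} (ha : a ∈ Dm N ψ) (hb : b ∈ Dm N ψ) :
    a + b ∈ Dm N ψ := by
  refine ⟨add_mem ha.1 hb.1, ?_⟩
  have hA := WtA_mem ha.1
  have hB := WtA_mem hb.1
  have hA0 := WtA_nonneg a
  have hB0 := WtA_nonneg b
  have hle : (a + b) * star (a + b) ≤
      (a * star a + a * star a) + (b * star b + b * star b) := by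
    rw [← sub_nonneg]
    have e : (a * star a + a * star a) + (b * star b + b * star b) - (a + b) * star (a + b) =
        (a - b) * star (a - b) := by
      rw [star_add, star_sub]
      noncomm_ring
    rw [e]
    exact WtA_nonneg _
  have h1 := wt_mono hψ (WtA_mem (add_mem ha.1 hb.1))
    (add_mem (add_mem hA hA) (add_mem hB hB)) (WtA_nonneg _) hle
  refine ne_top_of_le_ne_top ?_ h1
  rw [hψ.add _ (add_mem hA hA) _ (add_mem hB hB) (add_nonneg hA0 hA0) (add_nonneg hB0 hB0),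
    hψ.add _ hA _ hA hA0 hA0, hψ.add _ hB _ hB hB0 hB0]
  exact ENNReal.add_ne_top.2 ⟨ENNReal.add_ne_top.2 ⟨ha.2, ha.2⟩,
    ENNReal.add_ne_top.2 ⟨hb.2, hb.2⟩⟩

theorem Dm_smul (hψ : IsNSFWeight N ψ) (c : ℂ) {a : H →L[ℂ] H} (ha : a ∈ Dm N ψ) :
    c • a ∈ Dm N ψ := by
  refine ⟨N.toStarSubalgebra.smul_mem ha.1 c, ?_⟩
  have e : (c • a) * star (c • a) = ((‖c‖ ^ 2 : ℝ) : ℂ) • (a * star a) := by
    rw [star_smul, smul_mul_smul_comm]
    congr 1
    rw [Complex.star_def, Complex.mul_conj, Complex.normSq_eq_norm_sq]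
  rw [e, hψ.smul _ (WtA_mem ha.1) (WtA_nonneg a) _ (by positivity)]
  exact ENNReal.mul_ne_top ENNReal.ofReal_ne_top ha.2

theorem Dm_mul (hψ : IsNSFWeight N ψ) {a p : H →L[ℂ] H} (ha : a ∈ Dm N ψ) (hp : p ∈ N) :
    a * p ∈ Dm N ψ := by
  refine ⟨mul_mem ha.1 hp, ?_⟩
  have hle : (a * p) * star (a * p) ≤ ((‖p * star p‖ : ℝ) : ℂ) • (a * star a) := by
    have h := CStarAlgebra.star_right_conjugate_le_norm_smul (a := a) (b := p * star p)
      (IsSelfAdjoint.mul_star_self p)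
    have e1 : (a * p) * star (a * p) = a * (p * star p) * star a := by
      rw [star_mul]
      noncomm_ring
    rw [e1]
    refine h.trans (le_of_eq ?_)
    exact (Complex.coe_smul _ _).symm
  have hmem : ((‖p * star p‖ : ℝ) : ℂ) • (a * star a) ∈ N :=
    N.toStarSubalgebra.smul_mem (WtA_mem ha.1) _
  have h1 := wt_mono hψ (WtA_mem (mul_mem ha.1 hp)) hmem (WtA_nonneg _) hle
  refine ne_top_of_le_ne_top ?_ h1
  rw [hψ.smul _ (WtA_mem ha.1) (WtA_nonneg a) _ (norm_nonneg _)]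
  exact ENNReal.mul_ne_top ENNReal.ofReal_ne_top ha.2

end Pool.Agent.Helper23.ED
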