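import Pool.Agent.Helper23.ED.FdB
import Pool.Agent.Helper23.ED.WtA

/-!
# Project ED: the main inequality for normal weights
-/

open scoped InnerProductSpace Topology ENNReal BoundedContinuousFunction
open ContinuousLinearMap Filter MeasureTheory

namespace Pool.Agent.Helper23.ED

open Pool.Agent.Helper23 Pool.Agent.Helper23.RBF
open Pool.Agent.Helper78.BC.Transport (Sub r)

universe u

variable {H : Type u} [NormedAddCommGroup H] [InnerProductSpace ℂ H] [CompleteSpace H]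
variable {N : VonNeumannAlgebra H} {ψ : (H →L[ℂ] H) → ℝ≥0∞}

namespace WtC

lemma selfAdj {x : H →L[ℂ] H} (hx : 0 ≤ x) : IsSelfAdjoint x :=
  ((nonneg_iff_isPositive x).1 hx).isSelfAdjoint

lemma re_nonneg {x : H →L[ℂ] H} (hx : 0 ≤ x) (v : H) : 0 ≤ (⟪v, x v⟫_ℂ).re :=
  ((nonneg_iff_isPositive x).1 hx).re_inner_nonneg_right v

lemma le_of_re {x y : H →L[ℂ] H} (hx : 0 ≤ x) (hy : 0 ≤ y)
    (h : ∀ v, (⟪v, x v⟫_ℂ).re ≤ (⟪v, y v⟫_ℂ).re) : x ≤ y := by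
  rw [ContinuousLinearMap.le_def, isPositive_def']
  refine ⟨(selfAdj hy).sub (selfAdj hx), fun v => ?_⟩
  have h1 : ((y - x).reApplyInnerSelf v) = (⟪v, (y - x) v⟫_ℂ).re := by
    rw [reApplyInnerSelf_apply]
    exact inner_re_symm (𝕜 := ℂ) _ _
  rw [h1, sub_apply, inner_sub_right, Complex.sub_re]
  linarith [h v]

lemma re_le_of_le {x y : H →L[ℂ] H} (h : x ≤ y) (v : H) :
    (⟪v, x v⟫_ℂ).re ≤ (⟪v, y v⟫_ℂ).re := by
  rw [ContinuousLinearMap.le_def] at h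
  have h1 : 0 ≤ (⟪v, (y - x) v⟫_ℂ).re := h.re_inner_nonneg_right v
  rw [sub_apply, inner_sub_right, Complex.sub_re] at h1
  linarith

lemma star_mul_nonneg (y : H →L[ℂ] H) : 0 ≤ star y * y := star_mul_self_nonneg y

lemma inner_star_mul (y : H →L[ℂ] H) (u : H) : (⟪u, (star y * y) u⟫_ℂ).re = ‖y u‖ ^ 2 := by
  change (⟪u, (star y) (y u)⟫_ℂ).re = _
  rw [inner_star_right, inner_self_eq_norm_sq_to_K]
  norm_cast

/-- normality for increasing sequences -/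
lemma psi_sup (hψ : IsNSFWeight N ψ) {g : ℕ → H →L[ℂ] H} {B : H →L[ℂ] H} (hg : ∀ n, g n ∈ N)
    (hg0 : ∀ n, 0 ≤ g n) (hm : Monotone g) (hB : B ∈ N)
    (hl : ∀ v, IsLUB (Set.range fun n => (⟪v, g n v⟫_ℂ).re) (⟪v, B v⟫_ℂ).re) :
    ψ B = ⨆ n, ψ (g n) := by
  have h1 := hψ.normal (Set.range g) B ⟨g 0, 0, rfl⟩ hm.directed_le.directedOn_range
    (by rintro _ ⟨n, rfl⟩; exact ⟨hg n, hg0 n⟩) hB (fun η => by
      have h2 : {r : ℝ | ∃ d ∈ Set.range g, r = (⟪η, d η⟫_ℂ).re} =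
          Set.range fun n => (⟪η, g n η⟫_ℂ).re := by
        ext t
        constructor
        · rintro ⟨_, ⟨n, rfl⟩, rfl⟩
          exact ⟨n, rfl⟩
        · rintro ⟨n, rfl⟩
          exact ⟨_, ⟨n, rfl⟩, rfl⟩
      rw [h2]
      exact hl η)
  rw [h1, iSup_range]

end WtC

open WtC

/-- the regularized supremum of an increasing sequence with bounded weights -/
theorem exists_reg (hψ : IsNSFWeight N ψ) {w : ℕ → H →L[ℂ] H} (hN : ∀ n, w n ∈ N)
    (hw : ∀ n, 0 ≤ w n) (hm : Monotone w) {δ : ℝ} (hδ : 0 < δ) :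
    ∃ B ∈ N, 0 ≤ B ∧ ψ B ≤ ⨆ n, ψ (w n) ∧
      ∀ v, IsLUB (Set.range fun n => (⟪v, fd δ (w n) v⟫_ℂ).re) (⟪v, B v⟫_ℂ).re := by
  have hmono : Monotone fun n => fd δ (w n) := fun m n hmn => fd_mono (hw m) (hm hmn) hδ
  obtain ⟨B, hB, hB0, hl⟩ := exists_sup (N := N) (w := fun n => fd δ (w n))
    (fun n => fd_mem (hN n) (hw n) hδ) (fun n => fd_nonneg (hw n) hδ) hmono (C := δ⁻¹)
    (fun n v => by
      have h1 := fd_var (hw n) hδ v 0
      simpa using h1)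
  refine ⟨B, hB, hB0, ?_, hl⟩
  rw [psi_sup hψ (fun n => fd_mem (hN n) (hw n) hδ) (fun n => fd_nonneg (hw n) hδ) hmono hB hl]
  exact iSup_mono fun n => wt_mono hψ (fd_mem (hN n) (hw n) hδ) (hN n) (fd_nonneg (hw n) hδ)
    (fd_le (hw n) hδ)

theorem weight_le (hψ : IsNSFWeight N ψ) {w : ℕ → H →L[ℂ] H} (hN : ∀ n, w n ∈ N)
    (hw : ∀ n, 0 ≤ w n) (hm : Monotone w) {y : H →L[ℂ] H} (hy : y ∈ N)
    (h : ∀ v, BddAbove (Set.range fun n => (⟪v, w n v⟫_ℂ).re) →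
      ‖y v‖ ^ 2 ≤ ⨆ n, (⟪v, w n v⟫_ℂ).re) : ψ (star y * y) ≤ ⨆ n, ψ (w n) := by
  have hyN : star y * y ∈ N := mul_mem (star_mem hy) hy
  have hy0 := star_mul_nonneg y
  have key : ∀ δ : ℝ, 0 < δ → ψ (fd δ (star y * y)) ≤ ⨆ n, ψ (w n) := by
    intro δ hδ
    obtain ⟨B, hB, hB0, hψB, hl⟩ := exists_reg hψ hN hw hm hδ
    have hle : fd δ (star y * y) ≤ B := by
      refine le_of_re (fd_nonneg hy0 hδ) hB0 fun v => ?_
      obtain ⟨u, hu, hmin⟩ := fd_min hw hm hδ v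
      have h1 := fd_var hy0 hδ v u
      rw [inner_star_mul] at h1
      have h2 := h u hu
      have h3 : ⨆ n, (⟪v, fd δ (w n) v⟫_ℂ).re = (⟪v, B v⟫_ℂ).re :=
        (hl v).csSup_eq (Set.range_nonempty _)
      linarith
    exact (wt_mono hψ (fd_mem hyN hy0 hδ) hB (fd_nonneg hy0 hδ) hle).trans hψB
  have hpos : ∀ n : ℕ, (0 : ℝ) < 1 / ((n : ℝ) + 1) := fun n => by positivity
  have hmono : Monotone fun n : ℕ => fd (1 / ((n : ℝ) + 1)) (star y * y) := by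
    intro m n hmn
    refine fd_anti hy0 (hpos n) ?_
    have : (m : ℝ) ≤ n := by exact_mod_cast hmn
    exact one_div_le_one_div_of_le (by positivity) (by linarith)
  rw [psi_sup hψ (g := fun n : ℕ => fd (1 / ((n : ℝ) + 1)) (star y * y))
    (fun n => fd_mem hyN hy0 (hpos n)) (fun n => fd_nonneg hy0 (hpos n)) hmono hyN
    (fd_lub hy0)]
  exact iSup_le fun n => key _ (hpos n)

end Pool.Agent.Helper23.ED
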