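import Pool.Agent.Helper23.ED.WtC

/-!
# Project ED: the graph of a normal weight is closed
-/

open scoped InnerProductSpace Topology ENNReal BoundedContinuousFunction
open ContinuousLinearMap Filter MeasureTheory

namespace Pool.Agent.Helper23.ED

open Pool.Agent.Helper23 Pool.Agent.Helper23.RBF
open Pool.Agent.Helper78.BC.Transport (Sub r)

universe u

variable {H : Type u} [NormedAddCommGroup H] [InnerProductSpace ℂ H] [CompleteSpace H]
variable {K : Type u} [NormedAddCommGroup K] [InnerProductSpace ℂ K] [CompleteSpace K]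
variable {L : Type u} [NormedAddCommGroup L] [InnerProductSpace ℂ L] [CompleteSpace L]
variable {N : VonNeumannAlgebra H} {ψ : (H →L[ℂ] H) → ℝ≥0∞} {ξ : H} {i : K →L[ℂ] H} {κ : K}
  {Λ : (H →L[ℂ] H) → L} {ρ : (H →L[ℂ] H) → (L →L[ℂ] L)}

namespace WtD

/-- weighted increments -/
noncomputable def inc (b : ℕ → H →L[ℂ] H) (k j : ℕ) : H →L[ℂ] H :=
  ((((2 : ℝ) ^ (k + j + 1) : ℝ)) : ℂ) •
    ((b (k + j + 1) - b (k + j)) * star (b (k + j + 1) - b (k + j)))

/-- the increasing sequence of the graph argument -/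
noncomputable def wseq (b : ℕ → H →L[ℂ] H) (k n : ℕ) : H →L[ℂ] H :=
  ∑ j ∈ Finset.range n, inc b k j

lemma wseq_succ (b : ℕ → H →L[ℂ] H) (k n : ℕ) : wseq b k (n + 1) = wseq b k n + inc b k n :=
  Finset.sum_range_succ _ _

lemma base_mem {b : ℕ → H →L[ℂ] H} (hb : ∀ j, b j ∈ N) (j : ℕ) :
    (b (j + 1) - b j) * star (b (j + 1) - b j) ∈ N :=
  mul_mem (sub_mem (hb _) (hb _)) (star_mem (sub_mem (hb _) (hb _)))

lemma inc_mem {b : ℕ → H →L[ℂ] H} (hb : ∀ j, b j ∈ N) (k j : ℕ) : inc b k j ∈ N :=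
  smul_mem' _ (base_mem hb (k + j))

lemma inc_nonneg (b : ℕ → H →L[ℂ] H) (k j : ℕ) : 0 ≤ inc b k j := by
  rw [nonneg_iff_isPositive]
  have h1 : (0 : H →L[ℂ] H) ≤ (b (k + j + 1) - b (k + j)) * star (b (k + j + 1) - b (k + j)) :=
    mul_star_self_nonneg _
  rw [nonneg_iff_isPositive] at h1
  refine h1.smul_of_nonneg ?_
  have : (0 : ℝ) ≤ 2 ^ (k + j + 1) := by positivity
  exact_mod_cast this

lemma wseq_mem {b : ℕ → H →L[ℂ] H} (hb : ∀ j, b j ∈ N) (k n : ℕ) : wseq b k n ∈ N :=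
  sum_mem fun j _ => inc_mem hb k j

lemma wseq_nonneg (b : ℕ → H →L[ℂ] H) (k n : ℕ) : 0 ≤ wseq b k n :=
  Finset.sum_nonneg fun j _ => inc_nonneg b k j

lemma wseq_mono (b : ℕ → H →L[ℂ] H) (k : ℕ) : Monotone (wseq b k) := by
  refine monotone_nat_of_le_succ fun n => ?_
  rw [wseq_succ]
  exact le_add_of_nonneg_right (inc_nonneg b k n)

lemma inc_form (b : ℕ → H →L[ℂ] H) (k j : ℕ) (v : H) :
    (⟪v, inc b k j v⟫_ℂ).re = 2 ^ (k + j + 1) * ‖star (b (k + j + 1) - b (k + j)) v‖ ^ 2 := by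
  have h1 : inc b k j v = ((((2 : ℝ) ^ (k + j + 1) : ℝ)) : ℂ) •
      ((b (k + j + 1) - b (k + j)) (star (b (k + j + 1) - b (k + j)) v)) := rfl
  rw [h1, inner_smul_right, ← inner_star_left, Complex.re_ofReal_mul]
  congr 1
  rw [inner_self_eq_norm_sq_to_K]
  norm_cast

lemma wseq_form (b : ℕ → H →L[ℂ] H) (k n : ℕ) (v : H) :
    (⟪v, wseq b k n v⟫_ℂ).re =
      ∑ j ∈ Finset.range n, 2 ^ (k + j + 1) * ‖star (b (k + j + 1) - b (k + j)) v‖ ^ 2 := by
  induction n with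
  | zero => simp [wseq]
  | succ n ih =>
    rw [wseq_succ, Finset.sum_range_succ, ← ih, ← inc_form, add_apply, inner_add_right,
      Complex.add_re]

lemma psi_wseq (hψ : IsNSFWeight N ψ) {b : ℕ → H →L[ℂ] H} (hb : ∀ j, b j ∈ N)
    (hc : ∀ j, ψ ((b (j + 1) - b j) * star (b (j + 1) - b j)) ≤
      ENNReal.ofReal ((1 / 4) ^ (j + 1))) (k n : ℕ) :
    ψ (wseq b k n) ≤ ENNReal.ofReal ((1 / 2) ^ k - (1 / 2) ^ (k + n)) := by
  induction n with
  | zero =>
    have h0 : wseq b k 0 = 0 := by simp [wseq]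
    rw [h0, wt_zero hψ]
    exact zero_le
  | succ n ih =>
    rw [wseq_succ, hψ.add _ (wseq_mem hb k n) _ (inc_mem hb k n) (wseq_nonneg b k n)
      (inc_nonneg b k n)]
    have h1 : ψ (inc b k n) ≤ ENNReal.ofReal ((1 / 2) ^ (k + n + 1)) := by
      rw [inc, hψ.smul _ (base_mem hb (k + n)) (mul_star_self_nonneg _) _ (by positivity)]
      refine (mul_le_mul_right (hc (k + n)) _).trans (le_of_eq ?_)
      rw [← ENNReal.ofReal_mul (by positivity), ← mul_pow]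
      norm_num
    have h2 : ((1 : ℝ) / 2) ^ k - (1 / 2) ^ (k + (n + 1)) =
        ((1 / 2) ^ k - (1 / 2) ^ (k + n)) + (1 / 2) ^ (k + n + 1) := by
      rw [← add_assoc, pow_succ ((1 : ℝ) / 2) (k + n)]
      ring
    have h3 : (0 : ℝ) ≤ (1 / 2) ^ k - (1 / 2) ^ (k + n) := by
      have : ((1 : ℝ) / 2) ^ (k + n) ≤ (1 / 2) ^ k :=
        pow_le_pow_of_le_one (by norm_num) (by norm_num) (by omega)
      linarith
    rw [h2, ENNReal.ofReal_add h3 (by positivity)]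
    exact add_le_add ih h1

lemma tele (b : ℕ → H →L[ℂ] H) (k n : ℕ) (v : H) :
    ‖star (b (k + n) - b k) v‖ ≤
      ∑ j ∈ Finset.range n, ‖star (b (k + j + 1) - b (k + j)) v‖ := by
  induction n with
  | zero => simp
  | succ n ih =>
    rw [Finset.sum_range_succ]
    have h1 : star (b (k + (n + 1)) - b k) v =
        star (b (k + n) - b k) v + star (b (k + n + 1) - b (k + n)) v := by
      rw [← add_apply, ← star_add]
      congr 2
      rw [← add_assoc]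
      abel
    rw [h1]
    exact (norm_add_le _ _).trans (add_le_add ih le_rfl)

lemma cs (b : ℕ → H →L[ℂ] H) (k n : ℕ) (v : H) :
    ‖star (b (k + n) - b k) v‖ ^ 2 ≤ (⟪v, wseq b k n v⟫_ℂ).re := by
  rw [wseq_form]
  set f : ℕ → ℝ := fun j => ‖star (b (k + j + 1) - b (k + j)) v‖ with hf
  set g : ℕ → ℝ := fun j => (1 / 2) ^ (k + j + 1) with hg
  have hg0 : ∀ j, 0 < g j := fun j => by simp only [hg]; positivity
  have h1 := Finset.sq_sum_div_le_sum_sq_div (Finset.range n) f (g := g) (fun j _ => hg0 j)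
  have h2 : ∀ m : ℕ, ∑ j ∈ Finset.range m, g j ≤ (1 / 2) ^ k - (1 / 2) ^ (k + m) := by
    intro m
    induction m with
    | zero => simp
    | succ m ih =>
      rw [Finset.sum_range_succ]
      have h3 : ((1 : ℝ) / 2) ^ (k + (m + 1)) = (1 / 2) ^ (k + m) / 2 := by
        rw [← add_assoc, pow_succ]; ring
      have h4 : g m = (1 / 2) ^ (k + m) / 2 := by
        simp only [hg]; rw [pow_succ]; ring
      rw [h3, h4]
      linarith
  have h5 : ∑ j ∈ Finset.range n, g j ≤ 1 := by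
    have h6 := h2 n
    have h7 : ((1 : ℝ) / 2) ^ k ≤ 1 := pow_le_one₀ (by norm_num) (by norm_num)
    have h8 : (0 : ℝ) ≤ (1 / 2) ^ (k + n) := by positivity
    linarith
  have h6 : ‖star (b (k + n) - b k) v‖ ^ 2 ≤ (∑ j ∈ Finset.range n, f j) ^ 2 :=
    pow_le_pow_left₀ (norm_nonneg _) (tele b k n v) 2
  have h7 : ∑ j ∈ Finset.range n, f j ^ 2 / g j =
      ∑ j ∈ Finset.range n, 2 ^ (k + j + 1) * f j ^ 2 := by
    refine Finset.sum_congr rfl fun j _ => ?_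
    simp only [hg]
    rw [div_pow, one_pow, div_div_eq_mul_div, div_one, mul_comm]
  rw [h7] at h1
  refine h6.trans ?_
  rcases Nat.eq_zero_or_pos n with hn | hn
  · subst hn; simp
  · have hs : 0 < ∑ j ∈ Finset.range n, g j :=
      Finset.sum_pos (fun j _ => hg0 j) ⟨0, Finset.mem_range.2 hn⟩
    rw [div_le_iff₀ hs] at h1
    refine h1.trans ?_
    have h9 : 0 ≤ ∑ j ∈ Finset.range n, 2 ^ (k + j + 1) * f j ^ 2 :=
      Finset.sum_nonneg fun j _ => by positivity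
    exact mul_le_of_le_one_right h9 h5

/-- the bound for the limit -/
lemma lim_bound (hsep : ∀ a ∈ N, a ξ = 0 → a = 0) {b : ℕ → H →L[ℂ] H} (hb : ∀ j, b j ∈ N)
    {a : H →L[ℂ] H} (ha : a ∈ N) (hlim : Tendsto (fun n => b n ξ) atTop (𝓝 (a ξ))) (k : ℕ)
    (v : H) {C : ℝ} (hC : ∀ n, ‖star (b (k + n) - b k) v‖ ^ 2 ≤ C) :
    ‖star (a - b k) v‖ ^ 2 ≤ C := by
  have hC0 : 0 ≤ C := (sq_nonneg _).trans (hC 0)
  have hC' : ∀ n, ‖star (b (k + n) - b k) v‖ ≤ √C := fun n =>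
    Real.le_sqrt_of_sq_le (hC n)
  have hd := dense_of_separating N ξ hsep
  -- the functional is bounded on a dense set
  have h1 : ∀ η ∈ (orb N.commutant ξ : Set H), ‖⟪star (a - b k) v, η⟫_ℂ‖ ≤ √C * ‖η‖ := by
    rintro _ ⟨c, hc, rfl⟩
    have e1 : ∀ x ∈ N, ⟪star (x - b k) v, c ξ⟫_ℂ = ⟪v, c (x ξ)⟫_ℂ - ⟪v, c ((b k) ξ)⟫_ℂ := by
      intro x hx
      rw [inner_star_left, sub_apply, inner_sub_right, commute_apply hx hc,
        commute_apply (hb k) hc]
    have e2 : Tendsto (fun n => ⟪star (b (k + n) - b k) v, c ξ⟫_ℂ) atTop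
        (𝓝 ⟪star (a - b k) v, c ξ⟫_ℂ) := by
      rw [e1 a ha]
      have e3 : (fun n => ⟪star (b (k + n) - b k) v, c ξ⟫_ℂ) =
          fun n => ⟪v, c (b (k + n) ξ)⟫_ℂ - ⟪v, c ((b k) ξ)⟫_ℂ := by
        funext n
        exact e1 _ (hb _)
      rw [e3]
      refine Tendsto.sub_const ?_ _
      have e4 : Tendsto (fun n => b (k + n) ξ) atTop (𝓝 (a ξ)) := by
        have := (tendsto_add_atTop_iff_nat (f := fun n => b n ξ) k).2 hlim
        refine this.congr fun n => ?_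
        rw [add_comm]
      exact tendsto_const_nhds.inner ((c.continuous.tendsto _).comp e4)
    refine le_of_tendsto e2.norm (Eventually.of_forall fun n => ?_)
    refine (norm_inner_le_norm _ _).trans ?_
    exact mul_le_mul_of_nonneg_right (hC' n) (norm_nonneg _)
  have h2 : ∀ η : H, ‖⟪star (a - b k) v, η⟫_ℂ‖ ≤ √C * ‖η‖ := by
    have hcl : IsClosed {η : H | ‖⟪star (a - b k) v, η⟫_ℂ‖ ≤ √C * ‖η‖} :=
      isClosed_le (by fun_prop) (by fun_prop)
    intro η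
    exact closure_minimal h1 hcl (hd η)
  have h3 := h2 (star (a - b k) v)
  rw [inner_self_eq_norm_sq_to_K] at h3
  have h4 : ‖((‖star (a - b k) v‖ : ℝ) : ℂ) ^ 2‖ = ‖star (a - b k) v‖ ^ 2 := by
    rw [norm_pow, Complex.norm_real, norm_norm]
  have h5 : ‖star (a - b k) v‖ ^ 2 ≤ √C * ‖star (a - b k) v‖ := by
    rw [← h4]
    exact h3
  have h6 : ‖star (a - b k) v‖ ≤ √C := by
    by_contra hcon
    push Not at hcon
    have : 0 < ‖star (a - b k) v‖ := (Real.sqrt_nonneg C).trans_lt hcon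
    nlinarith
  calc ‖star (a - b k) v‖ ^ 2 ≤ √C ^ 2 := pow_le_pow_left₀ (norm_nonneg _) h6 2
    _ = C := Real.sq_sqrt hC0

/-- the main step: a fast sequence in the domain -/
lemma main (hsep : ∀ a ∈ N, a ξ = 0 → a = 0) (hψ : IsNSFWeight N ψ) {b : ℕ → H →L[ℂ] H}
    (hb : ∀ j, b j ∈ N)
    (hc : ∀ j, ψ ((b (j + 1) - b j) * star (b (j + 1) - b j)) ≤
      ENNReal.ofReal ((1 / 4) ^ (j + 1)))
    {a : H →L[ℂ] H} (ha : a ∈ N) (hlim : Tendsto (fun n => b n ξ) atTop (𝓝 (a ξ))) (k : ℕ) :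
    ψ ((a - b k) * star (a - b k)) ≤ ENNReal.ofReal ((1 / 2) ^ k) := by
  have h1 := weight_le hψ (w := wseq b k) (wseq_mem hb k) (wseq_nonneg b k) (wseq_mono b k)
    (y := star (a - b k)) (star_mem (sub_mem ha (hb k))) (by
      intro v hv
      refine lim_bound hsep hb ha hlim k v fun n => ?_
      exact (cs b k n v).trans (le_ciSup hv n))
  rw [star_star] at h1
  refine h1.trans (iSup_le fun n => (psi_wseq hψ hb hc k n).trans ?_)
  refine ENNReal.ofReal_le_ofReal ?_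
  have : (0 : ℝ) ≤ (1 / 2) ^ (k + n) := by positivity
  linarith

end WtD

theorem Gp_snd (Sb : Sub N ξ i κ) (hsep : ∀ a ∈ N, a ξ = 0 → a = 0) (hψ : IsNSFWeight N ψ)
    (hG : Gns N ψ Λ ρ) {p : K × L} (hp : p ∈ closure (Gp N ψ ξ i Λ)) {a : H →L[ℂ] H}
    (ha : a ∈ N) (h1 : i p.1 = a ξ) : a ∈ Dm N ψ ∧ p.2 = Λ a := by
  have _ := Sb
  -- a fast sequence
  have hex : ∀ j : ℕ, ∃ q ∈ Gp N ψ ξ i Λ, dist p q < (1 / 2) ^ (j + 2) := fun j =>
    Metric.mem_closure_iff.1 hp _ (by positivity)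
  choose q hq hqd using hex
  choose b hbD hb1 hb2 using hq
  have hbN : ∀ j, b j ∈ N := fun j => (hbD j).1
  -- differences are in the domain
  have hneg : ∀ j, (-1 : ℂ) • b j ∈ Dm N ψ := fun j => Dm_smul hψ (-1) (hbD j)
  have hdiff : ∀ x ∈ Dm N ψ, ∀ y ∈ Dm N ψ, x - y ∈ Dm N ψ ∧ Λ (x - y) = Λ x - Λ y := by
    intro x hx y hy
    have hy' := Dm_smul hψ (-1) hy
    have e : x - y = x + (-1 : ℂ) • y := by rw [neg_one_smul, sub_eq_add_neg]
    refine ⟨by rw [e]; exact Dm_add hψ hx hy', ?_⟩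
    rw [e, hG.add x hx _ hy', hG.smul (-1) y hy, neg_one_smul, sub_eq_add_neg]
  have hpsi : ∀ x ∈ Dm N ψ, ∀ C : ℝ, ‖Λ x‖ ^ 2 ≤ C → ψ (x * star x) ≤ ENNReal.ofReal C := by
    intro x hx C hC
    rw [hG.norm x hx] at hC
    rw [← ENNReal.ofReal_toReal hx.2]
    exact ENNReal.ofReal_le_ofReal hC
  have hLd : ∀ j, ‖p.2 - Λ (b j)‖ ≤ (1 / 2) ^ (j + 2) := by
    intro j
    rw [← hb2 j, ← dist_eq_norm]
    exact (le_max_right (dist p.1 (q j).1) (dist p.2 (q j).2)).trans (hqd j).le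
  have hKd : ∀ j, ‖p.1 - (q j).1‖ ≤ (1 / 2) ^ (j + 2) := by
    intro j
    rw [← dist_eq_norm]
    exact (le_max_left (dist p.1 (q j).1) (dist p.2 (q j).2)).trans (hqd j).le
  have hc : ∀ j, ψ ((b (j + 1) - b j) * star (b (j + 1) - b j)) ≤
      ENNReal.ofReal ((1 / 4) ^ (j + 1)) := by
    intro j
    obtain ⟨hd1, hd2⟩ := hdiff _ (hbD (j + 1)) _ (hbD j)
    refine hpsi _ hd1 _ ?_
    rw [hd2]
    have e1 : ‖Λ (b (j + 1)) - Λ (b j)‖ ≤ (1 / 2) ^ (j + 1) := by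
      have e2 : Λ (b (j + 1)) - Λ (b j) = (p.2 - Λ (b j)) - (p.2 - Λ (b (j + 1))) := by abel
      rw [e2]
      refine (norm_sub_le _ _).trans ?_
      have e3 := hLd j
      have e4 := hLd (j + 1)
      have e5 : ((1 : ℝ) / 2) ^ (j + 1 + 2) ≤ (1 / 2) ^ (j + 2) :=
        pow_le_pow_of_le_one (by norm_num) (by norm_num) (by omega)
      have e6 : ((1 : ℝ) / 2) ^ (j + 2) = (1 / 2) ^ (j + 1) / 2 := by
        rw [pow_succ _ (j + 1)]; ring
      linarith
    calc ‖Λ (b (j + 1)) - Λ (b j)‖ ^ 2 ≤ ((1 / 2) ^ (j + 1)) ^ 2 :=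
          pow_le_pow_left₀ (norm_nonneg _) e1 2
      _ = (1 / 4) ^ (j + 1) := by
          rw [← pow_mul, mul_comm, pow_mul]; norm_num
  have hpow : Tendsto (fun j : ℕ => ((1 : ℝ) / 2) ^ (j + 2)) atTop (𝓝 0) := by
    have := tendsto_pow_atTop_nhds_zero_of_lt_one (r := (1 : ℝ) / 2) (by norm_num) (by norm_num)
    exact (tendsto_add_atTop_iff_nat 2).2 this
  have hlim : Tendsto (fun n => b n ξ) atTop (𝓝 (a ξ)) := by
    have e1 : Tendsto (fun n => (q n).1) atTop (𝓝 p.1) := by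
      rw [tendsto_iff_norm_sub_tendsto_zero]
      refine squeeze_zero (fun n => norm_nonneg _) (fun n => ?_) hpow
      rw [norm_sub_rev]
      exact hKd n
    have e2 := (i.continuous.tendsto _).comp e1
    rw [h1] at e2
    refine e2.congr fun n => ?_
    exact hb1 n
  have hmain := WtD.main hsep hψ hbN hc ha hlim
  have hDk : ∀ k, a - b k ∈ Dm N ψ := fun k =>
    ⟨sub_mem ha (hbN k), ne_top_of_le_ne_top ENNReal.ofReal_ne_top (hmain k)⟩
  have haD : a ∈ Dm N ψ := by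
    have := Dm_add hψ (hDk 0) (hbD 0)
    rwa [sub_add_cancel] at this
  refine ⟨haD, ?_⟩
  have hn : ∀ k, ‖Λ a - Λ (b k)‖ ^ 2 ≤ (1 / 2) ^ k := by
    intro k
    rw [← (hdiff _ haD _ (hbD k)).2, hG.norm _ (hDk k)]
    exact ENNReal.toReal_le_of_le_ofReal (by positivity) (hmain k)
  have hL1 : Tendsto (fun k => Λ (b k)) atTop (𝓝 (Λ a)) := by
    rw [tendsto_iff_norm_sub_tendsto_zero]
    have e1 : Tendsto (fun k : ℕ => √(((1 : ℝ) / 2) ^ k)) atTop (𝓝 0) := by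
      have := tendsto_pow_atTop_nhds_zero_of_lt_one (r := (1 : ℝ) / 2) (by norm_num)
        (by norm_num)
      have h := (Real.continuous_sqrt.tendsto 0).comp this
      rw [Real.sqrt_zero] at h
      exact h
    refine squeeze_zero (fun n => norm_nonneg _) (fun n => ?_) e1
    rw [norm_sub_rev]
    exact Real.le_sqrt_of_sq_le (hn n)
  have hL2 : Tendsto (fun k => Λ (b k)) atTop (𝓝 p.2) := by
    rw [tendsto_iff_norm_sub_tendsto_zero]
    refine squeeze_zero (fun n => norm_nonneg _) (fun n => ?_) hpow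
    rw [norm_sub_rev]
    exact hLd n
  exact tendsto_nhds_unique hL2 hL1

theorem Gp_zero (Sb : Sub N ξ i κ) (hsep : ∀ a ∈ N, a ξ = 0 → a = 0) (hψ : IsNSFWeight N ψ)
    (hG : Gns N ψ Λ ρ) {w : L} (hw : ((0, w) : K × L) ∈ closure (Gp N ψ ξ i Λ)) : w = 0 := by
  have h := Gp_snd Sb hsep hψ hG hw (a := 0) (zero_mem N) (by simp)
  have h2 := hG.smul 0 0 h.1
  rw [zero_smul, zero_smul] at h2
  rw [← h2]
  exact h.2

end Pool.Agent.Helper23.ED
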