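import Pool.Agent.Helper23.ED.IsA
import Pool.Agent.Helper23.ED.SlC

/-!
# Project ED: the spatial isomorphism with the dual weight
-/

open scoped InnerProductSpace Topology ENNReal BoundedContinuousFunction
open ContinuousLinearMap Filter MeasureTheory

namespace Pool.Agent.Helper23.ED

open Pool.Agent.Helper23 Pool.Agent.Helper23.RBF
open Pool.Agent.Helper78.BC.Transport (Sub r)

universe u

open TopologicalSpace

variable {H : Type*} [NormedAddCommGroup H] [InnerProductSpace ℂ H] [CompleteSpace H]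
variable {N : VonNeumannAlgebra H} {ξ : H} {W : ℝ → H →L[ℂ] H}

namespace WuA

lemma ems_bm (a : ℝ) : BM (ems a) := by
  refine ⟨?_, 1, zero_le_one, fun s => ?_⟩
  · unfold ems ph
    fun_prop
  · unfold ems ph
    rw [Complex.norm_exp_ofReal_mul_I]

lemma ems_conj (a : ℝ) : (fun s => (starRingEnd ℂ) (ems a s)) = ems (-a) := by
  funext s
  unfold ems ph
  rw [← Complex.exp_conj, map_mul, Complex.conj_I, Complex.conj_ofReal]
  congr 1
  push_cast
  ring

lemma UV_star (hW : UG W) (a : ℝ) : star (UV W a) = UV W (-a) := by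
  rw [UV, UV, star_mul, ← lift_star, hW.star, mulOp_star (ems_bm a), ems_conj]
  ext F : 1
  exact mulOp_lift (ems_bm (-a)) (W (-a)) F

/-- a von Neumann algebra from a set of operators: its commutant -/
noncomputable def cvn (S : Set (H →L[ℂ] H)) : VonNeumannAlgebra H where
  toStarSubalgebra := StarSubalgebra.centralizer ℂ S
  centralizer_centralizer' := by simp

lemma mem_cvn {S : Set (H →L[ℂ] H)} {x : H →L[ℂ] H} :
    x ∈ cvn S ↔ ∀ g ∈ S, g * x = x * g ∧ star g * x = x * star g := by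
  have h1 : x ∈ cvn S ↔ x ∈ StarSubalgebra.centralizer ℂ S := Iff.rfl
  rw [h1, StarSubalgebra.mem_centralizer_iff]

lemma mem_cvn_commutant {S : Set (H →L[ℂ] H)} {a : H →L[ℂ] H} (ha : a ∈ S) :
    a ∈ (cvn S).commutant := by
  rw [mem_comm_iff]
  intro g hg
  exact ((mem_cvn.1 hg) a ha).1.symm

lemma norm_le_one {s : H →L[ℂ] H} (h : star s * s = 1) : ‖s‖ ≤ 1 := by
  have h1 : ‖s‖ * ‖s‖ ≤ 1 := by
    rw [← CStarRing.norm_star_mul_self, h]
    exact ContinuousLinearMap.norm_id_le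
  nlinarith [norm_nonneg s]

section sums

variable {s : ℕ → H →L[ℂ] H} {Z : ℕ → L2R H →L[ℂ] L2R H}

noncomputable def term (s : ℕ → H →L[ℂ] H) (Z : ℕ → L2R H →L[ℂ] L2R H) (j : ℕ) :
    L2R H →L[ℂ] L2R H :=
  (((1 / 2 : ℝ) ^ j : ℝ) : ℂ) • (lift (s j) * Z j)

lemma summable_term (h1 : ∀ i, star (s i) * s i = 1) (hZ : ∀ j, ‖Z j‖ ≤ 1) :
    Summable (term s Z) := by
  refine Summable.of_norm_bounded (g := fun j : ℕ => (1 / 2 : ℝ) ^ j)
    (summable_geometric_of_lt_one (by norm_num) (by norm_num)) fun j => ?_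
  unfold term
  rw [norm_smul, Complex.norm_real, Real.norm_of_nonneg (by positivity)]
  have h2 : ‖lift (s j) * Z j‖ ≤ 1 := by
    refine (norm_mul_le _ _).trans ?_
    calc ‖lift (s j)‖ * ‖Z j‖ ≤ 1 * 1 := by
          refine mul_le_mul ((lift_norm _).trans (norm_le_one (h1 j))) (hZ j) (norm_nonneg _)
            zero_le_one
      _ = 1 := one_mul 1
  exact mul_le_of_le_one_right (by positivity) h2

/-- the weighted sum -/
noncomputable def B (s : ℕ → H →L[ℂ] H) (Z : ℕ → L2R H →L[ℂ] L2R H) : L2R H →L[ℂ] L2R H :=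
  ∑' j, term s Z j

lemma star_mul_B (h1 : ∀ i, star (s i) * s i = 1) (h2 : ∀ i j, i ≠ j → star (s i) * s j = 0)
    (hZ : ∀ j, ‖Z j‖ ≤ 1) (k : ℕ) :
    star (lift (s k)) * B s Z = (((1 / 2 : ℝ) ^ k : ℝ) : ℂ) • Z k := by
  have h3 := (summable_term h1 hZ).hasSum.mul_left (star (lift (s k)))
  have h4 : HasSum (fun j => star (lift (s k)) * term s Z j)
      (star (lift (s k)) * term s Z k) := by
    refine hasSum_single k fun j hj => ?_
    unfold term
    rw [mul_smul_comm, ← mul_assoc, ← lift_star, ← lift_mul, h2 k j (Ne.symm hj), lift_zero',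
      zero_mul, smul_zero]
  rw [B, h3.unique h4]
  unfold term
  rw [mul_smul_comm, ← mul_assoc, ← lift_star, ← lift_mul, h1, lift_one, one_mul]

lemma B_comm (h1 : ∀ i, star (s i) * s i = 1) (hZ : ∀ j, ‖Z j‖ ≤ 1)
    {X Y : L2R H →L[ℂ] L2R H} (hXY : ∀ j, Z j * X = Y * Z j)
    (hY : ∀ j, lift (s j) * Y = Y * lift (s j)) : B s Z * X = Y * B s Z := by
  have h3 := (summable_term h1 hZ).hasSum.mul_right X
  have h4 := (summable_term h1 hZ).hasSum.mul_left Y
  have h5 : (fun j => term s Z j * X) = fun j => Y * term s Z j := by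
    funext j
    unfold term
    rw [smul_mul_assoc, mul_assoc, hXY, ← mul_assoc, hY, mul_assoc, mul_smul_comm]
  rw [h5] at h3
  exact h3.unique h4

lemma eq_zero_of_B (h1 : ∀ i, star (s i) * s i = 1) (h2 : ∀ i j, i ≠ j → star (s i) * s j = 0)
    (hZ : ∀ j, ‖Z j‖ ≤ 1) (hZ0 : ∀ F, (∀ j, Z j F = 0) → F = 0) {F : L2R H}
    (hF : B s Z F = 0) : F = 0 := by
  refine hZ0 F fun k => ?_
  have h3 := congrArg (fun T : L2R H →L[ℂ] L2R H => T F) (star_mul_B h1 h2 hZ k)
  change (star (lift (s k))) (B s Z F) = (((1 / 2 : ℝ) ^ k : ℝ) : ℂ) • Z k F at h3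
  rw [hF, map_zero] at h3
  have h4 : (((1 / 2 : ℝ) ^ k : ℝ) : ℂ) ≠ 0 := by
    rw [Complex.ofReal_ne_zero]
    positivity
  exact (smul_eq_zero.1 h3.symm).resolve_left h4

end sums

end WuA

open WuA in
theorem exists_W_UV [SeparableSpace H] (hW : UG W)
    (hd : Dense (orb N.commutant ξ : Set H))
    (hs : ∀ s, ∃ u ∈ N, star u * u = 1 ∧ u * star u = 1 ∧
      ∀ t, u * W t = ph t s • (W t * u))
    {v w : H →L[ℂ] H} (hv : v ∈ N) (hw : w ∈ N) (hvv : star v * v = 1) (hww : star w * w = 1)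
    (hvw : star v * w = 0) (hvW : ∀ t, v * W t = W t * v) (hwW : ∀ t, w * W t = W t * w) :
    ∃ V : H ≃ₗᵢ[ℂ] L2R H, (∀ a ∈ N.commutant, ∀ x, V (a x) = lift a (V x)) ∧
      ∀ t x, V (W t x) = UV W t (V x) := by
  obtain ⟨Z, hZN, hZ1, hZW, hZ0, hZ0'⟩ := exists_fam hW hd hs
  obtain ⟨h3, h4⟩ := pow_isom hvv hww hvw
  set s : ℕ → H →L[ℂ] H := fun n => v ^ n * w with hsdef
  have hsN : ∀ n, s n ∈ N := fun n => mul_mem (pow_mem hv n) hw
  have hsW : ∀ n t, s n * W t = W t * s n := by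
    intro n t
    have h5 : v ^ n * W t = W t * v ^ n := (Commute.pow_left (hvW t) n)
    rw [hsdef]
    change v ^ n * w * W t = W t * (v ^ n * w)
    rw [mul_assoc, hwW, ← mul_assoc, h5, mul_assoc]
  have hstarW : ∀ t, star (W t) = W (-t) := hW.star
  -- the algebra containing the isometries
  set P : VonNeumannAlgebra H := cvn ((N.commutant : Set (H →L[ℂ] H)) ∪ Set.range W) with hP
  have hsP : ∀ n, s n ∈ P := by
    intro n
    rw [hP, mem_cvn]
    rintro g (hg | ⟨t, rfl⟩)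
    · exact ⟨(mem_comm_iff.1 hg _ (hsN n)).symm, (mem_comm_iff.1 (star_mem hg) _ (hsN n)).symm⟩
    · exact ⟨(hsW n t).symm, by rw [hstarW]; exact (hsW n _).symm⟩
  have : Countable Pool.Agent.Helper23.hw := hw_countable
  obtain ⟨n, hn⟩ := exists_injective_nat Pool.Agent.Helper23.hw
  obtain ⟨J, hJ, hJa⟩ := exists_J (N := P) (s := fun i : Pool.Agent.Helper23.hw => s (n i))
    (fun i => hsP _) (fun i => h3 _) (fun i j hij => h4 _ _ (hn.ne hij))
  have hJN : ∀ a ∈ N.commutant, ∀ x, J (lift a x) = a (J x) := fun a ha =>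
    hJa a (mem_cvn_commutant (Or.inl ha))
  have hJW : ∀ t x, J (lift (W t) x) = W t (J x) := fun t =>
    hJa _ (mem_cvn_commutant (Or.inr ⟨t, rfl⟩))
  -- commutation with the lifts
  have hsa : ∀ j, ∀ a ∈ N.commutant, lift (s j) * lift a = lift a * lift (s j) := by
    intro j a ha
    rw [← lift_mul, ← lift_mul, mem_comm_iff.1 ha _ (hsN j)]
  have hsWl : ∀ j t, lift (s j) * lift (W t) = lift (W t) * lift (s j) := by
    intro j t
    rw [← lift_mul, ← lift_mul, hsW]
  have hsUV : ∀ j t, lift (s j) * UV W t = UV W t * lift (s j) := by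
    intro j t
    have h5 : mulOp H (ems t) * lift (s j) = lift (s j) * mulOp H (ems t) := by
      ext F : 1
      exact mulOp_lift (ems_bm t) (s j) F
    rw [UV, ← mul_assoc, hsWl, mul_assoc, ← h5, ← mul_assoc]
  have hZs1 : ∀ j, ‖star (Z j)‖ ≤ 1 := fun j => by
    rw [ContinuousLinearMap.star_eq_adjoint, LinearIsometryEquiv.norm_map]
    exact hZ1 j
  have hZs : ∀ j t, star (Z j) * UV W t = lift (W t) * star (Z j) := by
    intro j t
    have h5 := congrArg star (hZW j (-t))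
    rw [star_mul, star_mul, ← lift_star, hstarW, UV_star hW, neg_neg] at h5
    exact h5.symm
  -- the two intertwiners
  have hB1 : ∀ t, B s Z * lift (W t) = UV W t * B s Z := fun t =>
    B_comm h3 hZ1 (fun j => hZW j t) fun j => hsUV j t
  have hB1a : ∀ a ∈ N.commutant, B s Z * lift a = lift a * B s Z := fun a ha =>
    B_comm h3 hZ1 (fun j => (mem_amp.1 (hZN j) a ha).symm) fun j => hsa j a ha
  have hB2 : ∀ t, B s (fun j => star (Z j)) * UV W t =
      lift (W t) * B s (fun j => star (Z j)) := fun t =>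
    B_comm h3 hZs1 (fun j => hZs j t) fun j => hsWl j t
  have hB2a : ∀ a ∈ N.commutant, B s (fun j => star (Z j)) * lift a =
      lift a * B s (fun j => star (Z j)) := fun a ha =>
    B_comm h3 hZs1 (fun j => (mem_amp.1 (star_mem (hZN j)) a ha).symm) fun j => hsa j a ha
  have hap : ∀ {X Y X' Y' : L2R H →L[ℂ] L2R H}, X * Y = X' * Y' → ∀ F, X (Y F) = X' (Y' F) :=
    fun h F => congrArg (fun T : L2R H →L[ℂ] L2R H => T F) h
  set A1 : H →L[ℂ] L2R H := (B s Z).comp (iot H e0) with hA1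
  set A2 : L2R H →L[ℂ] H := J.comp (B s (fun j => star (Z j))) with hA2
  have hiot : ∀ (a : H →L[ℂ] H) x, iot H e0 (a x) = lift a (iot H e0 x) := by
    intro a x
    rw [iot_apply, iot_apply, lift_ten]
  have hA1a : ∀ a ∈ N.commutant, ∀ x, A1 (a x) = lift a (A1 x) := by
    intro a ha x
    change B s Z (iot H e0 (a x)) = lift a (B s Z (iot H e0 x))
    rw [hiot]
    exact hap (hB1a a ha) _
  have hA1W : ∀ t x, A1 (W t x) = UV W t (A1 x) := by
    intro t x
    change B s Z (iot H e0 (W t x)) = UV W t (B s Z (iot H e0 x))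
    rw [hiot]
    exact hap (hB1 t) _
  have hA2a : ∀ a ∈ N.commutant, ∀ F, A2 (lift a F) = a (A2 F) := by
    intro a ha F
    change J (B s (fun j => star (Z j)) (lift a F)) = a (J (B s (fun j => star (Z j)) F))
    rw [← hJN a ha]
    exact congrArg J (hap (hB2a a ha) F)
  have hA2W : ∀ t F, A2 (UV W t F) = W t (A2 F) := by
    intro t F
    change J (B s (fun j => star (Z j)) (UV W t F)) = W t (J (B s (fun j => star (Z j)) F))
    rw [← hJW t]
    exact congrArg J (hap (hB2 t) F)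
  have hA1i : ∀ x, A1 x = 0 → x = 0 := by
    intro x hx
    have h5 : iot H e0 x = 0 := eq_zero_of_B h3 h4 hZ1 hZ0 hx
    rw [iot_apply, ← norm_eq_zero, norm_ten, e0_norm, one_mul, norm_eq_zero] at h5
    exact h5
  have hA2i : ∀ F, A2 F = 0 → F = 0 := by
    intro F hF
    refine eq_zero_of_B h3 h4 hZs1 hZ0' ?_
    have h5 : J (B s (fun j => star (Z j)) F) = 0 := hF
    have h6 := hJ (B s (fun j => star (Z j)) F) (B s (fun j => star (Z j)) F)
    rw [h5, inner_zero_left] at h6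
    exact inner_self_eq_zero.1 h6.symm
  obtain ⟨I1, hI1, hI1c⟩ := exists_isom_of_inj A1 hA1i
  obtain ⟨I2, hI2, hI2c⟩ := exists_isom_of_inj A2 hA2i
  obtain ⟨V, hV⟩ := csb I1 I2 hI1 hI2
  refine ⟨V, fun a ha => ?_, fun t => ?_⟩
  · have h5 : star (lift a) = lift (star a) := (lift_star a).symm
    have ha' : star a ∈ N.commutant := star_mem ha
    refine hV a (lift a) ?_ ?_ ?_ ?_
    · exact hI1c a (lift a) (hA1a a ha) (by rw [h5]; exact hA1a _ ha')
    · exact hI2c (lift a) a (hA2a a ha) (by rw [h5]; exact hA2a _ ha')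
    · rw [h5]
      exact hI1c _ _ (hA1a _ ha') (by rw [← lift_star, star_star]; exact hA1a a ha)
    · rw [h5]
      exact hI2c _ _ (hA2a _ ha') (by rw [← lift_star, star_star]; exact hA2a a ha)
  · have h5 : star (UV W t) = UV W (-t) := UV_star hW t
    have h6 : star (W t) = W (-t) := hstarW t
    refine hV (W t) (UV W t) ?_ ?_ ?_ ?_
    · exact hI1c _ _ (hA1W t) (by rw [h5, h6]; exact hA1W _)
    · exact hI2c _ _ (hA2W t) (by rw [h5, h6]; exact hA2W _)
    · rw [h5, h6]
      exact hI1c _ _ (hA1W _) (by rw [UV_star hW, hstarW, neg_neg]; exact hA1W t)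
    · rw [h5, h6]
      exact hI2c _ _ (hA2W _) (by rw [UV_star hW, hstarW, neg_neg]; exact hA2W t)

end Pool.Agent.Helper23.ED
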